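import Pool.Agent.H.MP_f5ceca_al.BR.Sev
import Pool.Agent.H.MP_f5ceca_al.N.Lewin
import Pool.Agent.H.MP_f5ceca_al.Conv.IdT

/-!
Definitions for the deep part: `F = K⟨x_1, …, x_n⟩`, `J = ker rho2` the identities of the generic
`2 × 2` matrices, sides, the submodules `Xsp`.
-/

namespace Pool.Agent.H.MP_f5ceca_al.S

open MvPolynomial
open Pool.Agent.H.MP_f5ceca_al.N (FA xx Com Fil Aug)

universe u

/-- A two-sided ideal of the free algebra, given as a subspace. -/
structure IsId {K : Type u} [Field K] {n : ℕ} (I : Submodule K (FA K n)) : Prop where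
  left : ∀ a : FA K n, ∀ z ∈ I, a * z ∈ I
  right : ∀ a : FA K n, ∀ z ∈ I, z * a ∈ I

/-- The two-sided ideal generated by a set. -/
def tsp {K : Type u} [Field K] {n : ℕ} (Y : Set (FA K n)) : Submodule K (FA K n) :=
  Submodule.span K {z | ∃ a y b : FA K n, y ∈ Y ∧ z = a * y * b}

section sides

variable {K : Type u} [Field K] {n : ℕ} {O : Type u} [Ring O] [Algebra K O]

/-- A side: a representation `ρ` of the free algebra, a polynomial ring `Θ` acting by central
elements, finitely many elements `s i` whose `Θ`-span `E` contains the image of `ρ`, and an ideal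
`gg` of `Θ` with `gg E ⊆ ρ(F)`. -/
structure Side (ρ : FA K n →ₐ[K] O) where
  /-- the number of variables of `Θ` -/
  p : ℕ
  /-- the action of `Θ` -/
  th : MvPolynomial (Fin p) K →ₐ[K] O
  comm : ∀ r x, th r * x = x * th r
  /-- the number of the generators of `E` -/
  N : ℕ
  /-- the generators of `E` -/
  s : Fin N → O
  mem : ∀ a, ρ a ∈ Submodule.span K {x | ∃ r i, x = th r * s i}
  /-- the conductor ideal -/
  gg : Ideal (MvPolynomial (Fin p) K)
  cond : ∀ g ∈ gg, ∀ i, ∃ a, ρ a = th g * s i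

variable {ρ : FA K n →ₐ[K] O}

/-- The elements with central value in `gg ^ m`. -/
def Side.D (S : Side ρ) (m : ℕ) : Set (FA K n) := {g | ∃ θ ∈ S.gg ^ m, ρ g = S.th θ}

/-- The span of the elements `g a y b g'` with `y ∈ Y` and with `g`, `g'` central of depth `m`. -/
def Xsp {O' : Type u} [Ring O'] [Algebra K O'] {ρ' : FA K n →ₐ[K] O'} (S : Side ρ) (S' : Side ρ')
    (Y : Set (FA K n)) (m : ℕ) : Submodule K (FA K n) :=
  Submodule.span K {z | ∃ g ∈ S.D m, ∃ g' ∈ S'.D m, ∃ a b : FA K n, ∃ y ∈ Y,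
    z = g * (a * y * b) * g'}

end sides

section reps

variable (K : Type u) [Field K] (n : ℕ)

/-- The abelianization. -/
noncomputable def rho1 : FA K n →ₐ[K] MvPolynomial (Fin n) K := FreeAlgebra.lift K X

/-- The polynomial ring of the entries of the generic matrices. -/
abbrev A2 : Type u := MvPolynomial (Fin n × Fin 2 × Fin 2) K

variable {n} in
/-- The generic `2 × 2` matrices. -/
noncomputable def gm (j : Fin n) : Matrix (Fin 2) (Fin 2) (A2 K n) := fun a b => X (j, a, b)

/-- The generic representation by `2 × 2` matrices. -/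
noncomputable def rho2 : FA K n →ₐ[K] Matrix (Fin 2) (Fin 2) (A2 K n) :=
  FreeAlgebra.lift K (gm K)

/-- The identities of the generic `2 × 2` matrices. -/
noncomputable def Jd : Submodule K (FA K n) := LinearMap.ker (rho2 K n).toLinearMap

/-- The commutator elements with traceless value. -/
noncomputable def HH : Submodule K (FA K n) where
  carrier := {h | h ∈ Com K n ∧ (rho2 K n h).trace = 0}
  zero_mem' := ⟨zero_mem _, by simp⟩
  add_mem' := fun {a b} ha hb => ⟨add_mem ha.1 hb.1, by
    rw [map_add, Matrix.trace_add, ha.2, hb.2, add_zero]⟩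
  smul_mem' := fun c a ha => ⟨Submodule.smul_mem _ c ha.1, by
    rw [map_smul, Matrix.trace_smul, ha.2, smul_zero]⟩

theorem rho1_surjective : Function.Surjective (rho1 K n) := by
  intro g
  induction g using MvPolynomial.induction_on with
  | C c => exact ⟨algebraMap K _ c, by simp⟩
  | add p q hp hq =>
    obtain ⟨a, ha⟩ := hp
    obtain ⟨b, hb⟩ := hq
    exact ⟨a + b, by rw [map_add, ha, hb]⟩
  | mul_X p j hp =>
    obtain ⟨a, ha⟩ := hp
    exact ⟨a * xx K j, by rw [map_mul, ha]; simp [rho1, xx]⟩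

/-- The side of the abelianization. -/
noncomputable def side1 : Side (rho1 K n) where
  p := n
  th := AlgHom.id K _
  comm := fun r x => mul_comm _ _
  N := 1
  s := fun _ => 1
  mem := fun a => Submodule.subset_span ⟨rho1 K n a, 0, by simp⟩
  gg := ⊤
  cond := fun g _ _ => by
    obtain ⟨a, ha⟩ := rho1_surjective K n g
    exact ⟨a, by rw [ha]; simp⟩

/-- Depth of the side of the generic matrices, first form (D1). -/
def Deep1 {K : Type u} [Field K] {n : ℕ} (S : Side (rho2 K n)) : Prop :=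
  ∀ r q' : ℕ, ∃ (q : ℕ) (G : Finset (FA K n)), (∀ g ∈ G, g ∈ Fil K n q' ∧ g ∈ S.D r) ∧
    Fil K n q ≤ ⊤ * Submodule.span K (G : Set (FA K n)) ⊔ Jd K n

/-- Depth, second form (D2). -/
def Deep2 (K : Type u) [Field K] (n : ℕ) : Prop :=
  ∀ N' : ℕ, ∃ q : ℕ, Fil K n q ≤
    tsp {z | ∃ h ∈ HH K n, ∃ b : FA K n, z = ((h * b - b * h) ^ 2 * h ^ 2) ^ N'} ⊔ Jd K n

end reps

/-- `t (t - l) (t - r)` -/
def uu {R : Type*} [CommRing R] (t l r : R) : R := t * (t - l) * (t - r)

/-- The polynomial of the relation E2' (slots `0, …, 3`). -/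
noncomputable def polE (K : Type u) [Field K] (M : ℕ) : MvPolynomial (Fin 4) K :=
  (X 2 - X 1) * X 1 * (uu (X 1) (X 0) (X 3) ^ 2 * uu (X 2) (X 0) (X 3)) ^ M

/-- What is used of the ideal `T` of the identities of the variety. -/
structure Base {K : Type u} [Field K] {n : ℕ} (m M : ℕ) (T : Submodule K (FA K n)) : Prop where
  id : IsId T
  Mpos : 0 < M
  h1 : Jd K n * Fil K n m * Jd K n ≤ T
  h2 : ∀ z ∈ Aug K n, ∀ a ∈ Aug K n, ∀ x ∈ Aug K n, ∀ b ∈ Aug K n,
    BR.sev z ![a, x, b] (polE K M) ∈ T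

end Pool.Agent.H.MP_f5ceca_al.S
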