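import Pool.Agent.H.MP_f5ceca_al.S.M2f

/-!
The side of the generic `2 × 2` matrices.
-/

namespace Pool.Agent.H.MP_f5ceca_al.S

open MvPolynomial
open Pool.Agent.H.MP_f5ceca_al.N (FA xx Com Fil Aug)

universe u

variable (K : Type u) [Field K] [CharZero K] (n : ℕ)

omit [CharZero K] in
theorem M2h_finiteType : Algebra.FiniteType K (ZZ K n) := by
  rw [← Subalgebra.fg_iff_finiteType]
  have h1 : {t : A2 K n | ∃ i : Fin n, t = gtr K (xx K i)} =
      Set.range fun i : Fin n => gtr K (xx K i) := by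
    ext t
    exact ⟨fun ⟨i, hi⟩ => ⟨i, hi.symm⟩, fun ⟨i, hi⟩ => ⟨i, hi.symm⟩⟩
  have h2 : {t : A2 K n | ∃ i j : Fin n, t = gtr K (xx K i * xx K j)} =
      Set.range fun q : Fin n × Fin n => gtr K (xx K q.1 * xx K q.2) := by
    ext t
    exact ⟨fun ⟨i, j, hi⟩ => ⟨(i, j), hi.symm⟩, fun ⟨q, hi⟩ => ⟨q.1, q.2, hi.symm⟩⟩
  have h3 : {t : A2 K n | ∃ i j k : Fin n, t = gtr K (xx K i * xx K j * xx K k)} =
      Set.range fun q : Fin n × Fin n × Fin n => gtr K (xx K q.1 * xx K q.2.1 * xx K q.2.2) := by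
    ext t
    exact ⟨fun ⟨i, j, k, hi⟩ => ⟨(i, j, k), hi.symm⟩, fun ⟨q, hi⟩ => ⟨q.1, q.2.1, q.2.2, hi.symm⟩⟩
  rw [Subalgebra.fg_def]
  refine ⟨_, ?_, rfl⟩
  rw [h1, h2, h3]
  exact ((Set.finite_range _).union (Set.finite_range _)).union (Set.finite_range _)

omit [CharZero K] in
theorem M2h_fg : (E2 K n).FG := by
  have h1 : {t : Matrix (Fin 2) (Fin 2) (A2 K n) | ∃ i : Fin n, t = tl K (gm K i)} =
      Set.range fun i : Fin n => tl K (gm K i) := by
    ext t
    exact ⟨fun ⟨i, hi⟩ => ⟨i, hi.symm⟩, fun ⟨i, hi⟩ => ⟨i, hi.symm⟩⟩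
  have h2 : {t : Matrix (Fin 2) (Fin 2) (A2 K n) | ∃ i j : Fin n, t = cmt (gm K i) (gm K j)} =
      Set.range fun q : Fin n × Fin n => cmt (gm K q.1) (gm K q.2) := by
    ext t
    exact ⟨fun ⟨i, j, hi⟩ => ⟨(i, j), hi.symm⟩, fun ⟨q, hi⟩ => ⟨q.1, q.2, hi.symm⟩⟩
  unfold E2
  rw [h1, h2]
  exact Submodule.fg_span
    (((Set.finite_singleton _).union (Set.finite_range _)).union (Set.finite_range _))

/-- The action of the polynomial ring on the matrices. -/
noncomputable def M2h_th {p : ℕ} (f : MvPolynomial (Fin p) K →ₐ[K] ZZ K n) :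
    MvPolynomial (Fin p) K →ₐ[K] Matrix (Fin 2) (Fin 2) (A2 K n) :=
  (IsScalarTower.toAlgHom K (A2 K n) (Matrix (Fin 2) (Fin 2) (A2 K n))).comp ((ZZ K n).val.comp f)

omit [CharZero K] in
theorem M2h_th_mul {p : ℕ} (f : MvPolynomial (Fin p) K →ₐ[K] ZZ K n) (r : MvPolynomial (Fin p) K)
    (x : Matrix (Fin 2) (Fin 2) (A2 K n)) : M2h_th K n f r * x = (f r) • x := by
  show algebraMap (A2 K n) (Matrix (Fin 2) (Fin 2) (A2 K n)) ((f r : ZZ K n) : A2 K n) * x = _
  rw [← Algebra.smul_def]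
  rfl

omit [CharZero K] in
theorem M2h_mul_th {p : ℕ} (f : MvPolynomial (Fin p) K →ₐ[K] ZZ K n) (r : MvPolynomial (Fin p) K)
    (x : Matrix (Fin 2) (Fin 2) (A2 K n)) : x * M2h_th K n f r = (f r) • x := by
  show x * algebraMap (A2 K n) (Matrix (Fin 2) (Fin 2) (A2 K n)) ((f r : ZZ K n) : A2 K n) = _
  rw [← Algebra.commutes, ← Algebra.smul_def]
  rfl

/-- PROOF. `ZZ` is a finitely generated algebra: `Algebra.FiniteType.iff_quotient_mvPolynomial''` gives `p` and a
surjective `f : MvPolynomial (Fin p) K →ₐ[K] ZZ K n`. `E2` is a finitely generated module (it is spanned by a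
finite set): `Submodule.fg_iff_exists_fin_generating_family` gives `N` and `s : Fin N → _` with
`Submodule.span (ZZ K n) (Set.range s) = E2 K n`. Put
`th = (IsScalarTower.toAlgHom K (A2 K n) (Matrix (Fin 2) (Fin 2) (A2 K n))).comp ((ZZ K n).val.comp f)`, so
`th r * x = (f r) • x` (`Algebra.smul_def`), `comm` by `Algebra.commutes`; `mem` from `rho2_mem_E2`, span induction and
surjectivity of `f` (`z • s i = th r * s i` if `f r = z`); `gg = (cnd K n (Com K n)).comap f` (as ring hom); `cond`: definition of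
`cnd` with `e = s i`. `Deep1`: `deepZ r q'`; for `z ∈ cnd ^ r` there is `θ ∈ gg ^ r` with `f θ = z`:
`cnd ^ r = (gg.map f) ^ r = (gg ^ r).map f` (`Ideal.map_comap_of_surjective`, `Ideal.map_pow`), `Ideal.mem_map_iff_of_surjective`;
`th θ = z • 1`. -/
theorem exists_side2 : ∃ S : Side (rho2 K n), Deep1 S := by
  obtain ⟨p, f, hf⟩ := Algebra.FiniteType.iff_quotient_mvPolynomial''.1 (M2h_finiteType K n)
  obtain ⟨N, s, hs⟩ := Submodule.fg_iff_exists_fin_generating_family.1 (M2h_fg K n)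
  have hsE : ∀ i, s i ∈ E2 K n := fun i => by
    rw [← hs]
    exact Submodule.subset_span ⟨i, rfl⟩
  let S : Side (rho2 K n) :=
    { p := p
      th := M2h_th K n f
      comm := fun r x => by
        rw [M2h_th_mul, M2h_mul_th]
      N := N
      s := s
      mem := fun a => by
        have ha : rho2 K n a ∈ Submodule.span (ZZ K n) (Set.range s) := by
          rw [hs]
          exact rho2_mem_E2 K a
        have key : ∀ e ∈ Submodule.span (ZZ K n) (Set.range s), ∀ r : MvPolynomial (Fin p) K,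
            M2h_th K n f r * e ∈ Submodule.span K {x | ∃ r i, x = M2h_th K n f r * s i} := by
          intro e he
          induction he using Submodule.span_induction with
          | mem x hx =>
            obtain ⟨i, rfl⟩ := hx
            exact fun r => Submodule.subset_span ⟨r, i, rfl⟩
          | zero => intro r; rw [mul_zero]; exact zero_mem _
          | add x y _ _ hx hy => intro r; rw [mul_add]; exact add_mem (hx r) (hy r)
          | smul z x _ hx =>
            intro r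
            obtain ⟨r', hr'⟩ := hf z
            have h1 : M2h_th K n f r * (z • x) = M2h_th K n f (r * r') * x := by
              rw [M2h_th_mul, M2h_th_mul, map_mul, hr', mul_smul]
            rw [h1]
            exact hx _
        have h := key _ ha 1
        rwa [map_one, one_mul] at h
      gg := (cnd K n (Com K n)).comap f.toRingHom
      cond := fun g hg i => by
        obtain ⟨a, _, ha⟩ := (Ideal.mem_comap.1 hg : f g ∈ cnd K n (Com K n)) (s i) (hsE i)
        exact ⟨a, by rw [ha, M2h_th_mul]⟩ }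
  refine ⟨S, fun r q' => ?_⟩
  obtain ⟨q, G, hG, hq⟩ := deepZ K (n := n) r q'
  refine ⟨q, G, fun g hg => ⟨(hG g hg).1, ?_⟩, hq⟩
  obtain ⟨z, hz, hgz⟩ := (hG g hg).2
  have h1 : z ∈ ((cnd K n (Com K n)).comap f.toRingHom ^ r).map f.toRingHom := by
    rw [Ideal.map_pow, Ideal.map_comap_of_surjective f.toRingHom hf]
    exact hz
  obtain ⟨θ, hθ, hθz⟩ := (Ideal.mem_map_iff_of_surjective f.toRingHom hf).1 h1
  refine ⟨θ, hθ, ?_⟩
  have h2 : M2h_th K n f θ = M2h_th K n f θ * 1 := (mul_one _).symm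
  show rho2 K n g = M2h_th K n f θ
  rw [h2, M2h_th_mul, hgz]
  congr 1
  exact hθz.symm

end Pool.Agent.H.MP_f5ceca_al.S
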