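import Pool.Agent.H.MP_f5ceca_al.S.BaseA
import Pool.Agent.H.MP_f5ceca_al.S.M2h

/-!
Finite generation of the ideal of the identities of `2 × 2` matrices modulo products, at large depth.
-/

namespace Pool.Agent.H.MP_f5ceca_al.S

open MvPolynomial
open Pool.Agent.H.MP_f5ceca_al.N (FA xx Com Fil Aug)

universe u

variable (K : Type u) [Field K] (n : ℕ)

theorem Base_ev (z : FA K n) : N.ev K n 0 0 z =
    MvPolynomial.rename (fun j : Fin n => ((0 : Fin (0 + 1)), j)) (rho1 K n z) := by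
  have h3 : (MvPolynomial.rename (fun j : Fin n => ((0 : Fin (0 + 1)), j))).comp (rho1 K n) =
      N.ev K n 0 0 := by
    apply FreeAlgebra.hom_ext
    funext i
    simp only [Function.comp_apply, AlgHom.comp_apply, rho1, N.ev, FreeAlgebra.lift_ι_apply,
      MvPolynomial.rename_X, N.gX]
  rw [← h3, AlgHom.comp_apply]

/-- The specialization of the entries to scalar matrices. -/
noncomputable def Base_phi : A2 K n →ₐ[K] MvPolynomial (Fin n) K :=
  aeval fun q => if q.2.1 = q.2.2 then X q.1 else 0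

theorem Base_phi_rho2 (z : FA K n) : Base_phi K n (rho2 K n z 0 0) = rho1 K n z := by
  have h : (Base_phi K n).mapMatrix.comp (rho2 K n) =
      (IsScalarTower.toAlgHom K (MvPolynomial (Fin n) K)
        (Matrix (Fin 2) (Fin 2) (MvPolynomial (Fin n) K))).comp (rho1 K n) := by
    refine FreeAlgebra.hom_ext (funext fun j => ?_)
    rw [Function.comp_apply, AlgHom.comp_apply, Function.comp_apply, AlgHom.comp_apply]
    have h1 : rho1 K n (FreeAlgebra.ι K j) = X j := by
      unfold rho1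
      rw [FreeAlgebra.lift_ι_apply]
    rw [h1, rho2, FreeAlgebra.lift_ι_apply, AlgHom.mapMatrix_apply]
    ext1 a b
    rw [Matrix.map_apply, gm, Base_phi, aeval_X, IsScalarTower.toAlgHom_apply,
      Matrix.algebraMap_matrix_apply]
    rfl
  have h2 := congrFun (congrFun (DFunLike.congr_fun h z) 0) 0
  rw [AlgHom.comp_apply, AlgHom.comp_apply, AlgHom.mapMatrix_apply, Matrix.map_apply,
    IsScalarTower.toAlgHom_apply, Matrix.algebraMap_matrix_apply, if_pos rfl] at h2
  exact h2

/-- PROOF. `⊇`: commutators go to `0`. `⊆`: `N.mem_Fil_succ K n 0` (Lewin file) with `N.Fil_zero`, `N.Fil_one`: if the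
commutative image is `0` then `sym K n 0 z = 0` (`N.tau_diag`: `sym K n 0 z = C (ev K n 0 0 z)`, and `ev K n 0 0` is `rho1` composed with
`rename (fun j => (0, j))`, as in `N.Tele_c_eq_zero`; `rho1 = N.Tele_c`). -/
theorem ker_rho1 : LinearMap.ker (rho1 K n).toLinearMap = Com K n := by
  apply le_antisymm
  · intro z hz
    have hz' : rho1 K n z = 0 := hz
    rw [← N.Fil_one]
    apply N.mem_Fil_of_sym
    intro i hi
    obtain rfl : i = 0 := by omega
    have h1 : N.sym K n 0 z = C (N.ev K n 0 0 z) := N.tau_diag K n 0 z 0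
    rw [h1, Base_ev, hz', map_zero, map_zero]
  · refine Submodule.span_le.2 ?_
    rintro _ ⟨a, b, p, q, rfl⟩
    show rho1 K n (a * (p * q - q * p) * b) = 0
    rw [map_mul, map_mul, map_sub, map_mul, map_mul, mul_comm (rho1 K n q), sub_self, mul_zero,
      zero_mul]

/-- PROOF. Generators `a (p q - q p) b` need not vanish; the converse: if `z ∈ Jd` then `rho1 z = 0`, because `rho1` is
`rho2` followed by the specialization `X (j, a, b) ↦ if a = b then X j else 0` of the entries (the `0 0` entry). Then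
`ker_rho1`. -/
theorem Jd_le_Com0 : Jd K n ≤ Com K n := by
  intro z hz
  have hz' : rho2 K n z = 0 := hz
  rw [← ker_rho1]
  show rho1 K n z = 0
  rw [← Base_phi_rho2, hz', Matrix.zero_apply, map_zero]

theorem Jd_isId : IsId (Jd K n) where
  left := fun a z hz => by
    change rho2 K n (a * z) = 0
    have hz' : rho2 K n z = 0 := hz
    rw [map_mul, hz', mul_zero]
  right := fun a z hz => by
    change rho2 K n (z * a) = 0
    have hz' : rho2 K n z = 0 := hz
    rw [map_mul, hz', zero_mul]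

/-- The side of the augmentation. -/
noncomputable def side0 : Side (FreeAlgebra.algebraMapInv : FA K n →ₐ[K] K) where
  p := 0
  th := aeval Fin.elim0
  comm := fun r x => mul_comm _ _
  N := 1
  s := fun _ => 1
  mem := fun a => Submodule.subset_span
    ⟨C (FreeAlgebra.algebraMapInv a), 0, by simp⟩
  gg := ⊤
  cond := fun g _ _ => ⟨algebraMap K _ (aeval Fin.elim0 g), by
    rw [AlgHom.commutes]
    simp⟩

variable {K n}

theorem Base_tsp_left (Y : Set (FA K n)) (a : FA K n) {z : FA K n} (hz : z ∈ tsp Y) :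
    a * z ∈ tsp Y := by
  unfold tsp at hz ⊢
  induction hz using Submodule.span_induction with
  | mem x hx =>
    obtain ⟨c, y, b, hy, rfl⟩ := hx
    refine Submodule.subset_span ⟨a * c, y, b, hy, ?_⟩
    simp only [mul_assoc]
  | zero => rw [mul_zero]; exact Submodule.zero_mem _
  | add x y _ _ hx hy => rw [mul_add]; exact Submodule.add_mem _ hx hy
  | smul c x _ hx => rw [mul_smul_comm]; exact Submodule.smul_mem _ _ hx

theorem Base_tsp_right (Y : Set (FA K n)) (a : FA K n) {z : FA K n} (hz : z ∈ tsp Y) :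
    z * a ∈ tsp Y := by
  unfold tsp at hz ⊢
  induction hz using Submodule.span_induction with
  | mem x hx =>
    obtain ⟨c, y, b, hy, rfl⟩ := hx
    refine Submodule.subset_span ⟨c, y, b * a, hy, ?_⟩
    simp only [mul_assoc]
  | zero => rw [zero_mul]; exact Submodule.zero_mem _
  | add x y _ _ hx hy => rw [add_mul]; exact Submodule.add_mem _ hx hy
  | smul c x _ hx => rw [smul_mul_assoc]; exact Submodule.smul_mem _ _ hx

/-- Stability under left multiplication. -/
def Base_L (T : Submodule K (FA K n)) : Prop := ∀ a : FA K n, ∀ z ∈ T, a * z ∈ T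

/-- Stability under right multiplication. -/
def Base_R (T : Submodule K (FA K n)) : Prop := ∀ a : FA K n, ∀ z ∈ T, z * a ∈ T

theorem Base_L_sup {T T' : Submodule K (FA K n)} (h : Base_L T) (h' : Base_L T') :
    Base_L (T ⊔ T') := by
  intro a z hz
  obtain ⟨x, hx, y, hy, rfl⟩ := Submodule.mem_sup.1 hz
  rw [mul_add]
  exact Submodule.add_mem_sup (h a x hx) (h' a y hy)

theorem Base_R_sup {T T' : Submodule K (FA K n)} (h : Base_R T) (h' : Base_R T') :
    Base_R (T ⊔ T') := by
  intro a z hz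
  obtain ⟨x, hx, y, hy, rfl⟩ := Submodule.mem_sup.1 hz
  rw [add_mul]
  exact Submodule.add_mem_sup (h a x hx) (h' a y hy)

theorem Base_L_mul {T : Submodule K (FA K n)} (T' : Submodule K (FA K n)) (h : Base_L T) :
    Base_L (T * T') := by
  intro a z hz
  induction hz using Submodule.mul_induction_on' with
  | mem_mul_mem x hx y hy =>
    rw [← mul_assoc]
    exact Submodule.mul_mem_mul (h a x hx) hy
  | add x _ y _ hx hy => rw [mul_add]; exact Submodule.add_mem _ hx hy

theorem Base_R_mul (T : Submodule K (FA K n)) {T' : Submodule K (FA K n)} (h : Base_R T') :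
    Base_R (T * T') := by
  intro a z hz
  induction hz using Submodule.mul_induction_on' with
  | mem_mul_mem x hx y hy =>
    rw [mul_assoc]
    exact Submodule.mul_mem_mul hx (h a y hy)
  | add x _ y _ hx hy => rw [add_mul]; exact Submodule.add_mem _ hx hy

/-- `Fil q * Jd ≤ T` for a left ideal `T` which contains `D 1 * Jd` and `Jd * Jd`. -/
theorem Base_genL {S : Side (rho2 K n)} {q : ℕ} (hq : Fil K n q ≤
    Submodule.span K {z | ∃ a : FA K n, ∃ g ∈ S.D 1, z = a * g} ⊔ Jd K n)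
    {T : Submodule K (FA K n)} (hT : Base_L T) (h1 : ∀ z ∈ Jd K n, ∀ g ∈ S.D 1, g * z ∈ T)
    (h2 : Jd K n * Jd K n ≤ T) : Fil K n q * Jd K n ≤ T := by
  refine (mul_le_mul' hq le_rfl).trans ?_
  rw [Submodule.sup_mul]
  refine sup_le (Submodule.mul_le.2 fun c hc z hz => ?_) h2
  induction hc using Submodule.span_induction with
  | mem x hx =>
    obtain ⟨a, g, hg, rfl⟩ := hx
    rw [mul_assoc]
    exact hT a _ (h1 z hz g hg)
  | zero => rw [zero_mul]; exact Submodule.zero_mem _
  | add x y _ _ hx hy => rw [add_mul]; exact Submodule.add_mem _ hx hy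
  | smul c x _ hx => rw [smul_mul_assoc]; exact Submodule.smul_mem _ _ hx

/-- `Jd * Fil q ≤ T` for a right ideal `T` which contains `Jd * D 1` and `Jd * Jd`. -/
theorem Base_genR {S : Side (rho2 K n)} {q : ℕ} (hq : Fil K n q ≤
    Submodule.span K {z | ∃ a : FA K n, ∃ g ∈ S.D 1, z = g * a} ⊔ Jd K n)
    {T : Submodule K (FA K n)} (hT : Base_R T) (h1 : ∀ z ∈ Jd K n, ∀ g ∈ S.D 1, z * g ∈ T)
    (h2 : Jd K n * Jd K n ≤ T) : Jd K n * Fil K n q ≤ T := by
  refine (mul_le_mul' le_rfl hq).trans ?_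
  rw [Submodule.mul_sup]
  refine sup_le (Submodule.mul_le.2 fun z hz c hc => ?_) h2
  induction hc using Submodule.span_induction with
  | mem x hx =>
    obtain ⟨a, g, hg, rfl⟩ := hx
    rw [← mul_assoc]
    exact hT a _ (h1 z hz g hg)
  | zero => rw [mul_zero]; exact Submodule.zero_mem _
  | add x y _ _ hx hy => rw [mul_add]; exact Submodule.add_mem _ hx hy
  | smul c x _ hx => rw [mul_smul_comm]; exact Submodule.smul_mem _ _ hx

theorem Base_Jd_rho1 {z : FA K n} (hz : z ∈ Jd K n) : rho1 K n z = 0 := by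
  have h := Jd_le_Com0 K n hz
  rw [← ker_rho1] at h
  exact h

theorem Base_Jd_aug {z : FA K n} (hz : z ∈ Jd K n) : (FreeAlgebra.algebraMapInv z : K) = 0 :=
  N.Com_le_Aug K n (Jd_le_Com0 K n hz)

/-- The element `1` has every depth for the sides with `gg = ⊤`. -/
theorem one_mem_D_side1 (m : ℕ) : (1 : FA K n) ∈ (side1 K n).D m := by
  refine ⟨1, ?_, ?_⟩
  · show (1 : MvPolynomial (Fin n) K) ∈ (⊤ : Ideal (MvPolynomial (Fin n) K)) ^ m
    rw [Ideal.top_pow]
    exact Submodule.mem_top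
  · rw [map_one, map_one]

theorem one_mem_D_side0 (m : ℕ) : (1 : FA K n) ∈ (side0 K n).D m := by
  refine ⟨1, ?_, ?_⟩
  · show (1 : MvPolynomial (Fin 0) K) ∈ (⊤ : Ideal (MvPolynomial (Fin 0) K)) ^ m
    rw [Ideal.top_pow]
    exact Submodule.mem_top
  · rw [map_one, map_one]

/-- Elements of large depth, on the left of `z`. PROOF. `Deep1 S 1 0`: `Fil q ≤ ⊤ * span G ⊔ Jd`, `G ⊆ D 1`. -/
theorem exists_left {S : Side (rho2 K n)} (hS : Deep1 S) : ∃ q : ℕ, Fil K n q ≤
    Submodule.span K {z | ∃ a : FA K n, ∃ g ∈ S.D 1, z = a * g} ⊔ Jd K n := by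
  obtain ⟨q, G, hG, hq⟩ := hS 1 0
  refine ⟨q, hq.trans (sup_le_sup_right (Submodule.mul_le.2 fun a _ c hc => ?_) _)⟩
  induction hc using Submodule.span_induction with
  | mem x hx => exact Submodule.subset_span ⟨a, x, (hG x hx).2, rfl⟩
  | zero => rw [mul_zero]; exact Submodule.zero_mem _
  | add x y _ _ hx hy => rw [mul_add]; exact Submodule.add_mem _ hx hy
  | smul c x _ hx => rw [mul_smul_comm]; exact Submodule.smul_mem _ _ hx

/-- Elements of large depth, on the right. PROOF. As `exists_left`, and `a * g - g * a ∈ Jd` for `g ∈ D 1`, because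
`rho2 g = th θ` is central (`comm`). -/
theorem exists_right {S : Side (rho2 K n)} (hS : Deep1 S) : ∃ q : ℕ, Fil K n q ≤
    Submodule.span K {z | ∃ a : FA K n, ∃ g ∈ S.D 1, z = g * a} ⊔ Jd K n := by
  obtain ⟨q, hq⟩ := exists_left hS
  refine ⟨q, hq.trans (sup_le (Submodule.span_le.2 ?_) le_sup_right)⟩
  rintro _ ⟨a, g, hg, rfl⟩
  have e : a * g = g * a + (a * g - g * a) := by abel
  rw [e]
  refine Submodule.add_mem_sup (Submodule.subset_span ⟨a, g, hg, rfl⟩) ?_
  obtain ⟨θ, _, h2⟩ := hg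
  show rho2 K n (a * g - g * a) = 0
  rw [map_sub, map_mul, map_mul, h2, S.comm, sub_self]

/-- PROOF. `fg_gen S S Jd`. `q` from `exists_left`, `exists_right` (maximum, `N.Fil_antitone`). For `c, c' ∈ Fil q`, `z ∈ Jd`:
`c = ∑ a g + e`, `c' = ∑ g' a' + e'`, `e, e' ∈ Jd`: `c * z * c' = ∑ a (g z g') a' + (element of Jd * Jd)`; `tsp ν` and `Jd * Jd` are
two-sided ideals. -/
theorem fg_two {S : Side (rho2 K n)} (hS : Deep1 S) : ∃ (q : ℕ) (ν : Finset (FA K n)),
    (∀ y ∈ ν, y ∈ Jd K n) ∧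
    Fil K n q * Jd K n * Fil K n q ≤ tsp (ν : Set (FA K n)) ⊔ Jd K n * Jd K n := by
  obtain ⟨q1, h1⟩ := exists_left hS
  obtain ⟨q2, h2⟩ := exists_right hS
  obtain ⟨ν, hν, h3⟩ := fg_gen S S (Jd K n) (fun z hz => hz) (fun z hz => hz)
  refine ⟨max q1 q2, ν, hν, ?_⟩
  have hq1 := (N.Fil_antitone K n (le_max_left q1 q2)).trans h1
  have hq2 := (N.Fil_antitone K n (le_max_right q1 q2)).trans h2
  have hJL : Base_L (Jd K n) := (Jd_isId K n).left
  have hJR : Base_R (Jd K n) := (Jd_isId K n).right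
  have hL : Base_L (tsp (ν : Set (FA K n)) ⊔ Jd K n * Jd K n) :=
    Base_L_sup (fun a z hz => Base_tsp_left _ a hz) (Base_L_mul _ hJL)
  have hR : Base_R (tsp (ν : Set (FA K n)) ⊔ Jd K n * Jd K n) :=
    Base_R_sup (fun a z hz => Base_tsp_right _ a hz) (Base_R_mul _ hJR)
  refine (mul_le_mul' (mul_le_mul' hq1 le_rfl) hq2).trans ?_
  have hle : (Submodule.span K {z | ∃ a : FA K n, ∃ g ∈ S.D 1, z = a * g} ⊔ Jd K n) * Jd K n ≤
      Jd K n := Submodule.mul_le.2 fun a _ z hz => hJL a z hz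
  rw [Submodule.mul_sup]
  refine sup_le ?_ ((mul_le_mul' hle le_rfl).trans le_sup_right)
  rw [mul_assoc, Submodule.sup_mul]
  have hle' : Jd K n * Submodule.span K {z | ∃ a : FA K n, ∃ g ∈ S.D 1, z = g * a} ≤
      Jd K n := Submodule.mul_le.2 fun z hz a _ => hJR a z hz
  refine sup_le ?_ ((mul_le_mul' le_rfl hle').trans le_sup_right)
  refine Submodule.mul_le.2 fun c hc w hw => ?_
  induction hw using Submodule.mul_induction_on' with
  | mem_mul_mem z hz c' hc' =>
    induction hc using Submodule.span_induction with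
    | mem x hx =>
      obtain ⟨a, g, hg, rfl⟩ := hx
      induction hc' using Submodule.span_induction with
      | mem x' hx' =>
        obtain ⟨a', g', hg', rfl⟩ := hx'
        have e : a * g * (z * (g' * a')) = a * (g * z * g' * a') := by
          simp only [mul_assoc]
        rw [e]
        exact hL a _ (hR a' _ (h3 z hz g hg g' hg'))
      | zero => rw [mul_zero, mul_zero]; exact Submodule.zero_mem _
      | add x y _ _ hx hy => rw [mul_add, mul_add]; exact Submodule.add_mem _ hx hy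
      | smul c x _ hx => rw [mul_smul_comm, mul_smul_comm]; exact Submodule.smul_mem _ _ hx
    | zero => rw [zero_mul]; exact Submodule.zero_mem _
    | add x y _ _ hx hy => rw [add_mul]; exact Submodule.add_mem _ hx hy
    | smul c x _ hx => rw [smul_mul_assoc]; exact Submodule.smul_mem _ _ hx
  | add x _ y _ hx hy => rw [mul_add]; exact Submodule.add_mem _ hx hy

/-- PROOF. `fg_gen S side1 Jd` with `g' = 1`, `ker_rho1`, `exists_left`; `Jd * Jd ≤ Jd * Com`. -/
theorem fg_ab {S : Side (rho2 K n)} (hS : Deep1 S) : ∃ (q : ℕ) (ν : Finset (FA K n)),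
    (∀ y ∈ ν, y ∈ Jd K n) ∧
    Fil K n q * Jd K n ≤ tsp (ν : Set (FA K n)) ⊔ Jd K n * Com K n := by
  obtain ⟨q, hq⟩ := exists_left hS
  obtain ⟨ν, hν, h3⟩ := fg_gen S (side1 K n) (Jd K n) (fun z hz => hz)
    (fun z hz => Base_Jd_rho1 hz)
  rw [ker_rho1] at h3
  refine ⟨q, ν, hν, Base_genL hq (Base_L_sup (fun a z hz => Base_tsp_left _ a hz)
    (Base_L_mul _ (Jd_isId K n).left)) (fun z hz g hg => ?_)
    ((mul_le_mul' le_rfl (Jd_le_Com0 K n)).trans le_sup_right)⟩
  have h4 := h3 z hz g hg 1 (one_mem_D_side1 1)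
  rw [mul_one] at h4
  exact h4

/-- PROOF. `fg_gen side1 S Jd` with `g = 1`, `exists_right`. -/
theorem fg_ab' {S : Side (rho2 K n)} (hS : Deep1 S) : ∃ (q : ℕ) (ν : Finset (FA K n)),
    (∀ y ∈ ν, y ∈ Jd K n) ∧
    Jd K n * Fil K n q ≤ tsp (ν : Set (FA K n)) ⊔ Com K n * Jd K n := by
  obtain ⟨q, hq⟩ := exists_right hS
  obtain ⟨ν, hν, h3⟩ := fg_gen (side1 K n) S (Jd K n) (fun z hz => Base_Jd_rho1 hz)
    (fun z hz => hz)
  rw [ker_rho1] at h3
  refine ⟨q, ν, hν, Base_genR hq (Base_R_sup (fun a z hz => Base_tsp_right _ a hz)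
    (Base_R_mul _ (Jd_isId K n).right)) (fun z hz g hg => ?_)
    ((mul_le_mul' (Jd_le_Com0 K n) le_rfl).trans le_sup_right)⟩
  have h4 := h3 z hz 1 (one_mem_D_side1 1) g hg
  rw [one_mul] at h4
  exact h4

/-- PROOF. `fg_gen S side0 Jd` with `g' = 1` (`Jd ≤ Com ≤ Aug`, `N.Com_le_Aug`; the kernel of `algebraMapInv` is `Aug` by definition),
`exists_left`. `tsp ν ≤ ⊤ * span ν ⊔ Jd * Aug`: `a y b` with `b = r + b₊`, `r = algebraMap (algebraMapInv b)`, `b₊ ∈ Aug`, `a y ∈ Jd`. -/
theorem fg_aug {S : Side (rho2 K n)} (hS : Deep1 S) : ∃ (q : ℕ) (ν : Finset (FA K n)),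
    (∀ y ∈ ν, y ∈ Jd K n) ∧
    Fil K n q * Jd K n ≤ ⊤ * Submodule.span K (ν : Set (FA K n)) ⊔ Jd K n * Aug K n := by
  obtain ⟨q, hq⟩ := exists_left hS
  obtain ⟨ν, hν, h3⟩ := fg_gen S (side0 K n) (Jd K n) (fun z hz => hz)
    (fun z hz => Base_Jd_aug hz)
  have hA : Jd K n ≤ Aug K n := (Jd_le_Com0 K n).trans (N.Com_le_Aug K n)
  have htop : Base_L (⊤ : Submodule K (FA K n)) := fun a z _ => Submodule.mem_top
  have hts : tsp (ν : Set (FA K n)) ≤
      ⊤ * Submodule.span K (ν : Set (FA K n)) ⊔ Jd K n * Aug K n := by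
    refine Submodule.span_le.2 ?_
    rintro _ ⟨a, y, b, hy, rfl⟩
    have hay : a * y ∈ Jd K n := (Jd_isId K n).left a y (hν y hy)
    have hb : b - algebraMap K (FA K n) (FreeAlgebra.algebraMapInv b) ∈ Aug K n := by
      show (FreeAlgebra.algebraMapInv (b - algebraMap K (FA K n) (FreeAlgebra.algebraMapInv b)) :
        K) = 0
      rw [map_sub, FreeAlgebra.algebraMap_leftInverse, sub_self]
    have e : a * y * b = (FreeAlgebra.algebraMapInv b : K) • (a * y) +
        a * y * (b - algebraMap K (FA K n) (FreeAlgebra.algebraMapInv b)) := by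
      rw [mul_sub, ← Algebra.commutes, ← Algebra.smul_def]
      abel
    rw [e]
    exact Submodule.add_mem_sup (Submodule.smul_mem _ _ (Submodule.mul_mem_mul
      Submodule.mem_top (Submodule.subset_span hy))) (Submodule.mul_mem_mul hay hb)
  refine ⟨q, ν, hν, Base_genL hq (Base_L_sup (Base_L_mul _ htop)
    (Base_L_mul _ (Jd_isId K n).left)) (fun z hz g hg => ?_)
    ((mul_le_mul' le_rfl hA).trans le_sup_right)⟩
  have h4 := h3 z hz g hg 1 (one_mem_D_side0 1)
  rw [mul_one] at h4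
  exact sup_le hts le_sup_right h4

/-- PROOF. `fg_gen side0 S Jd` with `g = 1`, `exists_right`. -/
theorem fg_aug' {S : Side (rho2 K n)} (hS : Deep1 S) : ∃ (q : ℕ) (ν : Finset (FA K n)),
    (∀ y ∈ ν, y ∈ Jd K n) ∧
    Jd K n * Fil K n q ≤ Submodule.span K (ν : Set (FA K n)) * ⊤ ⊔ Aug K n * Jd K n := by
  obtain ⟨q, hq⟩ := exists_right hS
  obtain ⟨ν, hν, h3⟩ := fg_gen (side0 K n) S (Jd K n) (fun z hz => Base_Jd_aug hz)
    (fun z hz => hz)
  have hA : Jd K n ≤ Aug K n := (Jd_le_Com0 K n).trans (N.Com_le_Aug K n)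
  have htop : Base_R (⊤ : Submodule K (FA K n)) := fun a z _ => Submodule.mem_top
  have hts : tsp (ν : Set (FA K n)) ≤
      Submodule.span K (ν : Set (FA K n)) * ⊤ ⊔ Aug K n * Jd K n := by
    refine Submodule.span_le.2 ?_
    rintro _ ⟨a, y, b, hy, rfl⟩
    have hyb : y * b ∈ Jd K n := (Jd_isId K n).right b y (hν y hy)
    have ha : a - algebraMap K (FA K n) (FreeAlgebra.algebraMapInv a) ∈ Aug K n := by
      show (FreeAlgebra.algebraMapInv (a - algebraMap K (FA K n) (FreeAlgebra.algebraMapInv a)) :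
        K) = 0
      rw [map_sub, FreeAlgebra.algebraMap_leftInverse, sub_self]
    have e : a * y * b = (FreeAlgebra.algebraMapInv a : K) • (y * b) +
        (a - algebraMap K (FA K n) (FreeAlgebra.algebraMapInv a)) * (y * b) := by
      rw [sub_mul, ← Algebra.smul_def, mul_assoc]
      abel
    rw [e]
    exact Submodule.add_mem_sup (Submodule.smul_mem _ _ (Submodule.mul_mem_mul
      (Submodule.subset_span hy) Submodule.mem_top)) (Submodule.mul_mem_mul ha hyb)
  refine ⟨q, ν, hν, Base_genR hq (Base_R_sup (Base_R_mul _ htop)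
    (Base_R_mul _ (Jd_isId K n).right)) (fun z hz g hg => ?_)
    ((mul_le_mul' hA le_rfl).trans le_sup_right)⟩
  have h4 := h3 z hz 1 (one_mem_D_side0 1) g hg
  rw [one_mul] at h4
  exact sup_le hts le_sup_right h4

end Pool.Agent.H.MP_f5ceca_al.S
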