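import Pool.Agent.H.MP_f5ceca_al.S.M2e

/-!
Depth, second form.
-/

namespace Pool.Agent.H.MP_f5ceca_al.S

open MvPolynomial
open Pool.Agent.H.MP_f5ceca_al.N (FA xx Com Fil Aug)

universe u

variable (K : Type u) [Field K] (n : ℕ)

/-- The ideal generated by the elements `([h, b]^2 h^2)^N'`. -/
noncomputable def VN (N' : ℕ) : Submodule K (FA K n) :=
  tsp {z | ∃ h ∈ HH K n, ∃ b : FA K n, z = ((h * b - b * h) ^ 2 * h ^ 2) ^ N'}

variable [CharZero K] {n}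

omit n in
theorem M2g_sq {A : Type u} [CommRing A] [Algebra K A] (s : Matrix (Fin 2) (Fin 2) A)
    (hs : s.trace = 0) :
    s * s = ((2⁻¹ : K) • (s * s).trace) • (1 : Matrix (Fin 2) (Fin 2) A) := by
  have h := anti_eq s s hs hs
  rw [smul_assoc, ← h, ← two_smul K (s * s), smul_smul, inv_mul_cancel₀ (by norm_num), one_smul]

/-- PROOF. Let `h ∈ Com` with `rho2 h = z • s` and `b' ∈ Com` with `rho2 b' = z • b` (definition of `cnd`).
`h ∈ HH` (trace). By `anti_eq` (`x = y`), `s * s = (1/2) tr(s s) • 1` and the same for `[s, b]`, so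
`rho2 (([h, b']^2 h^2)^N') = ((1/4) z^6 w)^N' • 1`. For `e ∈ E2` let `rho2 a = z • e`; then
`([h, b']^2 h^2)^N' * a ∈ VN` has the value `(z * ((1/4) z^6 w)^N') • e`; multiply by the scalar `4^N'`. -/
theorem cnd_VN (N' : ℕ) {z : ZZ K n} (hz : z ∈ cnd K n (Com K n))
    {s b : Matrix (Fin 2) (Fin 2) (A2 K n)} (hs : s ∈ E2 K n) (hb : b ∈ E2 K n)
    (hs0 : s.trace = 0) (w : ZZ K n)
    (hw : (w : A2 K n) = (cmt s b * cmt s b).trace * (s * s).trace) :
    z * (z ^ 6 * w) ^ N' ∈ cnd K n (VN K n N') := by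
  obtain ⟨h, hh, hh'⟩ := hz s hs
  obtain ⟨b', hb1, hb'⟩ := hz b hb
  have hH : h ∈ HH K n := by
    refine ⟨hh, ?_⟩
    rw [hh', Matrix.trace_smul, hs0, smul_zero]
  have e1 : s * s = ((2⁻¹ : K) • (s * s).trace) • (1 : Matrix (Fin 2) (Fin 2) (A2 K n)) :=
    M2g_sq K s hs0
  have e2 : cmt s b * cmt s b =
      ((2⁻¹ : K) • (cmt s b * cmt s b).trace) • (1 : Matrix (Fin 2) (Fin 2) (A2 K n)) :=
    M2g_sq K (cmt s b) (trace_cmt s b)
  have hval : rho2 K n ((h * b' - b' * h) ^ 2 * h ^ 2) =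
      (4⁻¹ : K) • ((z ^ 6 * w) • (1 : Matrix (Fin 2) (Fin 2) (A2 K n))) := by
    have e3 : rho2 K n ((h * b' - b' * h) ^ 2 * h ^ 2) =
        (z ^ 6) • (cmt s b * cmt s b * (s * s)) := by
      simp only [map_mul, map_sub, map_pow, hh', hb', cmt]
      simp only [pow_two, smul_mul_smul_comm, ← smul_sub]
      congr 1
      ring
    rw [e3, e1, e2, smul_mul_smul_comm, mul_one, Subalgebra.smul_def, Subalgebra.smul_def, smul_smul]
    have e4 : ((z ^ 6 * w : ZZ K n) : A2 K n) = (z : A2 K n) ^ 6 * (w : A2 K n) := by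
      push_cast
      rfl
    rw [e4, hw, ← smul_assoc (4⁻¹ : K)]
    congr 1
    rw [smul_mul_smul_comm, show (2⁻¹ : K) * 2⁻¹ = 4⁻¹ by norm_num]
    push_cast
    rw [mul_smul_comm]
  have hval2 : rho2 K n (((h * b' - b' * h) ^ 2 * h ^ 2) ^ N') =
      ((4⁻¹ : K) ^ N') • (((z ^ 6 * w) ^ N') • (1 : Matrix (Fin 2) (Fin 2) (A2 K n))) := by
    rw [map_pow, hval, smul_pow, smul_pow, one_pow]
  intro e he
  obtain ⟨a0, ha0, ha0'⟩ := hz e he
  refine ⟨((4 : K) ^ N') • (((h * b' - b' * h) ^ 2 * h ^ 2) ^ N' * a0), ?_, ?_⟩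
  · refine Submodule.smul_mem _ _ (Submodule.subset_span ?_)
    exact ⟨1, _, a0, ⟨h, hH, b', rfl⟩, by rw [one_mul]⟩
  · rw [map_smul, map_mul, hval2, ha0', smul_mul_assoc, smul_smul, ← mul_pow,
      mul_inv_cancel₀ (by norm_num : (4 : K) ≠ 0), one_pow, one_smul, smul_mul_smul_comm, one_mul,
      mul_comm]

theorem M2g_cmt_mem {a b : Matrix (Fin 2) (Fin 2) (A2 K n)} (ha : a ∈ E2 K n)
    (hb : b ∈ E2 K n) : cmt a b ∈ E2 K n := sub_mem (E2_mul K ha hb) (E2_mul K hb ha)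

/-- the trace of an element of `E2`, as an element of `ZZ` -/
noncomputable def M2g_t (e : Matrix (Fin 2) (Fin 2) (A2 K n)) (he : e ∈ E2 K n) : ZZ K n :=
  ⟨e.trace, trace_mem_ZZ K he⟩

theorem M2g_unit (p : Ideal (ZZ K n)) {x : ZZ K n} (m : ℕ) (hm : m ≠ 0)
    (h : (m : ZZ K n) * x ∈ p) : x ∈ p := by
  have e : x = algebraMap K (ZZ K n) (m : K)⁻¹ * ((m : ZZ K n) * x) := by
    rw [← mul_assoc, ← map_natCast (algebraMap K (ZZ K n)) m, ← map_mul,
      inv_mul_cancel₀ (Nat.cast_ne_zero.2 hm), map_one, one_mul]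
  rw [e]
  exact p.mul_mem_left _ h

theorem M2g_two (p : Ideal (ZZ K n)) {x : ZZ K n} (h : 2 * x ∈ p) : x ∈ p :=
  M2g_unit K p 2 (by norm_num) (by exact_mod_cast h)

theorem M2g_three (p : Ideal (ZZ K n)) {x : ZZ K n} (h : 3 * x ∈ p) : x ∈ p :=
  M2g_unit K p 3 (by norm_num) (by exact_mod_cast h)

theorem M2g_tr1 {A : Type u} [CommRing A] (a b : Matrix (Fin 2) (Fin 2) A) :
    (cmt a b * a).trace = 0 := by
  rw [cmt, sub_mul, Matrix.trace_sub, mul_assoc a b a, Matrix.trace_mul_comm a (b * a), sub_self]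

theorem M2g_tr2 {A : Type u} [CommRing A] (a b : Matrix (Fin 2) (Fin 2) A) :
    (cmt a b * b).trace = 0 := by
  rw [cmt, sub_mul, Matrix.trace_sub, mul_assoc b a b, Matrix.trace_mul_comm b (a * b), sub_self]

/-- Algebraic part. `p` is the set of elements of `ZZ` in a prime ideal; `al, be` are traceless elements of `E2`.

PROOF. All traces of elements of `E2` are in `ZZ` (`trace_mem_ZZ`, `E2_mul`); write them as elements of `ZZ`. Let
`s = cmt al be` (traceless by `trace_cmt`, in `E2`). Suppose `tr(s s) ∉ p`. For `γ ∈ {al, be, al + be}`,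
`tr([s, γ]^2) * tr(s s) ∈ p` by `h`, so `tr([s, γ]^2) ∈ p`; `tr_cmt_cmt` gives
`tr([s,γ][s,γ]) = 2 tr(γ s) tr(s γ) - 2 tr(s s) tr(γ γ)` and `tr(s γ) = 0` (`tr([al, be] al) = 0 = tr([al, be] be)`), so
`tr(γ γ) ∈ p`. Hence `tr(al be) = (1/2) (tr((al + be)^2) - tr(al al) - tr(be be)) ∈ p` and
`tr(s s) = 2 tr(al be)^2 - 2 tr(al al) tr(be be) ∈ p` by `tr_cmt_cmt`. Contradiction. -/
theorem prime_step (p : Ideal (ZZ K n)) (hp : p.IsPrime)
    (h : ∀ s ∈ E2 K n, ∀ b ∈ E2 K n, s.trace = 0 → ∀ w : ZZ K n,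
      (w : A2 K n) = (cmt s b * cmt s b).trace * (s * s).trace → w ∈ p)
    {al be : Matrix (Fin 2) (Fin 2) (A2 K n)} (hal : al ∈ E2 K n) (hbe : be ∈ E2 K n)
    (hal0 : al.trace = 0) (hbe0 : be.trace = 0) (w : ZZ K n)
    (hw : (w : A2 K n) = (cmt al be * cmt al be).trace) : w ∈ p := by
  by_contra hwp
  have hs : cmt al be ∈ E2 K n := M2g_cmt_mem K hal hbe
  have hs0 : (cmt al be).trace = 0 := trace_cmt al be
  have key : ∀ γ : Matrix (Fin 2) (Fin 2) (A2 K n), ∀ hγ : γ ∈ E2 K n, γ.trace = 0 →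
      (cmt al be * γ).trace = 0 → M2g_t K (γ * γ) (E2_mul K hγ hγ) ∈ p := by
    intro γ hγ hγ0 hz
    have hc : cmt (cmt al be) γ * cmt (cmt al be) γ ∈ E2 K n :=
      E2_mul K (M2g_cmt_mem K hs hγ) (M2g_cmt_mem K hs hγ)
    have h1 : M2g_t K _ hc * w ∈ p := by
      refine h _ hs γ hγ hs0 _ ?_
      rw [← hw]
      rfl
    have h2 := (hp.mem_or_mem h1).resolve_right hwp
    have h3 : M2g_t K _ hc = 2 * (-(w * M2g_t K (γ * γ) (E2_mul K hγ hγ))) := by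
      apply Subtype.ext
      have h4 := tr_cmt_cmt (cmt al be) γ (cmt al be) γ hs0 hγ0 hs0 hγ0
      have h5 : (γ * cmt al be).trace = 0 := by rw [Matrix.trace_mul_comm]; exact hz
      rw [h5] at h4
      show (cmt (cmt al be) γ * cmt (cmt al be) γ).trace =
        2 * (-((w : A2 K n) * (γ * γ).trace))
      rw [h4, hw]
      ring
    rw [h3] at h2
    have h4 := M2g_two K p h2
    rw [neg_mem_iff] at h4
    exact (hp.mem_or_mem h4).resolve_left hwp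
  have k1 := key al hal hal0 (M2g_tr1 al be)
  have k2 := key be hbe hbe0 (M2g_tr2 al be)
  have k3 := key (al + be) (add_mem hal hbe) (by rw [Matrix.trace_add, hal0, hbe0, add_zero])
    (by rw [mul_add, Matrix.trace_add, M2g_tr1, M2g_tr2, add_zero])
  have k4 : M2g_t K (al * be) (E2_mul K hal hbe) ∈ p := by
    apply M2g_two K p
    have e : 2 * M2g_t K (al * be) (E2_mul K hal hbe) =
        M2g_t K _ (E2_mul K (add_mem hal hbe) (add_mem hal hbe)) -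
          M2g_t K (al * al) (E2_mul K hal hal) - M2g_t K (be * be) (E2_mul K hbe hbe) := by
      apply Subtype.ext
      show 2 * (al * be).trace = ((al + be) * (al + be)).trace - (al * al).trace - (be * be).trace
      rw [mul_add, add_mul, add_mul, Matrix.trace_add, Matrix.trace_add, Matrix.trace_add,
        Matrix.trace_mul_comm be al]
      ring
    rw [e]
    exact sub_mem (sub_mem k3 k1) k2
  apply hwp
  have e : w = 2 * M2g_t K (al * be) (E2_mul K hal hbe) * M2g_t K (al * be) (E2_mul K hal hbe) -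
      2 * M2g_t K (al * al) (E2_mul K hal hal) * M2g_t K (be * be) (E2_mul K hbe hbe) := by
    apply Subtype.ext
    show (w : A2 K n) = 2 * (al * be).trace * (al * be).trace - 2 * (al * al).trace * (be * be).trace
    rw [hw, tr_cmt_cmt al be al be hal0 hbe0 hal0 hbe0, Matrix.trace_mul_comm be al]
  rw [e]
  exact sub_mem (p.mul_mem_left _ k4) (p.mul_mem_left _ k2)

/-- `tr([a, b][c, d])` as an element of `ZZ` -/
noncomputable def M2g_B (a b c d : E2 K n) : ZZ K n :=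
  ⟨(cmt (a : Matrix (Fin 2) (Fin 2) (A2 K n)) b *
    cmt (c : Matrix (Fin 2) (Fin 2) (A2 K n)) d).trace,
    trace_mem_ZZ K (E2_mul K (M2g_cmt_mem K a.2 b.2) (M2g_cmt_mem K c.2 d.2))⟩

theorem M2g_cmt_add {R : Type*} [Ring R] (a b c : R) : cmt a (b + c) = cmt a b + cmt a c := by
  unfold cmt
  noncomm_ring

theorem M2g_add_cmt {R : Type*} [Ring R] (a b c : R) : cmt (a + b) c = cmt a c + cmt b c := by
  unfold cmt
  noncomm_ring

theorem M2g_cmt_swap {R : Type*} [Ring R] (a b : R) : cmt b a = -cmt a b := by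
  unfold cmt
  noncomm_ring

/-- Polarization. `B al be ga de = tr([al, be][ga, de])`.

PROOF. Let `B(α,β,γ,δ) = tr([α,β][γ,δ])`, an element of `ZZ` for `α, β, γ, δ ∈ E2`. From
`B(α,β+δ,α,β+δ) - B(α,β,α,β) - B(α,δ,α,δ) = 2 B(α,β,α,δ)` (symmetry of the trace) we get `B(α,β,α,δ) ∈ p`; replace `α` by
`α + γ`: `B(α,β,γ,δ) + B(γ,β,α,δ) ∈ p`. By `bianchi_eq`, `B(α,β,γ,δ) + B(β,γ,α,δ) + B(γ,α,β,δ) = 0`. Modulo `p`:
`B(β,γ,α,δ) = - B(γ,β,α,δ) = B(α,β,γ,δ)`, and `B(γ,α,β,δ) = - B(β,α,γ,δ) = B(α,β,γ,δ)` (first the exchange relation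
for the first and the third argument, then antisymmetry in the first two). So `3 B(α,β,γ,δ) ∈ p`. -/
theorem prime_polar (p : Ideal (ZZ K n))
    (h : ∀ al ∈ E2 K n, ∀ be ∈ E2 K n, al.trace = 0 → be.trace = 0 → ∀ w : ZZ K n,
      (w : A2 K n) = (cmt al be * cmt al be).trace → w ∈ p)
    {al be ga de : Matrix (Fin 2) (Fin 2) (A2 K n)} (hal : al ∈ E2 K n) (hbe : be ∈ E2 K n)
    (hga : ga ∈ E2 K n) (hde : de ∈ E2 K n) (hal0 : al.trace = 0) (hbe0 : be.trace = 0)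
    (hga0 : ga.trace = 0) (hde0 : de.trace = 0) (w : ZZ K n)
    (hw : (w : A2 K n) = (cmt al be * cmt ga de).trace) : w ∈ p := by
  have q1 : ∀ a b d : E2 K n, (a : Matrix (Fin 2) (Fin 2) (A2 K n)).trace = 0 →
      (b : Matrix (Fin 2) (Fin 2) (A2 K n)).trace = 0 →
      (d : Matrix (Fin 2) (Fin 2) (A2 K n)).trace = 0 → M2g_B K a b a d ∈ p := by
    intro a b d ha hb hd
    apply M2g_two K p
    have h1 : M2g_B K a (b + d) a (b + d) ∈ p := h _ a.2 _ (b + d).2 ha (by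
      rw [Submodule.coe_add, Matrix.trace_add, hb, hd, add_zero]) _ rfl
    have h2 : M2g_B K a b a b ∈ p := h _ a.2 _ b.2 ha hb _ rfl
    have h3 : M2g_B K a d a d ∈ p := h _ a.2 _ d.2 ha hd _ rfl
    have e : 2 * M2g_B K a b a d =
        M2g_B K a (b + d) a (b + d) - M2g_B K a b a b - M2g_B K a d a d := by
      apply Subtype.ext
      show 2 * (cmt (a : Matrix (Fin 2) (Fin 2) (A2 K n)) b * cmt (a : Matrix (Fin 2) (Fin 2) (A2 K n)) d).trace =
        (cmt (a : Matrix (Fin 2) (Fin 2) (A2 K n)) (b + d) *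
          cmt (a : Matrix (Fin 2) (Fin 2) (A2 K n)) (b + d)).trace -
        (cmt (a : Matrix (Fin 2) (Fin 2) (A2 K n)) b * cmt (a : Matrix (Fin 2) (Fin 2) (A2 K n)) b).trace -
        (cmt (a : Matrix (Fin 2) (Fin 2) (A2 K n)) d * cmt (a : Matrix (Fin 2) (Fin 2) (A2 K n)) d).trace
      rw [M2g_cmt_add, mul_add, add_mul, add_mul, Matrix.trace_add, Matrix.trace_add,
        Matrix.trace_add, Matrix.trace_mul_comm (cmt (a : Matrix (Fin 2) (Fin 2) (A2 K n)) d)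
          (cmt (a : Matrix (Fin 2) (Fin 2) (A2 K n)) b)]
      ring
    rw [e]
    exact sub_mem (sub_mem h1 h2) h3
  have q2 : ∀ a b c d : E2 K n, (a : Matrix (Fin 2) (Fin 2) (A2 K n)).trace = 0 →
      (b : Matrix (Fin 2) (Fin 2) (A2 K n)).trace = 0 →
      (c : Matrix (Fin 2) (Fin 2) (A2 K n)).trace = 0 →
      (d : Matrix (Fin 2) (Fin 2) (A2 K n)).trace = 0 →
      M2g_B K a b c d + M2g_B K c b a d ∈ p := by
    intro a b c d ha hb hc hd
    have h1 : M2g_B K (a + c) b (a + c) d ∈ p := q1 (a + c) b d (by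
      rw [Submodule.coe_add, Matrix.trace_add, ha, hc, add_zero]) hb hd
    have h2 := q1 a b d ha hb hd
    have h3 := q1 c b d hc hb hd
    have e : M2g_B K a b c d + M2g_B K c b a d =
        M2g_B K (a + c) b (a + c) d - M2g_B K a b a d - M2g_B K c b c d := by
      apply Subtype.ext
      show (cmt (a : Matrix (Fin 2) (Fin 2) (A2 K n)) b * cmt (c : Matrix (Fin 2) (Fin 2) (A2 K n)) d).trace +
        (cmt (c : Matrix (Fin 2) (Fin 2) (A2 K n)) b * cmt (a : Matrix (Fin 2) (Fin 2) (A2 K n)) d).trace =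
        (cmt ((a : Matrix (Fin 2) (Fin 2) (A2 K n)) + c) b *
          cmt ((a : Matrix (Fin 2) (Fin 2) (A2 K n)) + c) d).trace -
        (cmt (a : Matrix (Fin 2) (Fin 2) (A2 K n)) b * cmt (a : Matrix (Fin 2) (Fin 2) (A2 K n)) d).trace -
        (cmt (c : Matrix (Fin 2) (Fin 2) (A2 K n)) b * cmt (c : Matrix (Fin 2) (Fin 2) (A2 K n)) d).trace
      rw [M2g_add_cmt, M2g_add_cmt, mul_add, add_mul, add_mul, Matrix.trace_add, Matrix.trace_add,
        Matrix.trace_add]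
      ring
    rw [e]
    exact sub_mem (sub_mem h1 h2) h3
  have hanti : ∀ a b c d : E2 K n, M2g_B K b a c d = -M2g_B K a b c d := by
    intro a b c d
    apply Subtype.ext
    show (cmt (b : Matrix (Fin 2) (Fin 2) (A2 K n)) a * cmt (c : Matrix (Fin 2) (Fin 2) (A2 K n)) d).trace =
      -(cmt (a : Matrix (Fin 2) (Fin 2) (A2 K n)) b * cmt (c : Matrix (Fin 2) (Fin 2) (A2 K n)) d).trace
    rw [M2g_cmt_swap, neg_mul, Matrix.trace_neg]
  have hw' : w = M2g_B K ⟨al, hal⟩ ⟨be, hbe⟩ ⟨ga, hga⟩ ⟨de, hde⟩ := Subtype.ext hw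
  have hbi : M2g_B K ⟨al, hal⟩ ⟨be, hbe⟩ ⟨ga, hga⟩ ⟨de, hde⟩ +
      M2g_B K ⟨be, hbe⟩ ⟨ga, hga⟩ ⟨al, hal⟩ ⟨de, hde⟩ +
      M2g_B K ⟨ga, hga⟩ ⟨al, hal⟩ ⟨be, hbe⟩ ⟨de, hde⟩ = 0 :=
    Subtype.ext (bianchi_eq al be ga de)
  have r1 := q2 ⟨al, hal⟩ ⟨be, hbe⟩ ⟨ga, hga⟩ ⟨de, hde⟩ hal0 hbe0 hga0 hde0
  have r2 := q2 ⟨ga, hga⟩ ⟨al, hal⟩ ⟨be, hbe⟩ ⟨de, hde⟩ hga0 hal0 hbe0 hde0
  rw [hanti ⟨ga, hga⟩ ⟨be, hbe⟩] at hbi
  rw [hanti ⟨al, hal⟩ ⟨be, hbe⟩ ⟨ga, hga⟩] at r2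
  rw [hw']
  apply M2g_three K p
  have e : 3 * M2g_B K ⟨al, hal⟩ ⟨be, hbe⟩ ⟨ga, hga⟩ ⟨de, hde⟩ =
      (M2g_B K ⟨al, hal⟩ ⟨be, hbe⟩ ⟨ga, hga⟩ ⟨de, hde⟩ +
        M2g_B K ⟨ga, hga⟩ ⟨be, hbe⟩ ⟨al, hal⟩ ⟨de, hde⟩) -
      (M2g_B K ⟨ga, hga⟩ ⟨al, hal⟩ ⟨be, hbe⟩ ⟨de, hde⟩ +
        -M2g_B K ⟨al, hal⟩ ⟨be, hbe⟩ ⟨ga, hga⟩ ⟨de, hde⟩) := by
    linear_combination hbi
  rw [e]
  exact sub_mem r1 r2

/-- PROOF. `radical = ⨅ primes ≥` (`Ideal.radical_eq_sInf`), so let `p` be a prime ideal with `cnd (VN) ≤ p`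
and suppose that `redI` is not contained in `p`. Then `cnd (Com)` is not contained in `p` by
`redI_le_radical` (`Ideal.IsPrime.radical_le_iff`); let `z ∈ cnd (Com)`, `z ∉ p`. By `cnd_VN`, `z * (z^6 w)^N' ∈ p` hence `w ∈ p` for
all `w` as in the hypothesis of `prime_step`. `prime_step`, `prime_polar` give `Q1 K i j k l ∈ p`
(`P1 K i j k l = tr([y_i, y_j][y_k, y_l])`, `cmt_tl`), and `redI_le_of_Q1` for `I = p` (`p.radical = p`) gives `redI ≤ p`. -/
theorem redI_le_radical_VN (N' : ℕ) : redI K n ≤ (cnd K n (VN K n N')).radical := by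
  rw [Ideal.radical_eq_sInf]
  refine le_sInf ?_
  rintro p ⟨hle, hp⟩
  by_contra hnot
  have h1 : ¬ cnd K n (Com K n) ≤ p := by
    intro h2
    exact hnot ((redI_le_radical K n).trans ((hp.radical_le_iff).2 h2))
  obtain ⟨z, hz, hzp⟩ := Set.not_subset.1 h1
  have hyp : ∀ s ∈ E2 K n, ∀ b ∈ E2 K n, s.trace = 0 → ∀ w : ZZ K n,
      (w : A2 K n) = (cmt s b * cmt s b).trace * (s * s).trace → w ∈ p := by
    intro s hs b hb hs0 w hw
    have h3 := hle (cnd_VN K N' hz hs hb hs0 w hw)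
    have h4 := (hp.mem_or_mem h3).resolve_left hzp
    have h5 := hp.mem_of_pow_mem _ h4
    refine (hp.mem_or_mem h5).resolve_left fun h6 => hzp (hp.mem_of_pow_mem _ h6)
  have hpol : ∀ al ∈ E2 K n, ∀ be ∈ E2 K n, al.trace = 0 → be.trace = 0 → ∀ w : ZZ K n,
      (w : A2 K n) = (cmt al be * cmt al be).trace → w ∈ p :=
    fun al hal be hbe hal0 hbe0 w hw => prime_step K p hp hyp hal hbe hal0 hbe0 w hw
  have hy : ∀ i : Fin n, tl K (gm K i) ∈ E2 K n := fun i =>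
    Submodule.subset_span (Or.inl (Or.inr ⟨i, rfl⟩))
  have hQ : ∀ i j k l : Fin n, Q1 K i j k l ∈ p.radical := by
    intro i j k l
    refine Ideal.le_radical ?_
    refine prime_polar K p hpol (hy i) (hy j) (hy k) (hy l) (trace_tl _) (trace_tl _)
      (trace_tl _) (trace_tl _) _ ?_
    rw [cmt_tl, cmt_tl]
    rfl
  have h6 := redI_le_of_Q1 K n p hQ
  rw [hp.radical] at h6
  exact hnot h6

variable (n)

/-- **Depth, second form.** PROOF. `redI ^ t ≤ cnd (VN)` for some `t` (`redI_le_radical_VN`, `ZZ_noeth`,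
`Ideal.exists_pow_le_of_le_radical_of_fg`). For `a ∈ Fil (2 * t)`, `rho2 a ∈ redI ^ t • E2 ≤ cnd (VN) • E2` (`rho2_Fil`), and
by `Submodule.smul_induction_on` every element of `cnd (VN) • E2` is `rho2 b` with `b ∈ VN`; `a - b ∈ Jd`. -/
theorem deep2 : Deep2 K n := by
  intro N'
  have hno := ZZ_noeth K (n := n)
  obtain ⟨t, ht⟩ := Ideal.exists_pow_le_of_le_radical_of_fg (redI_le_radical_VN K (n := n) N')
    (IsNoetherian.noetherian (redI K n))
  refine ⟨2 * t, fun a ha => ?_⟩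
  have h1 := rho2_Fil K t ha
  have h2 : rho2 K n a ∈ cnd K n (VN K n N') • E2 K n := Submodule.smul_mono_left ht h1
  have h3 : ∃ b ∈ VN K n N', rho2 K n b = rho2 K n a := by
    refine Submodule.smul_induction_on (p := fun x => ∃ b ∈ VN K n N', rho2 K n b = x) h2 ?_ ?_
    · intro r hr e he
      exact hr e he
    · rintro x y ⟨b, hb, hb'⟩ ⟨c, hc, hc'⟩
      exact ⟨b + c, add_mem hb hc, by rw [map_add, hb', hc']⟩
  obtain ⟨b, hb, hb'⟩ := h3
  have e : a = b + (a - b) := by abel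
  rw [e]
  refine Submodule.add_mem_sup hb ?_
  show (rho2 K n).toLinearMap (a - b) = 0
  rw [map_sub]
  exact sub_eq_zero.2 hb'.symm

end Pool.Agent.H.MP_f5ceca_al.S
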