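import Pool.Agent.H.MP_f5ceca_al.S.RHH
import Pool.Agent.H.MP_f5ceca_al.N.Basic
import Pool.Agent.H.MP_f5ceca_al.N.Quot

/-!
Powers of the augmentation ideal modulo commutators and powers of letters.
-/

namespace Pool.Agent.H.MP_f5ceca_al.S

open MvPolynomial
open Pool.Agent.H.MP_f5ceca_al.N (FA xx Com Fil Aug)

universe u

variable {K : Type u} [Field K] {n : ℕ}

/-- The ideal generated by the commutators and the powers `x_t^M`. -/
def BM (K : Type u) [Field K] (n M : ℕ) : Submodule K (FA K n) :=
  Com K n ⊔ Submodule.span K {z | ∃ (a b : FA K n) (t : Fin n), z = a * xx K t ^ M * b}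

/-- Under a homomorphism to a commutative ring that maps the letters to nilpotent elements a power of the
augmentation ideal goes to zero. -/
theorem RelIiiD_aux {C : Type u} [CommRing C] (f : FA K n →+* C) (M : ℕ)
    (h : ∀ t : Fin n, f (xx K t) ^ M = 0) : ∃ s, ∀ z ∈ Aug K n ^ s, f z = 0 := by
  obtain ⟨I, hI⟩ : ∃ I : Ideal C, I = Ideal.span (Set.range fun t : Fin n => f (xx K t)) :=
    ⟨_, rfl⟩
  have hfg : I.FG := by
    rw [hI]
    exact Submodule.fg_span (Set.finite_range _)
  have hrad : I ≤ (⊥ : Ideal C).radical := by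
    rw [hI, Ideal.span_le]
    rintro _ ⟨t, rfl⟩
    refine ⟨M, ?_⟩
    show f (xx K t) ^ M ∈ (⊥ : Ideal C)
    rw [h t]
    exact Ideal.zero_mem _
  obtain ⟨s, hs⟩ := Ideal.exists_pow_le_of_le_radical_of_fg hrad hfg
  have h1 : ∀ z : FA K n, f z - f (algebraMap K (FA K n) (FreeAlgebra.algebraMapInv z)) ∈ I := by
    intro z
    induction z using FreeAlgebra.induction with
    | grade0 r =>
      have e : FreeAlgebra.algebraMapInv (algebraMap K (FA K n) r) = r :=
        FreeAlgebra.algebraMap_leftInverse r
      rw [e, sub_self]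
      exact I.zero_mem
    | grade1 t =>
      have e : FreeAlgebra.algebraMapInv (FreeAlgebra.ι K t) = (0 : K) := by
        simp [FreeAlgebra.algebraMapInv]
      rw [e, map_zero, map_zero, sub_zero, hI]
      exact Ideal.subset_span ⟨t, rfl⟩
    | mul p q hp hq =>
      have e : f (p * q) - f (algebraMap K (FA K n) (FreeAlgebra.algebraMapInv (p * q))) =
          f p * (f q - f (algebraMap K (FA K n) (FreeAlgebra.algebraMapInv q))) +
          f (algebraMap K (FA K n) (FreeAlgebra.algebraMapInv q)) *
            (f p - f (algebraMap K (FA K n) (FreeAlgebra.algebraMapInv p))) := by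
        simp only [map_mul]
        ring
      rw [e]
      exact I.add_mem (I.mul_mem_left _ hq) (I.mul_mem_left _ hp)
    | add p q hp hq =>
      have e : f (p + q) - f (algebraMap K (FA K n) (FreeAlgebra.algebraMapInv (p + q))) =
          (f p - f (algebraMap K (FA K n) (FreeAlgebra.algebraMapInv p))) +
          (f q - f (algebraMap K (FA K n) (FreeAlgebra.algebraMapInv q))) := by
        simp only [map_add]
        ring
      rw [e]
      exact I.add_mem hp hq
  have h2 : ∀ z ∈ Aug K n, f z ∈ I := by
    intro z hz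
    have h3 := h1 z
    have h4 : FreeAlgebra.algebraMapInv z = (0 : K) := N.Basic_mem_Aug.1 hz
    rw [h4, map_zero, map_zero, sub_zero] at h3
    exact h3
  have h3 : ∀ k : ℕ, ∀ z ∈ Aug K n ^ k, f z ∈ I ^ k := by
    intro k
    induction k with
    | zero =>
      intro z _
      rw [pow_zero, Ideal.one_eq_top]
      exact Submodule.mem_top
    | succ k ih =>
      intro z hz
      rw [pow_succ] at hz ⊢
      induction hz using Submodule.mul_induction_on' with
      | mem_mul_mem p hp q hq =>
        rw [map_mul]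
        exact Ideal.mul_mem_mul (ih p hp) (h2 q hq)
      | add x _ y _ hx hy =>
        rw [map_add]
        exact Ideal.add_mem _ hx hy
  refine ⟨s, fun z hz => ?_⟩
  have h4 := hs (h3 s z hz)
  exact h4

theorem RelIiiD_left (M : ℕ) (a : FA K n) {z : FA K n} (hz : z ∈ BM K n M) :
    a * z ∈ BM K n M := by
  obtain ⟨x, hx, y, hy, rfl⟩ := Submodule.mem_sup.1 hz
  rw [mul_add]
  refine Submodule.add_mem _ (Submodule.mem_sup_left (N.Com_left K a hx))
    (Submodule.mem_sup_right ?_)
  refine N.Basic_span_left _ a ?_ hy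
  rintro z ⟨a', b, t, rfl⟩
  exact ⟨a * a', b, t, by simp only [mul_assoc]⟩

theorem RelIiiD_right (M : ℕ) (a : FA K n) {z : FA K n} (hz : z ∈ BM K n M) :
    z * a ∈ BM K n M := by
  obtain ⟨x, hx, y, hy, rfl⟩ := Submodule.mem_sup.1 hz
  rw [add_mul]
  refine Submodule.add_mem _ (Submodule.mem_sup_left (N.Com_right K a hx))
    (Submodule.mem_sup_right ?_)
  refine N.Basic_span_right _ a ?_ hy
  rintro z ⟨a', b, t, rfl⟩
  exact ⟨a', b * a, t, by simp only [mul_assoc]⟩

/-- PROOF. `s = n (M - 1) + 1` or any larger number: `Aug^s` is spanned by words of length `≥ s` (`Aug` is spanned by the words of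
length `≥ 1`), a word is congruent to the sorted word modulo `Com`, and one of the letters occurs at least `M` times, so the sorted
word is in `a x_t^M b`. (Or: the quotient `F / BM` is the commutative ring `K[x] / (x_t^M)`, in which the ideal generated by the
letters is nilpotent.) -/
theorem Aug_pow_le (K : Type u) [Field K] (n M : ℕ) (hM : 0 < M) :
    ∃ s, Aug K n ^ s ≤ BM K n M := by
  obtain ⟨A, iA, iA', π, hsurj, hπ⟩ := N.exists_quotient (BM K n M)
    (fun a z hz => RelIiiD_left M a hz) (fun a z hz => RelIiiD_right M a hz)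
  have hcomm : ∀ x y : A, x * y = y * x := by
    intro x y
    obtain ⟨p, rfl⟩ := hsurj x
    obtain ⟨q, rfl⟩ := hsurj y
    rw [← map_mul, ← map_mul, ← sub_eq_zero, ← map_sub, hπ]
    refine Submodule.mem_sup_left (Submodule.subset_span ⟨1, 1, p, q, ?_⟩)
    rw [one_mul, mul_one]
  have hx : ∀ t : Fin n, π (xx K t) ^ M = 0 := by
    intro t
    rw [← map_pow, hπ]
    refine Submodule.mem_sup_right (Submodule.subset_span ⟨1, 1, t, ?_⟩)
    rw [one_mul, mul_one]
  obtain ⟨s, hs⟩ := @RelIiiD_aux K _ n A { iA with mul_comm := hcomm } (π : FA K n →+* A) M hx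
  exact ⟨s, fun z hz => (hπ z).1 (hs z hz)⟩

end Pool.Agent.H.MP_f5ceca_al.S
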