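import Pool.Agent.H.MP_f5ceca_al.S.RelIiiC
import Pool.Agent.H.MP_f5ceca_al.S.RelIiiD

/-!
The relation (iii): `C^q J (F_+)^s J C^q ≤ T`.
-/

namespace Pool.Agent.H.MP_f5ceca_al.S

open MvPolynomial
open Pool.Agent.H.MP_f5ceca_al.N (FA xx Com Fil Aug)

universe u

variable {K : Type u} [Field K] {n : ℕ}

/-- PROOF. Descending induction on `j ≤ m`: there is `q` with `C^q J Com^j B^{m-j} J C^q ≤ T`, `B = BM`. For `j = m`:
`J Com^m J ≤ T` (`Base.h1`). Step: `Com^j B^{m-j} = Com^j B B^{m-j-1}`; the part of `B` in `Com` is covered by `j + 1`; for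
`a x_t^M b` apply `rel_iii_step` with `P = J Com^j F`, `P' = F B^{m-j-1} J` and `q'` from `j + 1`; take the maximum over `t`
(`Fil` is antitone). Finally `Aug^{s m} = (Aug^s)^m ≤ B^m`. -/
theorem rel_iii [CharZero K] {m M : ℕ} {T : Submodule K (FA K n)} (hT : Base m M T)
    (hD : Deep2 K n) :
    ∃ q s, Fil K n q * Jd K n * Aug K n ^ s * Jd K n * Fil K n q ≤ T := by
  have hJl : (⊤ : Submodule K (FA K n)) * Jd K n ≤ Jd K n :=
    Submodule.mul_le.2 fun a _ b hb => Jd_id.left a b hb
  have hJr : Jd K n * (⊤ : Submodule K (FA K n)) ≤ Jd K n :=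
    Submodule.mul_le.2 fun a ha b _ => Jd_id.right b a ha
  have hJl' : ∀ I : Submodule K (FA K n), I * Jd K n ≤ Jd K n := fun I =>
    (mul_le_mul' le_top le_rfl).trans hJl
  have hJr' : ∀ I : Submodule K (FA K n), Jd K n * I ≤ Jd K n := fun I =>
    (mul_le_mul' le_rfl le_top).trans hJr
  have hTl : ∀ I : Submodule K (FA K n), I * T ≤ T := fun I =>
    Submodule.mul_le.2 fun a _ b hb => hT.id.left a b hb
  have hTr : ∀ I : Submodule K (FA K n), T * I ≤ T := fun I =>
    Submodule.mul_le.2 fun a ha b _ => hT.id.right b a ha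
  have hCl : (⊤ : Submodule K (FA K n)) * Com K n ≤ Com K n :=
    Submodule.mul_le.2 fun a _ b hb => N.Com_left K a hb
  have hCr : Com K n * (⊤ : Submodule K (FA K n)) ≤ Com K n :=
    Submodule.mul_le.2 fun a ha b _ => N.Com_right K b ha
  have hBM : BM K n M ≤ Com K n ⊔
      ⨆ t : Fin n, (⊤ : Submodule K (FA K n)) * Submodule.span K {xx K t ^ M} * ⊤ := by
    unfold BM
    refine sup_le_sup_left ?_ _
    rw [Submodule.span_le]
    rintro z ⟨a, b, t, rfl⟩
    exact Submodule.mem_iSup_of_mem t (Submodule.mul_mem_mul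
      (Submodule.mul_mem_mul Submodule.mem_top (Submodule.mem_span_singleton_self _))
      Submodule.mem_top)
  -- the induction
  have key : ∀ i j : ℕ, i + j = m → ∃ q,
      Fil K n q * Jd K n * Com K n ^ j * BM K n M ^ i * Jd K n * Fil K n q ≤ T := by
    intro i
    induction i with
    | zero =>
      intro j hj
      refine ⟨0, ?_⟩
      have hjm : j = m := by omega
      have h1 : Jd K n * Com K n ^ j * Jd K n ≤ T := by
        refine le_trans ?_ hT.h1
        have h2 : Com K n ^ j ≤ Fil K n m := by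
          intro z hz
          have h3 := Submodule.mul_mem_mul (Submodule.mem_top (R := K) (x := (1 : FA K n))) hz
          rw [one_mul] at h3
          unfold Fil
          rw [← hjm]
          exact h3
        exact mul_le_mul' (mul_le_mul' le_rfl h2) le_rfl
      have h4 : Fil K n 0 * Jd K n * Com K n ^ j * BM K n M ^ 0 * Jd K n * Fil K n 0 =
          Fil K n 0 * (Jd K n * Com K n ^ j * Jd K n) * Fil K n 0 := by
        rw [pow_zero, mul_one]
        simp only [mul_assoc]
      rw [h4]
      exact (mul_le_mul' (mul_le_mul' le_rfl h1) le_rfl).trans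
        ((mul_le_mul' (hTl _) le_rfl).trans (hTr _))
    | succ i ih =>
      intro j hj
      obtain ⟨q', hq'⟩ := ih (j + 1) (by omega)
      have hP : Jd K n * Com K n ^ j * ⊤ ≤ Jd K n := by
        rw [mul_assoc]
        exact hJr' _
      have hP' : ⊤ * BM K n M ^ i * Jd K n ≤ Jd K n := hJl' _
      have hstep : ∀ t : Fin n, ∃ q, Fil K n q * (Jd K n * Com K n ^ j * ⊤) *
          Submodule.span K {xx K t ^ M} * (⊤ * BM K n M ^ i * Jd K n) * Fil K n q ≤ T := by
        intro t
        obtain ⟨q, hq⟩ := rel_iii_step hT hD q' _ _ hP hP' t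
        refine ⟨q, hq.trans (sup_le le_rfl (le_trans ?_ hq'))⟩
        have h5 : Fil K n q' * (Jd K n * Com K n ^ j * ⊤) * Com K n *
            (⊤ * BM K n M ^ i * Jd K n) * Fil K n q' =
            Fil K n q' * Jd K n * Com K n ^ j * (⊤ * Com K n * ⊤) * BM K n M ^ i * Jd K n *
              Fil K n q' := by
          simp only [mul_assoc]
        have h6 : Fil K n q' * Jd K n * Com K n ^ (j + 1) * BM K n M ^ i * Jd K n *
              Fil K n q' =
            Fil K n q' * Jd K n * Com K n ^ j * Com K n * BM K n M ^ i * Jd K n *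
              Fil K n q' := by
          rw [pow_succ]
          simp only [mul_assoc]
        rw [h5, h6]
        have h7 : (⊤ : Submodule K (FA K n)) * Com K n * ⊤ ≤ Com K n :=
          (mul_le_mul' hCl le_rfl).trans hCr
        exact mul_le_mul' (mul_le_mul' (mul_le_mul' (mul_le_mul' le_rfl h7) le_rfl) le_rfl) le_rfl
      choose f hf using hstep
      obtain ⟨q, hqdef⟩ : ∃ q, q = max q' (Finset.univ.sup f) := ⟨_, rfl⟩
      have hqq' : Fil K n q ≤ Fil K n q' := N.Fil_antitone K n (by
        rw [hqdef]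
        exact le_max_left _ _)
      have hqf : ∀ t, Fil K n q ≤ Fil K n (f t) := fun t => N.Fil_antitone K n (by
        rw [hqdef]
        exact (Finset.le_sup (f := f) (Finset.mem_univ t)).trans (le_max_right _ _))
      refine ⟨q, ?_⟩
      have h8 : Fil K n q * Jd K n * Com K n ^ j * BM K n M ^ (i + 1) * Jd K n * Fil K n q =
          Fil K n q * Jd K n * Com K n ^ j * BM K n M * (BM K n M ^ i * Jd K n * Fil K n q) := by
        rw [pow_succ']
        simp only [mul_assoc]
      rw [h8]
      refine (mul_le_mul' (mul_le_mul' le_rfl hBM) le_rfl).trans ?_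
      rw [Submodule.mul_sup, Submodule.sup_mul]
      refine sup_le ?_ ?_
      · refine le_trans ?_ hq'
        have h9 : Fil K n q * Jd K n * Com K n ^ j * Com K n *
            (BM K n M ^ i * Jd K n * Fil K n q) =
            Fil K n q * Jd K n * Com K n ^ (j + 1) * BM K n M ^ i * Jd K n * Fil K n q := by
          rw [pow_succ]
          simp only [mul_assoc]
        rw [h9]
        exact mul_le_mul' (mul_le_mul' (mul_le_mul' (mul_le_mul' (mul_le_mul' hqq' le_rfl)
          le_rfl) le_rfl) le_rfl) hqq'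
      · rw [Submodule.mul_iSup, Submodule.iSup_mul]
        refine iSup_le fun t => ?_
        refine le_trans ?_ (hf t)
        have h10 : Fil K n q * Jd K n * Com K n ^ j *
            (⊤ * Submodule.span K {xx K t ^ M} * ⊤) * (BM K n M ^ i * Jd K n * Fil K n q) =
            Fil K n q * (Jd K n * Com K n ^ j * ⊤) * Submodule.span K {xx K t ^ M} *
              (⊤ * BM K n M ^ i * Jd K n) * Fil K n q := by
          simp only [mul_assoc]
        rw [h10]
        exact mul_le_mul' (mul_le_mul' (mul_le_mul' (mul_le_mul' (hqf t) le_rfl) le_rfl) le_rfl)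
          (hqf t)
  obtain ⟨q, hq⟩ := key m 0 (by omega)
  obtain ⟨s, hs⟩ := Aug_pow_le K n M hT.Mpos
  refine ⟨q, s * m, le_trans ?_ hq⟩
  have h11 : Aug K n ^ (s * m) ≤ BM K n M ^ m := by
    rw [pow_mul]
    exact pow_le_pow_left' hs m
  rw [pow_zero, mul_one]
  exact mul_le_mul' (mul_le_mul' (mul_le_mul' le_rfl h11) le_rfl) le_rfl

end Pool.Agent.H.MP_f5ceca_al.S
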