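import Pool.Agent.H.MP_f5ceca_al.S.StA

/-!
Steps: finite generation of `C^q J Aug^r J C^q` modulo `J Aug^{r+1} J`.
-/

namespace Pool.Agent.H.MP_f5ceca_al.S

open MvPolynomial
open Pool.Agent.H.MP_f5ceca_al.N (FA xx Com Fil Aug)

universe u

variable {K : Type u} [Field K] {n : ℕ}

/-- The statement (FG) for the augmentation on both sides. -/
structure FgAug (K : Type u) [Field K] (n : ℕ) : Prop where
  right : ∃ (q : ℕ) (ν : Finset (FA K n)), (ν : Set (FA K n)) ⊆ Jd K n ∧
    Fil K n q * Jd K n ≤ (⊤ * Submodule.span K (ν : Set (FA K n))) ⊔ Jd K n * Aug K n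
  left : ∃ (q : ℕ) (ν : Finset (FA K n)), (ν : Set (FA K n)) ⊆ Jd K n ∧
    Jd K n * Fil K n q ≤ (Submodule.span K (ν : Set (FA K n)) * ⊤) ⊔ Aug K n * Jd K n

open scoped Pointwise

theorem StG2_Aug_mul : Aug K n * Aug K n ≤ Aug K n :=
  Submodule.mul_le.2 fun a _ _ hb => N.Aug_left a hb

theorem StG2_top_Jd : (⊤ : Submodule K (FA K n)) * Jd K n ≤ Jd K n := by
  refine Submodule.mul_le.2 fun a _ b hb => ?_
  rw [mem_Jd] at hb ⊢
  rw [map_mul, hb, mul_zero]

theorem StG2_Jd_top : Jd K n * (⊤ : Submodule K (FA K n)) ≤ Jd K n := by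
  refine Submodule.mul_le.2 fun a ha b _ => ?_
  rw [mem_Jd] at ha ⊢
  rw [map_mul, ha, zero_mul]

theorem StG2_pow_le (r : ℕ) : Aug K n ^ (r + 2) ≤ Aug K n ^ (r + 1) := by
  rw [pow_succ, pow_succ, mul_assoc]
  exact mul_le_mul' le_rfl StG2_Aug_mul

theorem StG2_gen1 (z : FA K n) :
    z - algebraMap K (FA K n) (FreeAlgebra.algebraMapInv z) ∈
      Submodule.span K (Set.range (xx K (n := n))) ⊔ Aug K n * Aug K n := by
  induction z using FreeAlgebra.induction with
  | grade0 r =>
    rw [FreeAlgebra.algebraMap_leftInverse r, sub_self]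
    exact Submodule.zero_mem _
  | grade1 x =>
    have h : (FreeAlgebra.algebraMapInv (FreeAlgebra.ι K x) : K) = 0 := by
      simp [FreeAlgebra.algebraMapInv]
    rw [h, map_zero, sub_zero]
    exact Submodule.mem_sup_left (Submodule.subset_span ⟨x, rfl⟩)
  | mul a b ha hb =>
    have hA : ∀ c : FA K n, c - algebraMap K (FA K n) (FreeAlgebra.algebraMapInv c) ∈ Aug K n := by
      intro c
      rw [N.Basic_mem_Aug, map_sub, FreeAlgebra.algebraMap_leftInverse, sub_self]
    have e : a * b - algebraMap K (FA K n) (FreeAlgebra.algebraMapInv (a * b)) =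
        (a - algebraMap K (FA K n) (FreeAlgebra.algebraMapInv a)) *
          (b - algebraMap K (FA K n) (FreeAlgebra.algebraMapInv b)) +
        ((FreeAlgebra.algebraMapInv a : K) •
            (b - algebraMap K (FA K n) (FreeAlgebra.algebraMapInv b)) +
          (FreeAlgebra.algebraMapInv b : K) •
            (a - algebraMap K (FA K n) (FreeAlgebra.algebraMapInv a))) := by
      rw [Algebra.smul_def, Algebra.smul_def, map_mul, map_mul,
        Algebra.commutes (FreeAlgebra.algebraMapInv b : K)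
          (a - algebraMap K (FA K n) (FreeAlgebra.algebraMapInv a))]
      noncomm_ring
    rw [e]
    exact Submodule.add_mem _ (Submodule.mem_sup_right (Submodule.mul_mem_mul (hA a) (hA b)))
      (Submodule.add_mem _ (Submodule.smul_mem _ _ hb) (Submodule.smul_mem _ _ ha))
  | add a b ha hb =>
    have e : a + b - algebraMap K (FA K n) (FreeAlgebra.algebraMapInv (a + b)) =
        (a - algebraMap K (FA K n) (FreeAlgebra.algebraMapInv a)) +
          (b - algebraMap K (FA K n) (FreeAlgebra.algebraMapInv b)) := by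
      rw [map_add, map_add]
      abel
    rw [e]
    exact Submodule.add_mem _ ha hb

theorem StG2_gen : Aug K n ≤
    Submodule.span K (Set.range (xx K (n := n))) ⊔ Aug K n * Aug K n := by
  intro z hz
  have h := StG2_gen1 z
  rw [N.Basic_mem_Aug] at hz
  rwa [hz, map_zero, sub_zero] at h

theorem StG2_words (r : ℕ) : ∃ W : Finset (FA K n),
    (W : Set (FA K n)) ⊆ (Aug K n ^ r : Submodule K (FA K n)) ∧
    Aug K n ^ r ≤ Submodule.span K (W : Set (FA K n)) ⊔ Aug K n ^ (r + 1) := by
  classical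
  induction r with
  | zero =>
    refine ⟨{1}, ?_, ?_⟩
    · rw [Finset.coe_singleton, Set.singleton_subset_iff, pow_zero]
      exact Submodule.one_le.1 le_rfl
    · rw [pow_zero, Finset.coe_singleton, Submodule.one_eq_span]
      exact le_sup_left
  | succ r ih =>
    obtain ⟨W, h1, h2⟩ := ih
    have hX : (Finset.univ.image (xx K (n := n)) : Set (FA K n)) ⊆ (Aug K n : Set (FA K n)) := by
      intro z hz
      obtain ⟨j, _, rfl⟩ := Finset.mem_image.1 (Finset.mem_coe.1 hz)
      exact N.xx_mem_Aug K j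
    have hg : Aug K n ≤ Submodule.span K
        (Finset.univ.image (xx K (n := n)) : Set (FA K n)) ⊔ Aug K n * Aug K n := by
      have h := StG2_gen (K := K) (n := n)
      rwa [← Set.image_univ, ← Finset.coe_univ, ← Finset.coe_image] at h
    refine ⟨W * Finset.univ.image (xx K (n := n)), ?_, ?_⟩
    · rw [Finset.coe_mul, pow_succ]
      rintro _ ⟨w, hw, x, hx, rfl⟩
      exact Submodule.mul_mem_mul (h1 hw) (hX hx)
    · have hW : Submodule.span K (W : Set (FA K n)) ≤ Aug K n ^ r := Submodule.span_le.2 h1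
      have hX' : Submodule.span K (Finset.univ.image (xx K (n := n)) : Set (FA K n)) ≤ Aug K n :=
        Submodule.span_le.2 hX
      have h3 := mul_le_mul' h2 hg
      rw [← pow_succ] at h3
      refine h3.trans ?_
      rw [Submodule.sup_mul, Submodule.mul_sup, Submodule.mul_sup, Submodule.span_mul_span,
        Finset.coe_mul]
      refine sup_le (sup_le le_sup_left ?_) (sup_le ?_ ?_)
      · refine le_trans ?_ le_sup_right
        rw [pow_succ (Aug K n) (r + 1), pow_succ (Aug K n) r, mul_assoc]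
        exact mul_le_mul' hW le_rfl
      · refine le_trans ?_ le_sup_right
        rw [pow_succ (Aug K n) (r + 1)]
        exact mul_le_mul' le_rfl hX'
      · refine le_trans ?_ le_sup_right
        rw [pow_succ (Aug K n) (r + 1)]
        exact mul_le_mul' le_rfl StG2_Aug_mul

theorem StG2_tsp (Y : Set (FA K n)) :
    (⊤ : Submodule K (FA K n)) * Submodule.span K Y * ⊤ ≤ tsp Y := by
  have h := tsp_id Y
  refine Submodule.mul_le.2 fun a ha b _ => h.right b a ?_
  have h2 : (⊤ : Submodule K (FA K n)) * Submodule.span K Y ≤ tsp Y := by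
    refine Submodule.mul_le.2 fun c _ d hd => h.left c d ?_
    exact Submodule.span_le.2 (subset_tsp Y) hd
  exact h2 ha

/-- PROOF. `Aug^r ≤ span (words of length r) + Aug^{r+1}` (induction on `r`; `Aug = span (letters) + Aug^2`, as
`Aug = ∑ x_j F`, `F = K + Aug`). With `FgAug`:
`C^q J Aug^r J C^q ≤ (F ν + J Aug) Aug^r (ν' F + Aug J) ≤ F ν Aug^r ν' F + J Aug^{r+1} J`, and
`ν Aug^r ν' ≤ span (ν W ν') + J Aug^{r+1} J`. `Y = {ν w ν'}`, `w` a word of length `r`. -/
theorem aug_fg (hF : FgAug K n) (r : ℕ) : ∃ (q : ℕ) (Y : Finset (FA K n)),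
    (Y : Set (FA K n)) ⊆ (Jd K n * Aug K n ^ r * Jd K n : Submodule K (FA K n)) ∧
    Fil K n q * (Jd K n * Aug K n ^ r * Jd K n) * Fil K n q ≤
      tsp (Y : Set (FA K n)) ⊔ Jd K n * Aug K n ^ (r + 1) * Jd K n := by
  classical
  obtain ⟨q₁, ν, hν, h1⟩ := hF.right
  obtain ⟨q₂, ν', hν', h2⟩ := hF.left
  obtain ⟨W, hW, h3⟩ := StG2_words (K := K) (n := n) r
  have hq₁ : Fil K n (max q₁ q₂) ≤ Fil K n q₁ := N.Fil_antitone K n (le_max_left _ _)
  have hq₂ : Fil K n (max q₁ q₂) ≤ Fil K n q₂ := N.Fil_antitone K n (le_max_right _ _)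
  have hs : Submodule.span K (ν : Set (FA K n)) ≤ Jd K n := Submodule.span_le.2 hν
  have hs' : Submodule.span K (ν' : Set (FA K n)) ≤ Jd K n := Submodule.span_le.2 hν'
  have ht : (⊤ : Submodule K (FA K n)) * Submodule.span K (ν : Set (FA K n)) ≤ Jd K n :=
    (mul_le_mul' le_rfl hs).trans StG2_top_Jd
  have ht' : Submodule.span K (ν' : Set (FA K n)) * (⊤ : Submodule K (FA K n)) ≤ Jd K n :=
    (mul_le_mul' hs' le_rfl).trans StG2_Jd_top
  refine ⟨max q₁ q₂, ν * W * ν', ?_, ?_⟩
  · rw [Finset.coe_mul, Finset.coe_mul]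
    rintro _ ⟨_, ⟨x, hx, w, hw, rfl⟩, y, hy, rfl⟩
    exact Submodule.mul_mem_mul (Submodule.mul_mem_mul (hν hx) (hW hw)) (hν' hy)
  · set T : Submodule K (FA K n) := tsp ((ν * W * ν' : Finset (FA K n)) : Set (FA K n)) ⊔
      Jd K n * Aug K n ^ (r + 1) * Jd K n with hT
    have hJ : Jd K n * Aug K n ^ (r + 1) * Jd K n ≤ T := le_sup_right
    have e1 : Fil K n (max q₁ q₂) * (Jd K n * Aug K n ^ r * Jd K n) * Fil K n (max q₁ q₂) =
        (Fil K n (max q₁ q₂) * Jd K n) * (Aug K n ^ r) * (Jd K n * Fil K n (max q₁ q₂)) := by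
      simp only [mul_assoc]
    have h4 : Fil K n (max q₁ q₂) * Jd K n ≤
        (⊤ * Submodule.span K (ν : Set (FA K n))) ⊔ Jd K n * Aug K n :=
      (mul_le_mul' hq₁ le_rfl).trans h1
    have h5 : Jd K n * Fil K n (max q₁ q₂) ≤
        (Submodule.span K (ν' : Set (FA K n)) * ⊤) ⊔ Aug K n * Jd K n :=
      (mul_le_mul' le_rfl hq₂).trans h2
    rw [e1]
    refine (mul_le_mul' (mul_le_mul' h4 le_rfl) h5).trans ?_
    rw [Submodule.sup_mul, Submodule.sup_mul, Submodule.mul_sup, Submodule.mul_sup]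
    have eA : Aug K n ^ r * Aug K n = Aug K n ^ (r + 1) := (pow_succ _ _).symm
    have eA' : Aug K n * Aug K n ^ r = Aug K n ^ (r + 1) := (pow_succ' _ _).symm
    refine sup_le (sup_le ?_ ?_) (sup_le ?_ ?_)
    · have h6 := mul_le_mul' (mul_le_mul' (le_refl (⊤ * Submodule.span K (ν : Set (FA K n)))) h3)
        (le_refl (Submodule.span K (ν' : Set (FA K n)) * ⊤))
      refine h6.trans ?_
      rw [Submodule.mul_sup, Submodule.sup_mul]
      refine sup_le (le_trans ?_ le_sup_left) (le_trans ?_ hJ)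
      · have e2 : ⊤ * Submodule.span K (ν : Set (FA K n)) * Submodule.span K (W : Set (FA K n)) *
            (Submodule.span K (ν' : Set (FA K n)) * ⊤) =
            ⊤ * Submodule.span K ((ν * W * ν' : Finset (FA K n)) : Set (FA K n)) * ⊤ := by
          rw [Finset.coe_mul, Finset.coe_mul, ← Submodule.span_mul_span, ← Submodule.span_mul_span]
          simp only [mul_assoc]
        rw [e2]
        exact StG2_tsp _
      · exact mul_le_mul' (mul_le_mul' ht le_rfl) ht'
    · rw [← mul_assoc, mul_assoc (⊤ * Submodule.span K (ν : Set (FA K n))), eA]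
      exact (mul_le_mul' (mul_le_mul' ht le_rfl) le_rfl).trans hJ
    · rw [mul_assoc (Jd K n), eA']
      exact (mul_le_mul' le_rfl ht').trans hJ
    · rw [mul_assoc (Jd K n), eA', ← mul_assoc, mul_assoc (Jd K n), ← pow_succ]
      exact (mul_le_mul' (mul_le_mul' le_rfl (StG2_pow_le r)) le_rfl).trans hJ

end Pool.Agent.H.MP_f5ceca_al.S
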