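import Pool.Agent.H.MP_f5ceca_al.S.StG
import Pool.Agent.H.MP_f5ceca_al.S.StG2
import Pool.Agent.H.MP_f5ceca_al.S.RelIii

/-!
Steps: the step (E).
-/

namespace Pool.Agent.H.MP_f5ceca_al.S

open MvPolynomial
open Pool.Agent.H.MP_f5ceca_al.N (FA xx Com Fil Aug)

universe u

variable {K : Type u} [Field K] {n : ℕ}

theorem StE_left {I I' : Submodule K (FA K n)} (h : ∀ a : FA K n, ∀ z ∈ I, a * z ∈ I)
    (a : FA K n) (z : FA K n) (hz : z ∈ I * I') : a * z ∈ I * I' := by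
  induction hz using Submodule.mul_induction_on' with
  | mem_mul_mem p hp q hq =>
    rw [← mul_assoc]
    exact Submodule.mul_mem_mul (h a p hp) hq
  | add x _ y _ hx hy =>
    rw [mul_add]
    exact add_mem hx hy

theorem StE_mulr {I : Submodule K (FA K n)} (h : IsId I) (A : Submodule K (FA K n)) :
    A * I ≤ I := Submodule.mul_le.2 fun a _ z hz => h.left a z hz

theorem StE_mull {I : Submodule K (FA K n)} (h : IsId I) (A : Submodule K (FA K n)) :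
    I * A ≤ I := Submodule.mul_le.2 fun z hz a _ => h.right a z hz

theorem StE_JAJ (r : ℕ) : IsId (Jd K n * Aug K n ^ r * Jd K n) :=
  IsId.mul (fun a z hz => StE_left Jd_id.left a z hz) Jd_id.right

theorem StE_anti : Antitone fun r : ℕ => Jd K n * Aug K n ^ r * Jd K n := by
  refine antitone_nat_of_succ_le fun r => ?_
  rw [pow_succ', ← mul_assoc]
  exact mul_le_mul' (mul_le_mul' (StE_mull Jd_id _) le_rfl) le_rfl

theorem StE_Jd_Aug [CharZero K] : Jd K n ≤ Aug K n := Jd_le_Com.trans (N.Com_le_Aug K n)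

/-- PROOF. Descending induction on `r ≤ s`, `s` from `rel_iii` (`Y = ∅` for `r = s`), with `gen_step` for
`X = J Aug^r J`, `X' = J Aug^{r+1} J` and `aug_fg` (`J X ≤ X'` because `J ≤ Aug`). -/
theorem genE_aux [CharZero K] {m M : ℕ} {T : Submodule K (FA K n)} (hT : Base m M T)
    (hD : Deep2 K n) {S2 : Side (rho2 K n)} (hS : Deep1 S2) (hF : FgAug K n) (r : ℕ) :
    ∃ (q : ℕ) (Y : Finset (FA K n)),
      (Y : Set (FA K n)) ⊆ (Fil K n m * Jd K n * Fil K n m : Submodule K (FA K n)) ∧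
      Fil K n q * (Jd K n * Aug K n ^ r * Jd K n) * Fil K n q ≤ T ⊔ tsp (Y : Set (FA K n)) := by
  obtain ⟨q0, s, h0⟩ := rel_iii hT hD
  have key : ∀ j r, s ≤ r + j → ∃ (q : ℕ) (Y : Finset (FA K n)),
      (Y : Set (FA K n)) ⊆ (Fil K n m * Jd K n * Fil K n m : Submodule K (FA K n)) ∧
      Fil K n q * (Jd K n * Aug K n ^ r * Jd K n) * Fil K n q ≤
        T ⊔ tsp (Y : Set (FA K n)) := by
    intro j
    induction j with
    | zero =>
      intro r hr
      refine ⟨q0, ∅, by simp, ?_⟩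
      refine le_trans ?_ le_sup_left
      refine le_trans ?_ h0
      have h1 := mul_le_mul' (mul_le_mul' (le_refl (Fil K n q0))
        (StE_anti (K := K) (n := n) (show s ≤ r from hr))) (le_refl (Fil K n q0))
      simpa only [mul_assoc] using h1
    | succ j ih =>
      intro r hr
      obtain ⟨q₀, Y₀, hY₀, h₀⟩ := ih (r + 1) (by omega)
      obtain ⟨q₁, Y₁, hY₁, h₁⟩ := aug_fg hF r
      refine gen_step hT.id hS (StE_JAJ r) (StE_JAJ (r + 1)) (StE_mulr Jd_id _) ?_ ?_ hY₀ h₀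
        hY₁ h₁
      · rw [pow_succ', ← mul_assoc, ← mul_assoc, ← mul_assoc]
        exact mul_le_mul' (mul_le_mul' (mul_le_mul' le_rfl StE_Jd_Aug)
          le_rfl) le_rfl
      · rw [pow_succ, mul_assoc (Jd K n * Aug K n ^ r), ← mul_assoc (Jd K n),
          mul_assoc (Jd K n * Aug K n ^ r)]
        exact mul_le_mul' le_rfl (mul_le_mul' StE_Jd_Aug le_rfl)
  exact key s r (by omega)

/-- PROOF. `gen_step` for `X = J`, `X' = J * J = J Aug^0 J` with `genE_aux` for `r = 0`, and `hF2`. -/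
theorem genE [CharZero K] {m M : ℕ} {T : Submodule K (FA K n)} (hT : Base m M T)
    (hD : Deep2 K n) {S2 : Side (rho2 K n)} (hS : Deep1 S2) (hF : FgAug K n)
    (hF2 : ∃ (q : ℕ) (ν : Finset (FA K n)), (ν : Set (FA K n)) ⊆ Jd K n ∧
      Fil K n q * Jd K n * Fil K n q ≤ tsp (ν : Set (FA K n)) ⊔ Jd K n * Jd K n) :
    ∃ (q : ℕ) (Y : Finset (FA K n)),
      (Y : Set (FA K n)) ⊆ (Fil K n m * Jd K n * Fil K n m : Submodule K (FA K n)) ∧
      Fil K n q * Jd K n * Fil K n q ≤ T ⊔ tsp (Y : Set (FA K n)) := by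
  obtain ⟨q₀, Y₀, hY₀, h₀⟩ := genE_aux hT hD hS hF 0
  rw [pow_zero, mul_one] at h₀
  obtain ⟨q₁, ν, hν, h₁⟩ := hF2
  exact gen_step hT.id hS Jd_id (IsId.mul Jd_id.left Jd_id.right) le_rfl le_rfl le_rfl hY₀ h₀
    hν h₁

/-- **Step (E).** PROOF. `Y` from `genE`; `J Y ≤ J C^m J ≤ T`, `Y J ≤ T`. For `r` take `q'` from `amp22`; then
`C^{q'+q} J C^{q+q'} ≤ C^{q'} (T + tsp Y) C^{q'} ≤ T + Xsp`. -/
theorem step_E [CharZero K] {m M : ℕ} {T : Submodule K (FA K n)} (hT : Base m M T)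
    (hD : Deep2 K n) {S2 : Side (rho2 K n)} (hS : Deep1 S2) (hF : FgAug K n)
    (hF2 : ∃ (q : ℕ) (ν : Finset (FA K n)), (ν : Set (FA K n)) ⊆ Jd K n ∧
      Fil K n q * Jd K n * Fil K n q ≤ tsp (ν : Set (FA K n)) ⊔ Jd K n * Jd K n) :
    ∃ Y : Finset (FA K n), (∀ y ∈ Y, ∀ z, rho2 K n z = 0 → z * y ∈ T) ∧
      (∀ y ∈ Y, ∀ z, rho2 K n z = 0 → y * z ∈ T) ∧
      ∀ r, ∃ q, Fil K n q * Jd K n * Fil K n q ≤ T ⊔ Xsp S2 S2 (Y : Set (FA K n)) r := by
  obtain ⟨q, Y, hY, h⟩ := genE hT hD hS hF hF2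
  have hl : ∀ y ∈ Y, ∀ z, rho2 K n z = 0 → z * y ∈ T := by
    intro y hy z hz
    have h1 : z * y ∈ Jd K n * (Fil K n m * Jd K n * Fil K n m) :=
      Submodule.mul_mem_mul (mem_Jd.2 hz) (hY (Finset.mem_coe.2 hy))
    rw [← mul_assoc, ← mul_assoc] at h1
    exact StE_mull hT.id _ (mul_le_mul' hT.h1 le_rfl h1)
  have hr : ∀ y ∈ Y, ∀ z, rho2 K n z = 0 → y * z ∈ T := by
    intro y hy z hz
    have h1 : y * z ∈ (Fil K n m * Jd K n * Fil K n m) * Jd K n :=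
      Submodule.mul_mem_mul (hY (Finset.mem_coe.2 hy)) (mem_Jd.2 hz)
    rw [mul_assoc, mul_assoc, ← mul_assoc (Jd K n)] at h1
    exact StE_mulr hT.id _ (mul_le_mul' le_rfl hT.h1 h1)
  refine ⟨Y, hl, hr, fun r => ?_⟩
  obtain ⟨q', hq'⟩ := amp22 hS hT.id (fun y hy z hz => hl y (Finset.mem_coe.1 hy) z (mem_Jd.1 hz))
    (fun y hy z hz => hr y (Finset.mem_coe.1 hy) z (mem_Jd.1 hz)) r
  refine ⟨q' + q, ?_⟩
  have e1 : Fil K n (q' + q) * Jd K n * Fil K n (q' + q) =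
      Fil K n q' * (Fil K n q * Jd K n * Fil K n q) * Fil K n q' := by
    rw [← Fil_mul q' q]
    nth_rewrite 2 [Fil_mul q' q]
    rw [add_comm q' q, ← Fil_mul q q']
    simp only [mul_assoc]
  rw [e1]
  refine (mul_le_mul' (mul_le_mul' le_rfl h) le_rfl).trans ?_
  rw [Submodule.mul_sup, Submodule.sup_mul]
  refine sup_le ?_ hq'
  exact ((StE_mull hT.id _).trans' (mul_le_mul' (StE_mulr hT.id _) le_rfl)).trans
    le_sup_left

end Pool.Agent.H.MP_f5ceca_al.S
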