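import Pool.Agent.H.MP_f5ceca_al.S.StL2

/-!
Steps: the steps (L_i).
-/

namespace Pool.Agent.H.MP_f5ceca_al.S

open MvPolynomial
open Pool.Agent.H.MP_f5ceca_al.N (FA xx Com Fil Aug)

universe u

variable {K : Type u} [Field K] {n : ℕ}

theorem StL_mulr {I : Submodule K (FA K n)} (h : IsId I) (A : Submodule K (FA K n)) :
    A * I ≤ I := Submodule.mul_le.2 fun a _ z hz => h.left a z hz

theorem StL_mull {I : Submodule K (FA K n)} (h : IsId I) (A : Submodule K (FA K n)) :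
    I * A ≤ I := Submodule.mul_le.2 fun z hz a _ => h.right a z hz

/-- `J V ≤ J C^{i+1}` -/
theorem StL_JV [CharZero K] {i : ℕ} {V : Set (FA K n)}
    (hV : V ⊆ (Jd K n * Fil K n i : Submodule K (FA K n))) :
    Jd K n * Submodule.span K V ≤ Jd K n * Fil K n (i + 1) := by
  refine (mul_le_mul' le_rfl (Submodule.span_le.2 hV)).trans ?_
  refine mul_le_mul' le_rfl ?_
  rw [add_comm i 1, ← Fil_mul, N.Fil_one]
  exact mul_le_mul' Jd_le_Com le_rfl

/-- PROOF. Let `q₂ = max q₀ m`; `Deep1` with `r = 0`, `q' = q₂` gives `q₃` and a finite `G ≤ C^{q₂}` with `C^{q₃} ≤ F G + J`. `V` from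
`layer_gen`, `Y = {g v | g ∈ G, v ∈ V}`. `C^{q₀+q₃} V F ≤ C^{q₀} (F G + J) V F ≤ tsp Y + C^{q₀} J V F`, and
`J V ≤ J J C^i ≤ J C^{i+1}`, so the last term is in `T'`. `q` from `layer_gen` for `q' = q₀ + q₃`. `Y ≤ C^{q₂} J C^i`. -/
theorem genL [CharZero K] {m M : ℕ} {T' : Submodule K (FA K n)} (hT : Base m M T')
    (hD : Deep2 K n) {S2 : Side (rho2 K n)} (hS : Deep1 S2)
    (hF : ∃ (q : ℕ) (ν : Finset (FA K n)), (ν : Set (FA K n)) ⊆ Jd K n ∧
      Fil K n q * Jd K n ≤ tsp (ν : Set (FA K n)) ⊔ Jd K n * Com K n) (i q₀ : ℕ)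
    (h₀ : Fil K n q₀ * Jd K n * Fil K n (i + 1) ≤ T') :
    ∃ (q : ℕ) (Y : Finset (FA K n)),
      (Y : Set (FA K n)) ⊆ (Fil K n (max q₀ m) * Jd K n * Fil K n i : Submodule K (FA K n)) ∧
      Fil K n q * Jd K n * Fil K n i ≤ T' ⊔ tsp (Y : Set (FA K n)) := by
  classical
  obtain ⟨q₃, G, hG1, hG2⟩ := hS 0 (max q₀ m)
  obtain ⟨V, hV1, hV2⟩ := layer_gen hT hD hF i
  obtain ⟨q, hq⟩ := hV2 (q₀ + q₃)
  have hYmem : ∀ g ∈ G, ∀ v ∈ V, g * v ∈ (G ×ˢ V).image fun p => p.1 * p.2 := fun g hg v hv =>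
    Finset.mem_image.2 ⟨(g, v), Finset.mem_product.2 ⟨hg, hv⟩, rfl⟩
  refine ⟨q, (G ×ˢ V).image fun p => p.1 * p.2, ?_, ?_⟩
  · intro y hy
    obtain ⟨p, hp, rfl⟩ := Finset.mem_image.1 (Finset.mem_coe.1 hy)
    rw [Finset.mem_product] at hp
    have h1 : p.1 * p.2 ∈ Fil K n (max q₀ m) * (Jd K n * Fil K n i) :=
      Submodule.mul_mem_mul (hG1 p.1 hp.1).1 (hV1 (Finset.mem_coe.2 hp.2))
    rw [← mul_assoc] at h1
    exact h1
  · generalize hY : (G ×ˢ V).image (fun p => p.1 * p.2) = Y at hYmem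
    refine hq.trans (sup_le ?_ (sup_le le_sup_left ?_))
    · rw [← Fil_mul, mul_assoc, mul_assoc]
      have h1 : Fil K n q₃ * (Submodule.span K (V : Set (FA K n)) * ⊤) ≤
          (⊤ * Submodule.span K (G : Set (FA K n)) ⊔ Jd K n) *
            (Submodule.span K (V : Set (FA K n)) * ⊤) := mul_le_mul' hG2 le_rfl
      refine (mul_le_mul' le_rfl h1).trans ?_
      rw [Submodule.sup_mul, Submodule.mul_sup]
      refine sup_le ?_ ?_
      · refine le_trans ?_ le_sup_right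
        refine (StL_mulr (tsp_id (Y : Set (FA K n))) _).trans' (mul_le_mul' le_rfl ?_)
        rw [← mul_assoc]
        refine (StL_mull (tsp_id (Y : Set (FA K n))) _).trans' (mul_le_mul' ?_ le_rfl)
        rw [mul_assoc]
        refine (StL_mulr (tsp_id (Y : Set (FA K n))) _).trans' (mul_le_mul' le_rfl ?_)
        rw [Submodule.span_mul_span, Submodule.span_le]
        rintro _ ⟨g, hg, v, hv, rfl⟩
        exact subset_tsp _ (Finset.mem_coe.2 (hYmem g (Finset.mem_coe.1 hg) v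
          (Finset.mem_coe.1 hv)))
      · refine le_trans ?_ le_sup_left
        rw [← mul_assoc (Jd K n), ← mul_assoc]
        refine (StL_mull hT.id _).trans' (mul_le_mul' ?_ le_rfl)
        refine (mul_le_mul' le_rfl (StL_JV hV1)).trans ?_
        rw [← mul_assoc]
        exact h₀
    · refine le_trans (le_trans ?_ h₀) le_sup_left
      exact mul_le_mul' (mul_le_mul' (N.Fil_antitone K n (Nat.le_add_right q₀ q₃)) le_rfl) le_rfl

/-- **Step (L_i).** PROOF. `Y` from `genL`; `J Y ≤ J C^m J C^i ≤ T'`; `Y Com ≤ C^{q₀} J C^{i+1} ≤ T'` (`rho1_ker`); `amp21`. -/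
theorem step_L [CharZero K] {m M : ℕ} {T' : Submodule K (FA K n)} (hT : Base m M T')
    (hD : Deep2 K n) {S2 : Side (rho2 K n)} (hS : Deep1 S2)
    (hF : ∃ (q : ℕ) (ν : Finset (FA K n)), (ν : Set (FA K n)) ⊆ Jd K n ∧
      Fil K n q * Jd K n ≤ tsp (ν : Set (FA K n)) ⊔ Jd K n * Com K n) (i q₀ : ℕ)
    (h₀ : Fil K n q₀ * Jd K n * Fil K n (i + 1) ≤ T') :
    ∃ Y : Finset (FA K n), (∀ y ∈ Y, ∀ z, rho2 K n z = 0 → z * y ∈ T') ∧
      (∀ y ∈ Y, ∀ z, rho1 K n z = 0 → y * z ∈ T') ∧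
      ∀ r, ∃ q, Fil K n q * Jd K n * Fil K n i ≤
        T' ⊔ Xsp S2 (side1 K n) (Y : Set (FA K n)) r := by
  obtain ⟨q, Y, hY, h⟩ := genL hT hD hS hF i q₀ h₀
  have hl : ∀ y ∈ Y, ∀ z, rho2 K n z = 0 → z * y ∈ T' := by
    intro y hy z hz
    have h1 : z * y ∈ Jd K n * (Fil K n (max q₀ m) * Jd K n * Fil K n i) :=
      Submodule.mul_mem_mul (mem_Jd.2 hz) (hY (Finset.mem_coe.2 hy))
    rw [← mul_assoc, ← mul_assoc] at h1
    have h2 : Jd K n * Fil K n (max q₀ m) * Jd K n ≤ T' :=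
      (mul_le_mul' (mul_le_mul' le_rfl (N.Fil_antitone K n (le_max_right q₀ m)))
        le_rfl).trans hT.h1
    exact StL_mull hT.id _ (mul_le_mul' h2 le_rfl h1)
  have hr : ∀ y ∈ Y, ∀ z, rho1 K n z = 0 → y * z ∈ T' := by
    intro y hy z hz
    have h1 : y * z ∈ (Fil K n (max q₀ m) * Jd K n * Fil K n i) * Com K n :=
      Submodule.mul_mem_mul (hY (Finset.mem_coe.2 hy)) (rho1_ker hz)
    rw [mul_assoc, ← N.Fil_succ] at h1
    exact h₀ (mul_le_mul' (mul_le_mul' (N.Fil_antitone K n (le_max_left q₀ m)) le_rfl)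
      le_rfl h1)
  refine ⟨Y, hl, hr, fun r => ?_⟩
  obtain ⟨q', hq'⟩ := amp21 hS hT.id
    (fun y hy z hz => hl y (Finset.mem_coe.1 hy) z (mem_Jd.1 hz)) r
  refine ⟨q' + q, ?_⟩
  rw [← Fil_mul q' q, mul_assoc, mul_assoc, ← mul_assoc (Fil K n q)]
  refine (mul_le_mul' le_rfl h).trans ?_
  rw [Submodule.mul_sup]
  exact sup_le ((StL_mulr hT.id _).trans le_sup_left) hq'

end Pool.Agent.H.MP_f5ceca_al.S
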