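import Pool.Agent.H.MP_f5ceca_al.S.StA

/-!
Steps: the last step.
-/

namespace Pool.Agent.H.MP_f5ceca_al.S

open MvPolynomial
open Pool.Agent.H.MP_f5ceca_al.N (FA xx Com Fil Aug)

universe u

variable {K : Type u} [Field K] {n : ℕ}

theorem StP_Fil_add (a b : ℕ) : Fil K n (a + b) ≤ Fil K n a * Fil K n b := by
  induction b with
  | zero =>
    rw [N.Fil_zero]
    intro z hz
    have h := Submodule.mul_mem_mul (M := Fil K n a) (N := (⊤ : Submodule K (FA K n))) hz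
      (Submodule.mem_top (x := (1 : FA K n)))
    rwa [mul_one] at h
  | succ b ih =>
    rw [← add_assoc, N.Fil_succ, N.Fil_succ, ← mul_assoc]
    exact mul_le_mul' ih le_rfl

/-- **Step (P).** PROOF. `Deep1` with `r = 0`, `q' = q₀`: `Y = G ≤ C^{q₀}`, `C^q ≤ F G + J`. `J Y ≤ J C^{q₀} ≤ T'`, `Y J ≤ T'`,
`C^{q₀+q} ≤ C^{q₀} (F G + J) ≤ tsp Y + T'`. For `r` take `q'` from `amp22`: `C^{q'+q₀+q+q'} ≤ C^{q'} (tsp Y + T') C^{q'} ≤ T' + Xsp`. -/
theorem step_P {T' : Submodule K (FA K n)} (hT : IsId T') {S2 : Side (rho2 K n)}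
    (hS : Deep1 S2) (q₀ : ℕ) (h₁ : Fil K n q₀ * Jd K n ≤ T') (h₂ : Jd K n * Fil K n q₀ ≤ T') :
    ∃ Y : Finset (FA K n), (∀ y ∈ Y, ∀ z, rho2 K n z = 0 → z * y ∈ T') ∧
      (∀ y ∈ Y, ∀ z, rho2 K n z = 0 → y * z ∈ T') ∧
      ∀ r, ∃ q, Fil K n q ≤ T' ⊔ Xsp S2 S2 (Y : Set (FA K n)) r := by
  obtain ⟨q, G, hG, hq⟩ := hS 0 q₀
  have hl : ∀ y ∈ G, ∀ z, rho2 K n z = 0 → z * y ∈ T' := fun y hy z hz =>
    h₂ (Submodule.mul_mem_mul (mem_Jd.2 hz) (hG y hy).1)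
  have hr : ∀ y ∈ G, ∀ z, rho2 K n z = 0 → y * z ∈ T' := fun y hy z hz =>
    h₁ (Submodule.mul_mem_mul (hG y hy).1 (mem_Jd.2 hz))
  refine ⟨G, hl, hr, fun r => ?_⟩
  obtain ⟨q', hq'⟩ := amp22 hS hT (Y := (G : Set (FA K n)))
    (fun y hy z hz => hl y hy z (mem_Jd.1 hz)) (fun y hy z hz => hr y hy z (mem_Jd.1 hz)) r
  refine ⟨q' + (q₀ + q) + q', ?_⟩
  have e1 : Fil K n q₀ * Fil K n q ≤ tsp (G : Set (FA K n)) ⊔ T' := by
    refine (mul_le_mul' le_rfl hq).trans ?_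
    rw [Submodule.mul_sup]
    refine sup_le_sup ?_ h₁
    refine Submodule.mul_le.2 fun a _ z hz => (tsp_id _).left a z ?_
    refine (Submodule.mul_le.2 fun f _ w hw => (tsp_id _).left f w ?_ :
      (⊤ : Submodule K (FA K n)) * Submodule.span K (G : Set (FA K n)) ≤
        tsp (G : Set (FA K n))) hz
    exact (Submodule.span_le.2 (subset_tsp _)) hw
  have e2 : Fil K n q' * T' * Fil K n q' ≤ T' := by
    refine Submodule.mul_le.2 fun a ha b _ => hT.right b a ?_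
    exact (Submodule.mul_le.2 fun f _ w hw => hT.left f w hw : Fil K n q' * T' ≤ T') ha
  calc Fil K n (q' + (q₀ + q) + q') ≤ Fil K n (q' + (q₀ + q)) * Fil K n q' := StP_Fil_add _ _
    _ ≤ Fil K n q' * (Fil K n q₀ * Fil K n q) * Fil K n q' :=
        mul_le_mul' ((StP_Fil_add _ _).trans (mul_le_mul' le_rfl (StP_Fil_add _ _))) le_rfl
    _ ≤ Fil K n q' * (tsp (G : Set (FA K n)) ⊔ T') * Fil K n q' :=
        mul_le_mul' (mul_le_mul' le_rfl e1) le_rfl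
    _ ≤ T' ⊔ Xsp S2 S2 (G : Set (FA K n)) r := by
        rw [Submodule.mul_sup, Submodule.sup_mul]
        exact sup_le hq' (e2.trans le_sup_left)

end Pool.Agent.H.MP_f5ceca_al.S
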