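import Pool.Agent.H.MP_f5ceca_al.S.StR2

/-!
Steps: the steps (R_i), mirror images of the steps (L_i). (Mirror image of `S/StL`.)
-/

namespace Pool.Agent.H.MP_f5ceca_al.S

open MvPolynomial
open Pool.Agent.H.MP_f5ceca_al.N (FA xx Com Fil Aug)

universe u

variable {K : Type u} [Field K] {n : ℕ}

theorem StR_swap {S2 : Side (rho2 K n)} {r : ℕ} {G : Set (FA K n)}
    (hG : ∀ g ∈ G, g ∈ S2.D r) :
    (⊤ : Submodule K (FA K n)) * Submodule.span K G ⊔ Jd K n ≤
      Submodule.span K G * ⊤ ⊔ Jd K n := by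
  refine sup_le (Submodule.mul_le.2 fun f _ s hs => ?_) le_sup_right
  induction hs using Submodule.span_induction with
  | mem g hg =>
    have e : f * g = g * f + (f * g - g * f) := by abel
    rw [e]
    exact Submodule.add_mem_sup
      (Submodule.mul_mem_mul (Submodule.subset_span hg) Submodule.mem_top)
      (StA_comm (hG g hg) f)
  | zero =>
    rw [mul_zero]
    exact zero_mem _
  | add x y _ _ hx hy =>
    rw [mul_add]
    exact add_mem hx hy
  | smul k x _ hx =>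
    rw [mul_smul_comm]
    exact Submodule.smul_mem _ k hx

/-- Mirror image of `genL`. -/
theorem genR [CharZero K] {m M : ℕ} {T' : Submodule K (FA K n)} (hT : Base m M T')
    (hD : Deep2 K n) {S2 : Side (rho2 K n)} (hS : Deep1 S2)
    (hF : ∃ (q : ℕ) (ν : Finset (FA K n)), (ν : Set (FA K n)) ⊆ Jd K n ∧
      Jd K n * Fil K n q ≤ tsp (ν : Set (FA K n)) ⊔ Com K n * Jd K n) (i q₀ : ℕ)
    (h₀ : Fil K n (i + 1) * Jd K n * Fil K n q₀ ≤ T') :
    ∃ (q : ℕ) (Y : Finset (FA K n)),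
      (Y : Set (FA K n)) ⊆ (Fil K n i * Jd K n * Fil K n (max q₀ m) : Submodule K (FA K n)) ∧
      Fil K n i * Jd K n * Fil K n q ≤ T' ⊔ tsp (Y : Set (FA K n)) := by
  classical
  obtain ⟨q₃, G, hG, hq₃⟩ := hS 0 (max q₀ m)
  obtain ⟨V, hV, hVq⟩ := layer_gen' hT hD hF i
  obtain ⟨q, hq⟩ := hVq (q₃ + q₀)
  refine ⟨q, (V ×ˢ G).image fun p => p.1 * p.2, ?_, ?_⟩
  · intro y hy
    obtain ⟨p, hp, rfl⟩ := Finset.mem_image.1 (Finset.mem_coe.1 hy)
    obtain ⟨hp1, hp2⟩ := Finset.mem_product.1 hp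
    exact Submodule.mul_mem_mul (hV (Finset.mem_coe.2 hp1)) (hG _ hp2).1
  · have hG' : Fil K n q₃ ≤ Submodule.span K (G : Set (FA K n)) * ⊤ ⊔ Jd K n :=
      hq₃.trans (StR_swap fun g hg => (hG g hg).2)
    have hVJ : Submodule.span K (V : Set (FA K n)) * Jd K n ≤
        Fil K n (i + 1) * Jd K n := by
      refine (mul_le_mul' (Submodule.span_le.2 hV) le_rfl).trans ?_
      rw [N.Fil_succ]
      exact mul_le_mul' (mul_le_mul' le_rfl Jd_le_Com) le_rfl
    have e1 : (⊤ : Submodule K (FA K n)) * (Submodule.span K (V : Set (FA K n)) * Jd K n) *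
        Fil K n q₀ ≤ T' := by
      refine (mul_le_mul' (mul_le_mul' le_rfl hVJ) le_rfl).trans ?_
      rw [mul_assoc]
      exact Submodule.mul_le.2 fun f _ z hz => hT.id.left f z (h₀ hz)
    have e2 : (⊤ : Submodule K (FA K n)) * (Submodule.span K (V : Set (FA K n)) *
        (Submodule.span K (G : Set (FA K n)) * ⊤)) * Fil K n q₀ ≤
        tsp (((V ×ˢ G).image fun p => p.1 * p.2 : Finset (FA K n)) : Set (FA K n)) := by
      have h3 : Submodule.span K (V : Set (FA K n)) * Submodule.span K (G : Set (FA K n)) ≤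
          tsp (((V ×ˢ G).image fun p => p.1 * p.2 : Finset (FA K n)) : Set (FA K n)) := by
        rw [Submodule.span_mul_span, Submodule.span_le]
        rintro z ⟨v, hv, g, hg, rfl⟩
        refine subset_tsp _ (Finset.mem_coe.2 (Finset.mem_image.2 ⟨(v, g), ?_, rfl⟩))
        exact Finset.mem_product.2 ⟨Finset.mem_coe.1 hv, Finset.mem_coe.1 hg⟩
      rw [← mul_assoc (Submodule.span K (V : Set (FA K n)))]
      refine Submodule.mul_le.2 fun a ha b _ => (tsp_id _).right b a ?_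
      refine (Submodule.mul_le.2 fun f _ w hw => (tsp_id _).left f w ?_ :
        (⊤ : Submodule K (FA K n)) * (Submodule.span K (V : Set (FA K n)) *
          Submodule.span K (G : Set (FA K n)) * ⊤) ≤ _) ha
      exact (Submodule.mul_le.2 fun x hx y _ => (tsp_id _).right y x (h3 hx) :
        Submodule.span K (V : Set (FA K n)) * Submodule.span K (G : Set (FA K n)) * ⊤ ≤ _) hw
    refine hq.trans (sup_le ?_ (sup_le le_sup_left ?_))
    · rw [← Fil_mul, ← mul_assoc]
      refine (mul_le_mul' (mul_le_mul' le_rfl hG') le_rfl).trans ?_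
      rw [Submodule.mul_sup, Submodule.sup_mul,
        mul_assoc ⊤ (Submodule.span K (V : Set (FA K n)))
          (Submodule.span K (G : Set (FA K n)) * ⊤),
        mul_assoc ⊤ (Submodule.span K (V : Set (FA K n))) (Jd K n)]
      exact sup_le (e2.trans le_sup_right) (e1.trans le_sup_left)
    · refine (mul_le_mul' le_rfl (N.Fil_antitone K n (Nat.le_add_left q₀ q₃))).trans ?_
      exact h₀.trans le_sup_left

/-- **Step (R_i).** Mirror image of `step_L`. -/
theorem step_R [CharZero K] {m M : ℕ} {T' : Submodule K (FA K n)} (hT : Base m M T')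
    (hD : Deep2 K n) {S2 : Side (rho2 K n)} (hS : Deep1 S2)
    (hF : ∃ (q : ℕ) (ν : Finset (FA K n)), (ν : Set (FA K n)) ⊆ Jd K n ∧
      Jd K n * Fil K n q ≤ tsp (ν : Set (FA K n)) ⊔ Com K n * Jd K n) (i q₀ : ℕ)
    (h₀ : Fil K n (i + 1) * Jd K n * Fil K n q₀ ≤ T') :
    ∃ Y : Finset (FA K n), (∀ y ∈ Y, ∀ z, rho1 K n z = 0 → z * y ∈ T') ∧
      (∀ y ∈ Y, ∀ z, rho2 K n z = 0 → y * z ∈ T') ∧
      ∀ r, ∃ q, Fil K n i * Jd K n * Fil K n q ≤
        T' ⊔ Xsp (side1 K n) S2 (Y : Set (FA K n)) r := by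
  obtain ⟨q, Y, hY, hq⟩ := genR hT hD hS hF i q₀ h₀
  have hr : ∀ y ∈ Y, ∀ z, rho2 K n z = 0 → y * z ∈ T' := by
    intro y hy z hz
    have h1 : Fil K n i * Jd K n * Fil K n (max q₀ m) * Jd K n ≤ T' := by
      rw [mul_assoc, mul_assoc, ← mul_assoc (Jd K n)]
      refine Submodule.mul_le.2 fun a _ b hb => hT.id.left a b (hT.h1 ?_)
      exact mul_le_mul' (mul_le_mul' le_rfl (N.Fil_antitone K n (le_max_right q₀ m))) le_rfl hb
    exact h1 (Submodule.mul_mem_mul (hY (Finset.mem_coe.2 hy)) (mem_Jd.2 hz))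
  refine ⟨Y, ?_, hr, fun r => ?_⟩
  · intro y hy z hz
    have h1 : Com K n * (Fil K n i * Jd K n * Fil K n (max q₀ m)) ≤ T' := by
      rw [← N.Fil_one, ← mul_assoc, ← mul_assoc, Fil_mul, add_comm 1 i]
      exact (mul_le_mul' le_rfl (N.Fil_antitone K n (le_max_left q₀ m))).trans h₀
    exact h1 (Submodule.mul_mem_mul (rho1_ker hz) (hY (Finset.mem_coe.2 hy)))
  · obtain ⟨q', hq'⟩ := amp12 hS hT.id (Y := (Y : Set (FA K n)))
      (fun y hy z hz => hr y (Finset.mem_coe.1 hy) z (mem_Jd.1 hz)) r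
    refine ⟨q + q', ?_⟩
    rw [← Fil_mul, ← mul_assoc]
    refine (mul_le_mul' hq le_rfl).trans ?_
    rw [Submodule.sup_mul]
    refine sup_le ?_ hq'
    exact (Submodule.mul_le.2 fun a ha b _ => hT.id.right b a ha :
      T' * Fil K n q' ≤ T').trans le_sup_left

end Pool.Agent.H.MP_f5ceca_al.S
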