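import Pool.Agent.H.MP_f5ceca_al.S.CSe
import Pool.Agent.H.MP_f5ceca_al.S.StE
import Pool.Agent.H.MP_f5ceca_al.S.StL
import Pool.Agent.H.MP_f5ceca_al.S.StR
import Pool.Agent.H.MP_f5ceca_al.S.StP
import Pool.Agent.H.MP_f5ceca_al.S.Base
import Pool.Agent.H.MP_f5ceca_al.S.M2g

/-!
The steps in the form `SecOK`, and the induction through the chain of ideals.
-/

namespace Pool.Agent.H.MP_f5ceca_al.S

open MvPolynomial
open Pool.Agent.H.MP_f5ceca_al.N (FA xx Com Fil Aug)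
open Pool.Agent.H.MP_f5ceca_al.Conv

universe u

variable {K : Type u} [Field K] {n : ℕ}

/-- Decidability of membership. -/
def Dc (κ : CField K) (I : Submodule K (FA K n)) : Prop :=
  ComputablePred fun P : List (ℕ × List (Fin n)) => κ.ev (wd K) P ∈ I

/-- The conclusion of the section lemma for the family `Γ`. -/
structure SecOK (T' : Submodule K (FA K n)) (Γ : ℕ → Submodule K (FA K n)) : Prop where
  fg : ∀ I, IsId I → T' ≤ I → ∃ (q : ℕ) (Φ : Finset (FA K n)), (∀ u ∈ Φ, u ∈ I) ∧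
    I ⊓ Γ q ≤ T' ⊔ tsp (Φ : Set (FA K n))
  dec : ∀ κ : CField K, κ.RESub (wd K) T' → ∀ I, IsId I → T' ≤ I → κ.RESub (wd K) I →
    ∃ q, Dc κ (I ⊔ Γ q) → Dc κ I

theorem secOK {O O' : Type u} [Ring O] [Algebra K O] [Ring O']
    [Algebra K O'] {ρ : FA K n →ₐ[K] O} {ρ' : FA K n →ₐ[K] O'} (S : Side ρ) (S' : Side ρ')
    {T : Submodule K (FA K n)} (hT : IsId T) (Y : Finset (FA K n))
    (hl : ∀ y ∈ Y, ∀ z, ρ z = 0 → z * y ∈ T) (hr : ∀ y ∈ Y, ∀ z, ρ' z = 0 → y * z ∈ T)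
    (hM : MatRep K O) (hM' : MatRep K O') (Γ : ℕ → Submodule K (FA K n))
    (hΓ : ∀ r, ∃ q, Γ q ≤ T ⊔ Xsp S S' (Y : Set (FA K n)) r) : SecOK T Γ where
  fg := by
    intro I hI hTI
    obtain ⟨m, Φ, hΦ, h⟩ := sec_fg S S' hT Y hl hr I hI hTI
    obtain ⟨q, hq⟩ := hΓ m
    exact ⟨q, Φ, hΦ, h _ hq⟩
  dec := by
    intro κ hre I hI hTI hreI
    obtain ⟨m, h⟩ := sec_dec S S' hT Y hl hr κ hre hM hM' I hI hTI hreI
    obtain ⟨q, hq⟩ := hΓ m
    exact ⟨q, h _ hq⟩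

theorem matRep_rho2 : MatRep K (Matrix (Fin 2) (Fin 2) (A2 K n)) := matRep_matrix _ _

theorem matRep_rho1 : MatRep K (MvPolynomial (Fin n) K) := matRep_comm _

variable [CharZero K]

theorem fgAug (S2 : Side (rho2 K n)) (hS : Deep1 S2) : FgAug K n where
  right := fg_aug hS
  left := fg_aug' hS

theorem okE {m M : ℕ} {T' : Submodule K (FA K n)} (hT : Base m M T') :
    SecOK T' fun q => Fil K n q * Jd K n * Fil K n q := by
  obtain ⟨S2, hS⟩ := exists_side2 K n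
  obtain ⟨Y, hl, hr, h⟩ := step_E hT (deep2 K n) hS (fgAug S2 hS) (fg_two hS)
  exact secOK S2 S2 hT.id Y hl hr matRep_rho2 matRep_rho2 _ h

theorem okL {m M : ℕ} {T' : Submodule K (FA K n)} (hT : Base m M T') (i q₀ : ℕ)
    (h₀ : Fil K n q₀ * Jd K n * Fil K n (i + 1) ≤ T') :
    SecOK T' fun q => Fil K n q * Jd K n * Fil K n i := by
  obtain ⟨S2, hS⟩ := exists_side2 K n
  obtain ⟨Y, hl, hr, h⟩ := step_L hT (deep2 K n) hS (fg_ab hS) i q₀ h₀
  exact secOK S2 (side1 K n) hT.id Y hl hr matRep_rho2 matRep_rho1 _ h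

theorem okR {m M : ℕ} {T' : Submodule K (FA K n)} (hT : Base m M T') (i q₀ : ℕ)
    (h₀ : Fil K n (i + 1) * Jd K n * Fil K n q₀ ≤ T') :
    SecOK T' fun q => Fil K n i * Jd K n * Fil K n q := by
  obtain ⟨S2, hS⟩ := exists_side2 K n
  obtain ⟨Y, hl, hr, h⟩ := step_R hT (deep2 K n) hS (fg_ab' hS) i q₀ h₀
  exact secOK (side1 K n) S2 hT.id Y hl hr matRep_rho1 matRep_rho2 _ h

theorem okP {T' : Submodule K (FA K n)} (hT : IsId T') (q₀ : ℕ)
    (h₁ : Fil K n q₀ * Jd K n ≤ T') (h₂ : Jd K n * Fil K n q₀ ≤ T') :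
    SecOK T' fun q => Fil K n q := by
  obtain ⟨S2, hS⟩ := exists_side2 K n
  obtain ⟨Y, hl, hr, h⟩ := step_P hT hS q₀ h₁ h₂
  exact secOK S2 S2 hT Y hl hr matRep_rho2 matRep_rho2 _ h

/-- The induction through the chain of ideals. `Cls` is a class of ideals, closed under adding the
ideals `C^a J C^b` and `C^a`; `P` holds for the members of the class which contain a power of `C`, and
goes up the steps. -/
theorem chain {m M : ℕ} {T : Submodule K (FA K n)} (hT : Base m M T)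
    (Cls P : Submodule K (FA K n) → Prop) (hid : ∀ J, Cls J → IsId J)
    (hc1 : ∀ J a b, Cls J → Cls (J ⊔ Fil K n a * Jd K n * Fil K n b))
    (hc2 : ∀ J a, Cls J → Cls (J ⊔ Fil K n a))
    (hbot : ∀ J, Cls J → (∃ p, Fil K n p ≤ J) → P J)
    (hstep : ∀ J (Γ : ℕ → Submodule K (FA K n)), Cls J → SecOK (T ⊔ J) Γ →
      (∀ q, Cls (J ⊔ Γ q)) → (∀ q, P (J ⊔ Γ q)) → P J) :
    ∀ J, Cls J → P J := by
  have hB : ∀ J, Cls J → Base m M (T ⊔ J) := fun J hJ =>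
    hT.mono (hT.id.sup (hid J hJ)) le_sup_left
  have hP : ∀ J, Cls J → (∃ a, Fil K n a * Jd K n ≤ J) → (∃ b, Jd K n * Fil K n b ≤ J) → P J := by
    rintro J hJ ⟨a, ha⟩ ⟨b, hb⟩
    have h1 : Fil K n (max a b) * Jd K n ≤ T ⊔ J :=
      ((mul_le_mul' (N.Fil_antitone K n (le_max_left a b)) le_rfl).trans ha).trans le_sup_right
    have h2 : Jd K n * Fil K n (max a b) ≤ T ⊔ J :=
      ((mul_le_mul' le_rfl (N.Fil_antitone K n (le_max_right a b))).trans hb).trans le_sup_right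
    refine hstep J (fun q => Fil K n q) hJ (okP (hT.id.sup (hid J hJ)) _ h1 h2)
      (fun q => hc2 J q hJ) fun q => hbot _ (hc2 J q hJ) ⟨q, le_sup_right⟩
  have hR : ∀ i J, Cls J → (∃ a, Fil K n a * Jd K n ≤ J) →
      (∃ b, Fil K n i * Jd K n * Fil K n b ≤ J) → P J := by
    intro i
    induction i with
    | zero =>
      rintro J hJ ha ⟨b, hb⟩
      refine hP J hJ ha ⟨b, le_trans ?_ hb⟩
      rw [N.Fil_zero]
      refine mul_le_mul' (fun z hz => ?_) le_rfl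
      rw [← one_mul z]
      exact Submodule.mul_mem_mul Submodule.mem_top hz
    | succ i ih =>
      rintro J hJ ⟨a, ha⟩ ⟨b, hb⟩
      refine hstep J _ hJ (okR (hB J hJ) i b (hb.trans le_sup_right)) (fun q => hc1 J _ _ hJ)
        fun q => ih _ (hc1 J _ _ hJ) ⟨a, ha.trans le_sup_left⟩ ⟨q, le_sup_right⟩
  have hL : ∀ i J, Cls J → (∃ a, Fil K n a * Jd K n * Fil K n i ≤ J) → P J := by
    intro i
    induction i with
    | zero =>
      rintro J hJ ⟨a, ha⟩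
      rw [N.Fil_zero] at ha
      refine hR a J hJ ⟨a, le_trans ?_ ha⟩ ⟨0, by rw [N.Fil_zero]; exact ha⟩
      intro z hz
      rw [← mul_one z]
      exact Submodule.mul_mem_mul hz Submodule.mem_top
    | succ i ih =>
      rintro J hJ ⟨a, ha⟩
      exact hstep J _ hJ (okL (hB J hJ) i a (ha.trans le_sup_right)) (fun q => hc1 J _ _ hJ)
        fun q => ih _ (hc1 J _ _ hJ) ⟨q, le_sup_right⟩
  intro J hJ
  exact hstep J _ hJ (okE (hB J hJ)) (fun q => hc1 J _ _ hJ)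
    fun q => hL q _ (hc1 J _ _ hJ) ⟨q, le_sup_right⟩

end Pool.Agent.H.MP_f5ceca_al.S
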