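import Pool.Agent.H.MP_f5ceca_al.S.AsmA
import Pool.Agent.H.MP_f5ceca_al.E.Bot
import Pool.Agent.H.MP_f5ceca_al.E.RegA
import Pool.Agent.H.MP_f5ceca_al.Conv.IdG

/-!
Decidability: the induction through the chain of ideals.
-/

namespace Pool.Agent.H.MP_f5ceca_al.S

open MvPolynomial
open Pool.Agent.H.MP_f5ceca_al.N (FA xx Com Fil Aug)
open Pool.Agent.H.MP_f5ceca_al.Conv
open Pool.Agent.H.MP_f5ceca_al.E (IsT)

universe u

variable {K : Type u} [Field K] (κ : CField K) {n : ℕ}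

theorem asm_re_mul {I J : Submodule K (FA K n)} (hI : κ.RESub (wd K) I)
    (hJ : κ.RESub (wd K) J) : κ.RESub (wd K) (I * J) := by
  have hD : REPred fun x : List (ℕ × List (Fin n)) × List (ℕ × List (Fin n)) =>
      κ.ev (wd K) x.1 ∈ I ∧ κ.ev (wd K) x.2 ∈ J :=
    re_and (re_comp hI Computable.fst) (re_comp hJ Computable.snd)
  have he : Computable fun x : List (ℕ × List (Fin n)) × List (ℕ × List (Fin n)) =>
      E.cmul κ x.1 x.2 := E.cmul_comp κ
  have h := κ.re_span (wd_zero_cp κ).to_re hD he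
  have heq : Submodule.span K {z | ∃ x : List (ℕ × List (Fin n)) × List (ℕ × List (Fin n)),
      (κ.ev (wd K) x.1 ∈ I ∧ κ.ev (wd K) x.2 ∈ J) ∧
        z = κ.ev (wd K) (E.cmul κ x.1 x.2)} = I * J := by
    apply le_antisymm
    · refine Submodule.span_le.2 ?_
      rintro _ ⟨j, ⟨h1, h2⟩, rfl⟩
      rw [E.ev_cmul]
      exact Submodule.mul_mem_mul h1 h2
    · rw [Submodule.mul_le]
      intro x hx y hy
      obtain ⟨P, rfl⟩ := wd_exists_code κ x
      obtain ⟨Q, rfl⟩ := wd_exists_code κ y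
      exact Submodule.subset_span ⟨(P, Q), ⟨hx, hy⟩, (E.ev_cmul κ P Q).symm⟩
  rwa [heq] at h

theorem asm_re_top : κ.RESub (wd K) (⊤ : Submodule K (FA K n)) :=
  (re_const (p := True)).of_eq fun _ => ⟨fun _ => trivial, fun _ => trivial⟩

theorem asm_re_com : κ.RESub (wd K) (Com K n) := by
  have hD : REPred fun _ : (List (ℕ × List (Fin n)) × List (ℕ × List (Fin n))) ×
      (List (ℕ × List (Fin n)) × List (ℕ × List (Fin n))) => True := re_const
  have he : Computable fun x : (List (ℕ × List (Fin n)) × List (ℕ × List (Fin n))) ×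
      (List (ℕ × List (Fin n)) × List (ℕ × List (Fin n))) =>
      E.cmul κ x.1.1 (E.cmul κ (E.cmul κ x.2.1 x.2.2 ++ κ.lneg (E.cmul κ x.2.2 x.2.1)) x.1.2) := by
    have h1 : Computable fun x : (List (ℕ × List (Fin n)) × List (ℕ × List (Fin n))) ×
        (List (ℕ × List (Fin n)) × List (ℕ × List (Fin n))) => E.cmul κ x.2.1 x.2.2 :=
      (E.cmul_comp κ).comp (Computable.fst.comp Computable.snd)
        (Computable.snd.comp Computable.snd)
    have h2 : Computable fun x : (List (ℕ × List (Fin n)) × List (ℕ × List (Fin n))) ×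
        (List (ℕ × List (Fin n)) × List (ℕ × List (Fin n))) => E.cmul κ x.2.2 x.2.1 :=
      (E.cmul_comp κ).comp (Computable.snd.comp Computable.snd)
        (Computable.fst.comp Computable.snd)
    have h3 := (κ.sub_comp (W := List (Fin n))).comp h1 h2
    exact (E.cmul_comp κ).comp (Computable.fst.comp Computable.fst)
      ((E.cmul_comp κ).comp h3 (Computable.snd.comp Computable.fst))
  have h := κ.re_span (wd_zero_cp κ).to_re hD he
  have hset : {z | ∃ x : (List (ℕ × List (Fin n)) × List (ℕ × List (Fin n))) ×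
      (List (ℕ × List (Fin n)) × List (ℕ × List (Fin n))), True ∧ z = κ.ev (wd K)
        (E.cmul κ x.1.1 (E.cmul κ (E.cmul κ x.2.1 x.2.2 ++ κ.lneg (E.cmul κ x.2.2 x.2.1))
          x.1.2))} = {z : FA K n | ∃ a b p q : FA K n, z = a * (p * q - q * p) * b} := by
    ext z
    constructor
    · rintro ⟨x, -, rfl⟩
      refine ⟨κ.ev (wd K) x.1.1, κ.ev (wd K) x.1.2, κ.ev (wd K) x.2.1, κ.ev (wd K) x.2.2, ?_⟩
      rw [E.ev_cmul, E.ev_cmul, CField.ev_append, CField.ev_lneg, E.ev_cmul, E.ev_cmul,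
        sub_eq_add_neg, mul_assoc]
    · rintro ⟨a, b, p, q, rfl⟩
      obtain ⟨P, rfl⟩ := wd_exists_code κ a
      obtain ⟨Q, rfl⟩ := wd_exists_code κ b
      obtain ⟨P', rfl⟩ := wd_exists_code κ p
      obtain ⟨Q', rfl⟩ := wd_exists_code κ q
      refine ⟨((P, Q), (P', Q')), trivial, ?_⟩
      rw [E.ev_cmul, E.ev_cmul, CField.ev_append, CField.ev_lneg, E.ev_cmul, E.ev_cmul,
        sub_eq_add_neg, mul_assoc]
  rw [hset] at h
  exact h

theorem asm_re_fil (k : ℕ) : κ.RESub (wd K) (Fil K n k) := by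
  induction k with
  | zero => rw [N.Fil_zero]; exact asm_re_top κ
  | succ k ih =>
    have h : Fil K n (k + 1) = Fil K n k * Com K n := by
      unfold N.Fil
      rw [pow_succ, mul_assoc]
    rw [h]
    exact asm_re_mul κ ih (asm_re_com κ)

theorem asm_re_Jd : κ.RESub (wd K) (Jd K n) := re_ker_matrix κ (gm K)

theorem asm_re_sup {I J : Submodule K (FA K n)} (hI : κ.RESub (wd K) I)
    (hJ : κ.RESub (wd K) J) : κ.RESub (wd K) (I ⊔ J) :=
  κ.re_sup hI hJ (by rw [wd_span]; exact le_top)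

theorem asm_re_tsp {R : Set (FA K n)} (hR : R.Finite) : κ.RESub (wd K) (tsp R) := by
  have h := tspan_re κ hR
  rw [E.Bot_tsp] at h
  exact h

theorem asm_isId_tsp (R : Set (FA K n)) : IsId (tsp R) := by
  constructor
  · intro a z hz
    induction hz using Submodule.span_induction with
    | mem x h =>
      obtain ⟨a', y, b, hy, rfl⟩ := h
      exact Submodule.subset_span ⟨a * a', y, b, hy, by simp only [mul_assoc]⟩
    | zero => rw [mul_zero]; exact zero_mem _
    | add x y _ _ hx hy => rw [mul_add]; exact add_mem hx hy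
    | smul r x _ hx => rw [mul_smul_comm]; exact Submodule.smul_mem _ r hx
  · intro a z hz
    induction hz using Submodule.span_induction with
    | mem x h =>
      obtain ⟨a', y, b, hy, rfl⟩ := h
      exact Submodule.subset_span ⟨a', y, b * a, hy, by simp only [mul_assoc]⟩
    | zero => rw [zero_mul]; exact zero_mem _
    | add x y _ _ hx hy => rw [add_mul]; exact add_mem hx hy
    | smul r x _ hx => rw [smul_mul_assoc]; exact Submodule.smul_mem _ r hx

/-- **Decidability.** -/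
theorem asm_dec [CharZero K] {m M : ℕ} {T : Submodule K (FA K n)} {R : Set (FA K n)}
    (h0 : IsT T) (hb : Base m M T) (hre : κ.RESub (wd K) T) (hR : R.Finite)
    (hbot : ∀ J : Submodule K (FA K n), IsT J → (∃ p, Fil K n p ≤ J) →
      ComputablePred fun P : List (ℕ × List (Fin n)) => κ.ev (wd K) P ∈ (T ⊔ J) ⊔ tsp R) :
    ComputablePred fun P : List (ℕ × List (Fin n)) => κ.ev (wd K) P ∈ T ⊔ tsp R := by
  have key := chain hb (fun J => IsT J ∧ κ.RESub (wd K) J) (fun J => Dc κ ((T ⊔ J) ⊔ tsp R))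
    (fun J hJ => hJ.1.isId)
    (fun J a b hJ => ⟨hJ.1.sup (((E.isT_Fil a).mul E.isT_Jd).mul (E.isT_Fil b)),
      asm_re_sup κ hJ.2 (asm_re_mul κ (asm_re_mul κ (asm_re_fil κ a) (asm_re_Jd κ))
        (asm_re_fil κ b))⟩)
    (fun J a hJ => ⟨hJ.1.sup (E.isT_Fil a), asm_re_sup κ hJ.2 (asm_re_fil κ a)⟩)
    (fun J hJ hp => hbot J hJ.1 hp)
    (fun J Γ hJ hS _ hq => by
      have hI : IsId ((T ⊔ J) ⊔ tsp R) := (h0.isId.sup hJ.1.isId).sup (asm_isId_tsp R)
      obtain ⟨q, h⟩ := hS.dec κ (asm_re_sup κ hre hJ.2) ((T ⊔ J) ⊔ tsp R) hI le_sup_left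
        (asm_re_sup κ (asm_re_sup κ hre hJ.2) (asm_re_tsp κ hR))
      apply h
      have h1 : (T ⊔ J) ⊔ tsp R ⊔ Γ q = (T ⊔ (J ⊔ Γ q)) ⊔ tsp R := by
        rw [← sup_assoc T J, sup_assoc (T ⊔ J), sup_comm (tsp R), ← sup_assoc (T ⊔ J)]
      rw [h1]
      exact hq q)
  have h := key ⊥ ⟨E.isT_bot, ((wd_zero_cp κ).to_re).of_eq fun P => (Submodule.mem_bot K).symm⟩
  rw [sup_bot_eq] at h
  exact h

end Pool.Agent.H.MP_f5ceca_al.S
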