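import Mathlib

/-!
Kernels and intersections in tensor products over a field.
-/

namespace Pool.Agent.H.MP_f5ceca_al.S

open TensorProduct

universe u

variable {K : Type u} [Field K] {V V' W W' : Type u} [AddCommGroup V] [Module K V]
  [AddCommGroup V'] [Module K V'] [AddCommGroup W] [Module K W] [AddCommGroup W'] [Module K W']

/-- PROOF. `K` is a field: `LinearMap.exists_leftInverse_of_injective` for the map `V ⧸ ker f → W`
(`LinearMap.ker_liftQ_eq_bot`, or `(f.quotKerEquivRange)`), and a section. Explicitly: let `P` be a linear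
projection of `V` onto `ker f` (`Submodule.exists_isCompl`, `Submodule.linearProjOfIsCompl`), as a map `V → V`;
`id - P` vanishes on `ker f`, so it factors as `s ∘ f` with `s : W → V` (extend from `range f`). -/
theorem exists_ker_proj (f : V →ₗ[K] W) : ∃ (P : V →ₗ[K] V) (s : W →ₗ[K] V),
    (∀ v, f (P v) = 0) ∧ (∀ v, f v = 0 → P v = v) ∧ ∀ v, v = P v + s (f v) := by
  obtain ⟨s0, hs0⟩ := f.rangeRestrict.exists_rightInverse_of_surjective f.range_rangeRestrict
  obtain ⟨s, hs⟩ := LinearMap.exists_extend s0
  have h1 : ∀ v, f (s (f v)) = f v := by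
    intro v
    have h2 : s (f v) = s0 (f.rangeRestrict v) := by
      have h3 := LinearMap.congr_fun hs (f.rangeRestrict v)
      exact h3
    rw [h2]
    have h4 := LinearMap.congr_fun hs0 (f.rangeRestrict v)
    exact congrArg Subtype.val h4
  refine ⟨LinearMap.id - s.comp f, s, fun v => ?_, fun v hv => ?_, fun v => ?_⟩
  · rw [LinearMap.sub_apply, LinearMap.id_apply, LinearMap.comp_apply, map_sub, h1, sub_self]
  · rw [LinearMap.sub_apply, LinearMap.id_apply, LinearMap.comp_apply, hv, map_zero, sub_zero]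
  · rw [LinearMap.sub_apply, LinearMap.id_apply, LinearMap.comp_apply, sub_add_cancel]

theorem Tens_aux1 {f : V →ₗ[K] W} (P : V →ₗ[K] V) (hP : ∀ v, f (P v) = 0) (t : V ⊗[K] V') :
    TensorProduct.map P LinearMap.id t ∈
      Submodule.span K {z | ∃ (a : V) (b : V'), f a = 0 ∧ z = a ⊗ₜ[K] b} := by
  induction t using TensorProduct.induction_on with
  | zero =>
    rw [map_zero]
    exact zero_mem _
  | tmul a b =>
    rw [TensorProduct.map_tmul]
    exact Submodule.subset_span ⟨P a, b, hP a, rfl⟩
  | add x y hx hy =>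
    rw [map_add]
    exact add_mem hx hy

theorem Tens_aux2 {g : V' →ₗ[K] W'} (Q : V →ₗ[K] V) (P : V' →ₗ[K] V') (hP : ∀ v, g (P v) = 0)
    (t : V ⊗[K] V') : TensorProduct.map Q P t ∈
      Submodule.span K {z | ∃ (a : V) (b : V'), g b = 0 ∧ z = a ⊗ₜ[K] b} := by
  induction t using TensorProduct.induction_on with
  | zero =>
    rw [map_zero]
    exact zero_mem _
  | tmul a b =>
    rw [TensorProduct.map_tmul]
    exact Submodule.subset_span ⟨Q a, P b, hP b, rfl⟩
  | add x y hx hy =>
    rw [map_add]
    exact add_mem hx hy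

/-- The kernel of a tensor product of linear maps over a field.

PROOF. Let `P, s` be as in `exists_ker_proj` for `f`, `P', s'` for `g`. For every `t`,
`t = map P id t + map (s ∘ f) P' t + map s s' (map f g t)` (check for pure tensors, `TensorProduct.induction_on`), and
the last term is `0`. The first two terms are in the span (again induction on `t`). -/
theorem ker_map (f : V →ₗ[K] W) (g : V' →ₗ[K] W') (t : V ⊗[K] V')
    (ht : TensorProduct.map f g t = 0) :
    ∃ t₁ t₂ : V ⊗[K] V', t = t₁ + t₂ ∧
      t₁ ∈ Submodule.span K {z | ∃ (a : V) (b : V'), f a = 0 ∧ z = a ⊗ₜ[K] b} ∧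
      t₂ ∈ Submodule.span K {z | ∃ (a : V) (b : V'), g b = 0 ∧ z = a ⊗ₜ[K] b} := by
  obtain ⟨P, s, hP1, hP2, hP3⟩ := exists_ker_proj f
  obtain ⟨P', s', hP1', hP2', hP3'⟩ := exists_ker_proj g
  have key : ∀ t : V ⊗[K] V', t = TensorProduct.map P LinearMap.id t +
      TensorProduct.map (s.comp f) P' t + TensorProduct.map s s' (TensorProduct.map f g t) := by
    intro t
    induction t using TensorProduct.induction_on with
    | zero => simp
    | tmul a b =>
      rw [TensorProduct.map_tmul, TensorProduct.map_tmul, TensorProduct.map_tmul,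
        TensorProduct.map_tmul, LinearMap.id_apply, LinearMap.comp_apply, add_assoc,
        ← TensorProduct.tmul_add, ← hP3' b, ← TensorProduct.add_tmul, ← hP3 a]
    | add x y hx hy =>
      rw [map_add, map_add, map_add, map_add]
      nth_rewrite 1 [hx]
      nth_rewrite 1 [hy]
      abel
  refine ⟨TensorProduct.map P LinearMap.id t, TensorProduct.map (s.comp f) P' t, ?_, ?_, ?_⟩
  · have h := key t
    rw [ht, map_zero, add_zero] at h
    exact h
  · exact Tens_aux1 P hP1 _
  · exact Tens_aux2 (s.comp f) P' hP1' _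

/-- PROOF. With `P`, `P'` as above: `map P id t = t` and `map id P' t = t` (span inductions), so
`t = map P P' t`, which is in the span (`TensorProduct.induction_on`). -/
theorem inf_span (f : V →ₗ[K] W) (g : V' →ₗ[K] W') (t : V ⊗[K] V')
    (h₁ : t ∈ Submodule.span K {z | ∃ (a : V) (b : V'), f a = 0 ∧ z = a ⊗ₜ[K] b})
    (h₂ : t ∈ Submodule.span K {z | ∃ (a : V) (b : V'), g b = 0 ∧ z = a ⊗ₜ[K] b}) :
    t ∈ Submodule.span K {z | ∃ (a : V) (b : V'), f a = 0 ∧ g b = 0 ∧ z = a ⊗ₜ[K] b} := by
  obtain ⟨P, s, hP1, hP2, hP3⟩ := exists_ker_proj f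
  obtain ⟨P', s', hP1', hP2', hP3'⟩ := exists_ker_proj g
  have e1 : TensorProduct.map P LinearMap.id t = t := by
    refine Submodule.span_induction
      (p := fun z _ => TensorProduct.map P (LinearMap.id : V' →ₗ[K] V') z = z) ?_ ?_ ?_ ?_ h₁
    · rintro x ⟨a, b, ha, rfl⟩
      rw [TensorProduct.map_tmul, hP2 a ha, LinearMap.id_apply]
    · exact map_zero _
    · intro x y _ _ hx hy
      rw [map_add, hx, hy]
    · intro c x _ hx
      rw [map_smul, hx]
  have e2 : TensorProduct.map LinearMap.id P' t = t := by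
    refine Submodule.span_induction
      (p := fun z _ => TensorProduct.map (LinearMap.id : V →ₗ[K] V) P' z = z) ?_ ?_ ?_ ?_ h₂
    · rintro x ⟨a, b, hb, rfl⟩
      rw [TensorProduct.map_tmul, hP2' b hb, LinearMap.id_apply]
    · exact map_zero _
    · intro x y _ _ hx hy
      rw [map_add, hx, hy]
    · intro c x _ hx
      rw [map_smul, hx]
  have e3 : ∀ z : V ⊗[K] V', TensorProduct.map P LinearMap.id (TensorProduct.map LinearMap.id P' z) ∈
      Submodule.span K {z | ∃ (a : V) (b : V'), f a = 0 ∧ g b = 0 ∧ z = a ⊗ₜ[K] b} := by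
    intro z
    induction z using TensorProduct.induction_on with
    | zero =>
      rw [map_zero, map_zero]
      exact zero_mem _
    | tmul a b =>
      rw [TensorProduct.map_tmul, TensorProduct.map_tmul, LinearMap.id_apply, LinearMap.id_apply]
      exact Submodule.subset_span ⟨P a, P' b, hP1 a, hP1' b, rfl⟩
    | add x y hx hy =>
      rw [map_add, map_add]
      exact add_mem hx hy
  have h := e3 t
  rw [e2, e1] at h
  exact h

end Pool.Agent.H.MP_f5ceca_al.S
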