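import Pool.Agent.H.MP_f5ceca_al.S.Sec
import Pool.Agent.H.MP_f5ceca_al.S.Tens

/-!
The section given by two sides and finitely many elements `y i` with `(ker ρ) y i ≤ T`, `y i (ker ρ') ≤ T`.
-/

namespace Pool.Agent.H.MP_f5ceca_al.S

open MvPolynomial TensorProduct
open Pool.Agent.H.MP_f5ceca_al.N (FA xx Com Fil Aug)

universe u

section ev

variable {K : Type u} [Field K] {n : ℕ}

/-- `a ⊗ b ↦ a y b` -/
noncomputable def evy (y : FA K n) : FA K n ⊗[K] FA K n →ₗ[K] FA K n :=
  (LinearMap.mul' K (FA K n)) ∘ₗ (TensorProduct.map (LinearMap.mulRight K y) LinearMap.id)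

theorem evy_tmul (y a b : FA K n) : evy y (a ⊗ₜ[K] b) = a * y * b := by
  simp [evy]

/-- `∑ i, a_i y_i b_i` -/
noncomputable def evk {k : ℕ} (y : Fin k → FA K n) :
    (Fin k → FA K n ⊗[K] FA K n) →ₗ[K] FA K n :=
  ∑ i, (evy (y i)) ∘ₗ (LinearMap.proj i)

theorem CSa_evy_mul (y a b : FA K n) (t : FA K n ⊗[K] FA K n) :
    evy y ((a ⊗ₜ[K] 1) * t * (1 ⊗ₜ[K] b)) = a * evy y t * b := by
  induction t using TensorProduct.induction_on with
  | zero => simp
  | tmul c d =>
    rw [Algebra.TensorProduct.tmul_mul_tmul, Algebra.TensorProduct.tmul_mul_tmul, evy_tmul,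
      evy_tmul, mul_one, one_mul]
    simp only [mul_assoc]
  | add t u ht hu => rw [mul_add, add_mul, map_add, ht, hu, map_add, mul_add, add_mul]

theorem CSa_evk_apply {k : ℕ} (y : Fin k → FA K n) (t : Fin k → FA K n ⊗[K] FA K n) :
    evk y t = ∑ i, evy (y i) (t i) := by
  unfold evk
  rw [LinearMap.sum_apply]
  rfl

/-- PROOF. For one `i`: induction on the tensor. -/
theorem evk_mul {k : ℕ} (y : Fin k → FA K n) (a b : FA K n)
    (t : Fin k → FA K n ⊗[K] FA K n) :
    evk y (fun i => (a ⊗ₜ[K] 1) * t i * (1 ⊗ₜ[K] b)) = a * evk y t * b := by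
  rw [CSa_evk_apply, CSa_evk_apply, Finset.mul_sum, Finset.sum_mul]
  exact Finset.sum_congr rfl fun i _ => CSa_evy_mul _ _ _ _

end ev

section side

variable {K : Type u} [Field K] {n : ℕ} {O : Type u} [Ring O] [Algebra K O]
  {ρ : FA K n →ₐ[K] O} (S : Side ρ)

/-- The span of the products `th r * s i`. -/
def Side.E : Submodule K O := Submodule.span K {x | ∃ r i, x = S.th r * S.s i}

/-- PROOF. Span induction on `e` for all `g ∈ gg` at once: for `e = th r * s i`, `th g * e = th (g * r) * s i`,
`cond` for `g * r ∈ gg`. -/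
theorem Side.lift {g : MvPolynomial (Fin S.p) K} (hg : g ∈ S.gg) {e : O} (he : e ∈ S.E) :
    ∃ a, ρ a = S.th g * e := by
  unfold Side.E at he
  induction he using Submodule.span_induction with
  | mem e h =>
    obtain ⟨r, i, rfl⟩ := h
    obtain ⟨a, ha⟩ := S.cond (g * r) (S.gg.mul_mem_right r hg) i
    exact ⟨a, by rw [ha, map_mul, mul_assoc]⟩
  | zero => exact ⟨0, by rw [map_zero, mul_zero]⟩
  | add e f _ _ h1 h2 =>
    obtain ⟨a, ha⟩ := h1
    obtain ⟨b, hb⟩ := h2
    exact ⟨a + b, by rw [map_add, ha, hb, mul_add]⟩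
  | smul c e _ h1 =>
    obtain ⟨a, ha⟩ := h1
    exact ⟨c • a, by rw [map_smul, ha, mul_smul_comm]⟩

/-- PROOF. `lift` with `e = 1 = ρ 1` (`mem`). -/
theorem Side.lift_one {g : MvPolynomial (Fin S.p) K} (hg : g ∈ S.gg) : ∃ a, ρ a = S.th g := by
  have h1 : (1 : O) ∈ S.E := by
    have h2 := S.mem 1
    rw [map_one] at h2
    exact h2
  obtain ⟨a, ha⟩ := S.lift hg h1
  exact ⟨a, by rw [ha, mul_one]⟩

end side

variable {K : Type u} [Field K] {n : ℕ} {O O' : Type u} [Ring O] [Algebra K O] [Ring O']
  [Algebra K O'] {ρ : FA K n →ₐ[K] O} {ρ' : FA K n →ₐ[K] O'} (S : Side ρ) (S' : Side ρ')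

/-- The first group of variables. -/
noncomputable def inlS : MvPolynomial (Fin S.p) K →ₐ[K] MvPolynomial (Fin (S.p + S'.p)) K :=
  rename (Fin.castAdd S'.p)

/-- The second group of variables. -/
noncomputable def inrS : MvPolynomial (Fin S'.p) K →ₐ[K] MvPolynomial (Fin (S.p + S'.p)) K :=
  rename (Fin.natAdd S.p)

/-- The action of the polynomial ring in both groups of variables. -/
noncomputable def th2 : MvPolynomial (Fin (S.p + S'.p)) K →ₐ[K] O ⊗[K] O' :=
  (Algebra.TensorProduct.map S.th S'.th).comp
    (aeval (Fin.addCases (fun i => (X i : MvPolynomial (Fin S.p) K) ⊗ₜ[K] 1)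
      (fun j => 1 ⊗ₜ[K] (X j : MvPolynomial (Fin S'.p) K))))

/-- PROOF. Algebra maps on a polynomial ring which agree on the variables (`MvPolynomial.algHom_ext`) for
`r ↦ th2 (inlS r)` and `r ↦ th r ⊗ 1`; `aeval_rename` / `rename_X`, `Fin.addCases_left`. -/
theorem th2_inl (r : MvPolynomial (Fin S.p) K) : th2 S S' (inlS S S' r) = S.th r ⊗ₜ[K] 1 := by
  have h : (th2 S S').comp (inlS S S') =
      (Algebra.TensorProduct.includeLeft (R := K) (S := K) (A := O) (B := O')).comp S.th := by
    refine MvPolynomial.algHom_ext fun i => ?_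
    rw [AlgHom.comp_apply, AlgHom.comp_apply, inlS, rename_X, th2, AlgHom.comp_apply, aeval_X,
      Fin.addCases_left, Algebra.TensorProduct.map_tmul, map_one,
      Algebra.TensorProduct.includeLeft_apply]
  exact DFunLike.congr_fun h r

theorem th2_inr (r : MvPolynomial (Fin S'.p) K) : th2 S S' (inrS S S' r) = 1 ⊗ₜ[K] S'.th r := by
  have h : (th2 S S').comp (inrS S S') =
      (Algebra.TensorProduct.includeRight (R := K) (A := O) (B := O')).comp S'.th := by
    refine MvPolynomial.algHom_ext fun i => ?_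
    rw [AlgHom.comp_apply, AlgHom.comp_apply, inrS, rename_X, th2, AlgHom.comp_apply, aeval_X,
      Fin.addCases_right, Algebra.TensorProduct.map_tmul, map_one,
      Algebra.TensorProduct.includeRight_apply]
  exact DFunLike.congr_fun h r

/-- PROOF. Induction on both tensors from `comm` of the sides; `th2` has values in the span of the
`th r ⊗ th' r'`. -/
theorem th2_comm (r : MvPolynomial (Fin (S.p + S'.p)) K) (x : O ⊗[K] O') :
    th2 S S' r * x = x * th2 S S' r := by
  have hX : ∀ (i : Fin (S.p + S'.p)) (x : O ⊗[K] O'), th2 S S' (X i) * x = x * th2 S S' (X i) := by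
    intro i x
    refine Fin.addCases (fun j => ?_) (fun j => ?_) i
    · have h1 : (X (Fin.castAdd S'.p j) : MvPolynomial (Fin (S.p + S'.p)) K) =
          inlS S S' (X j) := by rw [inlS, rename_X]
      rw [h1, th2_inl]
      induction x using TensorProduct.induction_on with
      | zero => rw [mul_zero, zero_mul]
      | tmul c d =>
        rw [Algebra.TensorProduct.tmul_mul_tmul, Algebra.TensorProduct.tmul_mul_tmul, S.comm,
          one_mul, mul_one]
      | add t u ht hu => rw [mul_add, add_mul, ht, hu]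
    · have h1 : (X (Fin.natAdd S.p j) : MvPolynomial (Fin (S.p + S'.p)) K) =
          inrS S S' (X j) := by rw [inrS, rename_X]
      rw [h1, th2_inr]
      induction x using TensorProduct.induction_on with
      | zero => rw [mul_zero, zero_mul]
      | tmul c d =>
        rw [Algebra.TensorProduct.tmul_mul_tmul, Algebra.TensorProduct.tmul_mul_tmul, S'.comm,
          one_mul, mul_one]
      | add t u ht hu => rw [mul_add, add_mul, ht, hu]
  induction r using MvPolynomial.induction_on generalizing x with
  | C c =>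
    have h1 : th2 S S' (C c) = algebraMap K _ c := by
      rw [← MvPolynomial.algebraMap_eq, AlgHom.commutes]
    rw [h1, Algebra.commutes]
  | add p q hp hq => rw [map_add, add_mul, mul_add, hp, hq]
  | mul_X p i hp => rw [map_mul, mul_assoc, hX, ← mul_assoc, hp, mul_assoc]

/-- The polynomial ring in both groups is spanned by products. PROOF. `MvPolynomial.induction_on` : the span is
closed under multiplication by every variable (`Fin.addCases`), or it is a subalgebra containing the variables. -/
theorem span_inl_inr : Submodule.span K {z : MvPolynomial (Fin (S.p + S'.p)) K |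
    ∃ r r', z = inlS S S' r * inrS S S' r'} = ⊤ := by
  rw [eq_top_iff]
  rintro z -
  induction z using MvPolynomial.induction_on with
  | C c =>
    refine Submodule.subset_span ⟨C c, 1, ?_⟩
    rw [map_one, mul_one, inlS, rename_C]
  | add p q hp hq => exact add_mem hp hq
  | mul_X z i hz =>
    induction hz using Submodule.span_induction with
    | mem z h =>
      obtain ⟨r, r', rfl⟩ := h
      refine Fin.addCases (fun j => ?_) (fun j => ?_) i
      · have h1 : (X (Fin.castAdd S'.p j) : MvPolynomial (Fin (S.p + S'.p)) K) =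
            inlS S S' (X j) := by rw [inlS, rename_X]
        refine Submodule.subset_span ⟨r * X j, r', ?_⟩
        rw [h1, map_mul]
        ring
      · have h1 : (X (Fin.natAdd S.p j) : MvPolynomial (Fin (S.p + S'.p)) K) =
            inrS S S' (X j) := by rw [inrS, rename_X]
        refine Submodule.subset_span ⟨r, r' * X j, ?_⟩
        rw [h1, map_mul]
        ring
    | zero =>
      rw [zero_mul]
      exact zero_mem _
    | add a b _ _ h1 h2 =>
      rw [add_mul]
      exact add_mem h1 h2
    | smul c a _ h1 =>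
      rw [smul_mul_assoc]
      exact Submodule.smul_mem _ c h1

/-- The conductor ideal. -/
noncomputable def gg2 : Ideal (MvPolynomial (Fin (S.p + S'.p)) K) :=
  S.gg.map (inlS S S') * S'.gg.map (inrS S S')

/-- PROOF. `gg2` is spanned over `R2` by the products `inl g * inr g'` (`Ideal.map`, `Ideal.span_mul_span`); with
`span_inl_inr` and since `gg`, `gg'` are ideals it is spanned by them over `K`. -/
theorem gg2_span : Submodule.restrictScalars K (gg2 S S') = Submodule.span K
    {z | ∃ g ∈ S.gg, ∃ g' ∈ S'.gg, z = inlS S S' g * inrS S S' g'} := by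
  apply le_antisymm
  · have hcl : ∀ w z : MvPolynomial (Fin (S.p + S'.p)) K, z ∈ Submodule.span K
        {z | ∃ g ∈ S.gg, ∃ g' ∈ S'.gg, z = inlS S S' g * inrS S S' g'} →
        w * z ∈ Submodule.span K
        {z | ∃ g ∈ S.gg, ∃ g' ∈ S'.gg, z = inlS S S' g * inrS S S' g'} := by
      intro w z hz
      have hw : w ∈ Submodule.span K {z : MvPolynomial (Fin (S.p + S'.p)) K |
          ∃ r r', z = inlS S S' r * inrS S S' r'} := by
        rw [span_inl_inr]
        exact Submodule.mem_top
      induction hw using Submodule.span_induction with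
      | mem w h =>
        obtain ⟨r, r', rfl⟩ := h
        induction hz using Submodule.span_induction with
        | mem z h =>
          obtain ⟨g, hg, g', hg', rfl⟩ := h
          refine Submodule.subset_span ⟨r * g, S.gg.mul_mem_left r hg, r' * g',
            S'.gg.mul_mem_left r' hg', ?_⟩
          rw [map_mul, map_mul]
          ring
        | zero =>
          rw [mul_zero]
          exact zero_mem _
        | add a b _ _ h1 h2 =>
          rw [mul_add]
          exact add_mem h1 h2
        | smul c a _ h1 =>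
          rw [mul_smul_comm]
          exact Submodule.smul_mem _ c h1
      | zero =>
        rw [zero_mul]
        exact zero_mem _
      | add a b _ _ h1 h2 =>
        rw [add_mul]
        exact add_mem h1 h2
      | smul c a _ h1 =>
        rw [smul_mul_assoc]
        exact Submodule.smul_mem _ c h1
    let P : Ideal (MvPolynomial (Fin (S.p + S'.p)) K) :=
      { carrier := Submodule.span K
          {z | ∃ g ∈ S.gg, ∃ g' ∈ S'.gg, z = inlS S S' g * inrS S S' g'}
        zero_mem' := zero_mem _
        add_mem' := fun ha hb => add_mem ha hb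
        smul_mem' := fun w z hz => hcl w z hz }
    have hP : gg2 S S' ≤ P := by
      unfold gg2 Ideal.map
      rw [Ideal.span_mul_span', Ideal.span_le]
      rintro z hz
      obtain ⟨a, ⟨g, hg, rfl⟩, b, ⟨g', hg', rfl⟩, rfl⟩ := Set.mem_mul.1 hz
      exact Submodule.subset_span ⟨g, hg, g', hg', rfl⟩
    intro z hz
    exact hP hz
  · rw [Submodule.span_le]
    rintro z ⟨g, hg, g', hg', rfl⟩
    exact Ideal.mul_mem_mul (Ideal.mem_map_of_mem _ hg) (Ideal.mem_map_of_mem _ hg')

/-- Value of a tuple of tensors. -/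
noncomputable def valk (ρ : FA K n →ₐ[K] O) (ρ' : FA K n →ₐ[K] O') (k : ℕ) :
    (Fin k → FA K n ⊗[K] FA K n) →ₗ[K] (Fin k → O ⊗[K] O') :=
  LinearMap.pi fun i => (Algebra.TensorProduct.map ρ ρ').toLinearMap ∘ₗ LinearMap.proj i

/-- The rank. -/
def N2 (k : ℕ) : ℕ := Fintype.card (Fin S.N × Fin S'.N × Fin k)

/-- The indices. -/
noncomputable def idx (k : ℕ) : Fin (N2 S S' k) ≃ Fin S.N × Fin S'.N × Fin k :=
  (Fintype.equivFin (Fin S.N × Fin S'.N × Fin k)).symm

/-- Value of a vector. -/
noncomputable def pik (k : ℕ) : (Fin (N2 S S' k) → MvPolynomial (Fin (S.p + S'.p)) K) →ₗ[K]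
    (Fin k → O ⊗[K] O') :=
  LinearMap.pi fun i => ∑ a, if (idx S S' k a).2.2 = i then
    (LinearMap.mulRight K (S.s (idx S S' k a).1 ⊗ₜ[K] S'.s (idx S S' k a).2.1)) ∘ₗ
      (th2 S S').toLinearMap ∘ₗ (LinearMap.proj a) else 0

/-- PROOF. `th2` is multiplicative; unfold. -/
theorem pik_smul (k : ℕ) (g : MvPolynomial (Fin (S.p + S'.p)) K)
    (x : Fin (N2 S S' k) → MvPolynomial (Fin (S.p + S'.p)) K) :
    pik S S' k (g • x) = fun i => th2 S S' g * pik S S' k x i := by
  have hev : ∀ (y : Fin (N2 S S' k) → MvPolynomial (Fin (S.p + S'.p)) K) (i : Fin k),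
      pik S S' k y i = ∑ a, if (idx S S' k a).2.2 = i then
        th2 S S' (y a) * (S.s (idx S S' k a).1 ⊗ₜ[K] S'.s (idx S S' k a).2.1) else 0 := by
    intro y i
    unfold pik
    rw [LinearMap.pi_apply, LinearMap.sum_apply]
    refine Finset.sum_congr rfl fun a _ => ?_
    split_ifs
    · rfl
    · rfl
  funext i
  rw [hev, hev, Finset.mul_sum]
  refine Finset.sum_congr rfl fun a _ => ?_
  rw [Pi.smul_apply, smul_eq_mul]
  split_ifs
  · rw [map_mul, mul_assoc]
  · rw [mul_zero]

end Pool.Agent.H.MP_f5ceca_al.S
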