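import Pool.Agent.H.MP_f5ceca_al.S.Fox
import Pool.Agent.H.MP_f5ceca_al.S.CSa

/-!
Generators up to the conductor: for a subspace `J` of `ker ρ ⊓ ker ρ'` there are finitely many elements of
`J` which generate `g J g'` modulo `ker ρ * ker ρ'`.
-/

namespace Pool.Agent.H.MP_f5ceca_al.S

open MvPolynomial TensorProduct
open Pool.Agent.H.MP_f5ceca_al.N (FA xx Com Fil Aug)

universe u

variable {K : Type u} [Field K] {n : ℕ} {O O' : Type u} [Ring O] [Algebra K O] [Ring O']
  [Algebra K O'] {ρ : FA K n →ₐ[K] O} {ρ' : FA K n →ₐ[K] O'} (S : Side ρ) (S' : Side ρ')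

theorem BaseA_pik_apply (k : ℕ) (x : Fin (N2 S S' k) → MvPolynomial (Fin (S.p + S'.p)) K)
    (i : Fin k) : pik S S' k x i = ∑ a, if (idx S S' k a).2.2 = i then
      th2 S S' (x a) * (S.s (idx S S' k a).1 ⊗ₜ[K] S'.s (idx S S' k a).2.1) else 0 := by
  rw [pik, LinearMap.pi_apply, LinearMap.sum_apply]
  refine Finset.sum_congr rfl fun a _ => ?_
  by_cases h : (idx S S' k a).2.2 = i
  · rw [if_pos h, if_pos h]
    rfl
  · rw [if_neg h, if_neg h, LinearMap.zero_apply]

theorem BaseA_pik_single (k : ℕ) (j : Fin S.N) (j' : Fin S'.N) (i : Fin k)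
    (r : MvPolynomial (Fin S.p) K) (r' : MvPolynomial (Fin S'.p) K) :
    pik S S' k (Pi.single ((idx S S' k).symm (j, j', i)) (inlS S S' r * inrS S S' r')) =
      Pi.single i ((S.th r * S.s j) ⊗ₜ[K] (S'.th r' * S'.s j')) := by
  funext i'
  rw [BaseA_pik_apply, Finset.sum_eq_single ((idx S S' k).symm (j, j', i))]
  · rw [Equiv.apply_symm_apply, Pi.single_eq_same]
    by_cases h : i = i'
    · subst h
      rw [if_pos rfl, Pi.single_eq_same, map_mul, th2_inl, th2_inr,
        Algebra.TensorProduct.tmul_mul_tmul, Algebra.TensorProduct.tmul_mul_tmul, mul_one, one_mul]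
    · rw [if_neg h, Pi.single_eq_of_ne (Ne.symm h)]
  · intro b _ hb
    rw [Pi.single_eq_of_ne hb, map_zero, zero_mul, ite_self]
  · intro h
    exact absurd (Finset.mem_univ _) h

theorem BaseA_single_mem (i : Fin n) (a b : FA K n) :
    Pi.single i (ρ a ⊗ₜ[K] ρ' b) ∈ LinearMap.range (pik S S' n) := by
  have h1 : ∀ e ∈ Submodule.span K {x | ∃ r i, x = S.th r * S.s i}, ∀ r' : MvPolynomial (Fin S'.p) K,
      ∀ j' : Fin S'.N, Pi.single (M := fun _ => O ⊗[K] O') i (e ⊗ₜ[K] (S'.th r' * S'.s j')) ∈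
        LinearMap.range (pik S S' n) := by
    intro e he r' j'
    induction he using Submodule.span_induction with
    | mem x hx =>
      obtain ⟨r, j, rfl⟩ := hx
      exact ⟨_, BaseA_pik_single S S' n j j' i r r'⟩
    | zero =>
      rw [TensorProduct.zero_tmul, Pi.single_zero]
      exact zero_mem _
    | add x y _ _ hx hy =>
      rw [TensorProduct.add_tmul, Pi.single_add]
      exact add_mem hx hy
    | smul c x _ hx =>
      rw [← TensorProduct.smul_tmul', Pi.single_smul]
      exact Submodule.smul_mem _ c hx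
  have h2 : ∀ e' ∈ Submodule.span K {x | ∃ r i, x = S'.th r * S'.s i},
      Pi.single (M := fun _ => O ⊗[K] O') i (ρ a ⊗ₜ[K] e') ∈ LinearMap.range (pik S S' n) := by
    intro e he
    induction he using Submodule.span_induction with
    | mem x hx =>
      obtain ⟨r', j', rfl⟩ := hx
      exact h1 _ (S.mem a) r' j'
    | zero =>
      rw [TensorProduct.tmul_zero, Pi.single_zero]
      exact zero_mem _
    | add x y _ _ hx hy =>
      rw [TensorProduct.tmul_add, Pi.single_add]
      exact add_mem hx hy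
    | smul c x _ hx =>
      rw [TensorProduct.tmul_smul, Pi.single_smul]
      exact Submodule.smul_mem _ c hx
  exact h2 _ (S'.mem b)

theorem BaseA_fox_span (ρ : FA K n →ₐ[K] O) (ρ' : FA K n →ₐ[K] O') (j : Fin n) (z : FA K n) :
    fox ρ ρ' j z ∈ Submodule.span K {w | ∃ a b : FA K n, w = ρ a ⊗ₜ[K] ρ' b} := by
  induction z using FreeAlgebra.induction with
  | grade0 r =>
    rw [fox_algebraMap]
    exact zero_mem _
  | grade1 i =>
    have h1 := fox_xx ρ ρ' j i
    rw [xx] at h1
    rw [h1]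
    split_ifs
    · refine Submodule.subset_span ⟨1, 1, ?_⟩
      rw [map_one, map_one]
      rfl
    · exact zero_mem _
  | mul a b ha hb =>
    rw [fox_mul]
    refine add_mem ?_ ?_
    · clear ha
      generalize fox ρ ρ' j b = t at hb ⊢
      induction hb using Submodule.span_induction with
      | mem x hx =>
        obtain ⟨c, d, rfl⟩ := hx
        rw [Algebra.TensorProduct.tmul_mul_tmul, one_mul, ← map_mul]
        exact Submodule.subset_span ⟨_, _, rfl⟩
      | zero =>
        rw [mul_zero]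
        exact zero_mem _
      | add x y _ _ hx hy =>
        rw [mul_add]
        exact add_mem hx hy
      | smul c x _ hx =>
        rw [mul_smul_comm]
        exact Submodule.smul_mem _ c hx
    · clear hb
      generalize fox ρ ρ' j a = t at ha ⊢
      induction ha using Submodule.span_induction with
      | mem x hx =>
        obtain ⟨c, d, rfl⟩ := hx
        rw [Algebra.TensorProduct.tmul_mul_tmul, mul_one, ← map_mul]
        exact Submodule.subset_span ⟨_, _, rfl⟩
      | zero =>
        rw [zero_mul]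
        exact zero_mem _
      | add x y _ _ hx hy =>
        rw [add_mul]
        exact add_mem hx hy
      | smul c x _ hx =>
        rw [smul_mul_assoc]
        exact Submodule.smul_mem _ c hx
  | add a b ha hb =>
    rw [map_add]
    exact add_mem ha hb

/-- PROOF. The image of `pik` for `k = n` is a subspace; it contains `Pi.single i (ρ a ⊗ ρ' b)` for all `a, b` (`mem` of both
sides: `ρ a` is a sum of `th r * s j`, `ρ' b` a sum of `th' r' * s' j'`, and `pik (Pi.single (idx.symm (j, j', i)) (inl r * inr r'))` is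
`Pi.single i ((th r * s j) ⊗ (th' r' * s' j'))`, by `th2_inl`, `th2_inr`). By `FreeAlgebra.induction` and `fox_mul`, `fox_xx`, every
`fox ρ ρ' j z` is in the span of the `ρ a ⊗ ρ' b`. -/
theorem fox_mem_range (z : FA K n) :
    ∃ x, pik S S' n x = fun j => fox ρ ρ' j z := by
  have h1 : ∀ (i : Fin n), ∀ w ∈ Submodule.span K {w | ∃ a b : FA K n, w = ρ a ⊗ₜ[K] ρ' b},
      Pi.single (M := fun _ => O ⊗[K] O') i w ∈ LinearMap.range (pik S S' n) := by
    intro i w hw
    induction hw using Submodule.span_induction with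
    | mem x hx =>
      obtain ⟨a, b, rfl⟩ := hx
      exact BaseA_single_mem S S' i a b
    | zero =>
      rw [Pi.single_zero]
      exact zero_mem _
    | add x y _ _ hx hy =>
      rw [Pi.single_add]
      exact add_mem hx hy
    | smul c x _ hx =>
      rw [Pi.single_smul]
      exact Submodule.smul_mem _ c hx
  have h2 : (fun j => fox ρ ρ' j z) ∈ LinearMap.range (pik S S' n) := by
    rw [← Finset.univ_sum_single (fun j => fox ρ ρ' j z)]
    exact sum_mem fun i _ => h1 i _ (BaseA_fox_span ρ ρ' i z)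
  exact h2

/-- **Generators up to the conductor.**

PROOF. Let `Rel = {x | ∃ z ∈ J, pik x = fun j => fox j z}`, `U = span_{R2} Rel`. `U` is finitely generated (the polynomial ring is
noetherian), by a finite subset `s ⊆ Rel` (`Submodule.fg_span_iff_fg_span_finset_subset`); choose `z_x ∈ J` for `x ∈ s`; `ν` is the set of the
`z_x`. Let `z ∈ J`, `ρ g = th θ`, `ρ' g' = th' θ'` with `θ ∈ gg ^ 1`, `θ' ∈ gg' ^ 1`, `γ = inl θ * inr θ' ∈ gg2`. Let `pik x = D z`
(`fox_mem_range`); `x ∈ Rel ⊆ span s`: `x = ∑ r_y • y`, so `γ • x = ∑ (γ * r_y) • y`, and every `γ * r_y ∈ gg2` is a sum of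
`inl h * inr h'` with `h ∈ gg`, `h' ∈ gg'` (`gg2_span`), `ρ a = th h`, `ρ' b = th' h'` (`Side.lift_one`); `pik ((inl h * inr h') • y) =
th2 (..) * D z_y = D (a * z_y * b)` (`pik_smul`, `th2_inl`, `th2_inr`, `fox_mul_mul`, `th2_comm`). Conversely
`pik (γ • x) = D (g * z * g')` by `fox_mul_mul`. So `w = g * z * g' - ∑ a * z_y * b` has `D w = 0`, `ρ w = 0`, `ρ' w = 0`, hence
`w ∈ ker ρ * ker ρ'` by `lewin`. -/
theorem fg_gen (J : Submodule K (FA K n)) (hl : ∀ z ∈ J, ρ z = 0) (hr : ∀ z ∈ J, ρ' z = 0) :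
    ∃ ν : Finset (FA K n), (∀ y ∈ ν, y ∈ J) ∧ ∀ z ∈ J, ∀ g ∈ S.D 1, ∀ g' ∈ S'.D 1,
      g * z * g' ∈ tsp (ν : Set (FA K n)) ⊔
        LinearMap.ker ρ.toLinearMap * LinearMap.ker ρ'.toLinearMap := by
  classical
  have hfg : (Submodule.span (MvPolynomial (Fin (S.p + S'.p)) K)
      {x : Fin (N2 S S' n) → MvPolynomial (Fin (S.p + S'.p)) K |
        ∃ z ∈ J, pik S S' n x = fun j => fox ρ ρ' j z}).FG := IsNoetherian.noetherian _
  rw [Submodule.fg_span_iff_fg_span_finset_subset] at hfg
  obtain ⟨s', hs', hspan⟩ := hfg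
  have hz : ∀ x : Fin (N2 S S' n) → MvPolynomial (Fin (S.p + S'.p)) K, ∃ z : FA K n, x ∈ s' →
      z ∈ J ∧ pik S S' n x = fun j => fox ρ ρ' j z := by
    intro x
    by_cases hx : x ∈ s'
    · obtain ⟨z, hzJ, hzx⟩ := hs' hx
      exact ⟨z, fun _ => ⟨hzJ, hzx⟩⟩
    · exact ⟨0, fun h => absurd h hx⟩
  choose zf hzf using hz
  refine ⟨s'.image zf, ?_, ?_⟩
  · intro y hy
    obtain ⟨x, hx, rfl⟩ := Finset.mem_image.1 hy
    exact (hzf x hx).1
  · have key : ∀ x ∈ Submodule.span (MvPolynomial (Fin (S.p + S'.p)) K)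
        (s' : Set (Fin (N2 S S' n) → MvPolynomial (Fin (S.p + S'.p)) K)), ∀ γ ∈ gg2 S S',
        ∃ w ∈ tsp ((s'.image zf : Finset (FA K n)) : Set (FA K n)), ρ w = 0 ∧ ρ' w = 0 ∧
          (fun j => fox ρ ρ' j w) = pik S S' n (γ • x) := by
      intro x hx
      induction hx using Submodule.span_induction with
      | mem x hx =>
        intro γ hγ
        have hγ2 : γ ∈ Submodule.restrictScalars K (gg2 S S') := hγ
        clear hγ
        rw [gg2_span] at hγ2
        have hx' : x ∈ s' := hx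
        obtain ⟨hJ, hpx⟩ := hzf x hx'
        induction hγ2 using Submodule.span_induction with
        | mem γ hγ3 =>
          obtain ⟨h, hh, h', hh', rfl⟩ := hγ3
          obtain ⟨a, ha⟩ := S.lift_one hh
          obtain ⟨b, hb⟩ := S'.lift_one hh'
          refine ⟨a * zf x * b, Submodule.subset_span ⟨a, zf x, b, ?_, rfl⟩, ?_, ?_, ?_⟩
          · exact Finset.mem_coe.2 (Finset.mem_image_of_mem _ hx')
          · rw [map_mul, map_mul, hl _ hJ, mul_zero, zero_mul]
          · rw [map_mul, map_mul, hr _ hJ, mul_zero, zero_mul]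
          · funext j
            rw [fox_mul_mul ρ ρ' j (hl _ hJ) (hr _ hJ), pik_smul, hpx, ha, hb, map_mul,
              th2_inl, th2_inr, mul_assoc, ← th2_inr S S' h', ← th2_comm, ← mul_assoc]
        | zero =>
          refine ⟨0, zero_mem _, map_zero _, map_zero _, ?_⟩
          funext j
          rw [zero_smul, map_zero, map_zero]
          rfl
        | add γ₁ γ₂ _ _ h₁ h₂ =>
          obtain ⟨w₁, hw₁, ha₁, hb₁, hc₁⟩ := h₁
          obtain ⟨w₂, hw₂, ha₂, hb₂, hc₂⟩ := h₂
          refine ⟨w₁ + w₂, add_mem hw₁ hw₂, by rw [map_add, ha₁, ha₂, add_zero],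
            by rw [map_add, hb₁, hb₂, add_zero], ?_⟩
          rw [add_smul, map_add, ← hc₁, ← hc₂]
          funext j
          rw [map_add]
          rfl
        | smul c γ _ h =>
          obtain ⟨w, hw, ha, hb, hc⟩ := h
          refine ⟨c • w, Submodule.smul_mem _ c hw, by rw [map_smul, ha, smul_zero],
            by rw [map_smul, hb, smul_zero], ?_⟩
          rw [smul_assoc, map_smul, ← hc]
          funext j
          rw [map_smul]
          rfl
      | zero =>
        intro γ _
        refine ⟨0, zero_mem _, map_zero _, map_zero _, ?_⟩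
        funext j
        rw [smul_zero, map_zero, map_zero]
        rfl
      | add x y _ _ hx hy =>
        intro γ hγ
        obtain ⟨w₁, hw₁, ha₁, hb₁, hc₁⟩ := hx γ hγ
        obtain ⟨w₂, hw₂, ha₂, hb₂, hc₂⟩ := hy γ hγ
        refine ⟨w₁ + w₂, add_mem hw₁ hw₂, by rw [map_add, ha₁, ha₂, add_zero],
          by rw [map_add, hb₁, hb₂, add_zero], ?_⟩
        rw [smul_add, map_add, ← hc₁, ← hc₂]
        funext j
        rw [map_add]
        rfl
      | smul r x _ hx =>
        intro γ hγ
        obtain ⟨w, hw, ha, hb, hc⟩ := hx (γ * r) (Ideal.mul_mem_right _ _ hγ)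
        refine ⟨w, hw, ha, hb, ?_⟩
        rw [hc, mul_smul]
    intro z hzJ g hg g' hg'
    obtain ⟨θ, hθ, hgθ⟩ := hg
    obtain ⟨θ', hθ', hgθ'⟩ := hg'
    rw [pow_one] at hθ hθ'
    have hγ : inlS S S' θ * inrS S S' θ' ∈ gg2 S S' :=
      Ideal.mul_mem_mul (Ideal.mem_map_of_mem _ hθ) (Ideal.mem_map_of_mem _ hθ')
    obtain ⟨x, hx⟩ := fox_mem_range S S' z
    have hxs : x ∈ Submodule.span (MvPolynomial (Fin (S.p + S'.p)) K)
        (s' : Set (Fin (N2 S S' n) → MvPolynomial (Fin (S.p + S'.p)) K)) := by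
      rw [← hspan]
      exact Submodule.subset_span ⟨z, hzJ, hx⟩
    obtain ⟨w, hw, ha, hb, hc⟩ := key x hxs _ hγ
    have hu : g * z * g' - w ∈ LinearMap.ker ρ.toLinearMap * LinearMap.ker ρ'.toLinearMap := by
      refine lewin ρ ρ' ?_ ?_ ?_
      · rw [map_sub, map_mul, map_mul, hl _ hzJ, mul_zero, zero_mul, ha, sub_zero]
      · rw [map_sub, map_mul, map_mul, hr _ hzJ, mul_zero, zero_mul, hb, sub_zero]
      · intro j
        have hcj := congrFun hc j
        rw [pik_smul, hx] at hcj
        rw [map_sub, fox_mul_mul ρ ρ' j (hl _ hzJ) (hr _ hzJ), hgθ, hgθ', hcj, map_mul,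
          th2_inl, th2_inr, mul_assoc, ← th2_inr S S' θ', ← th2_comm, ← mul_assoc, sub_self]
    have he : g * z * g' = w + (g * z * g' - w) := by abel
    rw [he]
    exact Submodule.add_mem_sup hw hu

end Pool.Agent.H.MP_f5ceca_al.S
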