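import Pool.Agent.H.MP_f5ceca_al.S.CSa

/-!
The section given by two sides: the representation relation and its properties.
-/

namespace Pool.Agent.H.MP_f5ceca_al.S

open MvPolynomial TensorProduct
open Pool.Agent.H.MP_f5ceca_al.N (FA xx Com Fil Aug)

universe u

variable {K : Type u} [Field K] {n : ℕ} {O O' : Type u} [Ring O] [Algebra K O] [Ring O']
  [Algebra K O'] {ρ : FA K n →ₐ[K] O} {ρ' : FA K n →ₐ[K] O'} (S : Side ρ) (S' : Side ρ')

/-- The representation relation. -/
noncomputable def relk (T : Submodule K (FA K n)) {k : ℕ} (y : Fin k → FA K n) :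
    Submodule K (FA K n × (Fin (N2 S S' k) → MvPolynomial (Fin (S.p + S'.p)) K)) where
  carrier := {z | ∃ t, z.1 - evk y t ∈ T ∧ valk ρ ρ' k t = pik S S' k z.2}
  zero_mem' := ⟨0, by simp, by simp⟩
  add_mem' := fun {z w} ⟨t, h1, h2⟩ ⟨t', h1', h2'⟩ => ⟨t + t', by
    have : (z + w).1 - evk y (t + t') = (z.1 - evk y t) + (w.1 - evk y t') := by
      rw [map_add, Prod.fst_add]; abel
    rw [this]
    exact T.add_mem h1 h1', by rw [map_add, h2, h2', Prod.snd_add, map_add]⟩
  smul_mem' := fun c z ⟨t, h1, h2⟩ => ⟨c • t, by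
    have : (c • z).1 - evk y (c • t) = c • (z.1 - evk y t) := by
      rw [map_smul, Prod.smul_fst, smul_sub]
    rw [this]
    exact T.smul_mem c h1, by rw [map_smul, h2, Prod.smul_snd, map_smul]⟩

theorem CSb_evk {k : ℕ} (y : Fin k → FA K n) (t : Fin k → FA K n ⊗[K] FA K n) :
    evk y t = ∑ i, evy (y i) (t i) := by
  unfold evk
  rw [LinearMap.sum_apply]
  rfl

theorem CSb_evk_single {k : ℕ} (y : Fin k → FA K n) (i : Fin k) (t : FA K n ⊗[K] FA K n) :
    evk y (Pi.single i t) = evy (y i) t := by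
  rw [CSb_evk, Finset.sum_eq_single i]
  · rw [Pi.single_eq_same]
  · intro j _ hj
    rw [Pi.single_eq_of_ne hj, map_zero]
  · intro h
    exact absurd (Finset.mem_univ i) h

theorem CSb_valk {k : ℕ} (t : Fin k → FA K n ⊗[K] FA K n) (i : Fin k) :
    valk ρ ρ' k t i = Algebra.TensorProduct.map ρ ρ' (t i) := rfl

theorem CSb_valk_single {k : ℕ} (i : Fin k) (a b : FA K n) :
    valk ρ ρ' k (Pi.single i (a ⊗ₜ[K] b)) = Pi.single i (ρ a ⊗ₜ[K] ρ' b) := by
  funext j
  rw [CSb_valk]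
  by_cases hj : j = i
  · subst hj
    rw [Pi.single_eq_same, Pi.single_eq_same, Algebra.TensorProduct.map_tmul]
  · rw [Pi.single_eq_of_ne hj, Pi.single_eq_of_ne hj, map_zero]

theorem CSb_pik_single {k : ℕ} (a : Fin (N2 S S' k)) (f : MvPolynomial (Fin (S.p + S'.p)) K) :
    pik S S' k (Pi.single a f) = Pi.single (idx S S' k a).2.2
      (th2 S S' f * (S.s (idx S S' k a).1 ⊗ₜ[K] S'.s (idx S S' k a).2.1)) := by
  funext i
  show (∑ b, if (idx S S' k b).2.2 = i then
    (LinearMap.mulRight K (S.s (idx S S' k b).1 ⊗ₜ[K] S'.s (idx S S' k b).2.1)) ∘ₗ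
      (th2 S S').toLinearMap ∘ₗ (LinearMap.proj b) else 0 :
      (Fin (N2 S S' k) → MvPolynomial (Fin (S.p + S'.p)) K) →ₗ[K] O ⊗[K] O') (Pi.single a f) = _
  rw [LinearMap.sum_apply, Finset.sum_eq_single a]
  · by_cases hi : (idx S S' k a).2.2 = i
    · subst hi
      rw [if_pos rfl, Pi.single_eq_same]
      show th2 S S' ((Pi.single a f : Fin (N2 S S' k) → MvPolynomial (Fin (S.p + S'.p)) K) a) *
        (S.s (idx S S' k a).1 ⊗ₜ[K] S'.s (idx S S' k a).2.1) = _
      rw [Pi.single_eq_same]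
    · rw [if_neg hi, Pi.single_eq_of_ne (Ne.symm hi)]
      rfl
  · intro b _ hb
    by_cases hi : (idx S S' k b).2.2 = i
    · rw [if_pos hi]
      show th2 S S' ((Pi.single a f : Fin (N2 S S' k) → MvPolynomial (Fin (S.p + S'.p)) K) b) *
        (S.s (idx S S' k b).1 ⊗ₜ[K] S'.s (idx S S' k b).2.1) = 0
      rw [Pi.single_eq_of_ne hb, map_zero, zero_mul]
    · rw [if_neg hi]
      rfl
  · intro h
    exact absurd (Finset.mem_univ a) h

theorem CSb_th2 (r : MvPolynomial (Fin S.p) K) (r' : MvPolynomial (Fin S'.p) K) (e : O) (e' : O') :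
    th2 S S' (inlS S S' r * inrS S S' r') * (e ⊗ₜ[K] e') = (S.th r * e) ⊗ₜ[K] (S'.th r' * e') := by
  rw [map_mul, th2_inl, th2_inr, Algebra.TensorProduct.tmul_mul_tmul,
    Algebra.TensorProduct.tmul_mul_tmul, mul_one, one_mul]

theorem CSb_single_add {k : ℕ} {A : Type u} [AddCommGroup A] (i : Fin k) (x z : A) :
    (Pi.single i (x + z) : Fin k → A) = Pi.single i x + Pi.single i z := by
  rw [Pi.single_add]

theorem CSb_surj {k : ℕ} (i : Fin k) {e : O} (he : e ∈ S.E) {e' : O'} (he' : e' ∈ S'.E) :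
    ∃ x, pik S S' k x = Pi.single i (e ⊗ₜ[K] e') := by
  unfold Side.E at he he'
  induction he using Submodule.span_induction with
  | mem e h =>
    obtain ⟨r, j, rfl⟩ := h
    induction he' using Submodule.span_induction with
    | mem e' h' =>
      obtain ⟨r', j', rfl⟩ := h'
      refine ⟨Pi.single ((idx S S' k).symm (j, j', i)) (inlS S S' r * inrS S S' r'), ?_⟩
      rw [CSb_pik_single, Equiv.apply_symm_apply, CSb_th2]
    | zero => exact ⟨0, by rw [map_zero, TensorProduct.tmul_zero, Pi.single_zero]⟩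
    | add x z _ _ hx hz =>
      obtain ⟨v, hv⟩ := hx
      obtain ⟨w, hw⟩ := hz
      exact ⟨v + w, by rw [map_add, hv, hw, TensorProduct.tmul_add, CSb_single_add]⟩
    | smul c x _ hx =>
      obtain ⟨v, hv⟩ := hx
      exact ⟨c • v, by rw [map_smul, hv, TensorProduct.tmul_smul, Pi.single_smul]⟩
  | zero => exact ⟨0, by rw [map_zero, TensorProduct.zero_tmul, Pi.single_zero]⟩
  | add x z _ _ hx hz =>
    obtain ⟨v, hv⟩ := hx
    obtain ⟨w, hw⟩ := hz
    exact ⟨v + w, by rw [map_add, hv, hw, TensorProduct.add_tmul, CSb_single_add]⟩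
  | smul c x _ hx =>
    obtain ⟨v, hv⟩ := hx
    exact ⟨c • v, by rw [map_smul, hv, ← TensorProduct.smul_tmul', Pi.single_smul]⟩

variable {T : Submodule K (FA K n)} {k : ℕ} (y : Fin k → FA K n)

/-- PROOF. `(u, 0)`: `valk t = 0`, so every `t i` is in the kernel of `ρ ⊗ ρ'`; `ker_map`: `t i = t₁ + t₂`; `evy (y i) t₁ ∈ T` by
`hl` (span induction: `a y b` with `ρ a = 0`: `(a * y) * b`), `evy (y i) t₂ ∈ T` by `hr`. So `evk y t ∈ T`, `u ∈ T`. -/
theorem relk_zero (hT : IsId T) (hl : ∀ i z, ρ z = 0 → z * y i ∈ T)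
    (hr : ∀ i z, ρ' z = 0 → y i * z ∈ T) (u : FA K n) (h : (u, 0) ∈ relk S S' T y) : u ∈ T := by
  obtain ⟨t, h1, h2⟩ := h
  rw [map_zero] at h2
  have h3 : ∀ i, evy (y i) (t i) ∈ T := by
    intro i
    have h4 : TensorProduct.map ρ.toLinearMap ρ'.toLinearMap (t i) = 0 := congrFun h2 i
    obtain ⟨t₁, t₂, h5, h6, h7⟩ := ker_map ρ.toLinearMap ρ'.toLinearMap (t i) h4
    rw [h5, map_add]
    clear h5
    refine T.add_mem ?_ ?_
    · induction h6 using Submodule.span_induction with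
      | mem z hz =>
        obtain ⟨a, b, ha, rfl⟩ := hz
        rw [evy_tmul]
        exact hT.right _ _ (hl i a ha)
      | zero => rw [map_zero]; exact T.zero_mem
      | add z w _ _ hz hw => rw [map_add]; exact T.add_mem hz hw
      | smul c z _ hz => rw [map_smul]; exact T.smul_mem c hz
    · induction h7 using Submodule.span_induction with
      | mem z hz =>
        obtain ⟨a, b, hb, rfl⟩ := hz
        rw [evy_tmul, mul_assoc]
        exact hT.left _ _ (hr i b hb)
      | zero => rw [map_zero]; exact T.zero_mem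
      | add z w _ _ hz hw => rw [map_add]; exact T.add_mem hz hw
      | smul c z _ hz => rw [map_smul]; exact T.smul_mem c hz
  have h8 : evk y t ∈ T := by
    rw [CSb_evk]
    exact T.sum_mem fun i _ => h3 i
  have h9 := T.add_mem h1 h8
  rw [sub_add_cancel] at h9
  exact h9

/-- PROOF. The statement is additive in `g` (`tsp {u}` and `relk` are subspaces), so by `gg2_span` let
`g = inl g₁ * inr g₂`, `ρ a = th g₁`, `ρ' b = th' g₂` (`lift_one`). `u' = a * u * b`, `t' i = (a ⊗ 1) * t i * (1 ⊗ b)`: `evk_mul`; the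
value is `(th g₁ ⊗ 1) * valk t i * (1 ⊗ th' g₂) = th2 g * valk t i` (`th2_inl`, `th2_inr`, `th2_comm`); `pik_smul`. -/
theorem relk_act (hT : IsId T) (u : FA K n)
    (x : Fin (N2 S S' k) → MvPolynomial (Fin (S.p + S'.p)) K)
    (g : MvPolynomial (Fin (S.p + S'.p)) K) (h : (u, x) ∈ relk S S' T y) (hg : g ∈ gg2 S S') :
    ∃ u' ∈ tsp {u}, (u', g • x) ∈ relk S S' T y := by
  have hg' : g ∈ Submodule.restrictScalars K (gg2 S S') := hg
  rw [gg2_span] at hg'
  induction hg' using Submodule.span_induction with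
  | mem g hgm =>
    obtain ⟨g₁, hg₁, g₂, hg₂, rfl⟩ := hgm
    obtain ⟨a, ha⟩ := S.lift_one hg₁
    obtain ⟨b, hb⟩ := S'.lift_one hg₂
    obtain ⟨t, h1, h2⟩ := h
    refine ⟨a * u * b, Submodule.subset_span ⟨a, u, b, rfl, rfl⟩,
      fun i => (a ⊗ₜ[K] 1) * t i * (1 ⊗ₜ[K] b), ?_, ?_⟩
    · rw [evk_mul]
      have h3 : a * u * b - a * evk y t * b = a * (u - evk y t) * b := by
        rw [mul_sub, sub_mul]
      show a * u * b - a * evk y t * b ∈ T
      rw [h3]
      exact hT.right _ _ (hT.left _ _ h1)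
    · show _ = pik S S' k ((inlS S S' g₁ * inrS S S' g₂) • x)
      rw [pik_smul]
      funext i
      rw [CSb_valk, map_mul, map_mul, Algebra.TensorProduct.map_tmul,
        Algebra.TensorProduct.map_tmul, map_one, map_one, ha, hb, ← CSb_valk, h2,
        ← th2_inl S S', ← th2_inr S S', mul_assoc, ← th2_comm, ← mul_assoc, ← map_mul]
  | zero =>
    refine ⟨0, zero_mem _, ?_⟩
    rw [zero_smul]
    exact zero_mem _
  | add g g' hgm hgm' hg1 hg2 =>
    obtain ⟨v, hv, h1⟩ := hg1 (by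
      have h0 : g ∈ Submodule.restrictScalars K (gg2 S S') := by rw [gg2_span]; exact hgm
      exact h0)
    obtain ⟨v', hv', h1'⟩ := hg2 (by
      have h0 : g' ∈ Submodule.restrictScalars K (gg2 S S') := by rw [gg2_span]; exact hgm'
      exact h0)
    refine ⟨v + v', add_mem hv hv', ?_⟩
    rw [add_smul]
    exact add_mem h1 h1'
  | smul c g hgm hg1 =>
    obtain ⟨v, hv, h1⟩ := hg1 (by
      have h0 : g ∈ Submodule.restrictScalars K (gg2 S S') := by rw [gg2_span]; exact hgm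
      exact h0)
    refine ⟨c • v, Submodule.smul_mem _ c hv, ?_⟩
    rw [smul_assoc]
    exact Submodule.smul_mem _ c h1

/-- PROOF. Additive in `g` and in `x`: let `g = inl g₁ * inr g₂` and `x = Pi.single a (inl r * inr r')` (`gg2_span`,
`span_inl_inr`, `Pi` sums). `pik (g • x)` is `(th (g₁ r) s) ⊗ (th' (g₂ r') s')` at one coordinate `i` and `0` elsewhere; it is
`ρ a ⊗ ρ' b` by `cond`. Take `t = Pi.single i (a ⊗ b)`, `u = evk y t`. -/
theorem relk_dom (hT : IsId T) (g : MvPolynomial (Fin (S.p + S'.p)) K) (hg : g ∈ gg2 S S')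
    (x : Fin (N2 S S' k) → MvPolynomial (Fin (S.p + S'.p)) K) :
    ∃ u, (u, g • x) ∈ relk S S' T y := by
  have key : ∀ (a : Fin (N2 S S' k)) (r g : MvPolynomial (Fin (S.p + S'.p)) K),
      g ∈ gg2 S S' → ∃ u, (u, Pi.single a (g * r)) ∈ relk S S' T y := by
    intro a r g hg
    have hr : r ∈ Submodule.span K {z : MvPolynomial (Fin (S.p + S'.p)) K |
        ∃ r r', z = inlS S S' r * inrS S S' r'} := by
      rw [span_inl_inr]
      exact Submodule.mem_top
    have hg' : g ∈ Submodule.restrictScalars K (gg2 S S') := hg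
    rw [gg2_span] at hg'
    clear hg
    induction hg' using Submodule.span_induction with
    | mem g hgm =>
      obtain ⟨g₁, hg₁, g₂, hg₂, rfl⟩ := hgm
      induction hr using Submodule.span_induction with
      | mem r hrm =>
        obtain ⟨r₁, r₂, rfl⟩ := hrm
        obtain ⟨α, hα⟩ := S.cond (g₁ * r₁) (S.gg.mul_mem_right _ hg₁) (idx S S' k a).1
        obtain ⟨β, hβ⟩ := S'.cond (g₂ * r₂) (S'.gg.mul_mem_right _ hg₂) (idx S S' k a).2.1
        refine ⟨evk y (Pi.single (idx S S' k a).2.2 (α ⊗ₜ[K] β)),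
          Pi.single (idx S S' k a).2.2 (α ⊗ₜ[K] β), ?_, ?_⟩
        · show evk y _ - evk y _ ∈ T
          rw [sub_self]
          exact T.zero_mem
        · show _ = pik S S' k (Pi.single a _)
          have e : inlS S S' g₁ * inrS S S' g₂ * (inlS S S' r₁ * inrS S S' r₂) =
              inlS S S' (g₁ * r₁) * inrS S S' (g₂ * r₂) := by
            rw [map_mul, map_mul]
            ring
          rw [e, CSb_pik_single, CSb_th2, CSb_valk_single, hα, hβ]
      | zero =>
        refine ⟨0, ?_⟩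
        rw [mul_zero, Pi.single_zero]
        exact zero_mem _
      | add r r' _ _ h1 h2 =>
        obtain ⟨v, hv⟩ := h1
        obtain ⟨w, hw⟩ := h2
        refine ⟨v + w, ?_⟩
        rw [mul_add, Pi.single_add]
        exact add_mem hv hw
      | smul c r _ h1 =>
        obtain ⟨v, hv⟩ := h1
        refine ⟨c • v, ?_⟩
        rw [mul_smul_comm, Pi.single_smul]
        exact Submodule.smul_mem _ c hv
    | zero =>
      refine ⟨0, ?_⟩
      rw [zero_mul, Pi.single_zero]
      exact zero_mem _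
    | add g g' _ _ h1 h2 =>
      obtain ⟨v, hv⟩ := h1
      obtain ⟨w, hw⟩ := h2
      refine ⟨v + w, ?_⟩
      rw [add_mul, Pi.single_add]
      exact add_mem hv hw
    | smul c g _ h1 =>
      obtain ⟨v, hv⟩ := h1
      refine ⟨c • v, ?_⟩
      rw [smul_mul_assoc, Pi.single_smul]
      exact Submodule.smul_mem _ c hv
  choose u hu using fun a => key a (x a) g hg
  refine ⟨∑ a, u a, ?_⟩
  have e : ((∑ a, u a, g • x) : FA K n × (Fin (N2 S S' k) → MvPolynomial (Fin (S.p + S'.p)) K)) =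
      ∑ a, (u a, Pi.single a (g * x a)) := by
    refine Prod.ext ?_ ?_
    · rw [Prod.fst_sum]
    · rw [Prod.snd_sum]
      exact (Finset.univ_sum_single (g • x)).symm
  rw [e]
  exact Submodule.sum_mem _ fun a _ => hu a

/-- The section. -/
noncomputable def mkSec (hT : IsId T) (hl : ∀ i z, ρ z = 0 → z * y i ∈ T)
    (hr : ∀ i z, ρ' z = 0 → y i * z ∈ T) : Sec T where
  p := S.p + S'.p
  N := N2 S S' k
  R := relk S S' T y
  gg := gg2 S S'
  zero := relk_zero S S' y hT hl hr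
  act := relk_act S S' y hT
  dom := relk_dom S S' y hT

/-- **The elements of depth `m` of the section.**

PROOF. Span induction; let `z = g * (a * y i * b) * g'`, `ρ g = th θ`, `θ ∈ gg ^ m`, `ρ' g' = th' θ'`, `θ' ∈ gg' ^ m`. By `mem`, `ρ a` is a sum of
elements `th r * s j` and `ρ' b` a sum of `th' r' * s' j'`, so (induction over the span, for the pair) there is a vector `x₀` with
`pik x₀ = Pi.single i (ρ a ⊗ ρ' b)`. Let `γ = inl θ * inr θ' ∈ gg2 ^ m` (`Ideal.map_pow`, `mul_pow`, `Ideal.mem_map_of_mem`,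
`Ideal.mul_mem_mul`), `x = γ • x₀`. `t = Pi.single i ((g * a) ⊗ (b * g'))`: `evk y t = z`, value
`ρ g ρ a ⊗ ρ' b ρ' g' = th2 γ * (ρ a ⊗ ρ' b)` (`comm` of `S'`). -/
theorem Xsp_le (hT : IsId T) (hl : ∀ i z, ρ z = 0 → z * y i ∈ T)
    (hr : ∀ i z, ρ' z = 0 → y i * z ∈ T) (m : ℕ) :
    Xsp S S' (Set.range y) m ≤ (mkSec S S' y hT hl hr).X m := by
  unfold Xsp
  rw [Submodule.span_le]
  rintro z ⟨g, ⟨θ, hθ, hg⟩, g', ⟨θ', hθ', hg'⟩, a, b, _, ⟨i, rfl⟩, rfl⟩
  obtain ⟨x₀, hx₀⟩ := CSb_surj S S' i (S.mem a) (S'.mem b)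
  have hγ : inlS S S' θ * inrS S S' θ' ∈ gg2 S S' ^ m := by
    unfold gg2
    rw [mul_pow, ← Ideal.map_pow, ← Ideal.map_pow]
    exact Ideal.mul_mem_mul (Ideal.mem_map_of_mem (inlS S S') hθ)
      (Ideal.mem_map_of_mem (inrS S S') hθ')
  refine ⟨(inlS S S' θ * inrS S S' θ') • x₀, Submodule.smul_mem_smul hγ Submodule.mem_top,
    Pi.single i ((g * a) ⊗ₜ[K] (b * g')), ?_, ?_⟩
  · show g * (a * y i * b) * g' - evk y _ ∈ T
    rw [CSb_evk_single, evy_tmul]
    have e : g * (a * y i * b) * g' = g * a * y i * (b * g') := by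
      simp only [mul_assoc]
    rw [e, sub_self]
    exact T.zero_mem
  · show _ = pik S S' k ((inlS S S' θ * inrS S S' θ') • x₀)
    rw [pik_smul, hx₀, CSb_valk_single]
    funext j
    by_cases hj : j = i
    · subst hj
      rw [Pi.single_eq_same, Pi.single_eq_same, CSb_th2, map_mul, map_mul, hg, hg', ← S'.comm]
    · rw [Pi.single_eq_of_ne hj, Pi.single_eq_of_ne hj, mul_zero]

end Pool.Agent.H.MP_f5ceca_al.S
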