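import Pool.Agent.H.MP_f5ceca_al.Conv.Layer
import Pool.Agent.H.MP_f5ceca_al.Conv.IdT

/-!
Tools from computability: bases of layers over polynomial rings.
-/

namespace Pool.Agent.H.MP_f5ceca_al.S

open MvPolynomial
open Pool.Agent.H.MP_f5ceca_al.Conv

universe u v

/-- The monomial vector with index `a = (i, e)` in a free module over a polynomial ring. -/
noncomputable def mon1 (K : Type u) [Field K] {t p : ℕ} (a : Fin t × (Fin p → ℕ)) :
    Fin t → MvPolynomial (Fin p) K := Pi.single a.1 (mvm K a.2)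

/-- The basis of the monomial vectors. -/
noncomputable def ReA_basis (K : Type u) [Field K] (t p : ℕ) :
    Module.Basis (Fin t × (Fin p → ℕ)) K (Fin t → MvPolynomial (Fin p) K) :=
  (Pi.basis fun _ : Fin t => basisMonomials (Fin p) K).reindex
    ((Equiv.sigmaEquivProd (Fin t) (Fin p →₀ ℕ)).trans
      (Equiv.prodCongr (Equiv.refl _) Finsupp.equivFunOnFinite))

theorem ReA_basis_apply {K : Type u} [Field K] {t p : ℕ} (a : Fin t × (Fin p → ℕ)) :
    ReA_basis K t p a = mon1 K a := by
  simp only [ReA_basis, Module.Basis.reindex_apply]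
  have : ((Equiv.sigmaEquivProd (Fin t) (Fin p →₀ ℕ)).trans
      (Equiv.prodCongr (Equiv.refl _) (Finsupp.equivFunOnFinite (α := Fin p) (M := ℕ)))).symm a =
      ⟨a.1, Finsupp.equivFunOnFinite.symm a.2⟩ := rfl
  rw [this, Pi.basis_apply]
  simp [mon1, mvm]

theorem ReA_basis_coe (K : Type u) [Field K] (t p : ℕ) :
    (ReA_basis K t p : Fin t × (Fin p → ℕ) → Fin t → MvPolynomial (Fin p) K) = mon1 K :=
  funext ReA_basis_apply

/-- PROOF. `mon1` is the basis `Pi.basis (basisMonomials)` up to reindexing (as `mvm_linearIndependent`,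
`mvm_span`, `monBasis` in Conv). -/
theorem mon1_linearIndependent {K : Type u} [Field K] {t p : ℕ} :
    LinearIndependent K (mon1 K (t := t) (p := p)) := by
  have h := (ReA_basis K t p).linearIndependent
  rwa [ReA_basis_coe] at h

theorem mon1_span {K : Type u} [Field K] {t p : ℕ} :
    Submodule.span K (Set.range (mon1 K (t := t) (p := p))) = ⊤ := by
  have h := (ReA_basis K t p).span_eq
  rwa [ReA_basis_coe] at h

/-- A linear map with given values on the monomial vectors. PROOF. `Module.Basis.mk` from the two previous statements,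
`Module.Basis.constr`. -/
theorem exists_lin {K : Type u} [Field K] {t p : ℕ} {F : Type v} [AddCommGroup F] [Module K F]
    (f : Fin t × (Fin p → ℕ) → F) :
    ∃ χ : (Fin t → MvPolynomial (Fin p) K) →ₗ[K] F, ∀ a, χ (mon1 K a) = f a := by
  refine ⟨(ReA_basis K t p).constr K f, fun a => ?_⟩
  rw [← ReA_basis_apply, Module.Basis.constr_basis]

/-- The isomorphism of polynomial rings of `REB_noeth`. -/
noncomputable def ReA_E (K : Type u) [Field K] (p : ℕ) :
    MvPolynomial (Fin p ⊕ Fin 0) K ≃ₐ[K] MvPolynomial (Fin p) K :=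
  renameEquiv K (Equiv.sumEmpty (Fin p) (Fin 0))

theorem ReA_E_X {K : Type u} [Field K] {p : ℕ} (i : Fin p) :
    ReA_E K p (X (Sum.inl i)) = X i := by
  simp [ReA_E]

theorem ReA_E_monomial {K : Type u} [Field K] {p : ℕ} (v : (Fin p → ℕ) × (Fin 0 → ℕ)) :
    ReA_E K p (monomial (expo v) 1) = mvm K v.1 := by
  have h : (expo v).mapDomain (Equiv.sumEmpty (Fin p) (Fin 0)) =
      Finsupp.equivFunOnFinite.symm v.1 := by
    ext i
    have h1 : i = Equiv.sumEmpty (Fin p) (Fin 0) (Sum.inl i) := rfl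
    conv_lhs => rw [h1]
    rw [Finsupp.mapDomain_apply (Equiv.injective _)]
    rfl
  rw [ReA_E, renameEquiv_apply, rename_monomial, h, mvm]

/-- The isomorphism of free modules of `REB_noeth`. -/
noncomputable def ReA_L (K : Type u) [Field K] (t p : ℕ) :
    (Fin t → MvPolynomial (Fin p ⊕ Fin 0) K) ≃ₗ[K] (Fin t → MvPolynomial (Fin p) K) :=
  LinearEquiv.piCongrRight fun _ => (ReA_E K p).toLinearEquiv

theorem ReA_L_apply {K : Type u} [Field K] {t p : ℕ}
    (x : Fin t → MvPolynomial (Fin p ⊕ Fin 0) K) (i : Fin t) :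
    ReA_L K t p x i = ReA_E K p (x i) := rfl

theorem ReA_L_mono {K : Type u} [Field K] {t p : ℕ} (a : Mon t p 0) :
    ReA_L K t p (mono K a) = mon1 K (a.1, a.2.1) := by
  funext i
  rw [ReA_L_apply]
  simp only [mono, mon1]
  by_cases h : i = a.1
  · subst h
    rw [Pi.single_eq_same, Pi.single_eq_same, ReA_E_monomial]
  · rw [Pi.single_eq_of_ne h, Pi.single_eq_of_ne h, map_zero]

theorem ReA_L_smul {K : Type u} [Field K] {t p : ℕ} (i : Fin p)
    (x : Fin t → MvPolynomial (Fin p ⊕ Fin 0) K) :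
    ReA_L K t p ((X (Sum.inl i) : MvPolynomial (Fin p ⊕ Fin 0) K) • x) =
      (X i : MvPolynomial (Fin p) K) • ReA_L K t p x := by
  funext j
  rw [ReA_L_apply, Pi.smul_apply, Pi.smul_apply, ReA_L_apply, smul_eq_mul, smul_eq_mul, map_mul,
    ReA_E_X]

variable {K : Type u} [Field K] (κ : CField K)
variable {F : Type v} [AddCommGroup F] [Module K F]
variable {W : Type*} [Primcodable W]

/-- **Layer theorem without inner variables.**

PROOF. `CField.REB_poly` with `n = 0`: compose `χ` with the isomorphism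
`MvPolynomial (Fin p ⊕ Fin 0) K ≃ MvPolynomial (Fin p) K` (`MvPolynomial.renameEquiv K (Equiv.sumEmpty _ _)` coordinatewise),
`e' (i, x, y) = e (i, x)`, `N₁ = U'.comap χ'`, `G = ∅`, `q`, `d` on `Fin 0` are empty functions (`Fin.elim0`). The monomial
vector `mono K (i, x, y)` goes to `mon1 K (i, x)`. -/
theorem REB_noeth {t p : ℕ} {m : W → F} {U' U : Submodule K F}
    (χ : (Fin t → MvPolynomial (Fin p) K) →ₗ[K] F) {e : Fin t × (Fin p → ℕ) → List (ℕ × W)}
    (he : Computable e) (hχ : ∀ a, χ (mon1 K a) = κ.ev m (e a)) (hle : ∀ a, χ (mon1 K a) ∈ U)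
    (hU : U ≤ U' ⊔ LinearMap.range χ)
    (hst : ∀ (i : Fin p) (x), χ x ∈ U' → χ ((X i : MvPolynomial (Fin p) K) • x) ∈ U') :
    κ.REB m U' U := by
  refine κ.REB_poly (n := 0) (χ ∘ₗ (ReA_L K t p).toLinearMap)
    (e := fun a : Mon t p 0 => e (a.1, a.2.1))
    (he.comp (Computable.pair Computable.fst (Computable.fst.comp Computable.snd)))
    (fun a => ?_) (fun a => ?_) ?_ (U'.comap (χ ∘ₗ (ReA_L K t p).toLinearMap))
    (fun j => j.elim0) (fun j => j.elim0) (fun j => j.elim0) (fun j => j.elim0)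
    (fun i x hx => ?_) (fun j => j.elim0) ∅ Set.finite_empty ?_
  · rw [LinearMap.comp_apply, LinearEquiv.coe_coe, ReA_L_mono]
    exact hχ _
  · rw [LinearMap.comp_apply, LinearEquiv.coe_coe, ReA_L_mono]
    exact hle _
  · rwa [LinearEquiv.range_comp]
  · rw [Submodule.mem_comap, LinearMap.comp_apply, LinearEquiv.coe_coe] at hx ⊢
    rw [ReA_L_smul]
    exact hst i _ hx
  · have : {y : Fin t → MvPolynomial (Fin p ⊕ Fin 0) K | ∃ r : MvPolynomial (Fin p) K,
        ∃ g ∈ (∅ : Set (Fin t → MvPolynomial (Fin p ⊕ Fin 0) K)),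
          y = rename (Sum.inl : Fin p → Fin p ⊕ Fin 0) r • g} = ∅ := by
      ext y
      simp
    rw [this, Submodule.span_empty, sup_bot_eq]

end Pool.Agent.H.MP_f5ceca_al.S
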