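import Pool.Agent.H.MP_f5ceca_al.Conv.Re

/-!
Tools from computability: a relative decision lemma, computable choice.
-/

namespace Pool.Agent.H.MP_f5ceca_al.S

open Pool.Agent.H.MP_f5ceca_al.Conv

universe u v

variable {K : Type u} [Field K] (κ : CField K)
variable {F : Type v} [AddCommGroup F] [Module K F]
variable {W : Type*} [Primcodable W]

/-- **Relative decision lemma.** If `U / N` has a recursively enumerable basis, `N` is recursively
enumerable and `N ≤ V ≤ U` with `V` decidable, then `N` is decidable.

PROOF. As `CField.dec_of_re_basis` (Conv/Dec.lean): the complement of `N` is recursively enumerable: `ev P ∉ N` iff `ev P ∉ V` or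
there is a nonzero combination `Q` of basis elements with `ev P - Q ∈ N`. (If `ev P ∈ V ≤ U`, `ev P ∉ N`, take the
combination given by `hsp`; it is nonzero. Conversely if such a `Q` exists then `ev P ∉ N` by independence.) Use
`re_or`, `ComputablePred.not`, `.to_re`, `re_computable`. -/
theorem dec_of_REB {m : W → F} {N U V : Submodule K F} (h : κ.REB m N U) (hN : κ.RESub m N)
    (hNV : N ≤ V) (hVU : V ≤ U)
    (hV : ComputablePred fun P : List (ℕ × W) => κ.ev m P ∈ V) :
    ComputablePred fun P : List (ℕ × W) => κ.ev m P ∈ N := by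
  obtain ⟨D, e, hD, he, -, hli, hsp⟩ := h
  refine re_computable hN ?_
  have hD' : REPred fun x : List (ℕ × W) × List (ℕ × ℕ) => ∀ q ∈ x.2, D q.2 :=
    re_forall_mem (p := fun (_ : List (ℕ × W) × List (ℕ × ℕ)) (q : ℕ × ℕ) => D q.2)
      (re_comp hD (Computable.snd.comp Computable.snd)) Computable.snd
  have hz : REPred fun x : List (ℕ × W) × List (ℕ × ℕ) => κ.toF x.2 ≠ 0 :=
    re_comp (κ.toF_eq_zero_cp (J := ℕ)).not.to_re Computable.snd
  have hm : REPred fun x : List (ℕ × W) × List (ℕ × ℕ) =>
      κ.ev m (x.1 ++ κ.lneg (κ.bind e x.2)) ∈ N :=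
    re_comp (p := fun P : List (ℕ × W) => κ.ev m P ∈ N) hN
      (Computable.list_append.comp Computable.fst
        (κ.lneg_comp.comp ((κ.bind_comp he).comp Computable.snd)))
  have h := re_exists (p := fun (P : List (ℕ × W)) (Q : List (ℕ × ℕ)) =>
    (∀ q ∈ Q, D q.2) ∧ κ.toF Q ≠ 0 ∧ κ.ev m (P ++ κ.lneg (κ.bind e Q)) ∈ N)
    (re_and hD' (re_and hz hm))
  refine (re_or hV.not.to_re h).of_eq fun P => ?_
  constructor
  · rintro (hPV | ⟨Q, hQ, hQ0, hPQ⟩) hP
    · exact hPV (hNV hP)
    · apply hQ0
      apply hli
      · intro j hj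
        obtain ⟨p, hp, rfl⟩ := κ.toF_support hj
        exact hQ p hp
      · rw [κ.linComb_toF, ← κ.ev_bind]
        rw [κ.ev_append, κ.ev_lneg] at hPQ
        have := N.sub_mem hP hPQ
        simpa using this
  · intro hP
    by_cases hPV : κ.ev m P ∈ V
    · right
      obtain ⟨y, hy, s, hs, hys⟩ := Submodule.mem_sup.1 (hsp (hVU hPV))
      obtain ⟨Q, hQ, rfl⟩ := (κ.mem_span_iff D (fun j => κ.ev m (e j)) s).1 hs
      refine ⟨Q, hQ, ?_, ?_⟩
      · intro h0
        apply hP
        rw [← hys]
        have : κ.ev (fun j => κ.ev m (e j)) Q = 0 := by rw [← κ.linComb_toF, h0]; simp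
        rw [this, add_zero]
        exact hy
      · rw [κ.ev_append, κ.ev_lneg, κ.ev_bind, ← hys]
        simpa using hy
    · exact Or.inl hPV

/-- **Computable choice.** PROOF. `re_iff` (Conv/Comp.lean) writes `p a b` as `∃ k, q (a, b) k = true` with `q` computable; search for
the first number `l = (code of b, k)` with `q = true`: `Partrec.rfind` / `Nat.rfind` is total, so a computable function
(`Partrec.of_eq`, `Computable`), then decode. See `re_exists`, `re_computable` there for the style. -/
theorem re_choice {α β : Type*} [Primcodable α] [Primcodable β] {p : α → β → Prop}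
    (hp : REPred fun x : α × β => p x.1 x.2) (h : ∀ a, ∃ b, p a b) :
    ∃ f : α → β, Computable f ∧ ∀ a, p a (f a) := by
  obtain ⟨q, hq, hqp⟩ := re_iff.1 hp
  let t : α → ℕ → Bool := fun a n =>
    (Option.casesOn (motive := fun _ => Bool) (Encodable.decode (α := β) n.unpair.1) false
      (fun b => q (a, b) n.unpair.2) : Bool)
  have ht : Computable₂ t := by
    have h1 : Computable fun x : α × ℕ => (Encodable.decode (α := β) x.2.unpair.1) :=
      Computable.decode.comp (Computable.fst.comp (Computable.unpair.comp Computable.snd))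
    have h2 : Computable₂ fun (x : α × ℕ) (b : β) => q (x.1, b) x.2.unpair.2 :=
      hq.comp (Computable.pair (Computable.fst.comp Computable.fst) Computable.snd)
        (Computable.snd.comp (Computable.unpair.comp (Computable.snd.comp Computable.fst)))
    exact Computable.option_casesOn h1 (Computable.const false) h2
  have hF1 : Partrec fun a => Nat.rfind fun n => (Part.some (t a n) : Part Bool) :=
    Partrec.rfind ht.partrec₂
  have hF2 : Partrec₂ fun (_ : α) (n : ℕ) => ((Encodable.decode (α := β) n.unpair.1 : Option β) :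
      Part β) :=
    Computable.ofOption
      (Computable.decode.comp (Computable.fst.comp (Computable.unpair.comp Computable.snd)))
  have hF := hF1.bind hF2
  have key : ∀ a, ∃ b, b ∈ ((Nat.rfind fun n => (Part.some (t a n) : Part Bool)).bind
      fun n => ((Encodable.decode (α := β) n.unpair.1 : Option β) : Part β)) ∧ p a b := by
    intro a
    have hex : ∃ n : ℕ, t a n = true := by
      obtain ⟨b, hb⟩ := h a
      obtain ⟨n, hn⟩ := (hqp (a, b)).1 hb
      exact ⟨Nat.pair (Encodable.encode b) n, by simpa [t] using hn⟩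
    have hfind : t a (Nat.find hex) = true := Nat.find_spec hex
    have hmin : ∀ m, m < Nat.find hex → t a m = false := fun m hm => by
      have := Nat.find_min hex hm
      simpa using this
    have hmem : Nat.find hex ∈ Nat.rfind fun n => (Part.some (t a n) : Part Bool) := by
      rw [Nat.mem_rfind]
      refine ⟨by rw [hfind]; exact Part.mem_some _, fun {m} hm => by
        rw [hmin m hm]; exact Part.mem_some _⟩
    have hfind' := hfind
    simp only [t] at hfind'
    rcases hd : (Encodable.decode (α := β) (Nat.find hex).unpair.1) with _ | b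
    · rw [hd] at hfind'; simp at hfind'
    · rw [hd] at hfind'
      refine ⟨b, ?_, (hqp (a, b)).2 ⟨_, hfind'⟩⟩
      rw [Part.mem_bind_iff]
      exact ⟨_, hmem, by rw [hd]; exact Part.mem_some b⟩
  choose f hf hfp using key
  exact ⟨f, hF.of_eq_tot hf, hfp⟩

end Pool.Agent.H.MP_f5ceca_al.S
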