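import Pool.Agent.H.MP_f5ceca_al.S.Sec
import Pool.Agent.H.MP_f5ceca_al.S.ReA
import Pool.Agent.H.MP_f5ceca_al.S.ReB

/-!
The decision procedure for an abstract section.
-/

namespace Pool.Agent.H.MP_f5ceca_al.S

open MvPolynomial
open Pool.Agent.H.MP_f5ceca_al.N (FA xx Com Fil Aug)
open Pool.Agent.H.MP_f5ceca_al.Conv

universe u

variable {K : Type u} [Field K] {n : ℕ} {T : Submodule K (FA K n)} (κ : CField K) (S : Sec T)

/-- The representation relation is recursively enumerable. -/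
def Sec.RE : Prop :=
  REPred fun x : List (ℕ × List (Fin n)) × List (ℕ × (Fin S.N × (Fin S.p → ℕ))) =>
    (κ.ev (wd K) x.1, κ.ev (mon1 K) x.2) ∈ S.R

/-- Multiplication of a monomial vector by a monomial. -/
theorem SecDec_mon1 {t p : ℕ} (i : Fin t) (f e : Fin p → ℕ) :
    mon1 K (i, f + e) = mvm K e • mon1 K (i, f) := by
  funext k
  simp only [mon1, Pi.smul_apply, smul_eq_mul]
  by_cases h : k = i
  · subst h
    rw [Pi.single_eq_same, Pi.single_eq_same, mvm_add, mul_comm]
  · rw [Pi.single_eq_of_ne h, Pi.single_eq_of_ne h, mul_zero]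

/-- Multiplication of a code by a monomial. -/
theorem SecDec_shift {t p : ℕ} (Q : List (ℕ × (Fin t × (Fin p → ℕ)))) (e : Fin p → ℕ) :
    κ.ev (mon1 K) (Q.map fun y => (y.1, (y.2.1, y.2.2 + e))) = mvm K e • κ.ev (mon1 K) Q := by
  induction Q with
  | nil => simp
  | cons y Q ih =>
    rw [List.map_cons, CField.ev_cons, CField.ev_cons, ih, SecDec_mon1, smul_add]
    congr 1
    exact smul_comm _ _ _

/-- **Decision procedure.**

PROOF. `m` from `S.exists_depth I`. `gg ^ m • ⊤` is finitely generated: generators `b : Fin t → _`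
(`Submodule.fg_iff_exists_fin_generating_family`). Let `Q j` be a code of `b j` (`κ.exists_code`, `mon1_span`) and, for a
monomial `e`, let `c (j, e) = (Q j).map fun y => (y.1, (y.2.1, y.2.2 + e))`, a code of `mvm K e • b j` (`mvm_add`),
computable in (j, e) (`j` ranges over a finite type; `fun_add_comp`). For every (j, e) there is a code `P` with
(ev P, mvm K e • b j) ∈ R: the vector is in `gg ^ m • ⊤ ≤ gg • ⊤` (`m ≥ 1`), `dom_smul`, `wd_exists_code`. The relation is
r.e. (`hS`, `re_comp`), so by `re_choice` there is a computable `f : Fin t × (Fin p → ℕ) → List (ℕ × List (Fin n))` with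
(ev (f (j, e)), mvm K e • b j) ∈ R. Let `χ` be the linear map with `χ (mon1 (j, e)) = ev (f (j, e))` (`exists_lin`).
Then (χ x, ∑ j, x j • b j) ∈ R for all `x` (linear in `x`, true for `mon1`, `mon1_span`). Claims:
(1) `χ x ∈ I` iff `∑ j, x j • b j ∈ Rel I` (if (u, same) ∈ R, `u ∈ I`, then `χ x - u ∈ T ≤ I` by `zero`).
(2) If `χ x ∈ I` then `χ (X i • x) ∈ I`: `y = ∑ j, x j • b j` is in `gg ^ m • ⊤` and in `Rel I`, so `X i • y` is in
`gg ^ m • ⊤` and in `span (Rel I)`, hence in `gg • span (Rel I)` (choice of `m`), hence in `Rel I` (`gg_smul_span`).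
(3) `X m ≤ I ⊔ range χ`: for (v, x) ∈ R, `x ∈ gg ^ m • ⊤`, write `x = ∑ j, f j • b j`; `v - χ f ∈ T`. (4) `χ (mon1 a) ∈ X m`.
So `REB_noeth` gives `κ.REB (wd K) I (I ⊔ X m)`. If `Γ ≤ T ⊔ X m` then `I ≤ I ⊔ Γ ≤ I ⊔ X m`; `dec_of_REB`. -/
theorem Sec.dec (hS : S.RE κ) (I : Submodule K (FA K n)) (hI : IsId I) (hTI : T ≤ I)
    (hre : κ.RESub (wd K) I) :
    ∃ m : ℕ, ∀ Γ : Submodule K (FA K n), Γ ≤ T ⊔ S.X m →
      (ComputablePred fun P : List (ℕ × List (Fin n)) => κ.ev (wd K) P ∈ I ⊔ Γ) →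
      ComputablePred fun P : List (ℕ × List (Fin n)) => κ.ev (wd K) P ∈ I := by
  obtain ⟨m, hm1, hm⟩ := S.exists_depth I
  refine ⟨m, fun Γ hΓ hdec => ?_⟩
  set M : Submodule (MvPolynomial (Fin S.p) K) (Fin S.N → MvPolynomial (Fin S.p) K) :=
    S.gg ^ m • ⊤ with hM
  have hMgg : M ≤ S.gg • (⊤ : Submodule (MvPolynomial (Fin S.p) K)
      (Fin S.N → MvPolynomial (Fin S.p) K)) :=
    Submodule.smul_mono_left (Ideal.pow_le_self (by omega))
  -- generators
  obtain ⟨t, b, hb⟩ := Submodule.fg_iff_exists_fin_generating_family.1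
    (IsNoetherian.noetherian M)
  have hbM : ∀ j, b j ∈ M := fun j => hb ▸ Submodule.subset_span ⟨j, rfl⟩
  have hcode : ∀ j : Fin t, ∃ Q : List (ℕ × (Fin S.N × (Fin S.p → ℕ))),
      κ.ev (mon1 K) Q = b j := fun j => κ.exists_code _ _ (by rw [mon1_span]; trivial)
  choose Q hQ using hcode
  let c : Fin t × (Fin S.p → ℕ) → List (ℕ × (Fin S.N × (Fin S.p → ℕ))) := fun a =>
    (Q a.1).map fun y => (y.1, (y.2.1, y.2.2 + a.2))
  have hc : Computable c := by
    have h1 : Computable fun a : Fin t × (Fin S.p → ℕ) => Q a.1 :=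
      (Primrec.dom_finite Q).to_comp.comp Computable.fst
    refine comp_map (f := fun a : Fin t × (Fin S.p → ℕ) => Q a.1)
      (g := fun a y => (y.1, (y.2.1, y.2.2 + a.2))) h1 ?_
    exact Computable.pair (Computable.fst.comp Computable.snd)
      (Computable.pair (Computable.fst.comp (Computable.snd.comp Computable.snd))
        (fun_add_comp.to_comp.comp (Computable.snd.comp (Computable.snd.comp Computable.snd))
          (Computable.snd.comp Computable.fst)))
  have hcb : ∀ a, κ.ev (mon1 K) (c a) = mvm K a.2 • b a.1 := fun a => by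
    change κ.ev (mon1 K) ((Q a.1).map fun y => (y.1, (y.2.1, y.2.2 + a.2))) = _
    rw [SecDec_shift, hQ]
  -- computable choice of representatives
  obtain ⟨f, hfc, hf⟩ := re_choice (α := Fin t × (Fin S.p → ℕ)) (β := List (ℕ × List (Fin n)))
    (p := fun a P => (κ.ev (wd K) P, κ.ev (mon1 K) (c a)) ∈ S.R)
    (re_comp (p := fun x : List (ℕ × List (Fin n)) × List (ℕ × (Fin S.N × (Fin S.p → ℕ))) =>
      (κ.ev (wd K) x.1, κ.ev (mon1 K) x.2) ∈ S.R) hS
      (f := fun x : (Fin t × (Fin S.p → ℕ)) × List (ℕ × List (Fin n)) => (x.2, c x.1))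
      (Computable.pair Computable.snd (hc.comp Computable.fst)))
    (fun a => by
      obtain ⟨u, hu⟩ := S.dom_smul (x := κ.ev (mon1 K) (c a)) (by
        rw [hcb]
        exact hMgg (M.smul_mem _ (hbM _)))
      obtain ⟨P, rfl⟩ := wd_exists_code κ u
      exact ⟨P, hu⟩)
  obtain ⟨χ, hχ⟩ := exists_lin (K := K) (fun a => κ.ev (wd K) (f a))
  set β := Fintype.linearCombination (MvPolynomial (Fin S.p) K) b with hβ
  have hβM : LinearMap.range β = M := by
    rw [hβ, Fintype.range_linearCombination, hb]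
  have hA : ∀ x, (χ x, β x) ∈ S.R := by
    intro x
    have h1 : (⊤ : Submodule K (Fin t → MvPolynomial (Fin S.p) K)) ≤
        S.R.comap (χ.prod (β.restrictScalars K)) := by
      rw [← mon1_span, Submodule.span_le]
      rintro _ ⟨a, rfl⟩
      have h2 : β (mon1 K a) = κ.ev (mon1 K) (c a) := by
        rw [hcb, hβ]
        exact Fintype.linearCombination_apply_single _ _ _ _
      have h3 := hf a
      rw [← h2, ← hχ a] at h3
      exact h3
    exact h1 (Submodule.mem_top (x := x))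
  have hdiff : ∀ u v x, (u, x) ∈ S.R → (v, x) ∈ S.R → u - v ∈ T := by
    intro u v x hu hv
    have h1 := S.R.sub_mem hu hv
    rw [Prod.mk_sub_mk, sub_self] at h1
    exact S.zero _ h1
  have hC1 : ∀ x, β x ∈ S.Rel I → χ x ∈ I := by
    rintro x ⟨u, hu, hR⟩
    have h1 := I.add_mem (hTI (hdiff _ _ _ (hA x) hR)) hu
    rwa [sub_add_cancel] at h1
  have hst : ∀ (i : Fin S.p) (x : Fin t → MvPolynomial (Fin S.p) K), χ x ∈ I →
      χ ((MvPolynomial.X i : MvPolynomial (Fin S.p) K) • x) ∈ I := by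
    intro i x hx
    have h1 : β x ∈ S.Rel I := ⟨χ x, hx, hA x⟩
    have h2 : β ((MvPolynomial.X i : MvPolynomial (Fin S.p) K) • x) = (MvPolynomial.X i : MvPolynomial (Fin S.p) K) • β x :=
      map_smul β _ _
    apply hC1
    refine S.gg_smul_span I hI (hm _ ?_ ?_)
    · have h3 : β ((MvPolynomial.X i : MvPolynomial (Fin S.p) K) • x) ∈ LinearMap.range β := ⟨_, rfl⟩
      rw [hβM] at h3
      exact h3
    · rw [h2]
      exact Submodule.smul_mem _ _ (Submodule.subset_span h1)
  have hX : S.X m ≤ I ⊔ LinearMap.range χ := by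
    rintro v ⟨x, hx, hv⟩
    have h1 : x ∈ LinearMap.range β := by
      rw [hβM]
      exact hx
    obtain ⟨g, rfl⟩ := h1
    have h2 := hTI (hdiff _ _ _ hv (hA g))
    have h3 : v = (v - χ g) + χ g := (sub_add_cancel _ _).symm
    rw [h3]
    exact Submodule.add_mem_sup h2 ⟨g, rfl⟩
  have hle : ∀ a, χ (mon1 K a) ∈ I ⊔ S.X m := by
    intro a
    refine Submodule.mem_sup_right ⟨β (mon1 K a), ?_, hA _⟩
    have h3 : β (mon1 K a) ∈ LinearMap.range β := ⟨_, rfl⟩
    rw [hβM] at h3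
    exact h3
  have hREB : κ.REB (wd K) I (I ⊔ S.X m) :=
    REB_noeth κ χ hfc hχ hle (sup_le le_sup_left hX) hst
  exact dec_of_REB κ hREB hre le_sup_left
    (sup_le le_sup_left (hΓ.trans (sup_le_sup_right hTI _))) hdec

end Pool.Agent.H.MP_f5ceca_al.S
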