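import Pool.Agent.H.MP_f5ceca_al.S.CSb
import Pool.Agent.H.MP_f5ceca_al.S.SecDec
import Mathlib.RingTheory.MatrixAlgebra

/-!
Recursive enumerability of the representation relation.
-/

namespace Pool.Agent.H.MP_f5ceca_al.S

open MvPolynomial TensorProduct
open Pool.Agent.H.MP_f5ceca_al.N (FA xx Com Fil Aug)
open Pool.Agent.H.MP_f5ceca_al.Conv

universe u

/-- The algebra has a faithful matrix representation over a commutative algebra. -/
def MatRep (K : Type u) [Field K] (O : Type u) [Ring O] [Algebra K O] : Prop :=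
  ∃ (N : ℕ) (C : Type u) (_ : CommRing C) (_ : Algebra K C)
    (φ : O →ₐ[K] Matrix (Fin N) (Fin N) C), Function.Injective φ

variable {K : Type u} [Field K]

/-- PROOF. `N = 1`, `C = O`: `Matrix.scalarAlgHom` or `IsScalarTower.toAlgHom K O (Matrix (Fin 1) (Fin 1) O)`. -/
theorem matRep_comm (O : Type u) [CommRing O] [Algebra K O] : MatRep K O := by
  refine ⟨1, O, inferInstance, inferInstance,
    (Algebra.ofId O (Matrix (Fin 1) (Fin 1) O)).restrictScalars K, ?_⟩
  intro x y hxy
  have h1 := congrFun (congrFun hxy 0) 0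
  have h2 : ∀ z : O, ((Algebra.ofId O (Matrix (Fin 1) (Fin 1) O)).restrictScalars K) z 0 0 = z := by
    intro z
    change (algebraMap O (Matrix (Fin 1) (Fin 1) O) z) 0 0 = z
    rw [Matrix.algebraMap_matrix_apply]
    simp
  rw [h2, h2] at h1
  exact h1

theorem matRep_matrix (O : Type u) [CommRing O] [Algebra K O] (N : ℕ) :
    MatRep K (Matrix (Fin N) (Fin N) O) :=
  ⟨N, O, inferInstance, inferInstance, AlgHom.id K _, fun _ _ h => h⟩

/-- PROOF. `Algebra.TensorProduct.map φ φ'` is injective (over a field: `TensorProduct.map_injective_of_flat_flat`, or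
left inverses `LinearMap.exists_leftInverse_of_injective` of `φ`, `φ'`), followed by `kroneckerTMulAlgEquiv`
(Mathlib.RingTheory.MatrixAlgebra) onto matrices indexed by `Fin N × Fin N'` over `C ⊗ C'`, and
`Matrix.reindexAlgEquiv` along `finProdFinEquiv`. -/
theorem matRep_tensor {O O' : Type u} [Ring O] [Algebra K O] [Ring O'] [Algebra K O']
    (h : MatRep K O) (h' : MatRep K O') : MatRep K (O ⊗[K] O') := by
  obtain ⟨N, C, i1, i2, φ, hφ⟩ := h
  obtain ⟨N', C', i1', i2', φ', hφ'⟩ := h'
  refine ⟨N * N', C ⊗[K] C', inferInstance, inferInstance,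
    (((Matrix.reindexAlgEquiv K (C ⊗[K] C') finProdFinEquiv).toAlgHom.comp
      (Matrix.kroneckerTMulAlgEquiv (Fin N) (Fin N') K K C C').toAlgHom).comp
        (Algebra.TensorProduct.map φ φ')), ?_⟩
  have h1 : Function.Injective (Algebra.TensorProduct.map φ φ') := by
    have h2 : Function.Injective (TensorProduct.map φ.toLinearMap φ'.toLinearMap) :=
      TensorProduct.map_injective_of_flat_flat _ _ hφ hφ'
    exact h2
  intro x y hxy
  apply h1
  apply (Matrix.kroneckerTMulAlgEquiv (Fin N) (Fin N') K K C C').injective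
  apply (Matrix.reindexAlgEquiv K (C ⊗[K] C') (finProdFinEquiv (m := N) (n := N'))).injective
  exact hxy

variable (κ : CField K)

/-- **Zero test for words in an algebra with a faithful matrix representation.**

PROOF. `Fintype.equivFin Λ` renames the letters to `Fin L`: `f : Λ ≃ Fin L`. With `φ` from `MatRep`, let
`V j = φ (v (f.symm j))`. For a code `P`, `κ.ev (fun w => (w.map v).prod) P = 0` iff `κ.ev (wd K) (P renamed) ∈ ker (lift K V)`:
`lift K V (wd K (w.map f)) = φ ((w.map v).prod)` (`map_list_prod`), `ev_linear`. `re_ker_matrix` (Conv/IdT), `re_comp` with the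
computable renaming (`comp_map`; `f` is a function on a finite type, `Primrec.dom_finite`). -/
theorem re_zero_words {O : Type u} [Ring O] [Algebra K O] (h : MatRep K O) {Λ : Type}
    [Fintype Λ] [Primcodable Λ] (v : Λ → O) :
    REPred fun P : List (ℕ × List Λ) => κ.ev (fun w => (w.map v).prod) P = 0 := by
  classical
  obtain ⟨N, C, i1, i2, φ, hφ⟩ := h
  let f : Λ ≃ Fin (Fintype.card Λ) := Fintype.equivFin Λ
  let V : Fin (Fintype.card Λ) → Matrix (Fin N) (Fin N) C := fun j => φ (v (f.symm j))
  have h1 := re_ker_matrix κ V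
  have hfc : Computable (f : Λ → Fin (Fintype.card Λ)) := (Primrec.dom_finite _).to_comp
  have hg : Computable fun P : List (ℕ × List Λ) =>
      P.map fun p => (p.1, p.2.map f) := by
    refine comp_map (f := fun P : List (ℕ × List Λ) => P) (g := fun _ p => (p.1, p.2.map f))
      Computable.id ?_
    refine Computable.pair (Computable.fst.comp Computable.snd) ?_
    exact comp_map (f := fun x : List (ℕ × List Λ) × (ℕ × List Λ) => x.2.2) (g := fun _ l => f l)
      (Computable.snd.comp Computable.snd) (hfc.comp Computable.snd)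
  have hw : ∀ w : List Λ, FreeAlgebra.lift K V (wd K (w.map f)) = φ ((w.map v).prod) := by
    intro w
    induction w with
    | nil => simp
    | cons a w ih =>
      rw [List.map_cons, wd_cons, map_mul, ih, FreeAlgebra.lift_ι_apply, List.map_cons,
        List.prod_cons, map_mul]
      simp [V]
  have hP : ∀ P : List (ℕ × List Λ), FreeAlgebra.lift K V
      (κ.ev (wd K) (P.map fun p => (p.1, p.2.map f))) =
        φ (κ.ev (fun w => (w.map v).prod) P) := by
    intro P
    induction P with
    | nil => simp
    | cons p P ih =>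
      rw [List.map_cons, CField.ev_cons, CField.ev_cons, map_add, map_add, ih, map_smul, map_smul,
        hw]
  refine (re_comp h1 hg).of_eq fun P => ?_
  change FreeAlgebra.lift K V (κ.ev (wd K) (P.map fun p => (p.1, p.2.map f))) = 0 ↔ _
  rw [hP]
  exact map_eq_zero_iff φ hφ

end Pool.Agent.H.MP_f5ceca_al.S
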