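import Pool.Agent.H.MP_f5ceca_al.S.CSc

/-!
Recursive enumerability of the representation relation, second part.
-/

namespace Pool.Agent.H.MP_f5ceca_al.S

open MvPolynomial TensorProduct
open Pool.Agent.H.MP_f5ceca_al.N (FA xx Com Fil Aug)
open Pool.Agent.H.MP_f5ceca_al.Conv

universe u

/-! ### The alphabet for the zero test -/

/-- The alphabet. -/
abbrev CSd_L (n q M : ℕ) : Type := Fin n ⊕ Fin n ⊕ Fin q ⊕ Fin M

/-- The word of a monomial. -/
def CSd_pow (n M : ℕ) {q : ℕ} (e : Fin q → ℕ) : List (CSd_L n q M) :=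
  (List.finRange q).flatMap fun v =>
    (List.range (e v)).map fun _ => Sum.inr (Sum.inr (Sum.inl v))

theorem CSd_pow_comp (n M q : ℕ) : Computable (CSd_pow n M (q := q)) := by
  refine comp_flatMap (f := fun _ : Fin q → ℕ => List.finRange q)
    (g := fun e v => (List.range (e v)).map fun _ => Sum.inr (Sum.inr (Sum.inl v)))
    (Computable.const _) ?_
  have h1 : Computable fun x : (Fin q → ℕ) × Fin q => List.range (x.1 x.2) :=
    (Primrec.list_range.comp (Primrec.fin_app.comp Primrec.fst Primrec.snd)).to_comp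
  have h2 : Computable₂ fun (x : (Fin q → ℕ) × Fin q) (_ : ℕ) =>
      (Sum.inr (Sum.inr (Sum.inl x.2)) : CSd_L n q M) :=
    (Primrec.sumInr.comp (Primrec.sumInr.comp (Primrec.sumInl.comp
      (Primrec.snd.comp Primrec.fst)))).to_comp
  exact comp_map h1 h2

/-- The word of a pair of words. -/
def CSd_ww (q M : ℕ) {n : ℕ} (w w' : List (Fin n)) : List (CSd_L n q M) :=
  (w.map fun j => Sum.inl j) ++ (w'.map fun j => Sum.inr (Sum.inl j))

theorem CSd_ww_comp (q M n : ℕ) :
    Computable fun x : List (Fin n) × List (Fin n) => CSd_ww q M x.1 x.2 := by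
  have h1 : Computable fun x : List (Fin n) × List (Fin n) =>
      x.1.map fun j => (Sum.inl j : CSd_L n q M) :=
    comp_map (f := fun x : List (Fin n) × List (Fin n) => x.1)
      (g := fun _ j => (Sum.inl j : CSd_L n q M)) Computable.fst
      (Primrec.sumInl.comp Primrec.snd).to_comp
  have h2 : Computable fun x : List (Fin n) × List (Fin n) =>
      x.2.map fun j => (Sum.inr (Sum.inl j) : CSd_L n q M) :=
    comp_map (f := fun x : List (Fin n) × List (Fin n) => x.2)
      (g := fun _ j => (Sum.inr (Sum.inl j) : CSd_L n q M)) Computable.snd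
      (Primrec.sumInr.comp (Primrec.sumInl.comp Primrec.snd)).to_comp
  exact Computable.list_append.comp h1 h2

/-- The code of one coordinate. -/
def CSd_code {n q M k : ℕ} (one : ℕ) (ix : Fin M → Fin k) (i₀ : Fin k) :
    (Fin k × List (Fin n) × List (Fin n)) ⊕ (Fin M × (Fin q → ℕ)) → List (ℕ × List (CSd_L n q M))
  | Sum.inl x => if x.1 = i₀ then [(one, CSd_ww q M x.2.1 x.2.2)] else []
  | Sum.inr x => if ix x.1 = i₀ then
      [(one, CSd_pow n M x.2 ++ [Sum.inr (Sum.inr (Sum.inr x.1))])] else []

theorem CSd_ite {α σ : Type*} [Primcodable α] [Primcodable σ] {p : α → Prop} [DecidablePred p]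
    (hp : PrimrecPred p) {f g : α → σ} (hf : Computable f) (hg : Computable g) :
    Computable fun a => if p a then f a else g a := by
  have hd : Computable fun a => decide (p a) := by
    have h := hp.decide
    exact h.to_comp
  refine (Computable.cond hd hf hg).of_eq fun a => ?_
  simp only [Bool.cond_decide]

theorem CSd_code_comp {n q M k : ℕ} (one : ℕ) (ix : Fin M → Fin k) (i₀ : Fin k) :
    Computable (CSd_code (n := n) (q := q) one ix i₀) := by
  have h1 : Computable₂ fun (_ : (Fin k × List (Fin n) × List (Fin n)) ⊕ (Fin M × (Fin q → ℕ)))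
      (x : Fin k × List (Fin n) × List (Fin n)) =>
      if x.1 = i₀ then [(one, CSd_ww q M x.2.1 x.2.2)] else [] := by
    refine CSd_ite (p := fun y : ((Fin k × List (Fin n) × List (Fin n)) ⊕ (Fin M × (Fin q → ℕ))) ×
      (Fin k × List (Fin n) × List (Fin n)) => y.2.1 = i₀) ?_ ?_ (Computable.const [])
    · exact Primrec.eq.comp (Primrec.fst.comp Primrec.snd) (Primrec.const i₀)
    · exact Computable.list_cons.comp (Computable.pair (Computable.const one)
        ((CSd_ww_comp q M n).comp (Computable.snd.comp Computable.snd))) (Computable.const [])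
  have h2 : Computable₂ fun (_ : (Fin k × List (Fin n) × List (Fin n)) ⊕ (Fin M × (Fin q → ℕ)))
      (x : Fin M × (Fin q → ℕ)) => if ix x.1 = i₀ then
      [(one, CSd_pow n M x.2 ++ [Sum.inr (Sum.inr (Sum.inr x.1))])] else [] := by
    refine CSd_ite (p := fun y : ((Fin k × List (Fin n) × List (Fin n)) ⊕ (Fin M × (Fin q → ℕ))) ×
      (Fin M × (Fin q → ℕ)) => ix y.2.1 = i₀) ?_ ?_ (Computable.const [])
    · exact Primrec.eq.comp ((Primrec.dom_finite ix).comp (Primrec.fst.comp Primrec.snd))
        (Primrec.const i₀)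
    · refine Computable.list_cons.comp (Computable.pair (Computable.const one) ?_)
        (Computable.const [])
      refine Computable.list_append.comp ((CSd_pow_comp n M q).comp
        (Computable.snd.comp Computable.snd)) ?_
      refine Computable.list_cons.comp ?_ (Computable.const [])
      exact (Primrec.sumInr.comp (Primrec.sumInr.comp (Primrec.sumInr.comp
        (Primrec.fst.comp Primrec.snd)))).to_comp
  refine (Computable.sumCasesOn (f := fun x : (Fin k × List (Fin n) × List (Fin n)) ⊕
    (Fin M × (Fin q → ℕ)) => x) Computable.id h1 h2).of_eq ?_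
  rintro (x | x) <;> rfl

variable {K : Type u} [Field K] {n : ℕ} {O O' : Type u} [Ring O] [Algebra K O] [Ring O']
  [Algebra K O'] {ρ : FA K n →ₐ[K] O} {ρ' : FA K n →ₐ[K] O'} (S : Side ρ) (S' : Side ρ')
  (κ : CField K)

/-- The values of the coded tuples of tensors. -/
noncomputable def famL (ρ : FA K n →ₐ[K] O) (ρ' : FA K n →ₐ[K] O') (k : ℕ)
    (a : Fin k × List (Fin n) × List (Fin n)) : Fin k → O ⊗[K] O' :=
  Pi.single a.1 (ρ (wd K a.2.1) ⊗ₜ[K] ρ' (wd K a.2.2))

/-- The values of the letters. -/
noncomputable def CSd_v (k : ℕ) : CSd_L n (S.p + S'.p) (N2 S S' k) → O ⊗[K] O'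
  | Sum.inl j => ρ (FreeAlgebra.ι K j) ⊗ₜ[K] 1
  | Sum.inr (Sum.inl j) => 1 ⊗ₜ[K] ρ' (FreeAlgebra.ι K j)
  | Sum.inr (Sum.inr (Sum.inl v)) => th2 S S' (X v)
  | Sum.inr (Sum.inr (Sum.inr a)) => S.s (idx S S' k a).1 ⊗ₜ[K] S'.s (idx S S' k a).2.1

theorem CSd_ww_val (k : ℕ) (w w' : List (Fin n)) :
    ((CSd_ww (S.p + S'.p) (N2 S S' k) w w').map (CSd_v S S' k)).prod =
      ρ (wd K w) ⊗ₜ[K] ρ' (wd K w') := by
  have h1 : ∀ w : List (Fin n), ((w.map fun j => (Sum.inl j :
      CSd_L n (S.p + S'.p) (N2 S S' k))).map (CSd_v S S' k)).prod = ρ (wd K w) ⊗ₜ[K] 1 := by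
    intro w
    induction w with
    | nil => rw [List.map_nil, List.map_nil, List.prod_nil, wd_nil, map_one]; rfl
    | cons j w ih =>
      rw [List.map_cons, List.map_cons, List.prod_cons, ih, wd_cons, map_mul]
      change (ρ (FreeAlgebra.ι K j) ⊗ₜ[K] 1) * _ = _
      rw [Algebra.TensorProduct.tmul_mul_tmul, mul_one]
  have h2 : ∀ w : List (Fin n), ((w.map fun j => (Sum.inr (Sum.inl j) :
      CSd_L n (S.p + S'.p) (N2 S S' k))).map (CSd_v S S' k)).prod = 1 ⊗ₜ[K] ρ' (wd K w) := by
    intro w
    induction w with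
    | nil => rw [List.map_nil, List.map_nil, List.prod_nil, wd_nil, map_one]; rfl
    | cons j w ih =>
      rw [List.map_cons, List.map_cons, List.prod_cons, ih, wd_cons, map_mul]
      change (1 ⊗ₜ[K] ρ' (FreeAlgebra.ι K j)) * _ = _
      rw [Algebra.TensorProduct.tmul_mul_tmul, mul_one]
  unfold CSd_ww
  rw [List.map_append, List.prod_append, h1, h2, Algebra.TensorProduct.tmul_mul_tmul, mul_one,
    one_mul]

theorem CSd_mvm {q : ℕ} (e : Fin q → ℕ) :
    mvm K e = ((List.finRange q).map fun v => (X v : MvPolynomial (Fin q) K) ^ e v).prod := by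
  rw [mvm, MvPolynomial.monomial_eq, map_one, one_mul, Finsupp.prod_fintype _ _ (by simp),
    Fin.prod_univ_def]
  rfl

theorem CSd_pow_val (k : ℕ) (e : Fin (S.p + S'.p) → ℕ) :
    ((CSd_pow n (N2 S S' k) e).map (CSd_v S S' k)).prod = th2 S S' (mvm K e) := by
  rw [CSd_mvm, map_list_prod, List.map_map]
  unfold CSd_pow
  induction List.finRange (S.p + S'.p) with
  | nil => rfl
  | cons v l ih =>
    rw [List.flatMap_cons, List.map_append, List.prod_append, ih, List.map_cons, List.prod_cons,
      List.map_map]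
    congr 1
    rw [Function.comp_apply, map_pow]
    have h1 : ∀ m : ℕ, ((List.range m).map (CSd_v S S' k ∘ fun _ => (Sum.inr (Sum.inr (Sum.inl v)) :
        CSd_L n (S.p + S'.p) (N2 S S' k)))).prod = th2 S S' (X v) ^ m := by
      intro m
      change ((List.range m).map fun _ => th2 S S' (X v)).prod = _
      rw [List.map_const', List.length_range, List.prod_replicate]
    exact h1 _

/-- **Zero test.**

PROOF. It is enough to treat one coordinate `i₀` (finite conjunction: `re_forall_list` in Conv/IdT). Let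
`Λ = Fin n ⊕ Fin n ⊕ Fin (S.p + S'.p) ⊕ Fin (N2 S S' k)` with the values `ρ x_j ⊗ 1`, `1 ⊗ ρ' x_j`, `th2 (X v)`, `s ⊗ s'` (at the index
`a`). The index `(i, w, w')` is replaced by the word `w` (first letters) followed by `w'` (second letters) if `i = i₀` and by the
empty combination otherwise; the index `(a, e)` by the word consisting of the letters `v` repeated `e v` times for `v = 0, 1, …`, and the
letter `a`, if `(idx a).2.2 = i₀`, otherwise by the empty combination. This is computable (`bind_comp`, lists). The value of the word is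
`ρ (wd w) ⊗ ρ' (wd w')` resp. `th2 (mvm e) * (s ⊗ s')` = the `i₀`-coordinate of `pik (mon1 (a, e))`. Use `re_zero_words`, `ev_bind`. -/
theorem re_zero_fam (hM : MatRep K (O ⊗[K] O')) (k : ℕ) :
    REPred fun P : List (ℕ × ((Fin k × List (Fin n) × List (Fin n)) ⊕
      (Fin (N2 S S' k) × (Fin (S.p + S'.p) → ℕ)))) =>
      κ.ev (Sum.elim (famL ρ ρ' k) (fun x => pik S S' k (mon1 K x))) P = 0 := by
  classical
  have h1 : ∀ i₀ : Fin k, REPred fun P : List (ℕ × ((Fin k × List (Fin n) × List (Fin n)) ⊕
      (Fin (N2 S S' k) × (Fin (S.p + S'.p) → ℕ)))) =>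
      κ.ev (Sum.elim (famL ρ ρ' k) (fun x => pik S S' k (mon1 K x))) P i₀ = 0 := by
    intro i₀
    have h2 := re_zero_words κ hM (CSd_v S S' k)
    have h3 := re_comp h2 (κ.bind_comp (CSd_code_comp (n := n) (q := S.p + S'.p) κ.one
      (fun a => (idx S S' k a).2.2) i₀))
    refine h3.of_eq fun P => ?_
    have h4 : κ.ev (fun w => (w.map (CSd_v S S' k)).prod) (κ.bind (CSd_code (n := n)
        (q := S.p + S'.p) κ.one (fun a => (idx S S' k a).2.2) i₀) P) =
        κ.ev (Sum.elim (famL ρ ρ' k) (fun x => pik S S' k (mon1 K x))) P i₀ := by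
      have h5 := κ.ev_linear (LinearMap.proj i₀ : (Fin k → O ⊗[K] O') →ₗ[K] O ⊗[K] O')
        (Sum.elim (famL ρ ρ' k) (fun x => pik S S' k (mon1 K x))) P
      rw [LinearMap.proj_apply] at h5
      rw [κ.ev_bind, h5]
      refine κ.ev_congr fun p _ => ?_
      rcases p.2 with x | x
      · change κ.ev _ (if x.1 = i₀ then _ else _) = famL ρ ρ' k x i₀
        unfold famL
        by_cases hx : x.1 = i₀
        · subst hx
          rw [if_pos rfl, κ.ev_single, CSd_ww_val, Pi.single_eq_same]
        · rw [if_neg hx, κ.ev_nil, Pi.single_eq_of_ne (Ne.symm hx)]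
      · change κ.ev _ (if (idx S S' k x.1).2.2 = i₀ then _ else _) = pik S S' k (mon1 K x) i₀
        unfold mon1
        rw [CSb_pik_single]
        by_cases hx : (idx S S' k x.1).2.2 = i₀
        · rw [if_pos hx, κ.ev_single, hx, Pi.single_eq_same, List.map_append, List.prod_append,
            CSd_pow_val, List.map_cons, List.map_nil, List.prod_cons, List.prod_nil, mul_one]
          rfl
        · rw [if_neg hx, κ.ev_nil, Pi.single_eq_of_ne (Ne.symm hx)]
    rw [h4]
  refine (re_forall_list h1 (List.finRange k)).of_eq fun P => ?_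
  constructor
  · intro h
    funext i
    exact h i (List.mem_finRange i)
  · intro h i _
    rw [h]
    rfl

/-! ### Codes of tuples of tensors -/

/-- The coded tuples of tensors. -/
noncomputable def CSd_f (K : Type u) [Field K] {n k : ℕ}
    (a : Fin k × List (Fin n) × List (Fin n)) : Fin k → FA K n ⊗[K] FA K n :=
  Pi.single a.1 (wd K a.2.1 ⊗ₜ[K] wd K a.2.2)

theorem CSd_f_span (K : Type u) [Field K] {n k : ℕ} :
    Submodule.span K (Set.range (CSd_f K (n := n) (k := k))) = ⊤ := by
  rw [eq_top_iff]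
  rintro t -
  have h1 : ∀ (i : Fin k) (z : FA K n ⊗[K] FA K n),
      (Pi.single i z : Fin k → FA K n ⊗[K] FA K n) ∈
        Submodule.span K (Set.range (CSd_f K (n := n) (k := k))) := by
    intro i z
    induction z using TensorProduct.induction_on with
    | zero =>
      rw [Pi.single_zero]
      exact zero_mem _
    | tmul a b =>
      have ha : a ∈ Submodule.span K (Set.range (wd K (k := n))) := by rw [wd_span]; trivial
      have hb : b ∈ Submodule.span K (Set.range (wd K (k := n))) := by rw [wd_span]; trivial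
      induction ha using Submodule.span_induction with
      | mem a ha =>
        obtain ⟨w, rfl⟩ := ha
        induction hb using Submodule.span_induction with
        | mem b hb =>
          obtain ⟨w', rfl⟩ := hb
          exact Submodule.subset_span ⟨(i, w, w'), rfl⟩
        | zero =>
          rw [TensorProduct.tmul_zero, Pi.single_zero]
          exact zero_mem _
        | add x y _ _ hx hy =>
          rw [TensorProduct.tmul_add, Pi.single_add]
          exact add_mem hx hy
        | smul c x _ hx =>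
          rw [TensorProduct.tmul_smul, Pi.single_smul]
          exact Submodule.smul_mem _ c hx
      | zero =>
        rw [TensorProduct.zero_tmul, Pi.single_zero]
        exact zero_mem _
      | add x y _ _ hx hy =>
        rw [TensorProduct.add_tmul, Pi.single_add]
        exact add_mem hx hy
      | smul c x _ hx =>
        rw [← TensorProduct.smul_tmul', Pi.single_smul]
        exact Submodule.smul_mem _ c hx
    | add x y hx hy =>
      rw [Pi.single_add]
      exact add_mem hx hy
  rw [← Finset.univ_sum_single t]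
  exact Submodule.sum_mem _ fun i _ => h1 i (t i)

/-- The code of an element `wd w * y i * wd w'`. -/
def CSd_E {n k : ℕ} (Q : Fin k → List (ℕ × List (Fin n))) (a : Fin k × List (Fin n) × List (Fin n)) :
    List (ℕ × List (Fin n)) :=
  (Q a.1).map fun c => (c.1, a.2.1 ++ (c.2 ++ a.2.2))

theorem CSd_E_comp {n k : ℕ} (Q : Fin k → List (ℕ × List (Fin n))) : Computable (CSd_E Q) := by
  refine comp_map (f := fun a : Fin k × List (Fin n) × List (Fin n) => Q a.1)
    (g := fun a c => (c.1, a.2.1 ++ (c.2 ++ a.2.2)))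
    ((Primrec.dom_finite Q).to_comp.comp Computable.fst) ?_
  refine Computable.pair (Computable.fst.comp Computable.snd) ?_
  exact Computable.list_append.comp
    (Computable.fst.comp (Computable.snd.comp Computable.fst))
    (Computable.list_append.comp (Computable.snd.comp Computable.snd)
      (Computable.snd.comp (Computable.snd.comp Computable.fst)))

theorem CSd_E_val {n k : ℕ} (Q : Fin k → List (ℕ × List (Fin n)))
    (a : Fin k × List (Fin n) × List (Fin n)) :
    κ.ev (wd K) (CSd_E Q a) = wd K a.2.1 * κ.ev (wd K) (Q a.1) * wd K a.2.2 := by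
  unfold CSd_E
  induction Q a.1 with
  | nil => simp
  | cons c l ih =>
    rw [List.map_cons, CField.ev_cons, CField.ev_cons, ih, mul_add, add_mul, wd_append, wd_append]
    congr 1
    rw [mul_smul_comm, smul_mul_assoc, mul_assoc]

variable {T : Submodule K (FA K n)} {k : ℕ} (y : Fin k → FA K n)

/-- **The representation relation is recursively enumerable.**

PROOF. `(ev P, ev Q) ∈ relk` iff there is a code `τ : List (ℕ × (Fin k × List (Fin n) × List (Fin n)))` of a tuple `t` with
`ev P - evk y t ∈ T` and `valk t = pik (ev Q)` (every `t` has a code: the tensors `wd w ⊗ wd w'` span `F ⊗ F` since the words span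
`F`, `wd_span`). `evk y` of the tuple with index `(i, w, w')` is `wd w * y i * wd w'`, which has the code
`(Qy i).map fun c => (c.1, w ++ c.2 ++ w')` with `Qy i` a code of `y i`; so the first condition is r.e. by `hre` (`re_comp`, `bind_comp`,
`sub_comp`). The second condition is `κ.ev fam (τ inl ++ lneg (Q inr)) = 0`: `re_zero_fam`. Then `re_and`, `re_exists`. -/
theorem relk_re (hre : κ.RESub (wd K) T) (hM : MatRep K (O ⊗[K] O')) (hT : IsId T)
    (hl : ∀ i z, ρ z = 0 → z * y i ∈ T) (hr : ∀ i z, ρ' z = 0 → y i * z ∈ T) :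
    (mkSec S S' y hT hl hr).RE κ := by
  classical
  choose Q hQ using fun i => wd_exists_code κ (y i)
  -- the two conditions
  have h1 : REPred fun z : (List (ℕ × List (Fin n)) × List (ℕ × (Fin (N2 S S' k) ×
      (Fin (S.p + S'.p) → ℕ)))) × List (ℕ × (Fin k × List (Fin n) × List (Fin n))) =>
      κ.ev (wd K) (z.1.1 ++ κ.lneg (κ.bind (CSd_E Q) z.2)) ∈ T :=
    re_comp (p := fun P : List (ℕ × List (Fin n)) => κ.ev (wd K) P ∈ T) hre
      (Computable.list_append.comp (Computable.fst.comp Computable.fst)
        (κ.lneg_comp.comp ((κ.bind_comp (CSd_E_comp Q)).comp Computable.snd)))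
  have h2 : REPred fun z : (List (ℕ × List (Fin n)) × List (ℕ × (Fin (N2 S S' k) ×
      (Fin (S.p + S'.p) → ℕ)))) × List (ℕ × (Fin k × List (Fin n) × List (Fin n))) =>
      κ.ev (Sum.elim (famL ρ ρ' k) (fun x => pik S S' k (mon1 K x)))
        ((z.2.map fun c => (c.1, Sum.inl c.2)) ++
          κ.lneg (z.1.2.map fun c => (c.1, Sum.inr c.2))) = 0 := by
    refine re_comp (re_zero_fam S S' κ hM k) (f := fun z : (List (ℕ × List (Fin n)) ×
      List (ℕ × (Fin (N2 S S' k) × (Fin (S.p + S'.p) → ℕ)))) ×
        List (ℕ × (Fin k × List (Fin n) × List (Fin n))) =>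
      ((z.2.map fun c => (c.1, Sum.inl c.2)) ++
          κ.lneg (z.1.2.map fun c => (c.1, Sum.inr c.2)))) ?_
    refine Computable.list_append.comp ?_ (κ.lneg_comp.comp ?_)
    · exact comp_map (f := fun z : (List (ℕ × List (Fin n)) ×
        List (ℕ × (Fin (N2 S S' k) × (Fin (S.p + S'.p) → ℕ)))) ×
          List (ℕ × (Fin k × List (Fin n) × List (Fin n))) => z.2)
        (g := fun _ c => (c.1, Sum.inl c.2)) Computable.snd
        (Computable.pair (Computable.fst.comp Computable.snd)
          (Primrec.sumInl.to_comp.comp (Computable.snd.comp Computable.snd)))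
    · exact comp_map (f := fun z : (List (ℕ × List (Fin n)) ×
        List (ℕ × (Fin (N2 S S' k) × (Fin (S.p + S'.p) → ℕ)))) ×
          List (ℕ × (Fin k × List (Fin n) × List (Fin n))) => z.1.2)
        (g := fun _ c => (c.1, Sum.inr c.2)) (Computable.snd.comp Computable.fst)
        (Computable.pair (Computable.fst.comp Computable.snd)
          (Primrec.sumInr.to_comp.comp (Computable.snd.comp Computable.snd)))
  -- values
  have hE : ∀ τ : List (ℕ × (Fin k × List (Fin n) × List (Fin n))),
      κ.ev (wd K) (κ.bind (CSd_E Q) τ) = evk y (κ.ev (CSd_f K) τ) := by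
    intro τ
    rw [κ.ev_bind, κ.ev_linear]
    refine κ.ev_congr fun p _ => ?_
    rw [CSd_E_val, hQ, CSd_f, CSb_evk_single, evy_tmul]
  have hl1 : ∀ τ : List (ℕ × (Fin k × List (Fin n) × List (Fin n))),
      κ.ev (Sum.elim (famL ρ ρ' k) (fun x => pik S S' k (mon1 K x)))
        (τ.map fun c => (c.1, Sum.inl c.2)) = valk ρ ρ' k (κ.ev (CSd_f K) τ) := by
    intro τ
    induction τ with
    | nil => simp
    | cons c l ih =>
      rw [List.map_cons, CField.ev_cons, CField.ev_cons, ih, map_add, map_smul, CSd_f,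
        CSb_valk_single]
      rfl
  have hr1 : ∀ q : List (ℕ × (Fin (N2 S S' k) × (Fin (S.p + S'.p) → ℕ))),
      κ.ev (Sum.elim (famL ρ ρ' k) (fun x => pik S S' k (mon1 K x)))
        (q.map fun c => (c.1, Sum.inr c.2)) = pik S S' k (κ.ev (mon1 K) q) := by
    intro q
    induction q with
    | nil => simp
    | cons c l ih =>
      rw [List.map_cons, CField.ev_cons, CField.ev_cons, ih, map_add, map_smul]
      rfl
  refine (re_exists (p := fun (x : List (ℕ × List (Fin n)) × List (ℕ × (Fin (N2 S S' k) ×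
      (Fin (S.p + S'.p) → ℕ)))) (τ : List (ℕ × (Fin k × List (Fin n) × List (Fin n)))) =>
      κ.ev (wd K) (x.1 ++ κ.lneg (κ.bind (CSd_E Q) τ)) ∈ T ∧
      κ.ev (Sum.elim (famL ρ ρ' k) (fun x => pik S S' k (mon1 K x)))
        ((τ.map fun c => (c.1, Sum.inl c.2)) ++
          κ.lneg (x.2.map fun c => (c.1, Sum.inr c.2))) = 0) (re_and h1 h2)).of_eq fun x => ?_
  change _ ↔ (κ.ev (wd K) x.1, κ.ev (mon1 K) x.2) ∈ relk S S' T y
  constructor
  · rintro ⟨τ, h3, h4⟩
    refine ⟨κ.ev (CSd_f K) τ, ?_, ?_⟩
    · rw [CField.ev_append, CField.ev_lneg, hE, ← sub_eq_add_neg] at h3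
      exact h3
    · rw [CField.ev_append, CField.ev_lneg, hl1, hr1, add_neg_eq_zero] at h4
      exact h4
  · rintro ⟨t, h3, h4⟩
    obtain ⟨τ, rfl⟩ := κ.exists_code (CSd_f K) t (by rw [CSd_f_span]; trivial)
    refine ⟨τ, ?_, ?_⟩
    · rw [CField.ev_append, CField.ev_lneg, hE, ← sub_eq_add_neg]
      exact h3
    · rw [CField.ev_append, CField.ev_lneg, hl1, hr1, add_neg_eq_zero]
      exact h4

end Pool.Agent.H.MP_f5ceca_al.S
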