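import Pool.Agent.H.MP_f5ceca_al.S.CSd

/-!
The section lemmas for two sides and a finite set.
-/

namespace Pool.Agent.H.MP_f5ceca_al.S

open MvPolynomial TensorProduct
open Pool.Agent.H.MP_f5ceca_al.N (FA xx Com Fil Aug)
open Pool.Agent.H.MP_f5ceca_al.Conv

universe u

/-- Enumeration of a finite set. -/
theorem CSe_enum {α : Type*} (Y : Finset α) :
    ∃ (k : ℕ) (y : Fin k → α), (∀ i, y i ∈ Y) ∧ Set.range y = (Y : Set α) := by
  refine ⟨Y.card, fun i => (Y.equivFin.symm i : α), fun i => (Y.equivFin.symm i).2, ?_⟩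
  ext x
  constructor
  · rintro ⟨i, rfl⟩
    exact (Y.equivFin.symm i).2
  · intro hx
    exact ⟨Y.equivFin ⟨x, hx⟩, by simp⟩

variable {K : Type u} [Field K] {n : ℕ} {O O' : Type u} [Ring O] [Algebra K O] [Ring O']
  [Algebra K O'] {ρ : FA K n →ₐ[K] O} {ρ' : FA K n →ₐ[K] O'} (S : Side ρ) (S' : Side ρ')
  {T : Submodule K (FA K n)} (hT : IsId T) (Y : Finset (FA K n))
  (hl : ∀ y ∈ Y, ∀ z, ρ z = 0 → z * y ∈ T) (hr : ∀ y ∈ Y, ∀ z, ρ' z = 0 → y * z ∈ T)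

include hT hl hr

/-- PROOF. `Y` is the range of `y : Fin k → FA K n` (`Y.equivFin`); `Sec.fg` for `mkSec`, `Xsp_le`. -/
theorem sec_fg (I : Submodule K (FA K n)) (hI : IsId I) (hTI : T ≤ I) :
    ∃ (m : ℕ) (Φ : Finset (FA K n)), (∀ u ∈ Φ, u ∈ I) ∧
      ∀ Γ : Submodule K (FA K n), Γ ≤ T ⊔ Xsp S S' (Y : Set (FA K n)) m →
        I ⊓ Γ ≤ T ⊔ tsp (Φ : Set (FA K n)) := by
  obtain ⟨k, y, hy, hrange⟩ := CSe_enum Y
  obtain ⟨m, Φ, hΦ, h⟩ := (mkSec S S' y hT (fun i => hl _ (hy i)) (fun i => hr _ (hy i))).fg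
    hT I hI hTI
  refine ⟨m, Φ, hΦ, fun Γ hΓ => h Γ (hΓ.trans (sup_le_sup_left ?_ _))⟩
  rw [← hrange]
  exact Xsp_le S S' y hT _ _ m

/-- PROOF. The same with `Sec.dec`, `relk_re`. -/
theorem sec_dec (κ : CField K) (hre : κ.RESub (wd K) T) (hM : MatRep K O) (hM' : MatRep K O')
    (I : Submodule K (FA K n)) (hI : IsId I) (hTI : T ≤ I) (hreI : κ.RESub (wd K) I) :
    ∃ m : ℕ, ∀ Γ : Submodule K (FA K n), Γ ≤ T ⊔ Xsp S S' (Y : Set (FA K n)) m →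
      (ComputablePred fun P : List (ℕ × List (Fin n)) => κ.ev (wd K) P ∈ I ⊔ Γ) →
      ComputablePred fun P : List (ℕ × List (Fin n)) => κ.ev (wd K) P ∈ I := by
  obtain ⟨k, y, hy, hrange⟩ := CSe_enum Y
  have hRE := relk_re S S' κ y hre (matRep_tensor hM hM') hT (fun i => hl _ (hy i))
    (fun i => hr _ (hy i))
  obtain ⟨m, h⟩ := Sec.dec κ _ hRE I hI hTI hreI
  refine ⟨m, fun Γ hΓ => h Γ (hΓ.trans (sup_le_sup_left ?_ _))⟩
  rw [← hrange]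
  exact Xsp_le S S' y hT _ _ m

end Pool.Agent.H.MP_f5ceca_al.S
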