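import Pool.Agent.H.MP_f5ceca_al.S.Defs
import Pool.Agent.H.MP_f5ceca_al.S.Tens

/-!
The Fox derivatives and the theorem of Lewin: if `ρ u = 0`, `ρ' u = 0` and all derivatives of `u` vanish
in `O ⊗ O'` then `u ∈ ker ρ * ker ρ'`.
-/

namespace Pool.Agent.H.MP_f5ceca_al.S

open TensorProduct
open Pool.Agent.H.MP_f5ceca_al.N (FA xx Com Fil Aug)

universe u

variable {K : Type u} [Field K] {n : ℕ} {O O' : Type u} [Ring O] [Algebra K O] [Ring O']
  [Algebra K O']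

/-- The block triangular representation which gives the `j`-th Fox derivative. -/
noncomputable def foxM (ρ : FA K n →ₐ[K] O) (ρ' : FA K n →ₐ[K] O') (j : Fin n) :
    FA K n →ₐ[K] Matrix (Fin 2) (Fin 2) (O ⊗[K] O') :=
  FreeAlgebra.lift K fun i =>
    !![ρ (xx K i) ⊗ₜ[K] (1 : O'), if i = j then 1 else 0; 0, (1 : O) ⊗ₜ[K] ρ' (xx K i)]

/-- The `j`-th Fox derivative with values in `O ⊗ O'`. -/
noncomputable def fox (ρ : FA K n →ₐ[K] O) (ρ' : FA K n →ₐ[K] O') (j : Fin n) :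
    FA K n →ₗ[K] O ⊗[K] O' where
  toFun z := foxM ρ ρ' j z 0 1
  map_add' x y := by simp
  map_smul' c x := by simp

variable (ρ : FA K n →ₐ[K] O) (ρ' : FA K n →ₐ[K] O') (j : Fin n)

/-- PROOF. `FreeAlgebra.induction` for the three entries at the same time: entries `0 0`, `1 0`, `1 1` of the
product of upper triangular matrices (`Matrix.mul_apply`, `Fin.sum_univ_two`); letters by
`FreeAlgebra.lift_ι_apply`; `Algebra.TensorProduct.tmul_mul_tmul`. -/
theorem foxM_diag (z : FA K n) : foxM ρ ρ' j z 0 0 = ρ z ⊗ₜ[K] (1 : O') ∧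
    foxM ρ ρ' j z 1 0 = 0 ∧ foxM ρ ρ' j z 1 1 = (1 : O) ⊗ₜ[K] ρ' z := by
  induction z using FreeAlgebra.induction with
  | grade0 r =>
    refine ⟨?_, ?_, ?_⟩
    · rw [AlgHom.commutes, AlgHom.commutes, Matrix.algebraMap_matrix_apply, if_pos rfl,
        Algebra.TensorProduct.algebraMap_apply]
    · rw [AlgHom.commutes, Matrix.algebraMap_matrix_apply, if_neg (by decide)]
    · rw [AlgHom.commutes, AlgHom.commutes, Matrix.algebraMap_matrix_apply, if_pos rfl,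
        Algebra.TensorProduct.algebraMap_apply']
  | grade1 i =>
    have h : foxM ρ ρ' j (FreeAlgebra.ι K i) =
        !![ρ (xx K i) ⊗ₜ[K] (1 : O'), if i = j then 1 else 0; 0, (1 : O) ⊗ₜ[K] ρ' (xx K i)] := by
      rw [foxM, FreeAlgebra.lift_ι_apply]
    rw [h]
    exact ⟨rfl, rfl, rfl⟩
  | mul a b ha hb =>
    obtain ⟨ha1, ha2, ha3⟩ := ha
    obtain ⟨hb1, hb2, hb3⟩ := hb
    refine ⟨?_, ?_, ?_⟩
    · rw [map_mul, map_mul, Matrix.mul_apply, Fin.sum_univ_two, ha1, hb1, hb2, mul_zero, add_zero,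
        Algebra.TensorProduct.tmul_mul_tmul, one_mul]
    · rw [map_mul, Matrix.mul_apply, Fin.sum_univ_two, ha2, hb2, mul_zero, zero_mul, add_zero]
    · rw [map_mul, map_mul, Matrix.mul_apply, Fin.sum_univ_two, ha2, ha3, hb3, zero_mul, zero_add,
        Algebra.TensorProduct.tmul_mul_tmul, one_mul]
  | add a b ha hb =>
    obtain ⟨ha1, ha2, ha3⟩ := ha
    obtain ⟨hb1, hb2, hb3⟩ := hb
    refine ⟨?_, ?_, ?_⟩
    · rw [map_add, map_add, Matrix.add_apply, ha1, hb1, TensorProduct.add_tmul]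
    · rw [map_add, Matrix.add_apply, ha2, hb2, add_zero]
    · rw [map_add, map_add, Matrix.add_apply, ha3, hb3, TensorProduct.tmul_add]

theorem fox_mul (a b : FA K n) : fox ρ ρ' j (a * b) =
    (ρ a ⊗ₜ[K] (1 : O')) * fox ρ ρ' j b + fox ρ ρ' j a * ((1 : O) ⊗ₜ[K] ρ' b) := by
  have h : foxM ρ ρ' j (a * b) 0 1 = foxM ρ ρ' j a 0 0 * foxM ρ ρ' j b 0 1 +
      foxM ρ ρ' j a 0 1 * foxM ρ ρ' j b 1 1 := by
    rw [map_mul, Matrix.mul_apply, Fin.sum_univ_two]
  rw [(foxM_diag ρ ρ' j a).1, (foxM_diag ρ ρ' j b).2.2] at h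
  exact h

theorem fox_algebraMap (r : K) : fox ρ ρ' j (algebraMap K _ r) = 0 := by
  have h : foxM ρ ρ' j (algebraMap K _ r) 0 1 = 0 := by
    rw [AlgHom.commutes, Matrix.algebraMap_matrix_apply, if_neg (by decide)]
  exact h

theorem fox_xx (i : Fin n) : fox ρ ρ' j (xx K i) = if i = j then 1 else 0 := by
  have h : foxM ρ ρ' j (FreeAlgebra.ι K i) =
      !![ρ (xx K i) ⊗ₜ[K] (1 : O'), if i = j then 1 else 0; 0, (1 : O) ⊗ₜ[K] ρ' (xx K i)] := by
    rw [foxM, FreeAlgebra.lift_ι_apply]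
  have h2 : foxM ρ ρ' j (FreeAlgebra.ι K i) 0 1 = if i = j then 1 else 0 := by
    rw [h]
    rfl
  exact h2

/-- The derivatives over `O ⊗ O'` are images of the universal ones. PROOF. `FreeAlgebra.induction`, `fox_mul`,
`fox_xx`, `fox_algebraMap`. -/
theorem fox_map (z : FA K n) : fox ρ ρ' j z = Algebra.TensorProduct.map ρ ρ'
    (fox (AlgHom.id K (FA K n)) (AlgHom.id K (FA K n)) j z) := by
  induction z using FreeAlgebra.induction with
  | grade0 r => rw [fox_algebraMap, fox_algebraMap, map_zero]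
  | grade1 i =>
    have h1 := fox_xx ρ ρ' j i
    have h2 := fox_xx (AlgHom.id K (FA K n)) (AlgHom.id K (FA K n)) j i
    rw [xx] at h1 h2
    rw [h1, h2]
    split_ifs
    · rw [map_one]
    · rw [map_zero]
  | mul a b ha hb =>
    rw [fox_mul, fox_mul, map_add, map_mul, map_mul, ha, hb, Algebra.TensorProduct.map_tmul,
      Algebra.TensorProduct.map_tmul, map_one, map_one, AlgHom.id_apply, AlgHom.id_apply]
  | add a b ha hb => rw [map_add, map_add, map_add, ha, hb]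

/-- Multiplication on both sides by elements, for an element in both kernels.
PROOF. `fox_mul` twice; the terms with `ρ z = 0`, `ρ' z = 0` vanish. -/
theorem fox_mul_mul {z : FA K n} (h : ρ z = 0) (h' : ρ' z = 0) (a b : FA K n) :
    fox ρ ρ' j (a * z * b) = (ρ a ⊗ₜ[K] (1 : O')) * fox ρ ρ' j z * ((1 : O) ⊗ₜ[K] ρ' b) := by
  rw [fox_mul, fox_mul, map_mul, h, mul_zero, TensorProduct.zero_tmul, zero_mul, zero_add, h',
    TensorProduct.tmul_zero, mul_zero, add_zero]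

/-- The fundamental formula `∑_j (D_j z * (x_j ⊗ 1) - (1 ⊗ x_j) * D_j z) = z ⊗ 1 - 1 ⊗ z`.

PROOF. Both sides are derivations `δ` with `δ(a b) = (a ⊗ 1) δ(b) + δ(a) (1 ⊗ b)` (the elements `x_j ⊗ 1` and
`1 ⊗ x_j` act in the middle: `(a ⊗ 1) (t (x_j ⊗ 1)) = ((a ⊗ 1) t) (x_j ⊗ 1)` and
`(t (x_j ⊗ 1)) (1 ⊗ b) = (t (1 ⊗ b)) (x_j ⊗ 1)`, similarly for `1 ⊗ x_j`); `FreeAlgebra.induction`, `fox_mul`, `fox_xx`,
`Finset.sum_ite_eq`. -/
theorem fox_sum (z : FA K n) :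
    ∑ j, (fox (AlgHom.id K (FA K n)) (AlgHom.id K (FA K n)) j z * (xx K j ⊗ₜ[K] 1) -
      ((1 : FA K n) ⊗ₜ[K] xx K j) * fox (AlgHom.id K (FA K n)) (AlgHom.id K (FA K n)) j z) =
      z ⊗ₜ[K] 1 - 1 ⊗ₜ[K] z := by
  induction z using FreeAlgebra.induction with
  | grade0 r =>
    have h0 : ∀ j : Fin n, fox (AlgHom.id K (FA K n)) (AlgHom.id K (FA K n)) j
        (algebraMap K (FA K n) r) = 0 := fun j => fox_algebraMap _ _ j r
    have h1 : (algebraMap K (FA K n) r) ⊗ₜ[K] (1 : FA K n) = (1 : FA K n) ⊗ₜ[K]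
        (algebraMap K (FA K n) r) := by
      rw [Algebra.algebraMap_eq_smul_one, TensorProduct.smul_tmul]
    rw [h1, sub_self]
    refine Finset.sum_eq_zero fun j _ => ?_
    rw [h0 j, zero_mul, mul_zero, sub_self]
  | grade1 i =>
    have h0 : ∀ j : Fin n, fox (AlgHom.id K (FA K n)) (AlgHom.id K (FA K n)) j
        (FreeAlgebra.ι K i) = if i = j then 1 else 0 := fun j => fox_xx _ _ j i
    rw [Finset.sum_eq_single i]
    · rw [h0 i, if_pos rfl, one_mul, mul_one]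
      rfl
    · intro j _ hj
      rw [h0 j, if_neg (Ne.symm hj), zero_mul, mul_zero, sub_self]
    · intro hi
      exact absurd (Finset.mem_univ i) hi
  | mul a b ha hb =>
    have e : ∀ j : Fin n, fox (AlgHom.id K (FA K n)) (AlgHom.id K (FA K n)) j (a * b) *
        (xx K j ⊗ₜ[K] 1) - ((1 : FA K n) ⊗ₜ[K] xx K j) *
          fox (AlgHom.id K (FA K n)) (AlgHom.id K (FA K n)) j (a * b) =
        (a ⊗ₜ[K] (1 : FA K n)) * (fox (AlgHom.id K (FA K n)) (AlgHom.id K (FA K n)) j b *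
          (xx K j ⊗ₜ[K] 1) - ((1 : FA K n) ⊗ₜ[K] xx K j) *
          fox (AlgHom.id K (FA K n)) (AlgHom.id K (FA K n)) j b) +
        (fox (AlgHom.id K (FA K n)) (AlgHom.id K (FA K n)) j a *
          (xx K j ⊗ₜ[K] 1) - ((1 : FA K n) ⊗ₜ[K] xx K j) *
          fox (AlgHom.id K (FA K n)) (AlgHom.id K (FA K n)) j a) * ((1 : FA K n) ⊗ₜ[K] b) := by
      intro j
      have c1 : ((1 : FA K n) ⊗ₜ[K] b) * (xx K j ⊗ₜ[K] (1 : FA K n)) =
          (xx K j ⊗ₜ[K] (1 : FA K n)) * ((1 : FA K n) ⊗ₜ[K] b) := by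
        rw [Algebra.TensorProduct.tmul_mul_tmul, Algebra.TensorProduct.tmul_mul_tmul, one_mul,
          mul_one, one_mul, mul_one]
      have c2 : ((1 : FA K n) ⊗ₜ[K] xx K j) * (a ⊗ₜ[K] (1 : FA K n)) =
          (a ⊗ₜ[K] (1 : FA K n)) * ((1 : FA K n) ⊗ₜ[K] xx K j) := by
        rw [Algebra.TensorProduct.tmul_mul_tmul, Algebra.TensorProduct.tmul_mul_tmul, one_mul,
          mul_one, one_mul, mul_one]
      rw [fox_mul, AlgHom.id_apply, AlgHom.id_apply]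
      generalize fox (AlgHom.id K (FA K n)) (AlgHom.id K (FA K n)) j a = A
      generalize fox (AlgHom.id K (FA K n)) (AlgHom.id K (FA K n)) j b = B
      generalize a ⊗ₜ[K] (1 : FA K n) = a1 at *
      generalize (1 : FA K n) ⊗ₜ[K] b = b1 at *
      generalize xx K j ⊗ₜ[K] (1 : FA K n) = x1 at *
      generalize (1 : FA K n) ⊗ₜ[K] xx K j = x2 at *
      rw [add_mul, mul_add, mul_sub, sub_mul, mul_assoc a1 B x1, mul_assoc A b1 x1, c1,
        ← mul_assoc A x1 b1, ← mul_assoc x2 a1 B, c2, mul_assoc a1 x2 B, ← mul_assoc x2 A b1]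
      abel
    rw [Finset.sum_congr rfl fun j _ => e j, Finset.sum_add_distrib, ← Finset.mul_sum,
      ← Finset.sum_mul, ha, hb, mul_sub, sub_mul, Algebra.TensorProduct.tmul_mul_tmul,
      Algebra.TensorProduct.tmul_mul_tmul, Algebra.TensorProduct.tmul_mul_tmul]
    simp only [one_mul, mul_one]
    abel
  | add a b ha hb =>
    rw [TensorProduct.add_tmul, TensorProduct.tmul_add, add_sub_add_comm, ← ha, ← hb,
      ← Finset.sum_add_distrib]
    refine Finset.sum_congr rfl fun j _ => ?_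
    rw [map_add, add_mul, mul_add]
    abel

/-- **Theorem of Lewin.**

PROOF. Let `D_j = fox id id j z`. By `fox_map` and `ker_map` (the algebra map `Algebra.TensorProduct.map ρ ρ'` is
`TensorProduct.map` of the linear maps), `D_j = α_j + β_j`, `α_j` in the span `A` of the `a ⊗ b` with `ρ a = 0`, `β_j` in the span
`B` of the `a ⊗ b` with `ρ' b = 0`. `A` is stable under `t ↦ t * (x_j ⊗ 1)` and under `t ↦ (1 ⊗ x_j) * t`, and so is `B`. Let
`τ = z ⊗ 1 - ∑_j (α_j * (x_j ⊗ 1) - (1 ⊗ x_j) * α_j)`; `τ ∈ A` since `ρ z = 0`. By `fox_sum`,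
`τ = 1 ⊗ z + ∑_j (β_j * (x_j ⊗ 1) - (1 ⊗ x_j) * β_j) ∈ B` since `ρ' z = 0`. By `inf_span`, `τ` is in the span of the `a ⊗ b` with
`ρ a = 0`, `ρ' b = 0`, so `mul' τ ∈ ker ρ * ker ρ'` (`LinearMap.mul' K (FA K n)`). Finally
`mul' (t * (x_j ⊗ 1) - (1 ⊗ x_j) * t) = 0` for all `t` (pure tensors: `(a x_j) b - a (x_j b) = 0`), so `mul' τ = z`. -/
theorem lewin {z : FA K n} (h : ρ z = 0) (h' : ρ' z = 0) (hD : ∀ j, fox ρ ρ' j z = 0) :
    z ∈ LinearMap.ker ρ.toLinearMap * LinearMap.ker ρ'.toLinearMap := by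
  have hk : ∀ j, ∃ t₁ t₂ : FA K n ⊗[K] FA K n,
      fox (AlgHom.id K (FA K n)) (AlgHom.id K (FA K n)) j z = t₁ + t₂ ∧
      t₁ ∈ Submodule.span K {w | ∃ (a : FA K n) (b : FA K n), ρ.toLinearMap a = 0 ∧
        w = a ⊗ₜ[K] b} ∧
      t₂ ∈ Submodule.span K {w | ∃ (a : FA K n) (b : FA K n), ρ'.toLinearMap b = 0 ∧
        w = a ⊗ₜ[K] b} := by
    intro j
    refine ker_map ρ.toLinearMap ρ'.toLinearMap _ ?_
    have h1 := hD j
    rw [fox_map] at h1
    exact h1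
  choose α β hαβ hα hβ using hk
  obtain ⟨A, hA⟩ : ∃ A, A = Submodule.span K {w : FA K n ⊗[K] FA K n | ∃ (a : FA K n) (b : FA K n),
    ρ.toLinearMap a = 0 ∧ w = a ⊗ₜ[K] b} := ⟨_, rfl⟩
  obtain ⟨B, hB⟩ : ∃ B, B = Submodule.span K {w : FA K n ⊗[K] FA K n | ∃ (a : FA K n) (b : FA K n),
    ρ'.toLinearMap b = 0 ∧ w = a ⊗ₜ[K] b} := ⟨_, rfl⟩
  have hA1 : ∀ j t, t ∈ A → t * (xx K j ⊗ₜ[K] 1) - ((1 : FA K n) ⊗ₜ[K] xx K j) * t ∈ A := by
    intro j t ht
    rw [hA] at ht ⊢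
    refine Submodule.span_induction (p := fun t _ => t * (xx K j ⊗ₜ[K] 1) -
      ((1 : FA K n) ⊗ₜ[K] xx K j) * t ∈ Submodule.span K {w : FA K n ⊗[K] FA K n |
        ∃ (a : FA K n) (b : FA K n), ρ.toLinearMap a = 0 ∧ w = a ⊗ₜ[K] b}) ?_ ?_ ?_ ?_ ht
    · rintro x ⟨a, b, ha, rfl⟩
      rw [Algebra.TensorProduct.tmul_mul_tmul, Algebra.TensorProduct.tmul_mul_tmul, mul_one,
        one_mul]
      have ha' : ρ a = 0 := ha
      refine sub_mem (Submodule.subset_span ⟨_, _, ?_, rfl⟩) (Submodule.subset_span ⟨_, _, ha, rfl⟩)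
      rw [AlgHom.toLinearMap_apply, map_mul, ha', zero_mul]
    · rw [zero_mul, mul_zero, sub_zero]
      exact zero_mem _
    · intro x y _ _ hx hy
      rw [add_mul, mul_add, add_sub_add_comm]
      exact add_mem hx hy
    · intro c x _ hx
      rw [smul_mul_assoc, mul_smul_comm, ← smul_sub]
      exact Submodule.smul_mem _ c hx
  have hB1 : ∀ j t, t ∈ B → t * (xx K j ⊗ₜ[K] 1) - ((1 : FA K n) ⊗ₜ[K] xx K j) * t ∈ B := by
    intro j t ht
    rw [hB] at ht ⊢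
    refine Submodule.span_induction (p := fun t _ => t * (xx K j ⊗ₜ[K] 1) -
      ((1 : FA K n) ⊗ₜ[K] xx K j) * t ∈ Submodule.span K {w : FA K n ⊗[K] FA K n |
        ∃ (a : FA K n) (b : FA K n), ρ'.toLinearMap b = 0 ∧ w = a ⊗ₜ[K] b}) ?_ ?_ ?_ ?_ ht
    · rintro x ⟨a, b, hb, rfl⟩
      rw [Algebra.TensorProduct.tmul_mul_tmul, Algebra.TensorProduct.tmul_mul_tmul, mul_one,
        one_mul]
      have hb' : ρ' b = 0 := hb
      refine sub_mem (Submodule.subset_span ⟨_, _, hb, rfl⟩) (Submodule.subset_span ⟨_, _, ?_, rfl⟩)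
      rw [AlgHom.toLinearMap_apply, map_mul, hb', mul_zero]
    · rw [zero_mul, mul_zero, sub_zero]
      exact zero_mem _
    · intro x y _ _ hx hy
      rw [add_mul, mul_add, add_sub_add_comm]
      exact add_mem hx hy
    · intro c x _ hx
      rw [smul_mul_assoc, mul_smul_comm, ← smul_sub]
      exact Submodule.smul_mem _ c hx
  have hs := fox_sum (K := K) (n := n) z
  have hs2 : ∑ j, (α j * (xx K j ⊗ₜ[K] 1) - ((1 : FA K n) ⊗ₜ[K] xx K j) * α j) +
      ∑ j, (β j * (xx K j ⊗ₜ[K] 1) - ((1 : FA K n) ⊗ₜ[K] xx K j) * β j) =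
      z ⊗ₜ[K] 1 - 1 ⊗ₜ[K] z := by
    rw [← hs, ← Finset.sum_add_distrib]
    refine Finset.sum_congr rfl fun j _ => ?_
    rw [hαβ j, add_mul, mul_add, add_sub_add_comm]
  obtain ⟨τ, hτ⟩ : ∃ τ, τ = z ⊗ₜ[K] (1 : FA K n) -
    ∑ j, (α j * (xx K j ⊗ₜ[K] 1) - ((1 : FA K n) ⊗ₜ[K] xx K j) * α j) := ⟨_, rfl⟩
  have hτ2 : τ = (1 : FA K n) ⊗ₜ[K] z +
      ∑ j, (β j * (xx K j ⊗ₜ[K] 1) - ((1 : FA K n) ⊗ₜ[K] xx K j) * β j) := by
    have h3 : z ⊗ₜ[K] (1 : FA K n) =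
        (∑ j, (α j * (xx K j ⊗ₜ[K] 1) - ((1 : FA K n) ⊗ₜ[K] xx K j) * α j) +
        ∑ j, (β j * (xx K j ⊗ₜ[K] 1) - ((1 : FA K n) ⊗ₜ[K] xx K j) * β j)) + 1 ⊗ₜ[K] z := by
      rw [hs2, sub_add_cancel]
    rw [hτ, h3]
    abel
  have hτA : τ ∈ A := by
    rw [hτ]
    refine sub_mem ?_ (sum_mem fun j _ => hA1 j _ ?_)
    · rw [hA]
      exact Submodule.subset_span ⟨z, 1, h, rfl⟩
    · rw [hA]
      exact hα j
  have hτB : τ ∈ B := by
    rw [hτ2]
    refine add_mem ?_ (sum_mem fun j _ => hB1 j _ ?_)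
    · rw [hB]
      exact Submodule.subset_span ⟨1, z, h', rfl⟩
    · rw [hB]
      exact hβ j
  rw [hA] at hτA
  rw [hB] at hτB
  have hτC := inf_span ρ.toLinearMap ρ'.toLinearMap τ hτA hτB
  have hm : LinearMap.mul' K (FA K n) τ ∈
      LinearMap.ker ρ.toLinearMap * LinearMap.ker ρ'.toLinearMap := by
    refine Submodule.span_induction (p := fun t _ => LinearMap.mul' K (FA K n) t ∈
      LinearMap.ker ρ.toLinearMap * LinearMap.ker ρ'.toLinearMap) ?_ ?_ ?_ ?_ hτC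
    · rintro x ⟨a, b, ha, hb, rfl⟩
      rw [LinearMap.mul'_apply]
      exact Submodule.mul_mem_mul ha hb
    · rw [map_zero]
      exact zero_mem _
    · intro x y _ _ hx hy
      rw [map_add]
      exact add_mem hx hy
    · intro c x _ hx
      rw [map_smul]
      exact Submodule.smul_mem _ c hx
  have hz0 : ∀ j (t : FA K n ⊗[K] FA K n), LinearMap.mul' K (FA K n)
      (t * (xx K j ⊗ₜ[K] 1) - ((1 : FA K n) ⊗ₜ[K] xx K j) * t) = 0 := by
    intro j t
    induction t using TensorProduct.induction_on with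
    | zero => rw [zero_mul, mul_zero, sub_zero, map_zero]
    | tmul a b =>
      rw [Algebra.TensorProduct.tmul_mul_tmul, Algebra.TensorProduct.tmul_mul_tmul, mul_one,
        one_mul, map_sub, LinearMap.mul'_apply, LinearMap.mul'_apply, mul_assoc, sub_self]
    | add x y hx hy => rw [add_mul, mul_add, add_sub_add_comm, map_add, hx, hy, add_zero]
  have hz : LinearMap.mul' K (FA K n) τ = z := by
    rw [hτ, map_sub, map_sum, Finset.sum_eq_zero fun j _ => hz0 j (α j), sub_zero,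
      LinearMap.mul'_apply, mul_one]
  rw [hz] at hm
  exact hm

end Pool.Agent.H.MP_f5ceca_al.S
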