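import Pool.Agent.H.MP_f5ceca_al.S.StP
import Pool.Agent.H.MP_f5ceca_al.S.StR
import Pool.Agent.H.MP_f5ceca_al.S.StL
import Pool.Agent.H.MP_f5ceca_al.S.StE
import Pool.Agent.H.MP_f5ceca_al.E.TId

/-!
The ladder: the steps (P), (R), (L), (E) combined into one induction principle for T-ideals.
-/

namespace Pool.Agent.H.MP_f5ceca_al.S

open MvPolynomial
open Pool.Agent.H.MP_f5ceca_al.N (FA xx Com Fil Aug)
open Pool.Agent.H.MP_f5ceca_al.E (IsT isT_Fil isT_Jd)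

universe u

variable {K : Type u} [Field K] {n : ℕ}

/-- A step at `T` with the sides `S`, `S'` and the ideals `Γ q`. -/
def StepAt {O O' : Type u} [Ring O] [Algebra K O] [Ring O'] [Algebra K O'] {ρ : FA K n →ₐ[K] O}
    {ρ' : FA K n →ₐ[K] O'} (S : Side ρ) (S' : Side ρ') (T : Submodule K (FA K n))
    (Γ : ℕ → Submodule K (FA K n)) : Prop :=
  ∃ Y : Finset (FA K n), (∀ y ∈ Y, ∀ z, ρ z = 0 → z * y ∈ T) ∧
    (∀ y ∈ Y, ∀ z, ρ' z = 0 → y * z ∈ T) ∧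
    ∀ r, ∃ q, Γ q ≤ T ⊔ Xsp S S' (Y : Set (FA K n)) r

/-- A step with one of the three pairs of sides. -/
def AnyStep (S2 : Side (rho2 K n)) (T : Submodule K (FA K n))
    (Γ : ℕ → Submodule K (FA K n)) : Prop :=
  StepAt S2 S2 T Γ ∨ StepAt S2 (side1 K n) T Γ ∨ StepAt (side1 K n) S2 T Γ

section ladder

variable {T₀ : Submodule K (FA K n)} {S2 : Side (rho2 K n)}
  {P : Submodule K (FA K n) → Prop}

theorem Lad_FilJ {q q' : ℕ} (h : q ≤ q') {T : Submodule K (FA K n)}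
    (hT : Fil K n q * Jd K n ≤ T) : Fil K n q' * Jd K n ≤ T :=
  (mul_le_mul' (N.Fil_antitone K n h) le_rfl).trans hT

theorem lad_P (hS : Deep1 S2)
    (hbot : ∀ T, IsT T → T₀ ≤ T → (∃ p, Fil K n p ≤ T) → P T)
    (hstep : ∀ T Γ, IsT T → T₀ ≤ T → (∀ q, IsT (Γ q)) → AnyStep S2 T Γ →
      (∀ q, P (T ⊔ Γ q)) → P T)
    (q₀ : ℕ) (T : Submodule K (FA K n)) (hT : IsT T) (h0 : T₀ ≤ T)
    (h1 : Fil K n q₀ * Jd K n ≤ T) (h2 : Jd K n * Fil K n q₀ ≤ T) : P T := by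
  refine hstep T (fun q => Fil K n q) hT h0 isT_Fil
    (Or.inl (step_P hT.isId hS q₀ h1 h2)) fun q => ?_
  exact hbot _ (hT.sup (isT_Fil q)) (h0.trans le_sup_left) ⟨q, le_sup_right⟩

theorem lad_R [CharZero K] {m M : ℕ} (hB : Base m M T₀) (hD : Deep2 K n) (hS : Deep1 S2)
    (hF : ∃ (q : ℕ) (ν : Finset (FA K n)), (ν : Set (FA K n)) ⊆ Jd K n ∧
      Jd K n * Fil K n q ≤ tsp (ν : Set (FA K n)) ⊔ Com K n * Jd K n)
    (hbot : ∀ T, IsT T → T₀ ≤ T → (∃ p, Fil K n p ≤ T) → P T)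
    (hstep : ∀ T Γ, IsT T → T₀ ≤ T → (∀ q, IsT (Γ q)) → AnyStep S2 T Γ →
      (∀ q, P (T ⊔ Γ q)) → P T) (i : ℕ) :
    ∀ (q₀ : ℕ) (T : Submodule K (FA K n)), IsT T → T₀ ≤ T →
      Fil K n q₀ * Jd K n ≤ T → Fil K n i * Jd K n * Fil K n q₀ ≤ T → P T := by
  induction i with
  | zero =>
    intro q₀ T hT h0 h1 h2
    rw [N.Fil_zero] at h2
    refine lad_P hS hbot hstep q₀ T hT h0 h1 (le_trans ?_ h2)
    intro z hz
    refine (mul_le_mul' ?_ le_rfl : Jd K n * Fil K n q₀ ≤ ⊤ * Jd K n * Fil K n q₀) hz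
    intro w hw
    have h3 := Submodule.mul_mem_mul (Submodule.mem_top (R := K) (x := (1 : FA K n))) hw
    rwa [one_mul] at h3
  | succ i ih =>
    intro q₀ T hT h0 h1 h2
    refine hstep T (fun q => Fil K n i * Jd K n * Fil K n q) hT h0
      (fun q => ((isT_Fil i).mul isT_Jd).mul (isT_Fil q))
      (Or.inr (Or.inr (step_R (hB.mono hT.isId h0) hD hS hF i q₀ h2))) fun q => ?_
    refine ih (max q₀ q) _ (hT.sup (((isT_Fil i).mul isT_Jd).mul (isT_Fil q)))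
      (h0.trans le_sup_left) ?_ ?_
    · exact (Lad_FilJ (le_max_left q₀ q) h1).trans le_sup_left
    · exact (mul_le_mul' le_rfl (N.Fil_antitone K n (le_max_right q₀ q))).trans le_sup_right

theorem lad_L [CharZero K] {m M : ℕ} (hB : Base m M T₀) (hD : Deep2 K n) (hS : Deep1 S2)
    (hF : ∃ (q : ℕ) (ν : Finset (FA K n)), (ν : Set (FA K n)) ⊆ Jd K n ∧
      Jd K n * Fil K n q ≤ tsp (ν : Set (FA K n)) ⊔ Com K n * Jd K n)
    (hF' : ∃ (q : ℕ) (ν : Finset (FA K n)), (ν : Set (FA K n)) ⊆ Jd K n ∧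
      Fil K n q * Jd K n ≤ tsp (ν : Set (FA K n)) ⊔ Jd K n * Com K n)
    (hbot : ∀ T, IsT T → T₀ ≤ T → (∃ p, Fil K n p ≤ T) → P T)
    (hstep : ∀ T Γ, IsT T → T₀ ≤ T → (∀ q, IsT (Γ q)) → AnyStep S2 T Γ →
      (∀ q, P (T ⊔ Γ q)) → P T) (i : ℕ) :
    ∀ (q₀ : ℕ) (T : Submodule K (FA K n)), IsT T → T₀ ≤ T →
      Fil K n q₀ * Jd K n * Fil K n i ≤ T → P T := by
  induction i with
  | zero =>
    intro q₀ T hT h0 h1
    rw [N.Fil_zero] at h1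
    have h2 : Fil K n q₀ * Jd K n ≤ T := by
      intro z hz
      have h3 := Submodule.mul_mem_mul hz (Submodule.mem_top (R := K) (x := (1 : FA K n)))
      rw [mul_one] at h3
      exact h1 h3
    refine lad_R hB hD hS hF hbot hstep q₀ q₀ T hT h0 h2 ?_
    exact (mul_le_mul' h2 le_rfl).trans (Submodule.mul_le.2 fun z hz a _ => hT.right a z hz)
  | succ i ih =>
    intro q₀ T hT h0 h1
    refine hstep T (fun q => Fil K n q * Jd K n * Fil K n i) hT h0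
      (fun q => ((isT_Fil q).mul isT_Jd).mul (isT_Fil i))
      (Or.inr (Or.inl (step_L (hB.mono hT.isId h0) hD hS hF' i q₀ h1))) fun q => ?_
    exact ih q _ (hT.sup (((isT_Fil q).mul isT_Jd).mul (isT_Fil i)))
      (h0.trans le_sup_left) le_sup_right

/-- **The ladder.** -/
theorem ladder [CharZero K] {m M : ℕ} (hB : Base m M T₀) (hD : Deep2 K n) (hS : Deep1 S2)
    (hF : ∃ (q : ℕ) (ν : Finset (FA K n)), (ν : Set (FA K n)) ⊆ Jd K n ∧
      Jd K n * Fil K n q ≤ tsp (ν : Set (FA K n)) ⊔ Com K n * Jd K n)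
    (hF' : ∃ (q : ℕ) (ν : Finset (FA K n)), (ν : Set (FA K n)) ⊆ Jd K n ∧
      Fil K n q * Jd K n ≤ tsp (ν : Set (FA K n)) ⊔ Jd K n * Com K n)
    (hA : FgAug K n)
    (hF2 : ∃ (q : ℕ) (ν : Finset (FA K n)), (ν : Set (FA K n)) ⊆ Jd K n ∧
      Fil K n q * Jd K n * Fil K n q ≤ tsp (ν : Set (FA K n)) ⊔ Jd K n * Jd K n)
    (hbot : ∀ T, IsT T → T₀ ≤ T → (∃ p, Fil K n p ≤ T) → P T)
    (hstep : ∀ T Γ, IsT T → T₀ ≤ T → (∀ q, IsT (Γ q)) → AnyStep S2 T Γ →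
      (∀ q, P (T ⊔ Γ q)) → P T) (T : Submodule K (FA K n)) (hT : IsT T) (h0 : T₀ ≤ T) :
    P T := by
  refine hstep T (fun q => Fil K n q * Jd K n * Fil K n q) hT h0
    (fun q => ((isT_Fil q).mul isT_Jd).mul (isT_Fil q))
    (Or.inl (step_E (hB.mono hT.isId h0) hD hS hA hF2)) fun q => ?_
  exact lad_L hB hD hS hF hF' hbot hstep q q _
    (hT.sup (((isT_Fil q).mul isT_Jd).mul (isT_Fil q))) (h0.trans le_sup_left) le_sup_right

end ladder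

end Pool.Agent.H.MP_f5ceca_al.S
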