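import Pool.Agent.H.MP_f5ceca_al.S.Lad
import Pool.Agent.H.MP_f5ceca_al.S.CSe
import Pool.Agent.H.MP_f5ceca_al.E.Acc
import Pool.Agent.H.MP_f5ceca_al.E.Reg

/-!
T-ideals above `T₀` are finitely generated over `T₀`, hence recursively enumerable.
-/

namespace Pool.Agent.H.MP_f5ceca_al.S

open MvPolynomial
open Pool.Agent.H.MP_f5ceca_al.N (FA xx Com Fil Aug)
open Pool.Agent.H.MP_f5ceca_al.E (IsT isT_Fil isT_Jd Tg isT_Tg subset_Tg Tg_le Tg_mono bottom_fg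
  re_Tg)
open Pool.Agent.H.MP_f5ceca_al.Conv

universe u

variable {K : Type u} [Field K] {n : ℕ}

/-- Every T-ideal above `T` is generated over `T` by finitely many elements. -/
def AccAt (T : Submodule K (FA K n)) : Prop :=
  ∀ T₁ : Submodule K (FA K n), IsT T₁ → T ≤ T₁ →
    ∃ Y : Finset (FA K n), (Y : Set (FA K n)) ⊆ T₁ ∧ T₁ ≤ T ⊔ Tg (Y : Set (FA K n))

theorem acc_bot [CharZero K] {T : Submodule K (FA K n)} (h : ∃ p, Fil K n p ≤ T) : AccAt T := by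
  intro T₁ hT₁ _
  obtain ⟨p, hp⟩ := h
  obtain ⟨Y, hY, h⟩ := bottom_fg (p := p) hT₁
  refine ⟨Y, hY, h.trans ?_⟩
  rw [sup_comm]
  exact sup_le_sup_right hp _

theorem tsp_le_Tg (Y : Set (FA K n)) : tsp Y ≤ Tg Y := tsp_le (isT_Tg Y).isId (subset_Tg Y)

theorem acc_step {O O' : Type u} [Ring O] [Algebra K O] [Ring O'] [Algebra K O']
    {ρ : FA K n →ₐ[K] O} {ρ' : FA K n →ₐ[K] O'} (S : Side ρ) (S' : Side ρ')
    {T : Submodule K (FA K n)} {Γ : ℕ → Submodule K (FA K n)} (hT : IsT T)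
    (hΓ : ∀ q, IsT (Γ q)) (hst : StepAt S S' T Γ) (h : ∀ q, AccAt (T ⊔ Γ q)) : AccAt T := by
  classical
  intro T₁ hT₁ hTT₁
  obtain ⟨Y, hl, hr, hY⟩ := hst
  obtain ⟨m, Φ, hΦ, hm⟩ := sec_fg S S' hT.isId Y hl hr T₁ hT₁.isId hTT₁
  obtain ⟨q, hq⟩ := hY m
  have h1 := hm (Γ q) hq
  obtain ⟨Y', hY', h2⟩ := h q (T₁ ⊔ Γ q) (hT₁.sup (hΓ q)) (sup_le_sup_right hTT₁ _)
  have h3 : ∀ y : FA K n, ∃ y₁ : FA K n, y ∈ Y' → y₁ ∈ T₁ ∧ y - y₁ ∈ Γ q := by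
    intro y
    by_cases hy : y ∈ Y'
    · obtain ⟨y₁, hy₁, γ, hγ, e⟩ := Submodule.mem_sup.1 (hY' (Finset.mem_coe.2 hy))
      exact ⟨y₁, fun _ => ⟨hy₁, by rw [← e, add_sub_cancel_left]; exact hγ⟩⟩
    · exact ⟨0, fun h => absurd h hy⟩
  choose f hf using h3
  have hsub : ((Φ ∪ Y'.image f : Finset (FA K n)) : Set (FA K n)) ⊆ T₁ := by
    intro y hy
    rcases Finset.mem_union.1 (Finset.mem_coe.1 hy) with hy | hy
    · exact hΦ y hy
    · obtain ⟨y', hy', rfl⟩ := Finset.mem_image.1 hy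
      exact (hf y' hy').1
  refine ⟨Φ ∪ Y'.image f, hsub, ?_⟩
  set G : Submodule K (FA K n) := Tg ((Φ ∪ Y'.image f : Finset (FA K n)) : Set (FA K n)) with hG
  have hGT : IsT G := isT_Tg _
  have hG1 : G ≤ T₁ := Tg_le hT₁ hsub
  have hΦG : tsp (Φ : Set (FA K n)) ≤ G := by
    refine (tsp_le_Tg _).trans (Tg_mono ?_)
    intro y hy
    exact Finset.mem_coe.2 (Finset.mem_union_left _ (Finset.mem_coe.1 hy))
  have h4 : Tg (Y' : Set (FA K n)) ≤ Γ q ⊔ G := by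
    refine Tg_le ((hΓ q).sup hGT) ?_
    intro y hy
    have e : y = (y - f y) + f y := by rw [sub_add_cancel]
    rw [e]
    refine Submodule.add_mem_sup (hf y hy).2 (subset_Tg _ ?_)
    exact Finset.mem_coe.2 (Finset.mem_union_right _ (Finset.mem_image_of_mem f hy))
  have h5 : T₁ ≤ Γ q ⊔ (T ⊔ G) := by
    refine le_sup_left.trans (h2.trans ?_)
    refine sup_le (sup_le (le_sup_left.trans le_sup_right) le_sup_left) (h4.trans ?_)
    exact sup_le_sup_left le_sup_right _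
  have h6 : T₁ ≤ T₁ ⊓ Γ q ⊔ (T ⊔ G) := by
    intro z hz
    obtain ⟨γ, hγ, w, hw, rfl⟩ := Submodule.mem_sup.1 (h5 hz)
    refine Submodule.add_mem_sup ⟨?_, hγ⟩ hw
    have hw1 : w ∈ T₁ := (sup_le hTT₁ hG1) hw
    have := T₁.sub_mem hz hw1
    rwa [add_sub_cancel_right] at this
  refine h6.trans (sup_le (h1.trans (sup_le_sup_left hΦG _)) le_rfl)

/-- **ACC.** -/
theorem acc_all [CharZero K] {T₀ : Submodule K (FA K n)} {S2 : Side (rho2 K n)}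
    (hlad : ∀ P : Submodule K (FA K n) → Prop,
      (∀ T, IsT T → T₀ ≤ T → (∃ p, Fil K n p ≤ T) → P T) →
      (∀ T Γ, IsT T → T₀ ≤ T → (∀ q, IsT (Γ q)) → AnyStep S2 T Γ →
        (∀ q, P (T ⊔ Γ q)) → P T) → ∀ T, IsT T → T₀ ≤ T → P T)
    (hT : IsT T₀) : AccAt T₀ := by
  refine hlad AccAt (fun T _ _ h => acc_bot h) (fun T Γ hT _ hΓ hst h => ?_) T₀ hT le_rfl
  rcases hst with hst | hst | hst
  · exact acc_step _ _ hT hΓ hst h
  · exact acc_step _ _ hT hΓ hst h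
  · exact acc_step _ _ hT hΓ hst h

/-- Recursive enumerability of the T-ideals above `T₀`. -/
theorem re_of_acc (κ : CField K) {T₀ T₁ : Submodule K (FA K n)} (h : AccAt T₀)
    (hre : κ.RESub (wd K) T₀) (hT : IsT T₁) (h0 : T₀ ≤ T₁) : κ.RESub (wd K) T₁ := by
  obtain ⟨Y, hY, h1⟩ := h T₁ hT h0
  have e : T₁ = T₀ ⊔ Tg (Y : Set (FA K n)) := le_antisymm h1 (sup_le h0 (Tg_le hT hY))
  rw [e]
  refine κ.re_sup hre (re_Tg κ Y.finite_toSet) ?_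
  rw [wd_span]
  exact le_top

end Pool.Agent.H.MP_f5ceca_al.S
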