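import Pool.Agent.H.MP_f5ceca_al.S.LadAcc
import Pool.Agent.H.MP_f5ceca_al.S.AsmA
import Pool.Agent.H.MP_f5ceca_al.E.Bot
import Pool.Agent.H.MP_f5ceca_al.E.Link
import Pool.Agent.H.MP_f5ceca_al.BR.Base

/-!
Decidability: in a variety which does not contain `W` the ideals `idn S n ⊔ tsp R`, `R` finite, are
decidable.
-/

namespace Pool.Agent.H.MP_f5ceca_al.S

open MvPolynomial
open Pool.Agent.H.MP_f5ceca_al.N (FA xx Com Fil Aug idn)
open Pool.Agent.H.MP_f5ceca_al.E
open Pool.Agent.H.MP_f5ceca_al.Conv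

universe u

variable {K : Type u} [Field K] {n : ℕ}

theorem re_tsp_one (κ : CField K) (y : FA K n) : κ.RESub (wd K) (tsp {y}) := by
  obtain ⟨F, rfl⟩ := wd_exists_code κ y
  have hD : REPred fun _ : List (ℕ × List (Fin n)) × List (ℕ × List (Fin n)) => True :=
    (ComputablePred.computable_iff.2 ⟨fun _ => true, Computable.const _, by simp⟩ :
      ComputablePred fun _ : List (ℕ × List (Fin n)) × List (ℕ × List (Fin n)) => True).to_re
  have he : Computable fun j : List (ℕ × List (Fin n)) × List (ℕ × List (Fin n)) =>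
      cmul κ j.1 (cmul κ F j.2) :=
    (cmul_comp κ).comp Computable.fst ((cmul_comp κ).comp (Computable.const F) Computable.snd)
  have h := κ.re_span (wd_zero_cp κ).to_re hD he
  have e : tsp {κ.ev (wd K) F} = Submodule.span K {x | ∃ j : List (ℕ × List (Fin n)) ×
      List (ℕ × List (Fin n)), True ∧ x = κ.ev (wd K) (cmul κ j.1 (cmul κ F j.2))} := by
    unfold tsp
    congr 1
    ext z
    constructor
    · rintro ⟨a, y, b, hy, rfl⟩
      obtain ⟨P, rfl⟩ := wd_exists_code κ a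
      obtain ⟨Q, rfl⟩ := wd_exists_code κ b
      refine ⟨(P, Q), trivial, ?_⟩
      rw [Set.mem_singleton_iff.1 hy, ev_cmul, ev_cmul, mul_assoc]
    · rintro ⟨⟨P, Q⟩, -, rfl⟩
      exact ⟨κ.ev (wd K) P, κ.ev (wd K) F, κ.ev (wd K) Q, rfl, by
        rw [ev_cmul, ev_cmul, mul_assoc]⟩
  rw [e]
  exact h

theorem LadDec_union (A B : Set (FA K n)) : tsp (A ∪ B) = tsp A ⊔ tsp B := by
  apply le_antisymm
  · refine tsp_le ((tsp_id A).sup (tsp_id B)) ?_
    rintro y (hy | hy)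
    · exact Submodule.mem_sup_left (subset_tsp A hy)
    · exact Submodule.mem_sup_right (subset_tsp B hy)
  · exact sup_le (tsp_le (tsp_id _) fun y hy => subset_tsp _ (Or.inl hy))
      (tsp_le (tsp_id _) fun y hy => subset_tsp _ (Or.inr hy))

theorem LadDec_empty : tsp (∅ : Set (FA K n)) = ⊥ := by
  rw [eq_bot_iff]
  unfold tsp
  rw [Submodule.span_le]
  rintro z ⟨a, y, b, hy, rfl⟩
  exact absurd hy (Set.notMem_empty y)

theorem re_tsp (κ : CField K) {R : Set (FA K n)} (hR : R.Finite) :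
    κ.RESub (wd K) (tsp R) := by
  induction R, hR using Set.Finite.induction_on with
  | empty =>
    rw [LadDec_empty]
    exact ((wd_zero_cp κ).of_eq fun P => (Submodule.mem_bot K).symm).to_re
  | insert _ _ ih =>
    rw [Set.insert_eq, LadDec_union]
    exact κ.re_sup (re_tsp_one κ _) ih (by rw [wd_span]; exact le_top)

/-- Decidability of all ideals which are finitely generated over `T`. -/
def DecAt (κ : CField K) (T : Submodule K (FA K n)) : Prop :=
  ∀ R : Set (FA K n), R.Finite → ComputablePred fun P : List (ℕ × List (Fin n)) =>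
    κ.ev (wd K) P ∈ T ⊔ tsp R

theorem dec_step {O O' : Type u} [Ring O] [Algebra K O] [Ring O'] [Algebra K O']
    {ρ : FA K n →ₐ[K] O} {ρ' : FA K n →ₐ[K] O'} (S : Side ρ) (S' : Side ρ')
    (hM : MatRep K O) (hM' : MatRep K O') (κ : CField K)
    {T : Submodule K (FA K n)} {Γ : ℕ → Submodule K (FA K n)} (hT : IsT T)
    (hre : κ.RESub (wd K) T) (hst : StepAt S S' T Γ) (h : ∀ q, DecAt κ (T ⊔ Γ q)) :
    DecAt κ T := by
  intro R hR
  obtain ⟨Y, hl, hr, hY⟩ := hst
  obtain ⟨m, hm⟩ := sec_dec S S' hT.isId Y hl hr κ hre hM hM' (T ⊔ tsp R)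
    (hT.isId.sup (tsp_id R)) le_sup_left
    (κ.re_sup hre (re_tsp κ hR) (by rw [wd_span]; exact le_top))
  obtain ⟨q, hq⟩ := hY m
  refine hm (Γ q) hq ?_
  rw [sup_right_comm]
  exact h q R hR

/-- **Decidability.** -/
theorem dec_idn [CharZero K] (κ : CField K) {V : Set (FreeAlgebra K ℕ)}
    (hW : ¬ G.IncludesW V) (n : ℕ) {R : Set (FA K n)} (hR : R.Finite) :
    ComputablePred fun P : List (ℕ × List (Fin n)) => κ.ev (wd K) P ∈ idn V n ⊔ tsp R := by
  obtain ⟨f, hf, hfW⟩ := exists_not_wcond hW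
  obtain ⟨M, _, hE⟩ := eblock_one hfW
  obtain ⟨m, hB⟩ := BR.exists_base hE n
  obtain ⟨S2, hS⟩ := exists_side2 K n
  have hlad : ∀ T₀ : Submodule K (FA K n), IsT T₀ → idn {f} n ≤ T₀ →
      ∀ P : Submodule K (FA K n) → Prop,
      (∀ T, IsT T → T₀ ≤ T → (∃ p, Fil K n p ≤ T) → P T) →
      (∀ T Γ, IsT T → T₀ ≤ T → (∀ q, IsT (Γ q)) → AnyStep S2 T Γ →
        (∀ q, P (T ⊔ Γ q)) → P T) → ∀ T, IsT T → T₀ ≤ T → P T :=
    fun T₀ hT₀ h0 P hbot hstep T hT h1 => ladder (hB.mono hT₀.isId h0) (deep2 K n) hS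
      (fg_ab' hS) (fg_ab hS) (fgAug S2 hS) (fg_two hS) hbot hstep T hT h1
  have hacc : AccAt (idn ({f} : Set (FreeAlgebra K ℕ)) n) :=
    acc_all (hlad _ (isT_idn _) le_rfl) (isT_idn _)
  have hre : ∀ T, IsT T → idn ({f} : Set (FreeAlgebra K ℕ)) n ≤ T → κ.RESub (wd K) T :=
    fun T hT h0 => re_of_acc κ hacc (re_idn κ (Set.finite_singleton f)) hT h0
  have hsub : idn ({f} : Set (FreeAlgebra K ℕ)) n ≤ idn V n := by
    rw [idn_eq, idn_eq]
    exact TIdn_mono (Set.singleton_subset_iff.2 hf)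
  refine hlad (idn V n) (isT_idn V) hsub (DecAt κ)
    (fun T hT h0 ⟨p, hp⟩ R hR => dec_bottom κ hW hT h0 hp hR)
    (fun T Γ hT h0 _ hst h => ?_) (idn V n) (isT_idn V) le_rfl R hR
  have hreT := hre T hT (hsub.trans h0)
  rcases hst with hst | hst | hst
  · exact dec_step _ _ matRep_rho2 matRep_rho2 κ hT hreT hst h
  · exact dec_step _ _ matRep_rho2 matRep_rho1 κ hT hreT hst h
  · exact dec_step _ _ matRep_rho1 matRep_rho2 κ hT hreT hst h

end Pool.Agent.H.MP_f5ceca_al.S
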