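import Pool.Agent.H.MP_f5ceca_al.S.LadDec

/-!
The dichotomy for all varieties.
-/

namespace Pool.Agent.H.MP_f5ceca_al.S

open Pool.Agent.H.MP_f5ceca_al.N (FA xx Com Fil Aug idn)
open Pool.Agent.H.MP_f5ceca_al.E
open Pool.Agent.H.MP_f5ceca_al.Conv

universe u

/-- The dichotomy for all varieties. -/
theorem dichotomy_all {K : Type u} [Field K] [CharZero K] (κ : CField K)
    (V : Set (FreeAlgebra K ℕ)) : G.WPD κ.c V ↔ ¬ G.IncludesW V := by
  constructor
  · intro h hW
    exact G.not_wpd_of_includesW κ hW h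
  · intro hW
    apply G.wpd_of_dec
    intro k R hR
    refine (dec_idn κ hW k hR).of_eq fun P => ?_
    have htsi : G.IsTSI (idn V k) := fun a u b hu =>
      (isT_idn V).right b _ ((isT_idn V).left a _ hu)
    have h1 : G.identities V k = ((idn V k : Submodule K (FA K k)) : Set (FA K k)) := rfl
    rw [h1, G.mem_span_iff_sup htsi, Bot_tsp]
    exact Iff.rfl

end Pool.Agent.H.MP_f5ceca_al.S
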