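import Pool.Agent.H.MP_f5ceca_al.S.Defs

/-!
Definitions for the trace ring of the generic `2 × 2` matrices.
-/

namespace Pool.Agent.H.MP_f5ceca_al.S

open MvPolynomial
open Pool.Agent.H.MP_f5ceca_al.N (FA xx Com Fil Aug)

universe u

/-- The commutator. -/
def cmt {R : Type*} [Ring R] (a b : R) : R := a * b - b * a

/-- The traceless part of a `2 × 2` matrix. -/
noncomputable def tl (K : Type u) [Field K] {A : Type u} [CommRing A] [Algebra K A]
    (a : Matrix (Fin 2) (Fin 2) A) : Matrix (Fin 2) (Fin 2) A :=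
  a - (2⁻¹ : K) • (a.trace • (1 : Matrix (Fin 2) (Fin 2) A))

/-- `tr([a, b] c)` -/
noncomputable def om {A : Type u} [CommRing A] (a b c : Matrix (Fin 2) (Fin 2) A) : A :=
  (cmt a b * c).trace

/-- An alternating form in four `2 × 2` matrices. -/
noncomputable def dl {A : Type u} [CommRing A] (y : Fin 4 → Matrix (Fin 2) (Fin 2) A) : A :=
  (y 0).trace * om (y 1) (y 2) (y 3) - (y 1).trace * om (y 0) (y 2) (y 3) +
    (y 2).trace * om (y 0) (y 1) (y 3) - (y 3).trace * om (y 0) (y 1) (y 2)

/-- The alternating sum of the products of three elements. -/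
def s3 {R : Type*} [Ring R] (a b c : R) : R := a * cmt b c + b * cmt c a + c * cmt a b

/-- The alternating polynomial `∑ sgn(σ) y_{σ 0} z y_{σ 1} y_{σ 2} y_{σ 3}`. -/
def alt {R : Type*} [Ring R] (y : Fin 4 → R) (z : R) : R :=
  y 0 * z * s3 (y 1) (y 2) (y 3) - y 1 * z * s3 (y 0) (y 2) (y 3) +
    y 2 * z * s3 (y 0) (y 1) (y 3) - y 3 * z * s3 (y 0) (y 1) (y 2)

section

variable (K : Type u) [Field K] {n : ℕ}

/-- The trace of the value of an element of the free algebra. -/
noncomputable def gtr (a : FA K n) : A2 K n := (rho2 K n a).trace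

variable (n)

/-- The ring generated by the traces of the words of length at most three. -/
noncomputable def ZZ : Subalgebra K (A2 K n) :=
  Algebra.adjoin K ({t | ∃ i : Fin n, t = gtr K (xx K i)} ∪
    {t | ∃ i j : Fin n, t = gtr K (xx K i * xx K j)} ∪
    {t | ∃ i j k : Fin n, t = gtr K (xx K i * xx K j * xx K k)})

/-- The `ZZ`-module spanned by `1`, the traceless parts of the generic matrices, and their
commutators. -/
noncomputable def E2 : Submodule (ZZ K n) (Matrix (Fin 2) (Fin 2) (A2 K n)) :=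
  Submodule.span (ZZ K n) ({1} ∪ {t | ∃ i : Fin n, t = tl K (gm K i)} ∪
    {t | ∃ i j : Fin n, t = cmt (gm K i) (gm K j)})

variable {n}

/-- `tr([x_i, x_j][x_k, x_l])` -/
noncomputable def P1 (i j k l : Fin n) : A2 K n :=
  (cmt (gm K i) (gm K j) * cmt (gm K k) (gm K l)).trace

/-- `tr([x_i, x_j] x_k)` -/
noncomputable def Pz2 (i j k : Fin n) : A2 K n := (cmt (gm K i) (gm K j) * gm K k).trace

variable (n)

/-- The ideal of the reducible locus. -/
noncomputable def redI : Ideal (ZZ K n) :=
  Ideal.span {z | (∃ i j k l : Fin n, (z : A2 K n) = P1 K i j k l) ∨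
    ∃ i j k : Fin n, (z : A2 K n) = Pz2 K i j k}

/-- The conductor of `E2` into a subspace of the free algebra. -/
noncomputable def cnd (V : Submodule K (FA K n)) : Ideal (ZZ K n) where
  carrier := {z | ∀ e ∈ E2 K n, ∃ a ∈ V, rho2 K n a = z • e}
  zero_mem' := fun e _ => ⟨0, zero_mem _, by rw [map_zero, zero_smul]⟩
  add_mem' := fun {z w} hz hw e he => by
    obtain ⟨a, ha, ha'⟩ := hz e he
    obtain ⟨b, hb, hb'⟩ := hw e he
    exact ⟨a + b, add_mem ha hb, by rw [map_add, ha', hb', add_smul]⟩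
  smul_mem' := fun c z hz e he => by
    obtain ⟨a, ha, ha'⟩ := hz (c • e) (Submodule.smul_mem _ c he)
    exact ⟨a, ha, by rw [ha', smul_eq_mul, mul_comm, mul_smul]⟩

end

end Pool.Agent.H.MP_f5ceca_al.S
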