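import Pool.Agent.H.MP_f5ceca_al.S.M2Defs

/-!
Identities of `2 × 2` matrices.

PROOF of all identities: entrywise. A traceless matrix is `!![p, q; r, -p]` (write
`x = !![x 0 0, x 0 1; x 1 0, x 1 1]` by `Matrix.eta_fin_two`, and `x 1 1 = - x 0 0` from
`Matrix.trace_fin_two`); then `ext i j; fin_cases i <;> fin_cases j <;> simp [cmt, Matrix.mul_apply,
Fin.sum_univ_two, Matrix.trace_fin_two]; ring`.
-/

namespace Pool.Agent.H.MP_f5ceca_al.S

universe u

variable {A : Type u} [CommRing A]

theorem M2a_tr {x : Matrix (Fin 2) (Fin 2) A} (hx : x.trace = 0) : x 1 1 = - x 0 0 := by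
  rw [Matrix.trace_fin_two] at hx
  linear_combination hx

theorem trace_cmt (a b : Matrix (Fin 2) (Fin 2) A) : (cmt a b).trace = 0 := by
  unfold cmt
  rw [Matrix.trace_sub, Matrix.trace_mul_comm, sub_self]

theorem anti_eq (x y : Matrix (Fin 2) (Fin 2) A) (hx : x.trace = 0) (hy : y.trace = 0) :
    x * y + y * x = (x * y).trace • (1 : Matrix (Fin 2) (Fin 2) A) := by
  ext i j
  fin_cases i <;> fin_cases j <;>
    simp [Matrix.mul_apply, Fin.sum_univ_two, Matrix.trace_fin_two, M2a_tr hx, M2a_tr hy] <;> ring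

theorem cmt_cmt_eq (x y w : Matrix (Fin 2) (Fin 2) A) (hx : x.trace = 0) (hy : y.trace = 0)
    (hw : w.trace = 0) :
    cmt (cmt x y) w = (2 * (y * w).trace) • x - (2 * (x * w).trace) • y := by
  ext i j
  fin_cases i <;> fin_cases j <;>
    simp [cmt, Matrix.mul_apply, Fin.sum_univ_two, Matrix.trace_fin_two, M2a_tr hx, M2a_tr hy,
      M2a_tr hw] <;> ring

theorem tr_cmt_cmt (x y w v : Matrix (Fin 2) (Fin 2) A) (hx : x.trace = 0) (hy : y.trace = 0)
    (hw : w.trace = 0) (hv : v.trace = 0) : (cmt x y * cmt w v).trace =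
      2 * (y * w).trace * (x * v).trace - 2 * (x * w).trace * (y * v).trace := by
  simp only [cmt, Matrix.mul_apply, Matrix.sub_apply, Fin.sum_univ_two, Matrix.trace_fin_two,
    M2a_tr hx, M2a_tr hy, M2a_tr hw, M2a_tr hv]
  ring

theorem gram_eq (a b c a' b' c' : Matrix (Fin 2) (Fin 2) A) (ha : a.trace = 0) (hb : b.trace = 0)
    (hc : c.trace = 0) (ha' : a'.trace = 0) (hb' : b'.trace = 0) (hc' : c'.trace = 0) :
    om a b c * om a' b' c' = (c * a').trace * (cmt a b * cmt b' c').trace +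
      (c * b').trace * (cmt a b * cmt c' a').trace +
      (c * c').trace * (cmt a b * cmt a' b').trace := by
  simp only [om, cmt, Matrix.mul_apply, Matrix.sub_apply, Fin.sum_univ_two, Matrix.trace_fin_two,
    M2a_tr ha, M2a_tr hb, M2a_tr hc, M2a_tr ha', M2a_tr hb', M2a_tr hc']
  ring

/-- The value of the alternating polynomial. -/
theorem alt_eq (y : Fin 4 → Matrix (Fin 2) (Fin 2) A) (z : Matrix (Fin 2) (Fin 2) A)
    (hz : z.trace = 0) : alt y z = dl y • z := by
  ext i j
  fin_cases i <;> fin_cases j <;>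
    simp only [alt, s3, dl, om, cmt, Matrix.mul_apply, Matrix.sub_apply, Matrix.add_apply,
      Matrix.smul_apply, smul_eq_mul, Fin.sum_univ_two, Matrix.trace_fin_two, M2a_tr hz,
      Fin.zero_eta, Fin.mk_one, Fin.isValue] <;> ring

theorem M2a_dl4 (a b c d u : Matrix (Fin 2) (Fin 2) A) :
    ((u * a).trace * om b c d - b.trace * om (u * a) c d + c.trace * om (u * a) b d -
      d.trace * om (u * a) b c) +
    (a.trace * om (u * b) c d - (u * b).trace * om a c d + c.trace * om a (u * b) d -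
      d.trace * om a (u * b) c) +
    (a.trace * om b (u * c) d - b.trace * om a (u * c) d + (u * c).trace * om a b d -
      d.trace * om a b (u * c)) +
    (a.trace * om b c (u * d) - b.trace * om a c (u * d) + c.trace * om a b (u * d) -
      (u * d).trace * om a b c) =
    2 * u.trace * (a.trace * om b c d - b.trace * om a c d + c.trace * om a b d -
      d.trace * om a b c) := by
  simp only [om, cmt, Matrix.mul_apply, Matrix.sub_apply, Fin.sum_univ_two, Matrix.trace_fin_two]
  ring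

/-- PROOF. `Fin.sum_univ_four`, `Function.update` evaluated by `simp` (or `show` after
`Function.update_apply`), entries, `ring`. -/
theorem dl_mul (y : Fin 4 → Matrix (Fin 2) (Fin 2) A) (u : Matrix (Fin 2) (Fin 2) A) :
    ∑ i, dl (Function.update y i (u * y i)) = 2 * u.trace * dl y := by
  rw [Fin.sum_univ_four]
  exact M2a_dl4 (y 0) (y 1) (y 2) (y 3) u

theorem M2a_om_one (x y : Matrix (Fin 2) (Fin 2) A) : om 1 x y = 0 := by
  unfold om cmt
  rw [one_mul, mul_one, sub_self, zero_mul, Matrix.trace_zero]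

theorem dl_special (a b c d : Matrix (Fin 2) (Fin 2) A) :
    dl ![1, a, b, cmt c d] = 2 * (cmt a b * cmt c d).trace := by
  change (1 : Matrix (Fin 2) (Fin 2) A).trace * om a b (cmt c d) - a.trace * om 1 b (cmt c d) +
    b.trace * om 1 a (cmt c d) - (cmt c d).trace * om 1 a b = _
  rw [M2a_om_one, M2a_om_one, M2a_om_one, Matrix.trace_one, Fintype.card_fin, Nat.cast_ofNat]
  unfold om
  ring

/-- The cyclic identity. PROOF. `cmt (cmt x y) w + cmt (cmt y w) x + cmt (cmt w x) y = 0` and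
`tr(cmt p w * v) = tr(p * cmt w v)`. -/
theorem bianchi_eq (x y w v : Matrix (Fin 2) (Fin 2) A) :
    (cmt x y * cmt w v).trace + (cmt y w * cmt x v).trace + (cmt w x * cmt y v).trace = 0 := by
  simp only [cmt, Matrix.mul_apply, Matrix.sub_apply, Fin.sum_univ_two, Matrix.trace_fin_two]
  ring

variable {K : Type u} [Field K] [CharZero K] [Algebra K A]

theorem M2a_cmt_smul (s t : A) (a b : Matrix (Fin 2) (Fin 2) A) :
    cmt (a - s • (1 : Matrix (Fin 2) (Fin 2) A)) (b - t • (1 : Matrix (Fin 2) (Fin 2) A)) =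
      cmt a b := by
  unfold cmt
  simp only [sub_mul, mul_sub, smul_mul_assoc, mul_smul_comm, one_mul, mul_one, smul_sub]
  rw [smul_comm s t (1 : Matrix (Fin 2) (Fin 2) A)]
  abel

omit [CharZero K] in
theorem M2a_tl (a : Matrix (Fin 2) (Fin 2) A) :
    tl K a = a - ((2⁻¹ : K) • a.trace) • (1 : Matrix (Fin 2) (Fin 2) A) := by
  unfold tl
  rw [smul_assoc]

theorem trace_tl (a : Matrix (Fin 2) (Fin 2) A) : (tl K a).trace = 0 := by
  unfold tl
  rw [Matrix.trace_sub, Matrix.trace_smul, Matrix.trace_smul, Matrix.trace_one, smul_eq_mul,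
    Fintype.card_fin]
  have h : (2⁻¹ : K) • (a.trace * ((2 : ℕ) : A)) = a.trace := by
    have h2 : ((2 : ℕ) : A) = algebraMap K A 2 := by
      rw [Nat.cast_ofNat, map_ofNat]
    rw [h2, Algebra.smul_def, mul_comm (a.trace), ← mul_assoc, ← map_mul,
      inv_mul_cancel₀ (two_ne_zero), map_one, one_mul]
  rw [h, sub_self]

omit [CharZero K] in
theorem cmt_tl (a b : Matrix (Fin 2) (Fin 2) A) : cmt (tl K a) (tl K b) = cmt a b := by
  rw [M2a_tl, M2a_tl, M2a_cmt_smul]

omit [CharZero K] in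
theorem cmt_tl_left (a b : Matrix (Fin 2) (Fin 2) A) : cmt (tl K a) b = cmt a b := by
  have h := M2a_cmt_smul ((2⁻¹ : K) • a.trace) 0 a b
  rw [zero_smul, sub_zero] at h
  rw [M2a_tl, h]

omit [CharZero K] in
theorem tr_cmt_tl (a b c : Matrix (Fin 2) (Fin 2) A) :
    (cmt a b * tl K c).trace = (cmt a b * c).trace := by
  unfold tl
  rw [mul_sub, Matrix.trace_sub, mul_smul_comm, mul_smul_comm, mul_one, Matrix.trace_smul,
    Matrix.trace_smul, trace_cmt, smul_zero, smul_zero, sub_zero]

omit [CharZero K] in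
theorem eq_tl_add (a : Matrix (Fin 2) (Fin 2) A) :
    a = tl K a + (2⁻¹ : K) • (a.trace • (1 : Matrix (Fin 2) (Fin 2) A)) := by
  unfold tl
  rw [sub_add_cancel]

/-- PROOF. Expand; `tr 1 = 2`. -/
theorem tr_tl_mul_tl (a b : Matrix (Fin 2) (Fin 2) A) :
    (tl K a * tl K b).trace = (a * b).trace - (2⁻¹ : K) • (a.trace * b.trace) := by
  have h1 := trace_tl (K := K) b
  have h2 : (tl K a * tl K b).trace = (a * tl K b).trace := by
    rw [show tl K a = a - (2⁻¹ : K) • (a.trace • (1 : Matrix (Fin 2) (Fin 2) A)) from rfl,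
      sub_mul, Matrix.trace_sub, smul_mul_assoc, smul_mul_assoc, one_mul, Matrix.trace_smul,
      Matrix.trace_smul, h1, smul_zero, smul_zero, sub_zero]
  rw [h2, show tl K b = b - (2⁻¹ : K) • (b.trace • (1 : Matrix (Fin 2) (Fin 2) A)) from rfl,
    mul_sub, Matrix.trace_sub, mul_smul_comm, mul_smul_comm, mul_one, Matrix.trace_smul,
    Matrix.trace_smul, smul_eq_mul, mul_comm b.trace]

end Pool.Agent.H.MP_f5ceca_al.S
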