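import Pool.Agent.H.MP_f5ceca_al.S.M2a

/-!
The module `E2` is a ring which contains the image of `rho2`; its traces lie in `ZZ`.
-/

namespace Pool.Agent.H.MP_f5ceca_al.S

open MvPolynomial
open Pool.Agent.H.MP_f5ceca_al.N (FA xx Com Fil Aug)

universe u

variable (K : Type u) [Field K] {n : ℕ}

theorem rho2_xx (i : Fin n) : rho2 K n (xx K i) = gm K i := by
  simp [rho2, xx]

/-- PROOF. The right side is a generator of `ZZ` (`Algebra.subset_adjoin`), with `rho2_xx`. -/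
theorem gtr_one_mem (i : Fin n) : (gm K i).trace ∈ ZZ K n :=
  Algebra.subset_adjoin (Or.inl (Or.inl ⟨i, by unfold gtr; rw [rho2_xx]⟩))

theorem gtr_two_mem (i j : Fin n) : (gm K i * gm K j).trace ∈ ZZ K n :=
  Algebra.subset_adjoin (Or.inl (Or.inr ⟨i, j, by unfold gtr; rw [map_mul, rho2_xx, rho2_xx]⟩))

theorem gtr_three_mem (i j k : Fin n) : (gm K i * gm K j * gm K k).trace ∈ ZZ K n :=
  Algebra.subset_adjoin (Or.inr ⟨i, j, k, by
    unfold gtr
    rw [map_mul, map_mul, rho2_xx, rho2_xx, rho2_xx]⟩)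

theorem M2b_smulK (c : K) {e : Matrix (Fin 2) (Fin 2) (A2 K n)} (he : e ∈ E2 K n) :
    c • e ∈ E2 K n := by
  have h := Submodule.smul_mem (E2 K n) (algebraMap K (ZZ K n) c) he
  rw [algebraMap_smul] at h
  exact h

theorem M2b_smulZ {t : A2 K n} (ht : t ∈ ZZ K n) {e : Matrix (Fin 2) (Fin 2) (A2 K n)}
    (he : e ∈ E2 K n) : t • e ∈ E2 K n :=
  Submodule.smul_mem (E2 K n) (⟨t, ht⟩ : ZZ K n) he

theorem M2b_two : (2 : A2 K n) ∈ ZZ K n := ofNat_mem (ZZ K n) 2

theorem M2b_one : (1 : Matrix (Fin 2) (Fin 2) (A2 K n)) ∈ E2 K n :=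
  Submodule.subset_span (Or.inl (Or.inl rfl))

theorem M2b_yy (i : Fin n) : tl K (gm K i) ∈ E2 K n :=
  Submodule.subset_span (Or.inl (Or.inr ⟨i, rfl⟩))

theorem M2b_cm (i j : Fin n) : cmt (gm K i) (gm K j) ∈ E2 K n :=
  Submodule.subset_span (Or.inr ⟨i, j, rfl⟩)

variable [CharZero K]

/-- PROOF. `tr_tl_mul_tl`. -/
theorem tr_yy_mem (i j : Fin n) : (tl K (gm K i) * tl K (gm K j)).trace ∈ ZZ K n := by
  rw [tr_tl_mul_tl]
  exact sub_mem (gtr_two_mem K i j)
    (Subalgebra.smul_mem _ (mul_mem (gtr_one_mem K i) (gtr_one_mem K j)) _)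

omit [CharZero K] in
/-- PROOF. Expand the commutator, `gtr_three_mem`. -/
theorem P2_mem (i j k : Fin n) : Pz2 K i j k ∈ ZZ K n := by
  unfold Pz2 cmt
  rw [sub_mul, Matrix.trace_sub]
  exact sub_mem (gtr_three_mem K i j k) (gtr_three_mem K j i k)

/-- PROOF. `cmt_tl` (twice), `tr_cmt_cmt` for the traceless parts, `tr_yy_mem`. -/
theorem P1_mem (i j k l : Fin n) : P1 K i j k l ∈ ZZ K n := by
  unfold P1
  rw [← cmt_tl (K := K) (gm K i) (gm K j), ← cmt_tl (K := K) (gm K k) (gm K l),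
    tr_cmt_cmt _ _ _ _ (trace_tl _) (trace_tl _) (trace_tl _) (trace_tl _)]
  exact sub_mem (mul_mem (mul_mem (M2b_two K) (tr_yy_mem K j k)) (tr_yy_mem K i l))
    (mul_mem (mul_mem (M2b_two K) (tr_yy_mem K i k)) (tr_yy_mem K j l))

theorem M2b_half {A : Type u} [CommRing A] [Algebra K A] (x y : Matrix (Fin 2) (Fin 2) A)
    (hx : x.trace = 0) (hy : y.trace = 0) :
    x * y = (2⁻¹ : K) • ((x * y).trace • (1 : Matrix (Fin 2) (Fin 2) A) + cmt x y) := by
  rw [← anti_eq x y hx hy]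
  have h : x * y + y * x + cmt x y = (2 : K) • (x * y) := by
    rw [two_smul]
    unfold cmt
    abel
  rw [h, smul_smul, inv_mul_cancel₀ two_ne_zero, one_smul]

/-- PROOF. `Submodule.span_induction`. `1 * y_k = y_k`. `y_i * y_k = (1/2) tr(y_i y_k) + (1/2) [g_i, g_k]`
by `anti_eq` and `cmt_tl`. `[g_i, g_j] * y_k = (1/2) tr([g_i, g_j] y_k) + (1/2) cmt (cmt y_i y_j) y_k` with
`anti_eq` (`trace_cmt`, `trace_tl`), `cmt_tl`, `cmt_cmt_eq`, `tr_cmt_tl`. All scalars are in `ZZ` by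
`tr_yy_mem`, `P2_mem`; an element `t • e` with `t ∈ ZZ`, `e ∈ E2` is in `E2` (`Submodule.smul_mem` with
`⟨t, ht⟩ : ZZ K n`; scalars `(2⁻¹ : K)`: `Subalgebra.algebraMap_mem` or `Subalgebra.smul_mem`). -/
theorem E2_mul_yy {e : Matrix (Fin 2) (Fin 2) (A2 K n)} (he : e ∈ E2 K n) (k : Fin n) :
    e * tl K (gm K k) ∈ E2 K n := by
  refine Submodule.span_induction (p := fun e _ => e * tl K (gm K k) ∈ E2 K n) ?_ ?_ ?_ ?_ he
  · rintro x ((hx | ⟨i, rfl⟩) | ⟨i, j, rfl⟩)
    · have hx1 : x = 1 := hx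
      rw [hx1, one_mul]
      exact M2b_yy K k
    · rw [M2b_half K _ _ (trace_tl _) (trace_tl _)]
      refine M2b_smulK K _ (add_mem (M2b_smulZ K (tr_yy_mem K i k) (M2b_one K)) ?_)
      rw [cmt_tl]
      exact M2b_cm K i k
    · rw [M2b_half K _ _ (trace_cmt _ _) (trace_tl _)]
      refine M2b_smulK K _ (add_mem (M2b_smulZ K ?_ (M2b_one K)) ?_)
      · rw [tr_cmt_tl]
        exact P2_mem K i j k
      · rw [← cmt_tl (K := K) (gm K i) (gm K j),
          cmt_cmt_eq _ _ _ (trace_tl _) (trace_tl _) (trace_tl _)]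
        exact sub_mem (M2b_smulZ K (mul_mem (M2b_two K) (tr_yy_mem K j k)) (M2b_yy K i))
          (M2b_smulZ K (mul_mem (M2b_two K) (tr_yy_mem K i k)) (M2b_yy K j))
  · show (0 : Matrix (Fin 2) (Fin 2) (A2 K n)) * tl K (gm K k) ∈ E2 K n
    rw [zero_mul]
    exact zero_mem _
  · intro x y _ _ hx hy
    show (x + y) * tl K (gm K k) ∈ E2 K n
    rw [add_mul]
    exact add_mem hx hy
  · intro a x _ hx
    show (a • x) * tl K (gm K k) ∈ E2 K n
    rw [smul_mul_assoc]
    exact Submodule.smul_mem _ a hx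

/-- PROOF. Induction on the second factor (`Submodule.span_induction`): `1`; `y_k`: `E2_mul_yy`;
`[g_i, g_j] = [y_i, y_j] = y_i y_j - y_j y_i`: `E2_mul_yy` twice. Scalars come out: `e * (z • e') = z • (e * e')`. -/
theorem E2_mul {e e' : Matrix (Fin 2) (Fin 2) (A2 K n)} (he : e ∈ E2 K n) (he' : e' ∈ E2 K n) :
    e * e' ∈ E2 K n := by
  refine Submodule.span_induction (p := fun e' _ => e * e' ∈ E2 K n) ?_ ?_ ?_ ?_ he'
  · rintro x ((hx | ⟨i, rfl⟩) | ⟨i, j, rfl⟩)
    · have hx1 : x = 1 := hx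
      rw [hx1, mul_one]
      exact he
    · exact E2_mul_yy K he i
    · rw [← cmt_tl (K := K) (gm K i) (gm K j)]
      unfold cmt
      rw [mul_sub, ← mul_assoc, ← mul_assoc]
      exact sub_mem (E2_mul_yy K (E2_mul_yy K he i) j) (E2_mul_yy K (E2_mul_yy K he j) i)
  · show e * 0 ∈ E2 K n
    rw [mul_zero]
    exact zero_mem _
  · intro x y _ _ hx hy
    show e * (x + y) ∈ E2 K n
    rw [mul_add]
    exact add_mem hx hy
  · intro a x _ hx
    show e * (a • x) ∈ E2 K n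
    rw [mul_smul_comm]
    exact Submodule.smul_mem _ a hx

omit [CharZero K] in
theorem one_mem_E2 : (1 : Matrix (Fin 2) (Fin 2) (A2 K n)) ∈ E2 K n :=
  Submodule.subset_span (Or.inl (Or.inl rfl))

/-- PROOF. `FreeAlgebra.induction`; letters: `rho2_xx`, `eq_tl_add`; products: `E2_mul`. -/
theorem rho2_mem_E2 (a : FA K n) : rho2 K n a ∈ E2 K n := by
  induction a using FreeAlgebra.induction with
  | grade0 r =>
    rw [AlgHom.commutes, Algebra.algebraMap_eq_smul_one]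
    exact M2b_smulK K r (M2b_one K)
  | grade1 i =>
    have h1 : rho2 K n (FreeAlgebra.ι K i) = gm K i := rho2_xx K i
    rw [h1, eq_tl_add (K := K) (gm K i)]
    exact add_mem (M2b_yy K i) (M2b_smulK K _ (M2b_smulZ K (gtr_one_mem K i) (M2b_one K)))
  | mul a b ha hb =>
    rw [map_mul]
    exact E2_mul K ha hb
  | add a b ha hb =>
    rw [map_add]
    exact add_mem ha hb

/-- PROOF. `Submodule.span_induction` for `he`; `tr 1 = 2`, `trace_tl`, `trace_cmt`. -/
theorem trace_mem_ZZ {e : Matrix (Fin 2) (Fin 2) (A2 K n)} (he : e ∈ E2 K n) :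
    e.trace ∈ ZZ K n := by
  refine Submodule.span_induction (p := fun e _ => e.trace ∈ ZZ K n) ?_ ?_ ?_ ?_ he
  · rintro x ((hx | ⟨i, rfl⟩) | ⟨i, j, rfl⟩)
    · have hx1 : x = 1 := hx
      rw [hx1, Matrix.trace_one, Fintype.card_fin]
      exact natCast_mem (ZZ K n) 2
    · rw [trace_tl]
      exact zero_mem _
    · rw [trace_cmt]
      exact zero_mem _
  · rw [Matrix.trace_zero]
    exact zero_mem _
  · intro x y _ _ hx hy
    show (x + y).trace ∈ ZZ K n
    rw [Matrix.trace_add]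
    exact add_mem hx hy
  · intro a x _ hx
    show (a • x).trace ∈ ZZ K n
    rw [Matrix.trace_smul]
    exact mul_mem a.2 hx

omit [CharZero K] in
/-- The ring `ZZ` is noetherian. PROOF. It is generated by a finite set (finite unions of ranges of
functions on finite types): `Subalgebra.FG`, `Subalgebra.fg_iff_finiteType`,
`Algebra.FiniteType.isNoetherianRing K _`. -/
theorem ZZ_noeth : IsNoetherianRing (ZZ K n) := by
  have h1 : (ZZ K n).FG := by
    refine Subalgebra.fg_def.2 ⟨_, ?_, rfl⟩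
    refine Set.Finite.union (Set.Finite.union ?_ ?_) ?_
    · exact (Set.finite_range (fun i : Fin n => gtr K (xx K i))).subset
        (by rintro t ⟨i, rfl⟩; exact ⟨i, rfl⟩)
    · exact (Set.finite_range (fun p : Fin n × Fin n => gtr K (xx K p.1 * xx K p.2))).subset
        (by rintro t ⟨i, j, rfl⟩; exact ⟨(i, j), rfl⟩)
    · exact (Set.finite_range (fun p : Fin n × Fin n × Fin n =>
        gtr K (xx K p.1 * xx K p.2.1 * xx K p.2.2))).subset
        (by rintro t ⟨i, j, k, rfl⟩; exact ⟨(i, j, k), rfl⟩)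
  have h2 : Algebra.FiniteType K (ZZ K n) := (Subalgebra.fg_iff_finiteType _).1 h1
  exact Algebra.FiniteType.isNoetherianRing K _

end Pool.Agent.H.MP_f5ceca_al.S
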