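import Pool.Agent.H.MP_f5ceca_al.S.M2b

/-!
The conductor: products of two elements `P1` are in `cnd (Com)`.
-/

namespace Pool.Agent.H.MP_f5ceca_al.S

open MvPolynomial
open Pool.Agent.H.MP_f5ceca_al.N (FA xx Com Fil Aug)

universe u

variable (K : Type u) [Field K] [CharZero K] (n : ℕ)

/-- The span of the values of the alternating form on the image of `rho2`. -/
noncomputable def DL : Submodule K (A2 K n) :=
  Submodule.span K {w | ∃ y : Fin 4 → FA K n, w = dl fun k => rho2 K n (y k)}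

variable {n}

theorem M2c_half : (2⁻¹ : K) • (2 : A2 K n) = 1 := by
  rw [Algebra.smul_def, ← map_ofNat (algebraMap K (A2 K n)) 2, ← map_mul,
    inv_mul_cancel₀ (two_ne_zero), map_one]

omit [CharZero K] in
theorem M2c_cmt (i j : Fin n) : rho2 K n (cmt (xx K i) (xx K j)) = cmt (gm K i) (gm K j) := by
  unfold cmt
  rw [map_sub, map_mul, map_mul, rho2_xx, rho2_xx]

/-- Multiplication by a trace. PROOF. Span induction; for `w = dl (rho2 ∘ y)` use `dl_mul` with
`u = rho2 a`: `gtr a * w = (2⁻¹ : K) • ∑ i, dl (rho2 ∘ Function.update y i (a * y i))` (rewrite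
`fun k => rho2 (Function.update y i (a * y i) k)` as `Function.update (rho2 ∘ y) i (rho2 a * rho2 (y i))`,
`Function.comp_update` / `Function.apply_update`). -/
theorem DL_gtr {w : A2 K n} (hw : w ∈ DL K n) (a : FA K n) : gtr K a * w ∈ DL K n := by
  unfold DL at hw ⊢
  induction hw using Submodule.span_induction with
  | mem w hw =>
    obtain ⟨y, rfl⟩ := hw
    have h := dl_mul (fun k => rho2 K n (y k)) (rho2 K n a)
    have h2 : ∀ i : Fin 4, Function.update (fun k => rho2 K n (y k)) i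
        (rho2 K n a * rho2 K n (y i)) = fun k => rho2 K n (Function.update y i (a * y i) k) := by
      intro i
      funext k
      by_cases hk : k = i
      · subst hk
        rw [Function.update_self, Function.update_self, map_mul]
      · rw [Function.update_of_ne hk, Function.update_of_ne hk]
    have h3 : gtr K a * dl (fun k => rho2 K n (y k)) =
        (2⁻¹ : K) • ∑ i, dl (fun k => rho2 K n (Function.update y i (a * y i) k)) := by
      rw [← Finset.sum_congr rfl fun i _ => congrArg dl (h2 i), h, mul_assoc, ← smul_mul_assoc,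
        M2c_half, one_mul]
      rfl
    rw [h3]
    exact Submodule.smul_mem _ _ (Submodule.sum_mem _ fun i _ =>
      Submodule.subset_span ⟨_, rfl⟩)
  | zero => rw [mul_zero]; exact zero_mem _
  | add x y _ _ hx hy => rw [mul_add]; exact add_mem hx hy
  | smul c x _ hx => rw [mul_smul_comm]; exact Submodule.smul_mem _ c hx

/-- PROOF. `Algebra.adjoin_induction` on `z ∈ ZZ` (for all `w`): the generators are of the form `gtr K a`:
`DL_gtr`; scalars `algebraMap K _ r * w = r • w`; sums, products. -/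
theorem DL_mul {z w : A2 K n} (hz : z ∈ ZZ K n) (hw : w ∈ DL K n) : z * w ∈ DL K n := by
  unfold ZZ at hz
  induction hz using Algebra.adjoin_induction generalizing w with
  | mem z hz =>
    rcases hz with (⟨i, rfl⟩ | ⟨i, j, rfl⟩) | ⟨i, j, k, rfl⟩
    · exact DL_gtr K hw _
    · exact DL_gtr K hw _
    · exact DL_gtr K hw _
  | algebraMap r => rw [← Algebra.smul_def]; exact Submodule.smul_mem _ r hw
  | add x y _ _ hx hy => rw [add_mul]; exact add_mem (hx hw) (hy hw)
  | mul x y _ _ hx hy => rw [mul_assoc]; exact hx (hy hw)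

omit [CharZero K] in
/-- PROOF. Unfold `alt`, `s3`, `cmt`; `map_add`, `map_mul`, `map_sub`. -/
theorem map_alt (y : Fin 4 → FA K n) (z : FA K n) :
    rho2 K n (alt y z) = alt (fun k => rho2 K n (y k)) (rho2 K n z) := by
  simp only [alt, s3, cmt, map_add, map_sub, map_mul]

omit [CharZero K] in
/-- PROOF. `z ∈ Com`, `N.Com_left`, `N.Com_right` for every term. -/
theorem alt_mem_Com (y : Fin 4 → FA K n) {z : FA K n} (hz : z ∈ Com K n) :
    alt y z ∈ Com K n := by
  have h : ∀ a b : FA K n, a * z * b ∈ Com K n := fun a b =>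
    N.Com_right K b (N.Com_left K a hz)
  exact sub_mem (add_mem (sub_mem (h _ _) (h _ _)) (h _ _)) (h _ _)

omit [CharZero K] in
theorem cmt_xx_mem (i j : Fin n) : cmt (xx K i) (xx K j) ∈ Com K n :=
  Submodule.subset_span ⟨1, 1, xx K i, xx K j, by rw [one_mul, mul_one]; rfl⟩

omit [CharZero K] in
/-- PROOF. Span induction on `w ∈ DL`: for `w = dl (rho2 ∘ y)` take `a = alt y (cmt (xx K i) (xx K j))`,
`map_alt`, `alt_eq` (`rho2 (cmt (xx K i) (xx K j)) = cmt (gm K i) (gm K j)` has trace zero by `trace_cmt`). -/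
theorem DL_lift {w : A2 K n} (hw : w ∈ DL K n) (i j : Fin n) :
    ∃ a ∈ Com K n, rho2 K n a = w • cmt (gm K i) (gm K j) := by
  unfold DL at hw
  induction hw using Submodule.span_induction with
  | mem w hw =>
    obtain ⟨y, rfl⟩ := hw
    refine ⟨alt y (cmt (xx K i) (xx K j)), alt_mem_Com K y (cmt_xx_mem K i j), ?_⟩
    rw [map_alt, M2c_cmt, alt_eq _ _ (trace_cmt _ _)]
  | zero => exact ⟨0, zero_mem _, by rw [map_zero, zero_smul]⟩
  | add x y _ _ hx hy =>
    obtain ⟨a, ha, ha'⟩ := hx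
    obtain ⟨b, hb, hb'⟩ := hy
    exact ⟨a + b, add_mem ha hb, by rw [map_add, ha', hb', add_smul]⟩
  | smul c x _ hx =>
    obtain ⟨a, ha, ha'⟩ := hx
    exact ⟨c • a, Submodule.smul_mem _ c ha, by rw [map_smul, ha', smul_assoc]⟩

/-- PROOF. `dl_special` for `y = ![1, x_i, x_j, cmt x_k x_l]`, `rho2_xx`; `DL_mul`. -/
theorem P1_mul_mem_DL {z : A2 K n} (hz : z ∈ ZZ K n) (i j k l : Fin n) :
    z * P1 K i j k l ∈ DL K n := by
  refine DL_mul K hz ?_
  have h1 : P1 K i j k l = (2⁻¹ : K) • dl ![1, gm K i, gm K j, cmt (gm K k) (gm K l)] := by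
    rw [dl_special, ← smul_mul_assoc, M2c_half, one_mul]
    rfl
  rw [h1]
  refine Submodule.smul_mem _ _ (Submodule.subset_span
    ⟨![1, xx K i, xx K j, cmt (xx K k) (xx K l)], ?_⟩)
  congr 1
  funext a
  fin_cases a
  · exact (map_one _).symm
  · exact (rho2_xx K i).symm
  · exact (rho2_xx K j).symm
  · exact (M2c_cmt K k l).symm

/-- PROOF. Let `w ∈ DL`, `C₁ = cmt (gm K i') (gm K j')`, `C₂ = cmt (gm K k') (gm K l')`. By `anti_eq`,
`(w * P1 K i' j' k' l') • 1 = (w • C₁) * C₂ + C₂ * (w • C₁)`; take `a₁ ∈ Com` over `w • C₁` (`DL_lift`) and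
`a = a₁ * c₂ + c₂ * a₁`, `c₂ = cmt (xx K k') (xx K l')`. -/
theorem DL_one {w : A2 K n} (hw : w ∈ DL K n) (i' j' k' l' : Fin n) :
    ∃ a ∈ Com K n, rho2 K n a =
      (w * P1 K i' j' k' l') • (1 : Matrix (Fin 2) (Fin 2) (A2 K n)) := by
  obtain ⟨a, ha, ha'⟩ := DL_lift K hw i' j'
  refine ⟨a * cmt (xx K k') (xx K l') + cmt (xx K k') (xx K l') * a,
    add_mem (N.Com_right K _ ha) (N.Com_left K _ ha), ?_⟩
  rw [map_add, map_mul, map_mul, ha', M2c_cmt, smul_mul_assoc, mul_smul_comm, ← smul_add,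
    anti_eq _ _ (trace_cmt _ _) (trace_cmt _ _), smul_smul]
  rfl

/-- **Conductor.** PROOF. Let `P = P1 K i j k l`, `P' = P1 K i' j' k' l'`. Show for every `e ∈ E2` and every
`c ∈ ZZ`: `(c * P * P') • e` is in the image of `Com`; by span induction on `e` (the statement for all `c` at
once, so that scalars of `ZZ` are absorbed) it is enough to treat the generators of `E2`. With
`w = c * P ∈ DL` (`P1_mul_mem_DL`): `e = 1`: `DL_one`. `e = [g_m, g_p]`: multiply the lift `a` of
`(w * P') • 1` by `cmt x_m x_p` (`Com_right`). `e = y_m = g_m - (1/2) tr(g_m)`: `a * x_m - (1/2) a'`, where `a'` is the lift for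
`tr(g_m) * w ∈ DL` (`DL_mul`, `gtr_one_mem`). -/
theorem cnd_P1 (z : ZZ K n) (i j k l i' j' k' l' : Fin n)
    (hz : (z : A2 K n) = P1 K i j k l * P1 K i' j' k' l') : z ∈ cnd K n (Com K n) := by
  have key : ∀ e ∈ E2 K n, ∀ c ∈ ZZ K n, ∃ a ∈ Com K n,
      rho2 K n a = (c * P1 K i j k l * P1 K i' j' k' l') • e := by
    intro e he
    unfold E2 at he
    induction he using Submodule.span_induction with
    | mem e he =>
      intro c hc
      have hw := P1_mul_mem_DL K hc i j k l
      obtain ⟨a, ha, ha'⟩ := DL_one K hw i' j' k' l'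
      rcases he with (he | ⟨m, rfl⟩) | ⟨m, p, rfl⟩
      · rw [Set.mem_singleton_iff] at he
        subst he
        exact ⟨a, ha, ha'⟩
      · obtain ⟨b, hb, hb'⟩ := DL_one K (DL_mul K (gtr_one_mem K m) hw) i' j' k' l'
        refine ⟨a * xx K m - (2⁻¹ : K) • b, sub_mem (N.Com_right K _ ha)
          (Submodule.smul_mem _ _ hb), ?_⟩
        rw [map_sub, map_mul, map_smul, ha', hb', rho2_xx, smul_mul_assoc, one_mul]
        unfold tl
        have e1 : (gm K m).trace * (c * P1 K i j k l) * P1 K i' j' k' l' =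
          c * P1 K i j k l * P1 K i' j' k' l' * (gm K m).trace := by ring
        rw [smul_sub, smul_comm _ (2⁻¹ : K), smul_smul, e1]
      · refine ⟨a * cmt (xx K m) (xx K p), N.Com_right K _ ha, ?_⟩
        rw [map_mul, ha', M2c_cmt, smul_mul_assoc, one_mul]
    | zero => exact fun c _ => ⟨0, zero_mem _, by rw [map_zero, smul_zero]⟩
    | add x y _ _ hx hy =>
      intro c hc
      obtain ⟨a, ha, ha'⟩ := hx c hc
      obtain ⟨b, hb, hb'⟩ := hy c hc
      exact ⟨a + b, add_mem ha hb, by rw [map_add, ha', hb', smul_add]⟩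
    | smul r x _ hx =>
      intro c hc
      obtain ⟨a, ha, ha'⟩ := hx (c * r) (mul_mem hc r.2)
      refine ⟨a, ha, ?_⟩
      have e1 : c * (r : A2 K n) * P1 K i j k l * P1 K i' j' k' l' =
        c * P1 K i j k l * P1 K i' j' k' l' * (r : A2 K n) := by ring
      rw [ha', Subalgebra.smul_def, smul_smul, e1]
  intro e he
  obtain ⟨a, ha, ha'⟩ := key e he 1 (one_mem _)
  exact ⟨a, ha, by rw [ha', one_mul, ← hz]; rfl⟩

end Pool.Agent.H.MP_f5ceca_al.S
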