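import Pool.Agent.H.MP_f5ceca_al.S.M2c

/-!
The ideal `redI` is contained in the radical of the conductor.
-/

namespace Pool.Agent.H.MP_f5ceca_al.S

open MvPolynomial
open Pool.Agent.H.MP_f5ceca_al.N (FA xx Com Fil Aug)

universe u

variable (K : Type u) [Field K] [CharZero K] (n : ℕ)

/-- The element `P1` of the ring `ZZ`. -/
noncomputable def Q1 {n : ℕ} (i j k l : Fin n) : ZZ K n := ⟨P1 K i j k l, P1_mem K i j k l⟩

/-- The element `Pz2` of the ring `ZZ`. -/
noncomputable def Q2 {n : ℕ} (i j k : Fin n) : ZZ K n := ⟨Pz2 K i j k, P2_mem K i j k⟩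

/-- The square of `Pz2` is a combination of elements `P1`.

PROOF. `Pz2 K i j k = om y_i y_j y_k` with `y = tl K (gm K ·)` (`cmt_tl`, `tr_cmt_tl`); `gram_eq` with
`(a, b, c) = (a', b', c') = (y_i, y_j, y_k)`, `cmt_tl`; the coefficients are in `ZZ` by `tr_yy_mem`. -/
theorem Q2_sq {n : ℕ} (i j k : Fin n) : Q2 K i j k * Q2 K i j k ∈
    Ideal.span {z : ZZ K n | ∃ i j k l : Fin n, z = Q1 K i j k l} := by
  have key : Pz2 K i j k * Pz2 K i j k =
      (tl K (gm K k) * tl K (gm K i)).trace * P1 K i j j k +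
      (tl K (gm K k) * tl K (gm K j)).trace * P1 K i j k i +
      (tl K (gm K k) * tl K (gm K k)).trace * P1 K i j i j := by
    have h2 : om (tl K (gm K i)) (tl K (gm K j)) (tl K (gm K k)) = Pz2 K i j k := by
      unfold om Pz2
      rw [cmt_tl, tr_cmt_tl]
    have h := gram_eq (tl K (gm K i)) (tl K (gm K j)) (tl K (gm K k)) (tl K (gm K i))
      (tl K (gm K j)) (tl K (gm K k)) (trace_tl _) (trace_tl _) (trace_tl _) (trace_tl _)
      (trace_tl _) (trace_tl _)
    rw [h2] at h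
    simp only [cmt_tl] at h
    exact h
  have e : Q2 K i j k * Q2 K i j k =
      ⟨_, tr_yy_mem K k i⟩ * Q1 K i j j k + ⟨_, tr_yy_mem K k j⟩ * Q1 K i j k i +
      ⟨_, tr_yy_mem K k k⟩ * Q1 K i j i j := Subtype.ext key
  rw [e]
  refine Ideal.add_mem _ (Ideal.add_mem _ ?_ ?_) ?_
  · exact Ideal.mul_mem_left _ _ (Ideal.subset_span ⟨i, j, j, k, rfl⟩)
  · exact Ideal.mul_mem_left _ _ (Ideal.subset_span ⟨i, j, k, i, rfl⟩)
  · exact Ideal.mul_mem_left _ _ (Ideal.subset_span ⟨i, j, i, j, rfl⟩)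

/-- PROOF. Let `p` be a prime ideal which contains all `Q1 K i j k l`; then it contains all `Q2 K i j k` by
`Q2_sq`, so `redI ≤ p`. Equivalently `redI ≤ radical (span {Q1})` (`Ideal.span_le`; `Q2 ^ 2 ∈ span`). -/
theorem redI_le_of_Q1 (I : Ideal (ZZ K n)) (h : ∀ i j k l : Fin n, Q1 K i j k l ∈ I.radical) :
    redI K n ≤ I.radical := by
  unfold redI
  rw [Ideal.span_le]
  rintro z (⟨i, j, k, l, hz⟩ | ⟨i, j, k, hz⟩)
  · have : z = Q1 K i j k l := Subtype.ext hz
    rw [this]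
    exact h i j k l
  · have : z = Q2 K i j k := Subtype.ext hz
    rw [this]
    have h1 : Q2 K i j k * Q2 K i j k ∈ I.radical := by
      have hle : Ideal.span {z : ZZ K n | ∃ i j k l : Fin n, z = Q1 K i j k l} ≤ I.radical := by
        rw [Ideal.span_le]
        rintro w ⟨a, b, c, d, rfl⟩
        exact h a b c d
      exact hle (Q2_sq K i j k)
    have h2 : Q2 K i j k ^ 2 ∈ I.radical := by
      rw [pow_two]
      exact h1
    exact Ideal.mem_radical_of_pow_mem h2

/-- PROOF. `redI_le_of_Q1` and `cnd_P1` (`Q1 ^ 2 ∈ cnd`). -/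
theorem redI_le_radical : redI K n ≤ (cnd K n (Com K n)).radical := by
  apply redI_le_of_Q1
  intro i j k l
  have h : Q1 K i j k l * Q1 K i j k l ∈ cnd K n (Com K n) :=
    cnd_P1 K (Q1 K i j k l * Q1 K i j k l) i j k l i j k l rfl
  have h2 : Q1 K i j k l ^ 2 ∈ cnd K n (Com K n) := by
    rw [pow_two]
    exact h
  exact ⟨2, h2⟩

/-- PROOF. `redI_le_radical`, `ZZ` noetherian (`ZZ_noeth`), `Ideal.exists_pow_le_of_le_radical_of_fg`; a
larger exponent is allowed (`Ideal.pow_le_pow_right`), so `0 < t`. -/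
theorem exists_redI_pow : ∃ t : ℕ, 0 < t ∧ redI K n ^ t ≤ cnd K n (Com K n) := by
  haveI : IsNoetherianRing (ZZ K n) := ZZ_noeth K
  obtain ⟨k, hk⟩ := Ideal.exists_pow_le_of_le_radical_of_fg (redI_le_radical K n)
    (IsNoetherian.noetherian (redI K n))
  exact ⟨k + 1, Nat.succ_pos k, (Ideal.pow_le_pow_right (Nat.le_succ k)).trans hk⟩

end Pool.Agent.H.MP_f5ceca_al.S
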