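import Pool.Agent.H.MP_f5ceca_al.S.M2d

/-!
Powers of the commutator ideal are mapped into `redI ^ t • E2`.
-/

namespace Pool.Agent.H.MP_f5ceca_al.S

open MvPolynomial
open Pool.Agent.H.MP_f5ceca_al.N (FA xx Com Fil Aug)

universe u

variable (K : Type u) [Field K] [CharZero K] {n : ℕ}

omit [CharZero K] in
theorem M2e_Q1 (i j k l : Fin n) (h : P1 K i j k l ∈ ZZ K n) :
    (⟨P1 K i j k l, h⟩ : ZZ K n) ∈ redI K n :=
  Ideal.subset_span (Or.inl ⟨i, j, k, l, rfl⟩)

omit [CharZero K] in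
theorem M2e_Q2 (i j k : Fin n) (h : Pz2 K i j k ∈ ZZ K n) :
    (⟨Pz2 K i j k, h⟩ : ZZ K n) ∈ redI K n :=
  Ideal.subset_span (Or.inr ⟨i, j, k, rfl⟩)

omit [CharZero K] in
theorem M2e_yE (i : Fin n) : tl K (gm K i) ∈ E2 K n :=
  Submodule.subset_span (Or.inl (Or.inr ⟨i, rfl⟩))

omit [CharZero K] in
theorem M2e_cE (i j : Fin n) : cmt (gm K i) (gm K j) ∈ E2 K n :=
  Submodule.subset_span (Or.inr ⟨i, j, rfl⟩)

omit [CharZero K] in
theorem M2e_smul (c : K) {I : Ideal (ZZ K n)} {e : Matrix (Fin 2) (Fin 2) (A2 K n)}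
    (he : e ∈ I • E2 K n) : c • e ∈ I • E2 K n := by
  have h : c • e = (algebraMap K (ZZ K n) c) • e := (algebraMap_smul _ c e).symm
  rw [h]
  exact Submodule.smul_mem _ _ he

omit [CharZero K] in
theorem M2e_smul' (c : K) {I : Ideal (ZZ K n)} {e : Matrix (Fin 2) (Fin 2) (A2 K n)}
    (he : e ∈ I • E2 K n) : (algebraMap K (A2 K n) c) • e ∈ I • E2 K n := by
  rw [algebraMap_smul]
  exact M2e_smul K c he

omit [CharZero K] in
theorem M2e_mem_mul {q t : A2 K n} (hq : q ∈ ZZ K n) (ht : t ∈ ZZ K n)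
    (hI : (⟨q, hq⟩ : ZZ K n) ∈ redI K n)
    {e : Matrix (Fin 2) (Fin 2) (A2 K n)} (he : e ∈ E2 K n) :
    (t * q) • e ∈ redI K n • E2 K n := by
  have h : (t * q) • e = (⟨t, ht⟩ : ZZ K n) • ((⟨q, hq⟩ : ZZ K n) • e) := mul_smul t q e
  rw [h]
  exact Submodule.smul_mem _ _ (Submodule.smul_mem_smul hI he)

omit [CharZero K] in
theorem M2e_mem {q : A2 K n} (hq : q ∈ ZZ K n) (hI : (⟨q, hq⟩ : ZZ K n) ∈ redI K n)
    {e : Matrix (Fin 2) (Fin 2) (A2 K n)} (he : e ∈ E2 K n) : q • e ∈ redI K n • E2 K n := by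
  have h := M2e_mem_mul K hq (one_mem (ZZ K n)) hI he
  rwa [one_mul] at h

omit [CharZero K] in
theorem M2e_two {q : A2 K n} {e : Matrix (Fin 2) (Fin 2) (A2 K n)}
    (h : q • e ∈ redI K n • E2 K n) : (2 * q) • e ∈ redI K n • E2 K n := by
  rw [two_mul, add_smul]
  exact add_mem h h

/-- product of two traceless matrices -/
theorem M2e_prod {x y : Matrix (Fin 2) (Fin 2) (A2 K n)} (hx : x.trace = 0) (hy : y.trace = 0) :
    x * y = (algebraMap K (A2 K n) 2⁻¹) •
      ((x * y).trace • (1 : Matrix (Fin 2) (Fin 2) (A2 K n)) + cmt x y) := by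
  rw [← anti_eq x y hx hy]
  have h1 : x * y + y * x + cmt x y = (2 : A2 K n) • (x * y) := by
    unfold cmt
    rw [two_smul]
    abel
  have h2 : (algebraMap K (A2 K n) 2⁻¹) * 2 = 1 := by
    have h3 : (2 : A2 K n) = algebraMap K (A2 K n) 2 := (map_ofNat _ 2).symm
    rw [h3, ← map_mul, inv_mul_cancel₀ (two_ne_zero), map_one]
  rw [h1, smul_smul, h2, one_smul]

/-- product of a commutator and a traceless matrix -/
theorem M2e_cmt_mul (i j : Fin n) {w : Matrix (Fin 2) (Fin 2) (A2 K n)} (hw : w.trace = 0) :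
    cmt (gm K i) (gm K j) * w = (algebraMap K (A2 K n) 2⁻¹) •
      ((cmt (gm K i) (gm K j) * w).trace • (1 : Matrix (Fin 2) (Fin 2) (A2 K n)) +
        ((2 * (tl K (gm K j) * w).trace) • tl K (gm K i) -
          (2 * (tl K (gm K i) * w).trace) • tl K (gm K j))) := by
  have h1 := M2e_prod K (trace_cmt (gm K i) (gm K j)) hw
  have h2 : cmt (cmt (gm K i) (gm K j)) w = (2 * (tl K (gm K j) * w).trace) • tl K (gm K i) -
      (2 * (tl K (gm K i) * w).trace) • tl K (gm K j) := by
    rw [← cmt_tl (K := K) (gm K i) (gm K j)]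
    exact cmt_cmt_eq _ _ _ (trace_tl _) (trace_tl _) hw
  rw [h2] at h1
  exact h1

omit [CharZero K] in
theorem M2e_tr (i j k : Fin n) : (tl K (gm K k) * cmt (gm K i) (gm K j)).trace = Pz2 K i j k := by
  rw [Matrix.trace_mul_comm, tr_cmt_tl]
  rfl

/-- PROOF. `Submodule.smul_induction_on` twice, `E2_mul`, `mul_smul`, `smul_mul_smul_comm`. -/
theorem smul_E2_mul {I J : Ideal (ZZ K n)} {e e' : Matrix (Fin 2) (Fin 2) (A2 K n)}
    (he : e ∈ I • E2 K n) (he' : e' ∈ J • E2 K n) : e * e' ∈ (I * J) • E2 K n := by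
  induction he using Submodule.smul_induction_on' with
  | smul r hr x hx =>
    induction he' using Submodule.smul_induction_on' with
    | smul s hs y hy =>
      rw [smul_mul_smul_comm]
      exact Submodule.smul_mem_smul (Ideal.mul_mem_mul hr hs) (E2_mul K hx hy)
    | add y _ y' _ hy hy' =>
      rw [mul_add]
      exact add_mem hy hy'
  | add x _ x' _ hx hx' =>
    rw [add_mul]
    exact add_mem hx hx'

/-- PROOF. `(1/2) tr([g_i, g_j][g_k, g_l]) + (1/2) [[g_i, g_j], [g_k, g_l]]` by `anti_eq` (`trace_cmt`), and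
`cmt (cmt a b) w = 2 tr(b w) a - 2 tr(a w) b` for `a = y_i, b = y_j` (`cmt_tl`, `cmt_cmt_eq`),
`w = [g_k, g_l]`, where `tr(y_j [g_k, g_l]) = tr([g_k, g_l] g_j) = Pz2 K k l j` (`Matrix.trace_mul_comm`,
`tr_cmt_tl`). So it is a combination of `P1`, `Pz2` times elements of `E2`. -/
theorem cmt_mul_cmt_mem (i j k l : Fin n) :
    cmt (gm K i) (gm K j) * cmt (gm K k) (gm K l) ∈ redI K n • E2 K n := by
  rw [M2e_cmt_mul K i j (trace_cmt (gm K k) (gm K l)), M2e_tr, M2e_tr]
  refine M2e_smul' K _ (add_mem ?_ (sub_mem ?_ ?_))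
  · exact M2e_mem K (P1_mem K i j k l) (M2e_Q1 K i j k l _) (one_mem_E2 K)
  · exact M2e_two K (M2e_mem K (P2_mem K k l j) (M2e_Q2 K k l j _) (M2e_yE K i))
  · exact M2e_two K (M2e_mem K (P2_mem K k l i) (M2e_Q2 K k l i _) (M2e_yE K j))

/-- The middle factor is a traceless generic matrix.

PROOF. Let `a = y_i, b = y_j, y = y_m, c = y_k, d = y_l` (traceless parts; the commutators do not change). Then
`y * [c, d] = (1/2) tr(y [c, d]) - (1/2) [[c, d], y] = (1/2) tr(y [c,d]) - tr(d y) c + tr(c y) d`, so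
`[a,b] y [c,d] = (1/2) Pz2 K k l m • [a,b] - tr(d y) [a,b] c + tr(c y) [a,b] d`, and
`[a,b] c = (1/2) Pz2 K i j k + tr(b c) a - tr(a c) b`, similarly for `d`. The result is
`(1/2) Pz2 K k l m • [a,b] + (1/2)(- tr(d y) Pz2 K i j k + tr(c y) Pz2 K i j l) • 1
 + (tr(c y) tr(b d) - tr(d y) tr(b c)) • a + (tr(d y) tr(a c) - tr(c y) tr(a d)) • b`, and by `tr_cmt_cmt`
`tr(c y) tr(b d) - tr(d y) tr(b c) = (1/2) P1 K j m k l`, `tr(d y) tr(a c) - tr(c y) tr(a d) = - (1/2) P1 K i m k l`
(signs to be checked: `tr_cmt_cmt b y c d = 2 tr(y c) tr(b d) - 2 tr(b c) tr(y d)`). -/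
theorem cmt_yy_cmt_mem (i j m k l : Fin n) :
    cmt (gm K i) (gm K j) * tl K (gm K m) * cmt (gm K k) (gm K l) ∈ redI K n • E2 K n := by
  have e1 := M2e_cmt_mul K k l (w := tl K (gm K m)) (trace_tl _)
  have e2 := M2e_cmt_mul K i j (w := tl K (gm K k)) (trace_tl _)
  have e3 := M2e_cmt_mul K i j (w := tl K (gm K l)) (trace_tl _)
  have e4 : tl K (gm K m) * cmt (gm K k) (gm K l) = (algebraMap K (A2 K n) 2⁻¹) •
      (Pz2 K k l m • (1 : Matrix (Fin 2) (Fin 2) (A2 K n)) -
        ((2 * (tl K (gm K l) * tl K (gm K m)).trace) • tl K (gm K k) -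
          (2 * (tl K (gm K k) * tl K (gm K m)).trace) • tl K (gm K l))) := by
    have h1 := M2e_prod K (trace_tl (K := K) (gm K m)) (trace_cmt (gm K k) (gm K l))
    rw [M2e_tr] at h1
    have h2 : cmt (tl K (gm K m)) (cmt (gm K k) (gm K l)) =
        -((2 * (tl K (gm K l) * tl K (gm K m)).trace) • tl K (gm K k) -
          (2 * (tl K (gm K k) * tl K (gm K m)).trace) • tl K (gm K l)) := by
      rw [← cmt_cmt_eq _ _ _ (trace_tl (K := K) (gm K k)) (trace_tl (K := K) (gm K l))
        (trace_tl (K := K) (gm K m)), cmt_tl]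
      unfold cmt
      rw [neg_sub]
    rw [h2, ← sub_eq_add_neg] at h1
    exact h1
  have t1 : (cmt (gm K i) (gm K j) * tl K (gm K k)).trace = Pz2 K i j k := tr_cmt_tl _ _ _
  have t2 : (cmt (gm K i) (gm K j) * tl K (gm K l)).trace = Pz2 K i j l := tr_cmt_tl _ _ _
  rw [t1] at e2
  rw [t2] at e3
  have c1 : ∀ p q : Fin n, (tl K (gm K p) * tl K (gm K q)).trace =
      (tl K (gm K q) * tl K (gm K p)).trace := fun p q => Matrix.trace_mul_comm _ _
  have r1 : P1 K j m k l = 2 * (tl K (gm K k) * tl K (gm K m)).trace *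
      (tl K (gm K j) * tl K (gm K l)).trace - 2 * (tl K (gm K j) * tl K (gm K k)).trace *
      (tl K (gm K l) * tl K (gm K m)).trace := by
    have h1 := tr_cmt_cmt _ _ _ _ (trace_tl (K := K) (gm K j)) (trace_tl (K := K) (gm K m))
      (trace_tl (K := K) (gm K k)) (trace_tl (K := K) (gm K l))
    rw [cmt_tl, cmt_tl, c1 m k, c1 m l] at h1
    exact h1
  have r2 : P1 K i m k l = 2 * (tl K (gm K k) * tl K (gm K m)).trace *
      (tl K (gm K i) * tl K (gm K l)).trace - 2 * (tl K (gm K i) * tl K (gm K k)).trace *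
      (tl K (gm K l) * tl K (gm K m)).trace := by
    have h1 := tr_cmt_cmt _ _ _ _ (trace_tl (K := K) (gm K i)) (trace_tl (K := K) (gm K m))
      (trace_tl (K := K) (gm K k)) (trace_tl (K := K) (gm K l))
    rw [cmt_tl, cmt_tl, c1 m k, c1 m l] at h1
    exact h1
  have key : cmt (gm K i) (gm K j) * tl K (gm K m) * cmt (gm K k) (gm K l) =
      (algebraMap K (A2 K n) 2⁻¹) • (Pz2 K k l m • cmt (gm K i) (gm K j) +
        (algebraMap K (A2 K n) 2⁻¹) •
          ((2 * ((tl K (gm K k) * tl K (gm K m)).trace * Pz2 K i j l)) •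
              (1 : Matrix (Fin 2) (Fin 2) (A2 K n)) -
            (2 * ((tl K (gm K l) * tl K (gm K m)).trace * Pz2 K i j k)) •
              (1 : Matrix (Fin 2) (Fin 2) (A2 K n)) +
            (2 * P1 K j m k l) • tl K (gm K i) - (2 * P1 K i m k l) • tl K (gm K j))) := by
    rw [mul_assoc, e4, mul_smul_comm, mul_sub, mul_sub, mul_smul_comm, mul_smul_comm,
      mul_smul_comm, mul_one, e2, e3, r1, r2]
    generalize cmt (gm K i) (gm K j) = X0
    generalize (1 : Matrix (Fin 2) (Fin 2) (A2 K n)) = X1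
    generalize tl K (gm K i) = X2
    generalize tl K (gm K j) = X3
    generalize (tl K (gm K l) * tl K (gm K m)).trace = s0
    generalize (tl K (gm K k) * tl K (gm K m)).trace = s1
    generalize (X2 * tl K (gm K k)).trace = s2
    generalize (X2 * tl K (gm K l)).trace = s3
    generalize (X3 * tl K (gm K k)).trace = s4
    generalize (X3 * tl K (gm K l)).trace = s5
    generalize Pz2 K k l m = s6
    generalize Pz2 K i j k = s7
    generalize Pz2 K i j l = s8
    generalize (algebraMap K (A2 K n) 2⁻¹) = s9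
    clear * -
    module
  rw [key]
  refine M2e_smul' K _ (add_mem ?_ (M2e_smul' K _ (sub_mem (add_mem (sub_mem ?_ ?_) ?_) ?_)))
  · exact M2e_mem K (P2_mem K k l m) (M2e_Q2 K k l m _) (M2e_cE K i j)
  · exact M2e_two K (M2e_mem_mul K (P2_mem K i j l) (tr_yy_mem K k m) (M2e_Q2 K i j l _)
      (one_mem_E2 K))
  · exact M2e_two K (M2e_mem_mul K (P2_mem K i j k) (tr_yy_mem K l m) (M2e_Q2 K i j k _)
      (one_mem_E2 K))
  · exact M2e_two K (M2e_mem K (P1_mem K j m k l) (M2e_Q1 K j m k l _) (M2e_yE K i))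
  · exact M2e_two K (M2e_mem K (P1_mem K i m k l) (M2e_Q1 K i m k l _) (M2e_yE K j))

/-- PROOF. Span induction on `e ∈ E2`: `1`: `cmt_mul_cmt_mem`; `y_m`: `cmt_yy_cmt_mem`; `[g_m, g_p]`: the
product of the first two factors is in `redI • E2` (`cmt_mul_cmt_mem`), then `smul_E2_mul` with `J = ⊤`. -/
theorem cmt_E2_cmt_mem (i j k l : Fin n) {e : Matrix (Fin 2) (Fin 2) (A2 K n)} (he : e ∈ E2 K n) :
    cmt (gm K i) (gm K j) * e * cmt (gm K k) (gm K l) ∈ redI K n • E2 K n := by
  induction he using Submodule.span_induction with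
  | mem x hx =>
    rcases hx with (hx | ⟨m, rfl⟩) | ⟨m, p, rfl⟩
    · rw [Set.mem_singleton_iff.1 hx, mul_one]
      exact cmt_mul_cmt_mem K i j k l
    · exact cmt_yy_cmt_mem K i j m k l
    · have h1 := smul_E2_mul K (J := ⊤) (cmt_mul_cmt_mem K i j m p)
        (e' := cmt (gm K k) (gm K l)) (by rw [Submodule.top_smul]; exact M2e_cE K k l)
      rw [Ideal.mul_top] at h1
      exact h1
  | zero =>
    rw [mul_zero, zero_mul]
    exact zero_mem _
  | add x y _ _ hx hy =>
    rw [mul_add, add_mul]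
    exact add_mem hx hy
  | smul c x _ hx =>
    rw [mul_smul_comm, smul_mul_assoc]
    exact Submodule.smul_mem _ _ hx

/-- PROOF. `N.Com_eq`: `Com` is spanned by `a (x_i x_j - x_j x_i) b`. The product of two such elements is mapped
to `ρ(a) ([g_i, g_j] ρ(b a') [g_k, g_l]) ρ(b')`; `cmt_E2_cmt_mem`, `rho2_mem_E2`, `smul_E2_mul` with `⊤`
(`Ideal.top_mul`, `Submodule.top_smul`). Use `Submodule.mul_induction_on`, span inductions. -/
theorem rho2_Com_mul_Com {a : FA K n} (ha : a ∈ Com K n * Com K n) :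
    rho2 K n a ∈ redI K n • E2 K n := by
  have key : ∀ p ∈ Com K n, ∀ q ∈ Com K n, rho2 K n (p * q) ∈ redI K n • E2 K n := by
    intro p hp
    rw [N.Com_eq] at hp
    induction hp using Submodule.span_induction with
    | mem p hp =>
      obtain ⟨a, b, i, j, rfl⟩ := hp
      intro q hq
      rw [N.Com_eq] at hq
      induction hq using Submodule.span_induction with
      | mem q hq =>
        obtain ⟨a', b', k, l, rfl⟩ := hq
        have h1 : rho2 K n (a * (xx K i * xx K j - xx K j * xx K i) * b *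
            (a' * (xx K k * xx K l - xx K l * xx K k) * b')) =
            rho2 K n a * (cmt (gm K i) (gm K j) * rho2 K n (b * a') * cmt (gm K k) (gm K l)) *
              rho2 K n b' := by
          simp only [map_mul, map_sub, rho2_xx, cmt, mul_assoc]
        rw [h1]
        have h2 := cmt_E2_cmt_mem K i j k l (rho2_mem_E2 K (b * a'))
        have h3 := smul_E2_mul K (I := ⊤) (e := rho2 K n a)
          (by rw [Submodule.top_smul]; exact rho2_mem_E2 K a) h2
        rw [Ideal.top_mul] at h3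
        have h4 := smul_E2_mul K (J := ⊤) h3 (e' := rho2 K n b')
          (by rw [Submodule.top_smul]; exact rho2_mem_E2 K b')
        rw [Ideal.mul_top] at h4
        exact h4
      | zero =>
        rw [mul_zero, map_zero]
        exact zero_mem _
      | add x y _ _ hx hy =>
        rw [mul_add, map_add]
        exact add_mem hx hy
      | smul c x _ hx =>
        rw [mul_smul_comm, map_smul]
        exact M2e_smul K c hx
    | zero =>
      intro q _
      rw [zero_mul, map_zero]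
      exact zero_mem _
    | add x y _ _ hx hy =>
      intro q hq
      rw [add_mul, map_add]
      exact add_mem (hx q hq) (hy q hq)
    | smul c x _ hx =>
      intro q hq
      rw [smul_mul_assoc, map_smul]
      exact M2e_smul K c (hx q hq)
  induction ha using Submodule.mul_induction_on' with
  | mem_mul_mem p hp q hq => exact key p hp q hq
  | add x _ y _ hx hy =>
    rw [map_add]
    exact add_mem hx hy

/-- PROOF. Induction on `t`: `Fil (2 (t + 1)) = Fil (2 t) * Com * Com` (`N.Fil_succ` twice, `mul_assoc`),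
`Submodule.mul_induction_on`, `smul_E2_mul`, `pow_succ`; `t = 0`: `rho2_mem_E2`, `Ideal.one_eq_top`,
`Submodule.top_smul`. -/
theorem rho2_Fil (t : ℕ) {a : FA K n} (ha : a ∈ Fil K n (2 * t)) :
    rho2 K n a ∈ redI K n ^ t • E2 K n := by
  induction t generalizing a with
  | zero =>
    rw [pow_zero, Ideal.one_eq_top, Submodule.top_smul]
    exact rho2_mem_E2 K a
  | succ t ih =>
    have h1 : 2 * (t + 1) = 2 * t + 1 + 1 := by ring
    rw [h1, N.Fil_succ, N.Fil_succ, mul_assoc] at ha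
    induction ha using Submodule.mul_induction_on' with
    | mem_mul_mem p hp q hq =>
      rw [map_mul, pow_succ]
      exact smul_E2_mul K (ih hp) (rho2_Com_mul_Com K hq)
    | add x _ y _ hx hy =>
      rw [map_add]
      exact add_mem hx hy

end Pool.Agent.H.MP_f5ceca_al.S
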