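import Pool.Agent.H.MP_f5ceca_al.S.M2e

/-!
Depth, first form, for the ring `ZZ`.
-/

namespace Pool.Agent.H.MP_f5ceca_al.S

open MvPolynomial
open Pool.Agent.H.MP_f5ceca_al.N (FA xx Com Fil Aug)

universe u

variable (K : Type u) [Field K] [CharZero K] {n : ℕ}

omit [CharZero K] in
/-- PROOF. Induction on `q`. `q = 0`: definition of `cnd` with `e = 1` (`one_mem_E2`), `N.Fil_one`. Step:
`pow_succ`, `Submodule.mul_induction_on`: for `z = z₁ * z₂` the product of the lifts, `N.Fil_succ`,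
`Submodule.mul_mem_mul`. -/
theorem cnd_pow_lift (q : ℕ) {z : ZZ K n} (hz : z ∈ cnd K n (Com K n) ^ (q + 1)) :
    ∃ g ∈ Fil K n (q + 1), rho2 K n g = z • (1 : Matrix (Fin 2) (Fin 2) (A2 K n)) := by
  induction q generalizing z with
  | zero =>
    rw [zero_add, pow_one] at hz
    obtain ⟨a, ha, ha'⟩ := hz 1 (one_mem_E2 K)
    exact ⟨a, by rw [zero_add, N.Fil_one]; exact ha, ha'⟩
  | succ q ih =>
    rw [pow_succ] at hz
    refine Submodule.mul_induction_on hz ?_ ?_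
    · intro z1 h1 z2 h2
      obtain ⟨g1, hg1, hg1'⟩ := ih h1
      obtain ⟨g2, hg2, hg2'⟩ := h2 1 (one_mem_E2 K)
      refine ⟨g1 * g2, ?_, ?_⟩
      · rw [N.Fil_succ]
        exact Submodule.mul_mem_mul hg1 hg2
      · rw [map_mul, hg1', hg2', smul_mul_smul_comm, one_mul]
    · rintro z1 z2 ⟨g1, hg1, hg1'⟩ ⟨g2, hg2, hg2'⟩
      exact ⟨g1 + g2, add_mem hg1 hg2, by rw [map_add, hg1', hg2', add_smul]⟩

/-- Elements of `cnd • E2` are values. -/
theorem M2f_val {m : Matrix (Fin 2) (Fin 2) (A2 K n)} (hm : m ∈ cnd K n (Com K n) • E2 K n) :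
    ∃ b : FA K n, rho2 K n b = m := by
  refine Submodule.smul_induction_on hm ?_ ?_
  · intro z hz e he
    obtain ⟨a, _, ha'⟩ := hz e he
    exact ⟨a, ha'⟩
  · rintro x y ⟨a, ha⟩ ⟨b, hb⟩
    exact ⟨a + b, by rw [map_add, ha, hb]⟩

/-- **Depth, first form.**

PROOF. Let `0 < t`, `redI ^ t ≤ cnd` (`exists_redI_pow`), `s = r + q' + 1`, `I = cnd ^ s`. `I` is finitely
generated (`ZZ_noeth`): `I = Ideal.span T`, `T` finite. Every `θ ∈ T` is in `cnd ^ (q' + 1)` and in `cnd ^ r`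
(`Ideal.pow_le_pow_right`); let `g_θ ∈ Fil (q' + 1) ≤ Fil q'` be a lift (`cnd_pow_lift`, `N.Fil_antitone`), and `G` the
finite set of the `g_θ`. Let `q = 2 * (t * (s + 1))`. For `a ∈ Fil q`, `rho2_Fil` gives
`rho2 a ∈ redI ^ (t * (s + 1)) • E2 ≤ (I * cnd) • E2` (`pow_mul`, `Submodule.smul_mono_left`). Show by
`Submodule.smul_induction_on` that every element of `(I * cnd) • E2 = I • (cnd • E2)` is of the form `rho2 b` with
`b ∈ ⊤ * span K G`: an element of `I` is a sum of `θ * c`, and `(θ * c) • (z • e)` with `z ∈ cnd` is `θ • rho2 b'`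
(definition of `cnd`, `(c • e) ∈ E2`) which is `rho2 (b' * g_θ)`. Then `a - b ∈ Jd`. -/
theorem deepZ (r q' : ℕ) : ∃ (q : ℕ) (G : Finset (FA K n)),
    (∀ g ∈ G, g ∈ Fil K n q' ∧
      ∃ z ∈ cnd K n (Com K n) ^ r, rho2 K n g = z • (1 : Matrix (Fin 2) (Fin 2) (A2 K n))) ∧
    Fil K n q ≤ ⊤ * Submodule.span K (G : Set (FA K n)) ⊔ Jd K n := by
  classical
  obtain ⟨t, _, ht⟩ := exists_redI_pow K n
  obtain ⟨s, hs⟩ : ∃ s, s = r + q' + 1 := ⟨_, rfl⟩
  have : IsNoetherianRing (ZZ K n) := ZZ_noeth K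
  obtain ⟨T, hT⟩ : (cnd K n (Com K n) ^ s).FG := IsNoetherian.noetherian _
  have hlift : ∀ θ : ZZ K n, ∃ g : FA K n, θ ∈ T → g ∈ Fil K n q' ∧
      rho2 K n g = θ • (1 : Matrix (Fin 2) (Fin 2) (A2 K n)) := by
    intro θ
    by_cases hθ : θ ∈ T
    · have h1 : θ ∈ cnd K n (Com K n) ^ (q' + 1) := by
        have h2 : θ ∈ cnd K n (Com K n) ^ s := by
          rw [← hT]
          exact Ideal.subset_span hθ
        exact Ideal.pow_le_pow_right (by omega) h2
      obtain ⟨g, hg, hg'⟩ := cnd_pow_lift K q' h1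
      exact ⟨g, fun _ => ⟨N.Fil_antitone K n (Nat.le_succ q') hg, hg'⟩⟩
    · exact ⟨0, fun h => absurd h hθ⟩
  choose gg hgg using hlift
  refine ⟨2 * (t * (s + 1)), T.image gg, ?_, ?_⟩
  · intro g hg
    obtain ⟨θ, hθ, rfl⟩ := Finset.mem_image.1 hg
    refine ⟨(hgg θ hθ).1, θ, ?_, (hgg θ hθ).2⟩
    have h2 : θ ∈ cnd K n (Com K n) ^ s := by
      rw [← hT]
      exact Ideal.subset_span hθ
    exact Ideal.pow_le_pow_right (by omega) h2
  · intro a ha
    obtain ⟨W, hW⟩ : ∃ W : Submodule K (FA K n),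
      W = ⊤ * Submodule.span K ((T.image gg : Finset (FA K n)) : Set (FA K n)) := ⟨_, rfl⟩
    rw [← hW]
    have h1 := rho2_Fil K (t * (s + 1)) ha
    have h2 : redI K n ^ (t * (s + 1)) ≤ cnd K n (Com K n) ^ s * cnd K n (Com K n) := by
      rw [pow_mul, ← pow_succ]
      exact Ideal.pow_right_mono ht (s + 1)
    have h3 : rho2 K n a ∈ (cnd K n (Com K n) ^ s) • (cnd K n (Com K n) • E2 K n) := by
      rw [← Submodule.mul_smul]
      exact Submodule.smul_mono_left h2 h1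
    have key : ∀ c ∈ cnd K n (Com K n) ^ s, ∀ m ∈ cnd K n (Com K n) • E2 K n,
        ∃ b ∈ W, rho2 K n b = c • m := by
      intro c hc
      rw [← hT] at hc
      refine Submodule.span_induction ?_ ?_ ?_ ?_ hc
      · intro θ hθ m hm
        obtain ⟨b, hb⟩ := M2f_val K hm
        refine ⟨b * gg θ, ?_, ?_⟩
        · rw [hW]
          exact Submodule.mul_mem_mul trivial
            (Submodule.subset_span (Finset.mem_coe.2 (Finset.mem_image_of_mem gg hθ)))
        · rw [map_mul, hb, (hgg θ hθ).2, mul_smul_comm, mul_one]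
      · intro m _
        exact ⟨0, zero_mem _, by rw [map_zero, zero_smul]⟩
      · intro x y _ _ hx hy m hm
        obtain ⟨b, hb, hb'⟩ := hx m hm
        obtain ⟨b2, hb2, hb2'⟩ := hy m hm
        exact ⟨b + b2, add_mem hb hb2, by rw [map_add, hb', hb2', add_smul]⟩
      · intro c' x _ hx m hm
        obtain ⟨b, hb, hb'⟩ := hx (c' • m) (Submodule.smul_mem _ c' hm)
        exact ⟨b, hb, by rw [hb', smul_eq_mul, mul_comm, mul_smul]⟩
    have h4 : ∃ b ∈ W, rho2 K n b = rho2 K n a := by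
      refine Submodule.smul_induction_on (p := fun x => ∃ b ∈ W, rho2 K n b = x) h3 key ?_
      rintro x y ⟨b, hb, hb'⟩ ⟨b2, hb2, hb2'⟩
      exact ⟨b + b2, add_mem hb hb2, by rw [map_add, hb', hb2']⟩
    obtain ⟨b, hb, hb'⟩ := h4
    rw [Submodule.mem_sup]
    refine ⟨b, hb, a - b, ?_, by abel⟩
    show (rho2 K n).toLinearMap (a - b) = 0
    rw [AlgHom.toLinearMap_apply, map_sub, hb', sub_self]

end Pool.Agent.H.MP_f5ceca_al.S
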