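import Pool.Agent.H.MP_f5ceca_al.S.REv2

/-!
The passage to one-sided powers.
-/

namespace Pool.Agent.H.MP_f5ceca_al.S

open MvPolynomial

universe u v

variable {K : Type*} [Field K] [CharZero K] {B : Type*} [Ring B] [Algebra K B]

theorem RBez_lin (T : Submodule K B) (φ : MvPolynomial (Fin 2) K →ₗ[K] B)
    (h : ∀ i j : ℕ, φ (X 0 ^ i * X 1 ^ j) ∈ T) (P : MvPolynomial (Fin 2) K) : φ P ∈ T := by
  induction P using MvPolynomial.induction_on' with
  | monomial u a =>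
    have h1 : monomial u a = a • (X 0 ^ u 0 * X 1 ^ u 1 : MvPolynomial (Fin 2) K) := by
      rw [MvPolynomial.monomial_eq, MvPolynomial.smul_eq_C_mul, Finsupp.prod_fintype _ _ (by simp),
        Fin.prod_univ_two]
    rw [h1, map_smul]
    exact T.smul_mem _ (h _ _)
  | add p q hp hq =>
    rw [map_add]
    exact T.add_mem hp hq

theorem RBez_left (T L : Submodule K B) (hTr : ∀ c, ∀ z ∈ T, z * c ∈ T)
    (hLr : ∀ c, ∀ z ∈ L, z * c ∈ L) (h w : B) (hL : ∀ z ∈ L, z * w ∈ T) (z : B) (hz : z ∈ L)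
    (P : MvPolynomial (Fin 2) K) : z * ev2 h w P ∈ T := by
  refine RBez_lin T ((LinearMap.mulLeft K z).comp (ev2 h w)) (fun i j => ?_) P
  show z * ev2 h w (X 0 ^ i * X 1 ^ j) ∈ T
  rw [ev2_pow, ← mul_assoc, ← mul_assoc]
  exact hTr _ _ (hL _ (hLr _ _ hz))

theorem RBez_right (T R : Submodule K B) (hTl : ∀ c, ∀ z ∈ T, c * z ∈ T)
    (hRl : ∀ c, ∀ z ∈ R, c * z ∈ R) (h w : B) (hR : ∀ z ∈ R, w * z ∈ T) (z : B) (hz : z ∈ R)
    (P : MvPolynomial (Fin 2) K) : ev2 h w P * z ∈ T := by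
  refine RBez_lin T ((LinearMap.mulRight K z).comp (ev2 h w)) (fun i j => ?_) P
  show ev2 h w (X 0 ^ i * X 1 ^ j) * z ∈ T
  rw [ev2_pow, mul_assoc, mul_assoc]
  exact hTl _ _ (hR _ (hRl _ _ hz))

theorem RBez_comm (L : Submodule K B) (hLl : ∀ c, ∀ z ∈ L, c * z ∈ L)
    (hLr : ∀ c, ∀ z ∈ L, z * c ∈ L) (h k : B) (hkL : h * k + k * h ∈ L) (i : ℕ) :
    h ^ i * k - ((-1 : K) ^ i) • (k * h ^ i) ∈ L := by
  induction i with
  | zero => simp
  | succ i ih =>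
    have h1 : h ^ (i + 1) * k - ((-1 : K) ^ (i + 1)) • (k * h ^ (i + 1)) =
        h ^ i * (h * k + k * h) - (h ^ i * k - ((-1 : K) ^ i) • (k * h ^ i)) * h := by
      simp only [pow_succ, mul_neg_one, neg_smul, sub_mul, smul_mul_assoc, mul_add, mul_assoc]
      abel
    rw [h1]
    exact L.sub_mem (hLl _ _ hkL) (hLr _ _ ih)

theorem RBez_ideal (T L R : Submodule K B) (hTl : ∀ c, ∀ z ∈ T, c * z ∈ T)
    (hTr : ∀ c, ∀ z ∈ T, z * c ∈ T) (hLl : ∀ c, ∀ z ∈ L, c * z ∈ L) (hLr : ∀ c, ∀ z ∈ L, z * c ∈ L)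
    (hRl : ∀ c, ∀ z ∈ R, c * z ∈ R) (h k w : B)
    (hL : ∀ z ∈ L, z * w ∈ T) (hR : ∀ z ∈ R, w * z ∈ T) (hkL : h * k + k * h ∈ L)
    (hkR : h * k + k * h ∈ R) (P : MvPolynomial (Fin 2) K) (hP : k * k * ev2 h w P * k ∈ T)
    (Q : MvPolynomial (Fin 2) K) : k * k * ev2 h w (Q * P) * k ∈ T := by
  induction Q using MvPolynomial.induction_on with
  | C a =>
    rw [← MvPolynomial.smul_eq_C_mul, map_smul, mul_smul_comm, smul_mul_assoc]
    exact T.smul_mem _ hP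
  | add p q hp hq =>
    rw [add_mul, map_add, mul_add, add_mul]
    exact T.add_mem hp hq
  | mul_X p i hp =>
    have e : p * X i * P = X i * (p * P) := by ring
    rw [e]
    have hi : i = 0 ∨ i = 1 := by omega
    rcases hi with rfl | rfl
    · rw [ev2_X0]
      have h1 : k * k * (h * ev2 h w (p * P)) * k = h * (k * k * ev2 h w (p * P) * k) +
          (k * (h * k + k * h) - (h * k + k * h) * k) * ev2 h w (p * P) * k := by
        noncomm_ring
      rw [h1]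
      exact T.add_mem (hTl _ _ hp) (hTr _ _ (RBez_left T L hTr hLr h w hL _
        (L.sub_mem (hLl _ _ hkL) (hLr _ _ hkL)) _))
    · rw [ev2_X1]
      have h1 : k * k * (ev2 h w (p * P) * h) * k =
          k * k * (ev2 h w (p * P) * (h * k + k * h)) - k * k * ev2 h w (p * P) * k * h := by
        noncomm_ring
      rw [h1]
      exact T.sub_mem (hTl _ _ (RBez_right T R hTl hRl h w hR _ hkR _)) (hTr _ _ hp)

/-- the sign change of the first variable -/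
noncomputable def RBez_sg (K : Type*) [Field K] :
    MvPolynomial (Fin 2) K →ₐ[K] MvPolynomial (Fin 2) K :=
  aeval ![-X 0, X 1]

theorem RBez_shift (T L : Submodule K B)
    (hTr : ∀ c, ∀ z ∈ T, z * c ∈ T) (hLl : ∀ c, ∀ z ∈ L, c * z ∈ L) (hLr : ∀ c, ∀ z ∈ L, z * c ∈ L)
    (h k w : B) (hL : ∀ z ∈ L, z * w ∈ T) (hkL : h * k + k * h ∈ L)
    (P : MvPolynomial (Fin 2) K) : ev2 h (k * w) P - k * ev2 h w (RBez_sg K P) ∈ T := by
  refine RBez_lin T (ev2 h (k * w) -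
    (LinearMap.mulLeft K k).comp ((ev2 h w).comp (RBez_sg K).toLinearMap)) (fun i j => ?_) P
  show ev2 h (k * w) (X 0 ^ i * X 1 ^ j) - k * ev2 h w (RBez_sg K (X 0 ^ i * X 1 ^ j)) ∈ T
  have h1 : RBez_sg K (X 0 ^ i * X 1 ^ j) = ((-1 : K) ^ i) • (X 0 ^ i * X 1 ^ j) := by
    simp only [RBez_sg, map_mul, map_pow, aeval_X]
    rw [MvPolynomial.smul_eq_C_mul, map_pow, map_neg, map_one, ← mul_assoc, ← mul_pow]
    simp
  rw [h1, map_smul, ev2_pow, ev2_pow]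
  have h2 : h ^ i * (k * w) * h ^ j - k * ((-1 : K) ^ i) • (h ^ i * w * h ^ j) =
      (h ^ i * k - ((-1 : K) ^ i) • (k * h ^ i)) * w * h ^ j := by
    simp only [sub_mul, smul_mul_assoc, mul_smul_comm, mul_assoc]
  rw [h2]
  exact hTr _ _ (hL _ (RBez_comm L hLl hLr h k hkL i))

/-- The passage to one-sided powers. `L`: vanishing on the left of `w`. PROOF. The set `I` of the `P` with
`k k (ev2 h w P) k ∈ T` is closed under multiplication by `X 0` (`k k h - h k k ∈ L`) and by `X 1`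
(`h k + k h ∈ R`, and `ev2 h w P * R ≤ T`). It contains `A (X_0 + X_1)^{2M}`
(multiply `h1` by `k`) and, by `h2`, `A (X_1 - X_0)^{2M}`: for all `P`,
`k (ev2 h (k w) P) k = k k (ev2 h w (P(-X_0, X_1))) k` modulo `T` (monomials, `h^i k = (-1)^i k h^i` modulo `L`). As
`(2 X_0)^{4M} = ((X_0 + X_1) - (X_1 - X_0))^{4M}` and in every term of the binomial expansion one exponent is
`≥ 2M`, `A X_0^{4M} ∈ I`. -/
theorem bez (M a b : ℕ) (T L R : Submodule K B) (hTl : ∀ c, ∀ z ∈ T, c * z ∈ T)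
    (hTr : ∀ c, ∀ z ∈ T, z * c ∈ T) (hLl : ∀ c, ∀ z ∈ L, c * z ∈ L) (hLr : ∀ c, ∀ z ∈ L, z * c ∈ L)
    (hRl : ∀ c, ∀ z ∈ R, c * z ∈ R) (hRr : ∀ c, ∀ z ∈ R, z * c ∈ R) (h k w : B)
    (hL : ∀ z ∈ L, z * w ∈ T) (hR : ∀ z ∈ R, w * z ∈ T) (hkL : h * k + k * h ∈ L)
    (hkR : h * k + k * h ∈ R)
    (h1 : k * ev2 h w (X 0 ^ a * X 1 ^ b * (X 0 + X 1 : MvPolynomial (Fin 2) K) ^ (2 * M)) * k ∈ T)
    (h2 : k * ev2 h (k * w)
      (X 0 ^ a * X 1 ^ b * (X 0 + X 1 : MvPolynomial (Fin 2) K) ^ (2 * M)) * k ∈ T) :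
    k ^ 2 * h ^ (a + 4 * M) * w * (h ^ b * k) ∈ T := by
  have hid := RBez_ideal T L R hTl hTr hLl hLr hRl h k w hL hR hkL hkR
  let J : Ideal (MvPolynomial (Fin 2) K) :=
    { carrier := {Q | k * k * ev2 h w (Q * (X 0 ^ a * X 1 ^ b)) * k ∈ T}
      add_mem' := by
        intro p q hp hq
        show k * k * ev2 h w ((p + q) * (X 0 ^ a * X 1 ^ b)) * k ∈ T
        rw [add_mul, map_add, mul_add, add_mul]
        exact T.add_mem hp hq
      zero_mem' := by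
        show k * k * ev2 h w (0 * (X 0 ^ a * X 1 ^ b)) * k ∈ T
        rw [zero_mul, map_zero, mul_zero, zero_mul]
        exact T.zero_mem
      smul_mem' := by
        intro c p hp
        show k * k * ev2 h w ((c * p) * (X 0 ^ a * X 1 ^ b)) * k ∈ T
        rw [mul_assoc c p]
        exact hid _ hp c }
  have hp : (X 0 + X 1 : MvPolynomial (Fin 2) K) ^ (2 * M) ∈ J := by
    show k * k * ev2 h w ((X 0 + X 1) ^ (2 * M) * (X 0 ^ a * X 1 ^ b)) * k ∈ T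
    have h3 := hTl k _ h1
    rw [mul_comm ((X 0 + X 1 : MvPolynomial (Fin 2) K) ^ (2 * M))]
    simpa only [mul_assoc] using h3
  have hq : (-(X 1 - X 0) : MvPolynomial (Fin 2) K) ^ (2 * M) ∈ J := by
    show k * k * ev2 h w ((-(X 1 - X 0)) ^ (2 * M) * (X 0 ^ a * X 1 ^ b)) * k ∈ T
    have h3 := RBez_shift T L hTr hLl hLr h k w hL hkL
      (X 0 ^ a * X 1 ^ b * (X 0 + X 1 : MvPolynomial (Fin 2) K) ^ (2 * M))
    have h4 : RBez_sg K (X 0 ^ a * X 1 ^ b * (X 0 + X 1) ^ (2 * M)) =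
        ((-1 : K) ^ a) • ((-(X 1 - X 0)) ^ (2 * M) * (X 0 ^ a * X 1 ^ b)) := by
      simp only [RBez_sg, map_mul, map_pow, map_add, aeval_X]
      rw [MvPolynomial.smul_eq_C_mul, map_pow, map_neg, map_one, Even.neg_pow (even_two_mul M)]
      simp only [Matrix.cons_val_zero, Matrix.cons_val_one]
      rw [neg_pow (X 0 : MvPolynomial (Fin 2) K) a,
        show (-X 0 + X 1 : MvPolynomial (Fin 2) K) = X 1 - X 0 by ring]
      ring
    rw [h4, map_smul] at h3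
    have h5 : k * k * ev2 (K := K) h w ((-(X 1 - X 0)) ^ (2 * M) * (X 0 ^ a * X 1 ^ b)) * k =
        ((-1 : K) ^ a) • (k * ev2 h (k * w)
          (X 0 ^ a * X 1 ^ b * (X 0 + X 1 : MvPolynomial (Fin 2) K) ^ (2 * M)) * k -
          k * (ev2 h (k * w)
          (X 0 ^ a * X 1 ^ b * (X 0 + X 1 : MvPolynomial (Fin 2) K) ^ (2 * M)) -
          k * ((-1 : K) ^ a) • ev2 (K := K) h w ((-(X 1 - X 0)) ^ (2 * M) * (X 0 ^ a * X 1 ^ b))) * k) := by
      have h6 : ((-1 : K) ^ a) * ((-1 : K) ^ a) = 1 := by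
        rw [← mul_pow]
        simp
      simp only [mul_sub, sub_mul, mul_smul_comm, smul_mul_assoc, smul_sub, smul_smul, h6,
        one_smul, mul_assoc]
      abel
    rw [h5]
    exact T.smul_mem _ (T.sub_mem h2 (hTr _ _ (hTl _ _ h3)))
  have hs := Ideal.add_pow_mem_of_pow_mem_of_le J hp hq
    (show 2 * M + 2 * M ≤ 4 * M + 1 by omega)
  have h7 : ((X 0 + X 1 : MvPolynomial (Fin 2) K) + -(X 1 - X 0)) ^ (4 * M) =
      C ((2 : K) ^ (4 * M)) * X 0 ^ (4 * M) := by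
    rw [map_pow, ← mul_pow]
    congr 1
    rw [map_ofNat]
    ring
  rw [h7] at hs
  have h8 : (X 0 : MvPolynomial (Fin 2) K) ^ (4 * M) ∈ J := by
    have h9 := J.mul_mem_left (C (((2 : K) ^ (4 * M))⁻¹)) hs
    rwa [← mul_assoc, ← map_mul, inv_mul_cancel₀ (pow_ne_zero _ two_ne_zero), map_one,
      one_mul] at h9
  have h10 : k * k * ev2 h w (X 0 ^ (4 * M) * (X 0 ^ a * X 1 ^ b)) * k ∈ T := h8
  rw [← mul_assoc, ← pow_add, ev2_pow, add_comm (4 * M) a] at h10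
  rw [pow_two]
  simpa only [mul_assoc] using h10

end Pool.Agent.H.MP_f5ceca_al.S
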