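import Pool.Agent.H.MP_f5ceca_al.S.RSlot

/-!
Elements `h`, `k` which anticommute modulo an ideal.
-/

namespace Pool.Agent.H.MP_f5ceca_al.S

universe u v

variable {K : Type*} [Field K] {B : Type*} [Ring B] [Algebra K B]

theorem RCent_sign1 {C : Type*} [Ring C] {h k : C} (hk : h * k = -(k * h)) (j : ℕ) :
    k * h ^ j = h ^ j * k ∨ k * h ^ j = -(h ^ j * k) := by
  have hk' : k * h = -(h * k) := by rw [hk, neg_neg]
  induction j with
  | zero => left; simp
  | succ j ih =>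
    rcases ih with h1 | h1
    · right
      rw [pow_succ, ← mul_assoc, h1, mul_assoc, hk', mul_neg, ← mul_assoc]
    · left
      rw [pow_succ, ← mul_assoc, h1, neg_mul, mul_assoc, hk', mul_neg, neg_neg, ← mul_assoc]

theorem RCent_sign {C : Type*} [Ring C] {h k : C} (hk : h * k = -(k * h)) (i j : ℕ) :
    k ^ i * h ^ j = h ^ j * k ^ i ∨ k ^ i * h ^ j = -(h ^ j * k ^ i) := by
  induction i with
  | zero => left; simp
  | succ i ih =>
    rcases ih with h1 | h1 <;> rcases RCent_sign1 hk j with h2 | h2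
    · left
      rw [pow_succ, mul_assoc, h2, ← mul_assoc, h1, mul_assoc]
    · right
      rw [pow_succ, mul_assoc, h2, mul_neg, ← mul_assoc, h1, mul_assoc]
    · right
      rw [pow_succ, mul_assoc, h2, ← mul_assoc, h1, neg_mul, mul_assoc]
    · left
      rw [pow_succ, mul_assoc, h2, mul_neg, ← mul_assoc, h1, neg_mul, neg_neg, mul_assoc]

theorem RCent_comm {C : Type*} [Ring C] {h k : C} (hk : h * k = -(k * h)) : Commute (k ^ 2) (h ^ 2) := by
  have hk' : k * h = -(h * k) := by rw [hk, neg_neg]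
  have h1 : k * h ^ 2 = h ^ 2 * k := by
    rw [pow_two, ← mul_assoc, hk', neg_mul, mul_assoc, hk', mul_neg, neg_neg, mul_assoc]
  have h2 : Commute k (h ^ 2) := h1
  exact h2.pow_left 2

theorem RCent_left {C : Type*} [Ring C] {h k : C} (hk : h * k = -(k * h)) {α β N : ℕ} (hα : α ≤ 2 * N)
    (hβ : β ≤ 2 * N) : ∃ y : C, (k ^ 2 * h ^ 2) ^ N = y * (k ^ α * h ^ β) := by
  have h1 : (k ^ 2 * h ^ 2) ^ N = k ^ (2 * N - α) * (k ^ α * h ^ (2 * N - β)) * h ^ β := by
    rw [(RCent_comm hk).mul_pow, ← pow_mul, ← pow_mul, ← mul_assoc, ← pow_add, mul_assoc,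
      ← pow_add, Nat.sub_add_cancel hα, Nat.sub_add_cancel hβ]
  rcases RCent_sign hk α (2 * N - β) with h2 | h2
  · refine ⟨k ^ (2 * N - α) * h ^ (2 * N - β), ?_⟩
    rw [h1, h2]
    simp only [mul_assoc]
  · refine ⟨-(k ^ (2 * N - α) * h ^ (2 * N - β)), ?_⟩
    rw [h1, h2]
    simp only [mul_assoc, neg_mul, mul_neg]

theorem RCent_right {C : Type*} [Ring C] {h k : C} (hk : h * k = -(k * h)) {α β N : ℕ} (hα : α ≤ 2 * N)
    (hβ : β ≤ 2 * N) : ∃ y : C, (k ^ 2 * h ^ 2) ^ N = h ^ β * k ^ α * y := by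
  have h1 : (k ^ 2 * h ^ 2) ^ N = h ^ β * (h ^ (2 * N - β) * k ^ α) * k ^ (2 * N - α) := by
    rw [(RCent_comm hk).mul_pow, ((RCent_comm hk).pow_pow N N).eq, ← pow_mul, ← pow_mul,
      ← mul_assoc, ← pow_add, mul_assoc, ← pow_add, Nat.add_sub_cancel' hα,
      Nat.add_sub_cancel' hβ]
  rcases RCent_sign hk α (2 * N - β) with h2 | h2
  · refine ⟨h ^ (2 * N - β) * k ^ (2 * N - α), ?_⟩
    rw [h1, ← h2]
    simp only [mul_assoc]
  · refine ⟨-(h ^ (2 * N - β) * k ^ (2 * N - α)), ?_⟩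
    have h3 : h ^ (2 * N - β) * k ^ α = -(k ^ α * h ^ (2 * N - β)) := by rw [h2, neg_neg]
    rw [h1, h3]
    simp only [mul_assoc, neg_mul, mul_neg]

/-- the quotient ring -/
theorem RCent_quot {K : Type u} [Field K] {B : Type v} [Ring B] [Algebra K B] (L : Submodule K B) (hLl : ∀ c, ∀ z ∈ L, c * z ∈ L)
    (hLr : ∀ c, ∀ z ∈ L, z * c ∈ L) :
    ∃ (A : Type v) (_ : Ring A) (π : B →+* A), Function.Surjective π ∧ ∀ z, π z = 0 ↔ z ∈ L := by
  let c : RingCon B :=
    { r := fun x y => x - y ∈ L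
      iseqv := ⟨fun x => by rw [sub_self]; exact L.zero_mem,
        fun {x y} h => by
          have : y - x = -(x - y) := by abel
          rw [this]
          exact L.neg_mem h,
        fun {x y z} h1 h2 => by
          have : x - z = (x - y) + (y - z) := by abel
          rw [this]
          exact L.add_mem h1 h2⟩
      add' := fun {w x y z} h1 h2 => by
        have : w + y - (x + z) = (w - x) + (y - z) := by abel
        show w + y - (x + z) ∈ L
        rw [this]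
        exact L.add_mem h1 h2
      mul' := fun {w x y z} h1 h2 => by
        have : w * y - x * z = (w - x) * y + x * (y - z) := by
          rw [sub_mul, mul_sub]
          abel
        show w * y - x * z ∈ L
        rw [this]
        exact L.add_mem (hLr _ _ h1) (hLl _ _ h2) }
  refine ⟨c.Quotient, inferInstance, c.mk', c.mk'_surjective, ?_⟩
  intro z
  have h1 : ((z : B) : c.Quotient) = ((0 : B) : c.Quotient) ↔ c z 0 := c.eq
  have h2 : c z 0 ↔ z ∈ L := by
    show z - 0 ∈ L ↔ z ∈ L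
    rw [sub_zero]
  exact h1.trans h2

/-- PROOF. Modulo `L` (a ring `B ⧸ L`, or calculations with `∃`): `h k = - k h`, so `k^2` and `h^2` commute with `h` and `k`, and
`(k^2 h^2)^N = k^{2N} h^{2N} = k^{2N-α} k^α h^{2N-β} h^β = ± k^{2N-α} h^{2N-β} k^α h^β`. -/
theorem cent_left (L : Submodule K B) (hLl : ∀ c, ∀ z ∈ L, c * z ∈ L)
    (hLr : ∀ c, ∀ z ∈ L, z * c ∈ L) {h k : B} (hk : h * k + k * h ∈ L) {α β N : ℕ}
    (hα : α ≤ 2 * N) (hβ : β ≤ 2 * N) :
    ∃ y : B, (k ^ 2 * h ^ 2) ^ N - y * (k ^ α * h ^ β) ∈ L := by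
  obtain ⟨A, _, π, hs, hπ⟩ := RCent_quot L hLl hLr
  have h1 : π h * π k = -(π k * π h) := by
    have h2 := (hπ _).2 hk
    rw [map_add, map_mul, map_mul] at h2
    exact eq_neg_of_add_eq_zero_left h2
  obtain ⟨y, hy⟩ := RCent_left h1 hα hβ
  obtain ⟨y', rfl⟩ := hs y
  refine ⟨y', (hπ _).1 ?_⟩
  rw [map_sub, map_pow, map_mul, map_pow, map_pow, map_mul, map_mul, map_pow, map_pow, hy, sub_self]

theorem cent_right (L : Submodule K B) (hLl : ∀ c, ∀ z ∈ L, c * z ∈ L)
    (hLr : ∀ c, ∀ z ∈ L, z * c ∈ L) {h k : B} (hk : h * k + k * h ∈ L) {α β N : ℕ}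
    (hα : α ≤ 2 * N) (hβ : β ≤ 2 * N) :
    ∃ y : B, (k ^ 2 * h ^ 2) ^ N - (h ^ β * k ^ α) * y ∈ L := by
  obtain ⟨A, _, π, hs, hπ⟩ := RCent_quot L hLl hLr
  have h1 : π h * π k = -(π k * π h) := by
    have h2 := (hπ _).2 hk
    rw [map_add, map_mul, map_mul] at h2
    exact eq_neg_of_add_eq_zero_left h2
  obtain ⟨y, hy⟩ := RCent_right h1 hα hβ
  obtain ⟨y', rfl⟩ := hs y
  refine ⟨y', (hπ _).1 ?_⟩
  rw [map_sub, map_pow, map_mul, map_pow, map_pow, map_mul, map_mul, map_pow, map_pow, hy, sub_self]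

end Pool.Agent.H.MP_f5ceca_al.S
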