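import Pool.Agent.H.MP_f5ceca_al.S.RSlot2

/-!
The two-sided evaluation `X_0^i X_1^j ↦ h^i w h^j`.
-/

namespace Pool.Agent.H.MP_f5ceca_al.S

open MvPolynomial

universe u v

variable {K : Type*} [Field K] [CharZero K] {B : Type*} [Ring B] [Algebra K B]

/-- `X_0^i X_1^j ↦ h^i w h^j` -/
noncomputable def ev2 (h w : B) : MvPolynomial (Fin 2) K →ₗ[K] B :=
  (MvPolynomial.basisMonomials (Fin 2) K).constr K fun e => h ^ e 0 * w * h ^ e 1

theorem REv2_monomial (h w : B) (e : Fin 2 →₀ ℕ) (r : K) :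
    ev2 h w (monomial e r) = r • (h ^ e 0 * w * h ^ e 1) := by
  have h1 : (monomial e r : MvPolynomial (Fin 2) K) =
      r • MvPolynomial.basisMonomials (Fin 2) K e := by
    rw [MvPolynomial.coe_basisMonomials, MvPolynomial.smul_monomial, smul_eq_mul, mul_one]
  rw [h1, map_smul, ev2, Module.Basis.constr_basis]

theorem REv2_ext {M : Type*} [AddCommGroup M] [Module K M] {f g : MvPolynomial (Fin 2) K →ₗ[K] M}
    (h : ∀ e : Fin 2 →₀ ℕ, f (monomial e 1) = g (monomial e 1)) : f = g := by
  refine (MvPolynomial.basisMonomials (Fin 2) K).ext fun e => ?_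
  rw [MvPolynomial.coe_basisMonomials]
  exact h e

theorem ev2_pow (h w : B) (i j : ℕ) :
    ev2 (K := K) h w (X 0 ^ i * X 1 ^ j) = h ^ i * w * h ^ j := by
  have h1 : (X 0 ^ i * X 1 ^ j : MvPolynomial (Fin 2) K) =
      monomial (Finsupp.single 0 i + Finsupp.single 1 j) 1 := by
    rw [X_pow_eq_monomial, X_pow_eq_monomial, monomial_mul, mul_one]
  rw [h1, REv2_monomial, one_smul]
  simp

theorem ev2_X0 (h w : B) (P : MvPolynomial (Fin 2) K) : ev2 h w (X 0 * P) = h * ev2 h w P := by
  have h1 : (ev2 h w).comp (LinearMap.mulLeft K (X 0 : MvPolynomial (Fin 2) K)) =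
      (LinearMap.mulLeft K h).comp (ev2 (K := K) h w) := by
    refine REv2_ext fun e => ?_
    simp only [LinearMap.comp_apply, LinearMap.mulLeft_apply]
    rw [X, monomial_mul, mul_one, REv2_monomial, REv2_monomial, one_smul, one_smul]
    simp [pow_add, mul_assoc]
  exact LinearMap.congr_fun h1 P

theorem ev2_X1 (h w : B) (P : MvPolynomial (Fin 2) K) : ev2 h w (X 1 * P) = ev2 h w P * h := by
  have h1 : (ev2 h w).comp (LinearMap.mulLeft K (X 1 : MvPolynomial (Fin 2) K)) =
      (LinearMap.mulRight K h).comp (ev2 (K := K) h w) := by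
    refine REv2_ext fun e => ?_
    simp only [LinearMap.comp_apply, LinearMap.mulLeft_apply, LinearMap.mulRight_apply]
    rw [X, monomial_mul, mul_one, REv2_monomial, REv2_monomial, one_smul, one_smul]
    simp [add_comm 1, pow_succ, mul_assoc]
  exact LinearMap.congr_fun h1 P

end Pool.Agent.H.MP_f5ceca_al.S
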