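import Pool.Agent.H.MP_f5ceca_al.S.Defs
import Pool.Agent.H.MP_f5ceca_al.S.RCent

/-!
Basic facts on `HH`, `Jd` and `Fil`.
-/

namespace Pool.Agent.H.MP_f5ceca_al.S

open MvPolynomial
open Pool.Agent.H.MP_f5ceca_al.N (FA xx Com Fil Aug)

universe u

variable {K : Type u} [Field K] {n : ℕ}

theorem polE_eq_P2 (M : ℕ) : polE K M = P2 K M := by
  unfold polE P2 uu
  rfl

theorem RHH_mem_Jd {z : FA K n} : z ∈ Jd K n ↔ rho2 K n z = 0 := Iff.rfl

theorem RHH_sq {A : Type*} [CommRing A] (x : Matrix (Fin 2) (Fin 2) A) (hx : x.trace = 0) :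
    x ^ 2 = (-x.det) • (1 : Matrix (Fin 2) (Fin 2) A) := by
  rw [Matrix.trace_fin_two] at hx
  have h1 : x 1 1 = -x 0 0 := by linear_combination hx
  rw [sq, Matrix.det_fin_two]
  ext i j
  fin_cases i <;> fin_cases j <;>
    simp [Matrix.mul_apply, Fin.sum_univ_two, h1] <;> ring

/-- `h^2` is central modulo `J` for `h ∈ HH`. PROOF. A traceless `2 × 2` matrix `A` over a commutative ring has
`A^2 = - det A • 1` (entries). -/
theorem HH_sq {h : FA K n} (hh : h ∈ HH K n) (x : FA K n) :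
    h ^ 2 * x - x * h ^ 2 ∈ Jd K n := by
  rw [RHH_mem_Jd, map_sub, map_mul, map_mul, map_pow, RHH_sq _ hh.2, smul_mul_assoc, one_mul,
    mul_smul_comm, mul_one, sub_self]

theorem HH_br {h : FA K n} (hh : h ∈ HH K n) (b : FA K n) : h * b - b * h ∈ HH K n := by
  refine ⟨sub_mem (N.Com_right K b hh.1) (N.Com_left K b hh.1), ?_⟩
  rw [map_sub, map_mul, map_mul, Matrix.trace_sub, Matrix.trace_mul_comm, sub_self]

/-- PROOF. `h (h b - b h) + (h b - b h) h = h^2 b - b h^2`, `HH_sq`. -/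
theorem HH_anti {h : FA K n} (hh : h ∈ HH K n) (b : FA K n) :
    h * (h * b - b * h) + (h * b - b * h) * h ∈ Jd K n := by
  have h1 : h * (h * b - b * h) + (h * b - b * h) * h = h ^ 2 * b - b * h ^ 2 := by
    noncomm_ring
  rw [h1]
  exact HH_sq hh b

theorem Jd_id : IsId (Jd K n) where
  left := fun a z hz => by
    rw [RHH_mem_Jd] at hz ⊢
    rw [map_mul, hz, mul_zero]
  right := fun a z hz => by
    rw [RHH_mem_Jd] at hz ⊢
    rw [map_mul, hz, zero_mul]

/-- Scalar matrices for the generic matrices. -/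
noncomputable def RHH_phi (K : Type u) [Field K] (n : ℕ) : A2 K n →ₐ[K] N.RX K n 0 :=
  aeval fun q => if q.2.1 = q.2.2 then N.gX K n 0 0 q.1 else 0

theorem RHH_ev (z : FA K n) : RHH_phi K n (rho2 K n z 0 0) = N.ev K n 0 0 z := by
  have h : (RHH_phi K n).mapMatrix.comp (rho2 K n) =
      (IsScalarTower.toAlgHom K (N.RX K n 0) (Matrix (Fin 2) (Fin 2) (N.RX K n 0))).comp
        (N.ev K n 0 0) := by
    refine FreeAlgebra.hom_ext (funext fun j => ?_)
    rw [Function.comp_apply, AlgHom.comp_apply, Function.comp_apply, AlgHom.comp_apply]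
    have h1 : N.ev K n 0 0 (FreeAlgebra.ι K j) = N.gX K n 0 0 j := by
      unfold N.ev
      rw [FreeAlgebra.lift_ι_apply]
    rw [h1, rho2, FreeAlgebra.lift_ι_apply, AlgHom.mapMatrix_apply]
    ext1 a b
    rw [Matrix.map_apply, gm, RHH_phi, aeval_X, IsScalarTower.toAlgHom_apply,
      Matrix.algebraMap_matrix_apply]
    rfl
  have h2 := congrFun (congrFun (DFunLike.congr_fun h z) 0) 0
  rw [AlgHom.comp_apply, AlgHom.comp_apply, AlgHom.mapMatrix_apply, Matrix.map_apply,
    IsScalarTower.toAlgHom_apply, Matrix.algebraMap_matrix_apply, if_pos rfl] at h2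
  exact h2

theorem Jd_le_Com [CharZero K] : Jd K n ≤ Com K n := by
  intro z hz
  rw [RHH_mem_Jd] at hz
  rw [← N.Fil_one]
  apply N.mem_Fil_of_sym
  intro i hi
  obtain rfl : i = 0 := by omega
  have h1 : N.sym K n 0 z = C (N.ev K n 0 0 z) := N.tau_diag K n 0 z 0
  rw [h1, ← RHH_ev, hz, Matrix.zero_apply, map_zero, map_zero]

theorem Fil_mul (a b : ℕ) : Fil K n a * Fil K n b = Fil K n (a + b) := by
  induction b with
  | zero =>
    rw [N.Fil_zero, Nat.add_zero]
    apply le_antisymm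
    · rw [Submodule.mul_le]
      intro x hx y _
      exact N.Fil_right K a y hx
    · intro x hx
      have h1 := Submodule.mul_mem_mul hx (Submodule.mem_top (x := (1 : FA K n)) (R := K))
      rwa [mul_one] at h1
  | succ b ih => rw [N.Fil_succ, ← mul_assoc, ih, ← Nat.add_assoc, N.Fil_succ]

end Pool.Agent.H.MP_f5ceca_al.S
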