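import Pool.Agent.H.MP_f5ceca_al.S.REv2

/-!
The relation (iii): the computation of the top coefficient of (E2') for `z ↦ t z + h`.
-/

namespace Pool.Agent.H.MP_f5ceca_al.S

open MvPolynomial

universe u v

variable {K : Type*} [Field K] [CharZero K] {B : Type*} [Ring B] [Algebra K B]

/-- The slot polynomial after the substitution `(X 0, X 1, t X 2, X 3)` and division by `t^M`. -/
noncomputable def Qc (K : Type*) [Field K] (M : ℕ) (t : K) : MvPolynomial (Fin 4) K :=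
  (t • X 2 - X 1) * X 1 * ((X 1 * (X 1 - X 0) * (X 1 - X 3)) ^ 2 *
    (X 2 * (t • X 2 - X 0) * (t • X 2 - X 3))) ^ M

theorem Qc_spec (M : ℕ) (t : K) :
    aeval (fun i => (![1, 1, t, 1] : Fin 4 → K) i • (X i : MvPolynomial (Fin 4) K)) (P2 K M) =
      t ^ M • Qc K M t := by
  unfold P2 Qc
  have h3 : (![1, 1, t, 1] : Fin 4 → K) 3 = 1 := rfl
  have h2 : (![1, 1, t, 1] : Fin 4 → K) 2 = t := rfl
  have h1 : (![1, 1, t, 1] : Fin 4 → K) 1 = 1 := rfl
  have h0 : (![1, 1, t, 1] : Fin 4 → K) 0 = 1 := rfl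
  simp only [map_mul, map_sub, map_pow, aeval_X, h0, h1, h2, h3, one_smul]
  have e : (X 1 * (X 1 - X 0) * (X 1 - X 3)) ^ 2 *
      (t • X 2 * (t • X 2 - X 0) * (t • X 2 - X 3)) =
      t • ((X 1 * (X 1 - X 0) * (X 1 - X 3)) ^ 2 *
      (X 2 * (t • X 2 - X 0) * (t • X 2 - X 3)) : MvPolynomial (Fin 4) K) := by
    simp only [smul_mul_assoc, mul_smul_comm]
  rw [e, smul_pow, mul_smul_comm]

/-- Both outer slots are moved to the letters `u`, `u'`: for every `P` in the variables `X 0, X 1, X 3`. PROOF. On monomials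
`h^i k h^j u z^M u' k h^l = (-1)^{i+l} k h^{i+j} u z^M u' h^l k` modulo `T` by `hl` and `hr`. -/
theorem sv_to_ev2 (M : ℕ) (T : Submodule K B) (hTl : ∀ c, ∀ z ∈ T, c * z ∈ T)
    (hTr : ∀ c, ∀ z ∈ T, z * c ∈ T) (z h k u u' : B)
    (hl : ∀ i j : ℕ, (h ^ i * k * h ^ j - (-1 : K) ^ i • (k * h ^ (i + j))) * u ∈ T)
    (hr : ∀ i j : ℕ, u' * (h ^ i * k * h ^ j - (-1 : K) ^ j • (h ^ (i + j) * k)) ∈ T)
    (P : MvPolynomial (Fin 3) K) :
    sv ![h, h, z, h] k u (u' * k) (rename ![(0 : Fin 4), 1, 3] P * X 2 ^ M) -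
      k * ev2 h (u * z ^ M * u')
        (aeval ![-(X 0 : MvPolynomial (Fin 2) K), X 0, -X 1] P) * k ∈ T := by
  have h1 : T.mkQ.comp
      (((sv (K := K) ![h, h, z, h] k u (u' * k)).comp
        (LinearMap.mulRight K (X 2 ^ M : MvPolynomial (Fin 4) K))).comp
          (rename (R := K) ![(0 : Fin 4), 1, 3]).toLinearMap -
        (LinearMap.mulRight K k).comp ((LinearMap.mulLeft K k).comp
          ((ev2 (K := K) h (u * z ^ M * u')).comp
            (aeval (R := K) ![-(X 0 : MvPolynomial (Fin 2) K), X 0, -X 1]).toLinearMap))) =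
      0 := by
    refine BR.ext_three fun i j l => ?_
    rw [LinearMap.comp_apply, LinearMap.zero_apply, Submodule.mkQ_apply,
      Submodule.Quotient.mk_eq_zero]
    simp only [LinearMap.sub_apply, LinearMap.comp_apply, LinearMap.mulRight_apply,
      LinearMap.mulLeft_apply, AlgHom.toLinearMap_apply]
    have e1 : rename (R := K) ![(0 : Fin 4), 1, 3] (X 0 ^ i * X 1 ^ j * X 2 ^ l) * X 2 ^ M =
        X 0 ^ i * X 1 ^ j * X 2 ^ M * X 3 ^ l := by
      simp only [map_mul, map_pow, rename_X]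
      have r0 : (![(0 : Fin 4), 1, 3] : Fin 3 → Fin 4) 0 = 0 := rfl
      have r1 : (![(0 : Fin 4), 1, 3] : Fin 3 → Fin 4) 1 = 1 := rfl
      have r2 : (![(0 : Fin 4), 1, 3] : Fin 3 → Fin 4) 2 = 3 := rfl
      rw [r0, r1, r2]
      ring
    have e2 : aeval (R := K) ![-(X 0 : MvPolynomial (Fin 2) K), X 0, -X 1]
        (X 0 ^ i * X 1 ^ j * X 2 ^ l) =
        ((-1 : K) ^ i * (-1 : K) ^ l) • (X 0 ^ (i + j) * X 1 ^ l) := by
      simp only [map_mul, map_pow, aeval_X]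
      have r0 : (![-(X 0 : MvPolynomial (Fin 2) K), X 0, -X 1] :
        Fin 3 → MvPolynomial (Fin 2) K) 0 = -X 0 := rfl
      have r1 : (![-(X 0 : MvPolynomial (Fin 2) K), X 0, -X 1] :
        Fin 3 → MvPolynomial (Fin 2) K) 1 = X 0 := rfl
      have r2 : (![-(X 0 : MvPolynomial (Fin 2) K), X 0, -X 1] :
        Fin 3 → MvPolynomial (Fin 2) K) 2 = -X 1 := rfl
      rw [r0, r1, r2, neg_pow (X 0 : MvPolynomial (Fin 2) K) i,
        neg_pow (X 1 : MvPolynomial (Fin 2) K) l, smul_eq_C_mul, map_mul, map_pow, map_pow,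
        map_neg, map_one, pow_add]
      ring
    rw [e1, e2, sv_pow, map_smul, ev2_pow]
    have v0 : (![h, h, z, h] : Fin 4 → B) 0 = h := rfl
    have v1 : (![h, h, z, h] : Fin 4 → B) 1 = h := rfl
    have v2 : (![h, h, z, h] : Fin 4 → B) 2 = z := rfl
    have v3 : (![h, h, z, h] : Fin 4 → B) 3 = h := rfl
    rw [v0, v1, v2, v3]
    have m1 := hTr (z ^ M * (u' * k) * h ^ l) _ (hl i j)
    have m2 := hTl (((-1 : K) ^ i) • (k * h ^ (i + j) * u * z ^ M)) _ (hr 0 l)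
    have m3 := add_mem m1 m2
    convert m3 using 1
    simp only [pow_zero, one_mul, zero_add, mul_sub, sub_mul, smul_mul_assoc, mul_smul_comm,
      smul_smul, mul_assoc]
    have hc : (-1 : K) ^ l * (-1 : K) ^ i = (-1 : K) ^ i * (-1 : K) ^ l := mul_comm _ _
    try rw [hc]
    abel
  have h2 := LinearMap.congr_fun h1 P
  rw [LinearMap.comp_apply, LinearMap.zero_apply, Submodule.mkQ_apply,
      Submodule.Quotient.mk_eq_zero] at h2
  simpa only [LinearMap.sub_apply, LinearMap.comp_apply, LinearMap.mulRight_apply,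
      LinearMap.mulLeft_apply, AlgHom.toLinearMap_apply] using h2

/-- PROOF. As for `iv_core`: by `sv_congr` and `hm` (the slot `2`), `sv ![t z + h, t z + h, t z, t z + h] k u (u' k) P2 ∈ T`; `sv_scale`
with `s = ![1, 1, t, 1]`, `Qc_spec`, `isPoly_sv`, `IsPoly.zero_mem`: `sv ![h, h, z, h] k u (u' k) (Qc 0) ∈ T`, and
`Qc 0 = - X_1^2 ((X_1 (X_1 - X_0) (X_1 - X_3))^2 X_0 X_3)^M X_2^M`; `sv_to_ev2`:
`P(- X_0, X_0, - X_1) = - 4^M X_0^{2+5M} X_1^M (X_0 + X_1)^{2M}`. -/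
theorem iii_core (M : ℕ) (T : Submodule K B) (hTl : ∀ c, ∀ z ∈ T, c * z ∈ T)
    (hTr : ∀ c, ∀ z ∈ T, z * c ∈ T) (z h k u u' : B)
    (hE : ∀ t : K, sv (fun _ => t • z + h) k u (u' * k) (P2 K M) ∈ T)
    (hm : ∀ (t : K) (i : ℕ), u * ((t • z + h) ^ i - (t • z) ^ i) * u' ∈ T)
    (hl : ∀ i j : ℕ, (h ^ i * k * h ^ j - (-1 : K) ^ i • (k * h ^ (i + j))) * u ∈ T)
    (hr : ∀ i j : ℕ, u' * (h ^ i * k * h ^ j - (-1 : K) ^ j • (h ^ (i + j) * k)) ∈ T) :
    k * ev2 h (u * z ^ M * u')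
      (X 0 ^ (2 + 5 * M) * X 1 ^ M * (X 0 + X 1 : MvPolynomial (Fin 2) K) ^ (2 * M)) * k ∈ T := by
  -- the slot `2`
  have s1 : ∀ t : K, sv ![t • z + h, t • z + h, t • z, t • z + h] k u (u' * k) (P2 K M) ∈ T := by
    intro t
    have c := sv_congr (K := K) T hTl hTr (fun _ => t • z + h)
      ![t • z + h, t • z + h, t • z, t • z + h] k k (u' * k) (u' * k) u
      (fun i j => by
        have e : (t • z + h) ^ i * k * (t • z + h) ^ j -
            (![t • z + h, t • z + h, t • z, t • z + h] : Fin 4 → B) 0 ^ i * k *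
              (![t • z + h, t • z + h, t • z, t • z + h] : Fin 4 → B) 1 ^ j = 0 :=
          sub_self _
        rw [e, zero_mul]
        exact zero_mem _)
      (fun i j => by
        have m := hTr (k * (t • z + h) ^ j) _ (hm t i)
        have e : u * ((t • z + h) ^ i * (u' * k) * (t • z + h) ^ j -
            (![t • z + h, t • z + h, t • z, t • z + h] : Fin 4 → B) 2 ^ i * (u' * k) *
              (![t • z + h, t • z + h, t • z, t • z + h] : Fin 4 → B) 3 ^ j) =
            u * ((t • z + h) ^ i - (t • z) ^ i) * u' * (k * (t • z + h) ^ j) := by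
          change u * ((t • z + h) ^ i * (u' * k) * (t • z + h) ^ j -
            (t • z) ^ i * (u' * k) * (t • z + h) ^ j) = _
          simp only [mul_sub, sub_mul, mul_assoc]
        rw [e]
        exact m) (P2 K M)
    have c2 := sub_mem (hE t) c
    rwa [sub_sub_cancel] at c2
  -- scaling
  have s2 : ∀ t : K, t ≠ 0 →
      sv ![t • z + h, t • z + h, z, t • z + h] k u (u' * k) (Qc K M t) ∈ T := by
    intro t ht
    have e : (![t • z + h, t • z + h, t • z, t • z + h] : Fin 4 → B) =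
        fun i => (![1, 1, t, 1] : Fin 4 → K) i •
          (![t • z + h, t • z + h, z, t • z + h] : Fin 4 → B) i := by
      funext i
      fin_cases i
      · exact (one_smul K _).symm
      · exact (one_smul K _).symm
      · rfl
      · exact (one_smul K _).symm
    have c := s1 t
    rw [e, sv_scale, Qc_spec, map_smul] at c
    have c2 := T.smul_mem ((t ^ M)⁻¹) c
    rwa [smul_smul, inv_mul_cancel₀ (pow_ne_zero M ht), one_smul] at c2
  -- the value at `0`
  have hQ : IsPoly fun t : K => Qc K M t := by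
    unfold Qc
    exact (((IsPoly.const (K := K) (X 2 : MvPolynomial (Fin 4) K)).smul_id.sub
      (IsPoly.const _)).mul (IsPoly.const _)).mul
        (((IsPoly.const _).mul (((IsPoly.const _).mul
          ((IsPoly.const (K := K) (X 2 : MvPolynomial (Fin 4) K)).smul_id.sub
            (IsPoly.const _))).mul
          ((IsPoly.const (K := K) (X 2 : MvPolynomial (Fin 4) K)).smul_id.sub
            (IsPoly.const _)))).pow M)
  have hzh : IsPoly fun t : K => t • z + h := (IsPoly.const z).smul_id.add (IsPoly.const h)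
  have hζ : ∀ i, IsPoly fun t : K =>
      (![t • z + h, t • z + h, z, t • z + h] : Fin 4 → B) i := by
    intro i
    fin_cases i
    · exact hzh
    · exact hzh
    · exact IsPoly.const z
    · exact hzh
  have s3 := (isPoly_sv hζ k u (u' * k) hQ).zero_mem T s2
  have s3' : sv ![h, h, z, h] k u (u' * k) (Qc K M 0) ∈ T := by
    have e : (![(0 : K) • z + h, (0 : K) • z + h, z, (0 : K) • z + h] : Fin 4 → B) =
        ![h, h, z, h] := by
      rw [zero_smul, zero_add]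
    rw [← e]
    exact s3
  -- the polynomial
  have e3 : Qc K M 0 = rename ![(0 : Fin 4), 1, 3]
      (-(X 1 ^ 2) * (X 1 ^ 2 * (X 1 - X 0) ^ 2 * (X 1 - X 2) ^ 2 * (X 0 * X 2) :
        MvPolynomial (Fin 3) K) ^ M) * X 2 ^ M := by
    unfold Qc
    simp only [map_mul, map_pow, map_neg, map_sub, rename_X]
    have r0 : (![(0 : Fin 4), 1, 3] : Fin 3 → Fin 4) 0 = 0 := rfl
    have r1 : (![(0 : Fin 4), 1, 3] : Fin 3 → Fin 4) 1 = 1 := rfl
    have r2 : (![(0 : Fin 4), 1, 3] : Fin 3 → Fin 4) 2 = 3 := rfl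
    rw [r0, r1, r2, zero_smul]
    have e4 : (X 1 * (X 1 - X 0) * (X 1 - X 3)) ^ 2 * (X 2 * (0 - X 0) * (0 - X 3)) =
        (X 1 ^ 2 * (X 1 - X 0) ^ 2 * (X 1 - X 3) ^ 2 * (X 0 * X 3) * X 2 :
          MvPolynomial (Fin 4) K) := by ring
    rw [e4, mul_pow _ (X 2 : MvPolynomial (Fin 4) K) M]
    ring
  rw [e3] at s3'
  have s4 := sub_mem s3' (sv_to_ev2 M T hTl hTr z h k u u' hl hr
    (-(X 1 ^ 2) * (X 1 ^ 2 * (X 1 - X 0) ^ 2 * (X 1 - X 2) ^ 2 * (X 0 * X 2)) ^ M))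
  rw [sub_sub_cancel] at s4
  have e5 : aeval ![-(X 0 : MvPolynomial (Fin 2) K), X 0, -X 1]
      (-(X 1 ^ 2) * (X 1 ^ 2 * (X 1 - X 0) ^ 2 * (X 1 - X 2) ^ 2 * (X 0 * X 2) :
        MvPolynomial (Fin 3) K) ^ M) =
      (-(4 : K) ^ M) • (X 0 ^ (2 + 5 * M) * X 1 ^ M *
        (X 0 + X 1 : MvPolynomial (Fin 2) K) ^ (2 * M)) := by
    simp only [map_mul, map_pow, map_neg, map_sub, aeval_X]
    have r0 : (![-(X 0 : MvPolynomial (Fin 2) K), X 0, -X 1] :
      Fin 3 → MvPolynomial (Fin 2) K) 0 = -X 0 := rfl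
    have r1 : (![-(X 0 : MvPolynomial (Fin 2) K), X 0, -X 1] :
      Fin 3 → MvPolynomial (Fin 2) K) 1 = X 0 := rfl
    have r2 : (![-(X 0 : MvPolynomial (Fin 2) K), X 0, -X 1] :
      Fin 3 → MvPolynomial (Fin 2) K) 2 = -X 1 := rfl
    rw [r0, r1, r2]
    have e4 : (X 0 ^ 2 * (X 0 - -X 0) ^ 2 * (X 0 - -X 1) ^ 2 * (-X 0 * -X 1) :
        MvPolynomial (Fin 2) K) = 4 * (X 0 ^ 5 * X 1 * (X 0 + X 1) ^ 2) := by ring
    rw [e4, smul_eq_C_mul, map_neg, map_pow, map_ofNat, mul_pow, mul_pow, mul_pow, ← pow_mul,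
      ← pow_mul, pow_add]
    ring
  rw [e5, map_smul, mul_smul_comm, smul_mul_assoc] at s4
  have s5 := T.smul_mem ((-(4 : K) ^ M)⁻¹) s4
  have h4 : (-(4 : K) ^ M) ≠ 0 := neg_ne_zero.2 (pow_ne_zero M (by norm_num))
  rwa [smul_smul, inv_mul_cancel₀ h4, one_smul] at s5

end Pool.Agent.H.MP_f5ceca_al.S
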