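import Pool.Agent.H.MP_f5ceca_al.S.RSlot2

/-!
The relation (iv): the computation of the top coefficient of (E2') for
`z ↦ t z + h`.
-/

namespace Pool.Agent.H.MP_f5ceca_al.S

open MvPolynomial

universe u v

variable {K : Type*} [Field K] [CharZero K] {B : Type*} [Ring B] [Algebra K B]

/-- The slot polynomial after the substitution `(X 0, X 1, t X 2, t X 3)` and division by `t^{2M}`. -/
noncomputable def Qa (K : Type*) [Field K] (M : ℕ) (t : K) : MvPolynomial (Fin 4) K :=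
  (t • X 2 - X 1) * X 1 * ((X 1 * (X 1 - X 0) * (X 1 - t • X 3)) ^ 2 *
    (X 2 * (t • X 2 - X 0) * (X 2 - X 3))) ^ M

theorem Qa_spec (M : ℕ) (t : K) :
    aeval (fun i => (![1, 1, t, t] : Fin 4 → K) i • (X i : MvPolynomial (Fin 4) K)) (P2 K M) =
      t ^ (2 * M) • Qa K M t := by
  have e0 : aeval (fun i => (![1, 1, t, t] : Fin 4 → K) i • (X i : MvPolynomial (Fin 4) K))
      (X 0 : MvPolynomial (Fin 4) K) = X 0 := by simp
  have e1 : aeval (fun i => (![1, 1, t, t] : Fin 4 → K) i • (X i : MvPolynomial (Fin 4) K))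
      (X 1 : MvPolynomial (Fin 4) K) = X 1 := by simp
  have e2 : aeval (fun i => (![1, 1, t, t] : Fin 4 → K) i • (X i : MvPolynomial (Fin 4) K))
      (X 2 : MvPolynomial (Fin 4) K) = C t * X 2 := by
    rw [aeval_X, smul_eq_C_mul]
    rfl
  have e3 : aeval (fun i => (![1, 1, t, t] : Fin 4 → K) i • (X i : MvPolynomial (Fin 4) K))
      (X 3 : MvPolynomial (Fin 4) K) = C t * X 3 := by
    rw [aeval_X, smul_eq_C_mul]
    rfl
  simp only [P2, Qa, map_mul, map_pow, map_sub, e0, e1, e2, e3]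
  simp only [smul_eq_C_mul, C_pow]
  rw [show ((X 1 : MvPolynomial (Fin 4) K) * (X 1 - X 0) * (X 1 - C t * X 3)) ^ 2 *
      (C t * X 2 * (C t * X 2 - X 0) * (C t * X 2 - C t * X 3)) =
      C t ^ 2 * ((X 1 * (X 1 - X 0) * (X 1 - C t * X 3)) ^ 2 *
      (X 2 * (C t * X 2 - X 0) * (X 2 - X 3))) from by ring]
  rw [mul_pow (C t ^ 2), ← pow_mul]
  ring

theorem Qa_flip (M : ℕ) : aeval ![-(X 1 : MvPolynomial (Fin 4) K), X 1, X 2, X 3] (Qa K M 0) =
    -(4 : K) ^ M • (X 1 ^ (2 + 7 * M) * (X 2 * (X 2 - X 3)) ^ M) := by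
  have e0 : aeval ![-(X 1 : MvPolynomial (Fin 4) K), X 1, X 2, X 3]
      (X 0 : MvPolynomial (Fin 4) K) = - X 1 := by simp
  have e1 : aeval ![-(X 1 : MvPolynomial (Fin 4) K), X 1, X 2, X 3]
      (X 1 : MvPolynomial (Fin 4) K) = X 1 := by simp
  have e2 : aeval ![-(X 1 : MvPolynomial (Fin 4) K), X 1, X 2, X 3]
      (X 2 : MvPolynomial (Fin 4) K) = X 2 := by simp
  have e3 : aeval ![-(X 1 : MvPolynomial (Fin 4) K), X 1, X 2, X 3]
      (X 3 : MvPolynomial (Fin 4) K) = X 3 := by simp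
  simp only [Qa, zero_smul, zero_sub, sub_zero, map_mul, map_pow, map_sub, map_neg, e0, e1, e2, e3]
  rw [show (X 1 * (X 1 - -X 1) * X 1) ^ 2 * (X 2 * - -X 1 * (X 2 - X 3)) =
      C (4 : K) * X 1 ^ 7 * ((X 2 : MvPolynomial (Fin 4) K) * (X 2 - X 3)) from by
    rw [show (C (4 : K) : MvPolynomial (Fin 4) K) = 4 from map_ofNat C 4]
    ring]
  rw [mul_pow, mul_pow, ← pow_mul, neg_smul, smul_eq_C_mul, C_pow, pow_add]
  ring

omit [CharZero K] in
/-- The slot polynomials `Qa K M t` form a polynomial family. -/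
theorem RIv_isPoly_Qa (M : ℕ) : IsPoly fun t : K => Qa K M t := by
  have c : ∀ a : MvPolynomial (Fin 4) K, IsPoly fun _ : K => a := fun a => IsPoly.const a
  have s2 : IsPoly fun t : K => t • (X 2 : MvPolynomial (Fin 4) K) := (c (X 2)).smul_id
  have s3 : IsPoly fun t : K => t • (X 3 : MvPolynomial (Fin 4) K) := (c (X 3)).smul_id
  exact ((s2.sub (c (X 1))).mul (c (X 1))).mul
    ((((((c (X 1 * (X 1 - X 0))).mul ((c (X 1)).sub s3)).pow 2)).mul
      (((c (X 2)).mul (s2.sub (c (X 0)))).mul (c (X 2 - X 3)))).pow M)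

omit [CharZero K] in
/-- The expansion of `(X 2 (X 2 - X 3))^M`. -/
theorem RIv_expand (M : ℕ) : (X 1 ^ (2 + 7 * M) * (X 2 * (X 2 - X 3)) ^ M :
      MvPolynomial (Fin 4) K) =
    ∑ l ∈ Finset.range (M + 1), ((-1 : K) ^ l * (M.choose l : K)) •
      (X 0 ^ 0 * X 1 ^ (2 + 7 * M) * X 2 ^ (2 * M - l) * X 3 ^ l) := by
  rw [mul_pow, show (X 2 - X 3 : MvPolynomial (Fin 4) K) = -X 3 + X 2 from by ring, add_pow,
    Finset.mul_sum, Finset.mul_sum]
  refine Finset.sum_congr rfl fun l hl => ?_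
  have hl' : l ≤ M := Nat.lt_succ_iff.mp (Finset.mem_range.mp hl)
  rw [smul_eq_C_mul, C_mul, C_pow, C_neg, C_1,
    show (C ((M.choose l : ℕ) : K) : MvPolynomial (Fin 4) K) = (M.choose l : ℕ) from
      map_natCast C _,
    show 2 * M - l = M + (M - l) from by omega, pow_add (X 2) M, neg_pow (X 3 : MvPolynomial (Fin 4) K) l]
  ring

/-- PROOF. Step 1: by `sv_congr` (left parts equal) and `hr`, `sv ![t z + h, t z + h, t z, t z] k u v P2 ∈ T`. Step 2: `sv_scale` with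
`s = ![1, 1, t, t]`, `ζ = ![t z + h, t z + h, z, z]` and `Qa_spec`: `t^{2M} • sv ζ_t k u v (Qa t) ∈ T`, so `sv ζ_t k u v (Qa t) ∈ T` for
`t ≠ 0`. Step 3: `isPoly_sv` (`t ↦ Qa t` is a polynomial map: closure properties in the algebra
`MvPolynomial`) and `IsPoly.zero_mem`: `sv ![h, h, z, z] k u v (Qa 0) ∈ T`. Step 4: `sv_flip_left` with `hl` and `Qa_flip`;
divide by `-4^M ≠ 0`. Step 5: expand `(X 2 (X 2 - X 3))^M = ∑_l (-1)^l binom(M,l) X_2^{2M-l} X_3^l`
(`sub_pow` or `add_pow`) and `sv_pow`. -/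
theorem iv_core (M : ℕ) (T : Submodule K B) (hTl : ∀ c, ∀ z ∈ T, c * z ∈ T)
    (hTr : ∀ c, ∀ z ∈ T, z * c ∈ T) (z h k u v : B)
    (hE : ∀ t : K, sv (fun _ => t • z + h) k u v (P2 K M) ∈ T)
    (hr : ∀ (t : K) (i j : ℕ),
      u * ((t • z + h) ^ i * v * (t • z + h) ^ j - (t • z) ^ i * v * (t • z) ^ j) ∈ T)
    (hl : ∀ i j : ℕ, (h ^ i * k * h ^ j - (-1 : K) ^ i • (k * h ^ (i + j))) * u ∈ T) :
    k * h ^ (2 + 7 * M) * ∑ l ∈ Finset.range (M + 1),
      ((-1 : K) ^ l * (M.choose l : K)) • (u * z ^ (2 * M - l) * v * z ^ l) ∈ T := by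
  -- Step 1
  have h1 : ∀ t : K, sv ![t • z + h, t • z + h, t • z, t • z] k u v (P2 K M) ∈ T := by
    intro t
    have hc := sv_congr T hTl hTr (fun _ => t • z + h) ![t • z + h, t • z + h, t • z, t • z]
      k k v v u (fun i j => by simp) (fun i j => hr t i j) (P2 K M)
    have := T.sub_mem (hE t) hc
    rwa [sub_sub_cancel] at this
  -- Step 2
  have h2 : ∀ t : K, t ≠ 0 → sv ![t • z + h, t • z + h, z, z] k u v (Qa K M t) ∈ T := by
    intro t ht
    have hs := sv_scale ![t • z + h, t • z + h, z, z] k u v ![1, 1, t, t] (P2 K M)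
    have he : (fun i : Fin 4 => (![1, 1, t, t] : Fin 4 → K) i •
        (![t • z + h, t • z + h, z, z] : Fin 4 → B) i) =
        ![t • z + h, t • z + h, t • z, t • z] := by
      funext i
      fin_cases i <;> simp
    rw [he, Qa_spec, map_smul] at hs
    have hm := h1 t
    rw [hs] at hm
    have ht' : t ^ (2 * M) ≠ 0 := pow_ne_zero _ ht
    have := T.smul_mem (t ^ (2 * M))⁻¹ hm
    rwa [smul_smul, inv_mul_cancel₀ ht', one_smul] at this
  -- Step 3
  have hζ : ∀ i : Fin 4, IsPoly fun t : K => (![t • z + h, t • z + h, z, z] : Fin 4 → B) i := by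
    have hz : IsPoly fun t : K => t • z + h := ((IsPoly.const z).smul_id).add (IsPoly.const h)
    have hc : IsPoly fun _ : K => z := IsPoly.const z
    intro i
    fin_cases i
    · exact hz
    · exact hz
    · exact hc
    · exact hc
  have h3 : sv ![h, h, z, z] k u v (Qa K M 0) ∈ T := by
    have hp := isPoly_sv (ζ := fun t : K => ![t • z + h, t • z + h, z, z]) hζ k u v
      (RIv_isPoly_Qa M)
    have := IsPoly.zero_mem hp T h2
    simpa only [zero_smul, zero_add] using this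
  -- Step 4
  have h4 : sv ![h, h, z, z] k u v (-(4 : K) ^ M •
      ((X 1 : MvPolynomial (Fin 4) K) ^ (2 + 7 * M) * (X 2 * (X 2 - X 3)) ^ M)) ∈ T := by
    have hf := sv_flip_left T hTr ![h, h, z, z] k v u (fun i j => hl i j) (Qa K M 0)
    rw [Qa_flip] at hf
    have := T.sub_mem h3 hf
    rwa [sub_sub_cancel] at this
  have h5 : sv ![h, h, z, z] k u v
      ((X 1 : MvPolynomial (Fin 4) K) ^ (2 + 7 * M) * (X 2 * (X 2 - X 3)) ^ M) ∈ T := by
    rw [map_smul] at h4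
    have h4' : (-(4 : K) ^ M) ≠ 0 := neg_ne_zero.mpr (pow_ne_zero _ (by norm_num))
    have := T.smul_mem (-(4 : K) ^ M)⁻¹ h4
    rwa [smul_smul, inv_mul_cancel₀ h4', one_smul] at this
  -- Step 5
  rw [RIv_expand (K := K) M, map_sum] at h5
  rw [Finset.mul_sum]
  have hse : ∀ l ∈ Finset.range (M + 1),
      k * h ^ (2 + 7 * M) * (((-1 : K) ^ l * (M.choose l : K)) •
        (u * z ^ (2 * M - l) * v * z ^ l)) =
      sv ![h, h, z, z] k u v (((-1 : K) ^ l * (M.choose l : K)) •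
        ((X 0 : MvPolynomial (Fin 4) K) ^ 0 * X 1 ^ (2 + 7 * M) * X 2 ^ (2 * M - l) *
          X 3 ^ l)) := by
    intro l _
    rw [map_smul, sv_pow, mul_smul_comm]
    congr 1
    simp [mul_assoc]
  rw [Finset.sum_congr rfl hse]
  exact h5

end Pool.Agent.H.MP_f5ceca_al.S
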