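import Pool.Agent.H.MP_f5ceca_al.S.RSlot2

/-!
The mirror image of the relation (iv): the computation of the top coefficient of (E2') for
`z ↦ t z + h`.
-/

namespace Pool.Agent.H.MP_f5ceca_al.S

open MvPolynomial

universe u v

variable {K : Type*} [Field K] [CharZero K] {B : Type*} [Ring B] [Algebra K B]

/-- The slot polynomial after the substitution `(t X 0, t X 1, X 2, X 3)` and division by `t^{1+4M}`. -/
noncomputable def Qb (K : Type*) [Field K] (M : ℕ) (t : K) : MvPolynomial (Fin 4) K :=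
  (X 2 - t • X 1) * X 1 * ((X 1 * (X 1 - X 0) * (t • X 1 - X 3)) ^ 2 *
    (X 2 * (X 2 - t • X 0) * (X 2 - X 3))) ^ M

theorem Qb_spec (M : ℕ) (t : K) :
    aeval (fun i => (![t, t, 1, 1] : Fin 4 → K) i • (X i : MvPolynomial (Fin 4) K)) (P2 K M) =
      t ^ (1 + 4 * M) • Qb K M t := by
  have h1 : ((t • (X 1 : MvPolynomial (Fin 4) K)) * (t • X 1 - t • X 0) * (t • X 1 - X 3)) ^ 2 *
      (X 2 * (X 2 - t • X 0) * (X 2 - X 3)) = (t ^ 4) • ((X 1 * (X 1 - X 0) * (t • X 1 - X 3)) ^ 2 *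
        (X 2 * (X 2 - t • X 0) * (X 2 - X 3))) := by
    simp only [smul_eq_C_mul, map_pow]
    ring
  have h2 : aeval (fun i => (![t, t, 1, 1] : Fin 4 → K) i • (X i : MvPolynomial (Fin 4) K))
      (P2 K M) = (X 2 - t • X 1) * (t • X 1) * (((t • (X 1 : MvPolynomial (Fin 4) K)) *
        (t • X 1 - t • X 0) * (t • X 1 - X 3)) ^ 2 * (X 2 * (X 2 - t • X 0) * (X 2 - X 3))) ^ M := by
    unfold P2
    simp only [map_mul, map_pow, map_sub, aeval_X]
    simp
  rw [h2, h1, smul_pow, ← pow_mul, pow_add, pow_one, Qb]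
  simp only [smul_eq_C_mul, map_pow, map_mul]
  ring

theorem Qb_flip (M : ℕ) : aeval ![(X 0 : MvPolynomial (Fin 4) K), X 1, X 2, -X 2] (Qb K M 0) =
    (2 : K) ^ M • (X 1 ^ (1 + 2 * M) * (X 1 - X 0) ^ (2 * M) * X 2 ^ (1 + 5 * M)) := by
  have h1 : aeval ![(X 0 : MvPolynomial (Fin 4) K), X 1, X 2, -X 2] (Qb K M 0) =
      X 2 * X 1 * ((2 : K) • (X 1 ^ 2 * (X 1 - X 0) ^ 2 * X 2 ^ 5)) ^ M := by
    unfold Qb
    simp only [map_mul, map_pow, map_sub, aeval_X, zero_smul, sub_zero, zero_sub, map_neg]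
    simp only [Matrix.cons_val_zero, Matrix.cons_val_one, Matrix.cons_val]
    congr 2
    rw [smul_eq_C_mul, map_ofNat]
    ring
  rw [h1, smul_pow, mul_pow, mul_pow, ← pow_mul, ← pow_mul, ← pow_mul]
  simp only [smul_eq_C_mul]
  ring

/-- The mirror relation, from the same slot polynomial. PROOF. As for `iv_core`: `ζ = ![t z, t z, t z + h, t z + h]`, scaling by
`s = ![t, t, 1, 1]`, `Qb_spec`, `t = 0`, `sv_flip_right`, `Qb_flip`, and
`(X 1)^{1+2M} (X 1 - X 0)^{2M} = ∑_l (-1)^l binom(2M,l) X_0^l X_1^{4M+1-l}`. -/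
theorem iv_core' (M : ℕ) (T : Submodule K B) (hTl : ∀ c, ∀ z ∈ T, c * z ∈ T)
    (hTr : ∀ c, ∀ z ∈ T, z * c ∈ T) (z h k u v : B)
    (hE : ∀ t : K, sv (fun _ => t • z + h) u v k (P2 K M) ∈ T)
    (hl : ∀ (t : K) (i j : ℕ),
      ((t • z + h) ^ i * u * (t • z + h) ^ j - (t • z) ^ i * u * (t • z) ^ j) * v ∈ T)
    (hr : ∀ i j : ℕ, v * (h ^ i * k * h ^ j - (-1 : K) ^ j • (h ^ (i + j) * k)) ∈ T) :
    (∑ l ∈ Finset.range (2 * M + 1),
      ((-1 : K) ^ l * ((2 * M).choose l : K)) • (z ^ l * u * z ^ (4 * M + 1 - l) * v)) *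
      h ^ (1 + 5 * M) * k ∈ T := by
  -- steps 1 and 2
  have h12 : ∀ t : K, t ≠ 0 → sv ![z, z, t • z + h, t • z + h] u v k (Qb K M t) ∈ T := by
    intro t ht
    have h1 := sv_congr T hTl hTr (fun _ => t • z + h) ![t • z, t • z, t • z + h, t • z + h]
      u u k k v (fun i j => by simpa using hl t i j) (fun i j => by simp) (P2 K M)
    have h2 : sv ![t • z, t • z, t • z + h, t • z + h] u v k (P2 K M) ∈ T := by
      have := T.sub_mem (hE t) h1
      rwa [sub_sub_cancel] at this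
    have h3 : (![t • z, t • z, t • z + h, t • z + h] : Fin 4 → B) =
        fun i => (![t, t, 1, 1] : Fin 4 → K) i • (![z, z, t • z + h, t • z + h] : Fin 4 → B) i := by
      funext i
      fin_cases i <;> simp
    rw [h3, sv_scale, Qb_spec, map_smul] at h2
    exact (T.smul_mem_iff (pow_ne_zero _ ht)).1 h2
  -- step 3
  have hpz : IsPoly fun t : K => t • z + h :=
    (IsPoly.smul_id (IsPoly.const z)).add (IsPoly.const h)
  have hX : ∀ i : Fin 4, IsPoly fun t : K => t • (X i : MvPolynomial (Fin 4) K) :=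
    fun i => IsPoly.smul_id (IsPoly.const (X i))
  have hQ : IsPoly fun t : K => Qb K M t := by
    unfold Qb
    refine IsPoly.mul (IsPoly.mul (IsPoly.sub (IsPoly.const _) (hX 1)) (IsPoly.const _))
      (IsPoly.pow (IsPoly.mul (IsPoly.pow (IsPoly.mul (IsPoly.const _)
        (IsPoly.sub (hX 1) (IsPoly.const _))) 2)
        (IsPoly.mul (IsPoly.mul (IsPoly.const _) (IsPoly.sub (IsPoly.const _) (hX 0)))
          (IsPoly.const _))) M)
  have h3 : IsPoly fun t : K => sv ![z, z, t • z + h, t • z + h] u v k (Qb K M t) := by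
    refine isPoly_sv (ζ := fun t : K => ![z, z, t • z + h, t • z + h]) (fun i => ?_) u v k hQ
    fin_cases i
    · exact IsPoly.const z
    · exact IsPoly.const z
    · exact hpz
    · exact hpz
  have h4 : sv ![z, z, h, h] u v k (Qb K M 0) ∈ T := by
    have := h3.zero_mem T h12
    simpa using this
  -- step 4
  have h5 := sv_flip_right T hTl ![z, z, h, h] u k v (fun i j => by simpa using hr i j) (Qb K M 0)
  have h6 : sv ![z, z, h, h] u v k
      (aeval ![(X 0 : MvPolynomial (Fin 4) K), X 1, X 2, -X 2] (Qb K M 0)) ∈ T := by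
    have := T.sub_mem h4 h5
    rwa [sub_sub_cancel] at this
  rw [Qb_flip, map_smul] at h6
  have h7 := (T.smul_mem_iff (pow_ne_zero M (two_ne_zero (α := K)))).1 h6
  -- step 5
  have h8 : (X 1 ^ (1 + 2 * M) * (X 1 - X 0) ^ (2 * M) * X 2 ^ (1 + 5 * M) :
      MvPolynomial (Fin 4) K) = ∑ l ∈ Finset.range (2 * M + 1),
        ((-1 : K) ^ l * ((2 * M).choose l : K)) •
          (X 0 ^ l * X 1 ^ (4 * M + 1 - l) * X 2 ^ (1 + 5 * M) * X 3 ^ 0) := by
    rw [show (X 1 - X 0 : MvPolynomial (Fin 4) K) = -X 0 + X 1 by ring, add_pow, Finset.mul_sum,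
      Finset.sum_mul]
    refine Finset.sum_congr rfl fun l hl => ?_
    have hle : l ≤ 2 * M := Nat.lt_succ_iff.1 (Finset.mem_range.1 hl)
    rw [show 4 * M + 1 - l = (1 + 2 * M) + (2 * M - l) by omega, pow_add, neg_pow,
      smul_eq_C_mul, map_mul, map_pow, map_neg, map_one, map_natCast]
    ring
  rw [h8, map_sum] at h7
  have h9 : (∑ l ∈ Finset.range (2 * M + 1),
      ((-1 : K) ^ l * ((2 * M).choose l : K)) • (z ^ l * u * z ^ (4 * M + 1 - l) * v)) *
      h ^ (1 + 5 * M) * k = ∑ l ∈ Finset.range (2 * M + 1),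
        sv (K := K) ![z, z, h, h] u v k (((-1 : K) ^ l * ((2 * M).choose l : K)) •
          (X 0 ^ l * X 1 ^ (4 * M + 1 - l) * X 2 ^ (1 + 5 * M) * X 3 ^ 0 :
            MvPolynomial (Fin 4) K)) := by
    rw [mul_assoc, Finset.sum_mul]
    refine Finset.sum_congr rfl fun l _ => ?_
    rw [map_smul, sv_pow, smul_mul_assoc]
    simp only [Matrix.cons_val_zero, Matrix.cons_val_one, Matrix.cons_val, pow_zero, mul_one]
  rw [h9]
  exact h7

end Pool.Agent.H.MP_f5ceca_al.S
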