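import Pool.Agent.H.MP_f5ceca_al.S.RPoly

/-!
The polarization argument.
-/

namespace Pool.Agent.H.MP_f5ceca_al.S

universe u v

variable {K : Type*} [Field K] {B : Type*} [Ring B] [Algebra K B]

theorem RPolar_pow (L : Submodule K B) (hLl : ∀ c, ∀ z ∈ L, c * z ∈ L) {c0 : B}
    (hc : ∀ x : B, c0 * x - x * c0 ∈ L) (j : ℕ) (x : B) : c0 ^ j * x - x * c0 ^ j ∈ L := by
  induction j with
  | zero => simp
  | succ j ih =>
    have h : c0 ^ (j + 1) * x - x * c0 ^ (j + 1) =
        c0 * (c0 ^ j * x - x * c0 ^ j) + (c0 * (x * c0 ^ j) - x * c0 ^ j * c0) := by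
      rw [pow_succ' c0 j, mul_sub, mul_assoc]
      have : x * (c0 * c0 ^ j) = x * c0 ^ j * c0 := by
        rw [mul_assoc, ← pow_succ, ← pow_succ']
      rw [this]
      abel
    rw [h]
    exact L.add_mem (hLl _ _ ih) (hc _)

/-- Polarization. `P t = ∑ t^i c_i`, `P t w P t ∈ T` for all `t`, `P 0 = c 0` is central modulo `L`, and `L w ≤ T`. PROOF. The
coefficient of `t^l` of `P t w P t` is `∑_{i+j=l} c_i w c_j ∈ T` (`coeff_mem`). Claim `(c 0)^{j+1} w c_j ∈ T`, by strong induction on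
`j`: multiply the relation with `l = j` by `(c 0)^j`; for `i ≥ 1`,
`(c 0)^j c_i w c_{j-i} = c_i (c 0)^j w c_{j-i}` modulo `L w ..`, and `(c 0)^j w c_{j-i} = (c 0)^{i-1} (c 0)^{j-i+1} w c_{j-i} ∈ T`. Then
`(c 0)^{d+1} w P t = ∑ t^j (c 0)^{d-j} (c 0)^{j+1} w c_j ∈ T`. -/
theorem polar [Infinite K] (T L : Submodule K B) (hTl : ∀ c, ∀ z ∈ T, c * z ∈ T)
    (hTr : ∀ c, ∀ z ∈ T, z * c ∈ T) (hLl : ∀ c, ∀ z ∈ L, c * z ∈ L) (hLr : ∀ c, ∀ z ∈ L, z * c ∈ L)
    {w : B} (hL : ∀ z ∈ L, z * w ∈ T) {d : ℕ} {P : K → B} (hP : PolyDeg d P)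
    (hc : ∀ x : B, P 0 * x - x * P 0 ∈ L) (hT : ∀ t, P t * w * P t ∈ T) (t : K) :
    P 0 ^ (d + 1) * w * P t ∈ T := by
  obtain ⟨c, hc'⟩ := hP
  have h0 : P 0 = c 0 := by
    rw [hc', Finset.sum_range_succ']
    simp
  rw [h0] at hc ⊢
  -- the coefficients
  let e : ℕ → B := fun l => ∑ x ∈ (Finset.range (d + 1) ×ˢ Finset.range (d + 1)).filter
    (fun x => x.1 + x.2 = l), c x.1 * w * c x.2
  have he : ∀ t : K, P t * w * P t = ∑ l ∈ Finset.range (2 * d + 1), t ^ l • e l := by
    intro t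
    rw [hc', Finset.sum_mul, Finset.sum_mul_sum, ← Finset.sum_product']
    rw [← Finset.sum_fiberwise_of_maps_to (s := Finset.range (d + 1) ×ˢ Finset.range (d + 1))
      (t := Finset.range (2 * d + 1)) (g := fun x => x.1 + x.2)]
    · refine Finset.sum_congr rfl fun l _ => ?_
      rw [Finset.smul_sum]
      refine Finset.sum_congr rfl fun x hx => ?_
      have hx' := (Finset.mem_filter.1 hx).2
      rw [← hx', pow_add]
      simp only [smul_mul_assoc, mul_smul_comm, smul_smul]
      rw [mul_comm]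
    · intro x hx
      rw [Finset.mem_product, Finset.mem_range, Finset.mem_range] at hx
      rw [Finset.mem_range]
      omega
  have heT : ∀ l ≤ 2 * d, e l ∈ T := coeff_mem T (2 * d) e fun t => by
    rw [← he]
    exact hT t
  have hanti : ∀ j ≤ d, e j = ∑ x ∈ Finset.HasAntidiagonal.antidiagonal j, c x.1 * w * c x.2 := by
    intro j hj
    refine Finset.sum_congr ?_ fun _ _ => rfl
    ext ⟨a, b⟩
    simp only [Finset.mem_filter, Finset.mem_product, Finset.mem_range, Finset.HasAntidiagonal.mem_antidiagonal]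
    omega
  have claim : ∀ j, j ≤ d → c 0 ^ (j + 1) * w * c j ∈ T := by
    intro j
    induction j using Nat.strong_induction_on with
    | _ j ih =>
      intro hj
      have h1 : c 0 ^ j * e j ∈ T := hTl _ _ (heT j (by omega))
      rw [hanti j hj, ← Finset.add_sum_erase _ _
        (show ((0, j) : ℕ × ℕ) ∈ Finset.HasAntidiagonal.antidiagonal j by simp), mul_add] at h1
      have h2 : c 0 ^ j * ∑ x ∈ (Finset.HasAntidiagonal.antidiagonal j).erase (0, j), c x.1 * w * c x.2 ∈ T := by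
        rw [Finset.mul_sum]
        refine T.sum_mem fun x hx => ?_
        obtain ⟨a, b⟩ := x
        simp only [Finset.mem_erase, Finset.HasAntidiagonal.mem_antidiagonal, ne_eq, Prod.mk.injEq, not_and] at hx
        obtain ⟨hne, hab⟩ := hx
        have ha : a ≠ 0 := by
          rintro rfl
          exact hne rfl (by omega)
        have e1 : c 0 ^ j * (c a * w * c b) =
            (c 0 ^ j * c a - c a * c 0 ^ j) * w * c b + c a * (c 0 ^ j * w * c b) := by
          noncomm_ring
        have e2 : c 0 ^ j * w * c b = c 0 ^ (a - 1) * (c 0 ^ (b + 1) * w * c b) := by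
          have : j = (a - 1) + (b + 1) := by omega
          conv_lhs => rw [this, pow_add]
          simp only [mul_assoc]
        show c 0 ^ j * (c a * w * c b) ∈ T
        rw [e1, e2]
        refine T.add_mem (hTr _ _ (hL _ (RPolar_pow L hLl hc j _))) (hTl _ _ (hTl _ _ ?_))
        exact ih b (by omega) (by omega)
      have h3 : c 0 ^ j * (c 0 * w * c j) ∈ T := by
        have := T.sub_mem h1 h2
        simpa using this
      have e3 : c 0 ^ (j + 1) * w * c j = c 0 ^ j * (c 0 * w * c j) := by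
        rw [pow_succ]
        simp only [mul_assoc]
      rw [e3]
      exact h3
  rw [hc' t, Finset.mul_sum]
  refine T.sum_mem fun i hi => ?_
  rw [Finset.mem_range] at hi
  rw [mul_smul_comm]
  refine T.smul_mem _ ?_
  have e4 : c 0 ^ (d + 1) * w * c i = c 0 ^ (d - i) * (c 0 ^ (i + 1) * w * c i) := by
    have : d + 1 = (d - i) + (i + 1) := by omega
    rw [this, pow_add]
    simp only [mul_assoc]
  rw [e4]
  exact hTl _ _ (claim i (by omega))

end Pool.Agent.H.MP_f5ceca_al.S
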