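import Pool.Agent.H.MP_f5ceca_al.N.Vand

/-!
Polynomial maps `K → V` and the extraction of coefficients.
-/

namespace Pool.Agent.H.MP_f5ceca_al.S

universe u v

/-- `f` is a polynomial map of degree at most `d`. -/
def PolyDeg {K : Type*} [Field K] {V : Type*} [AddCommGroup V] [Module K V] (d : ℕ) (f : K → V) :
    Prop :=
  ∃ c : ℕ → V, ∀ t : K, f t = ∑ i ∈ Finset.range (d + 1), t ^ i • c i

/-- `f` is a polynomial map. -/
def IsPoly {K : Type*} [Field K] {V : Type*} [AddCommGroup V] [Module K V] (f : K → V) : Prop :=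
  ∃ d, PolyDeg d f

section module

variable {K : Type*} [Field K] {V W : Type*} [AddCommGroup V] [Module K V] [AddCommGroup W]
  [Module K W]

theorem RPoly_congr {d : ℕ} {f g : K → V} (hf : PolyDeg d f) (h : ∀ t, f t = g t) :
    PolyDeg d g := by
  rwa [← funext h]

/-- PROOF. Put the coefficients with index `> d` equal to zero. -/
theorem PolyDeg.mono {d e : ℕ} (h : d ≤ e) {f : K → V} (hf : PolyDeg d f) : PolyDeg e f := by
  obtain ⟨c, hc⟩ := hf
  refine ⟨fun i => if i ≤ d then c i else 0, fun t => ?_⟩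
  have h1 : ∑ i ∈ Finset.range (d + 1), t ^ i • c i =
      ∑ i ∈ Finset.range (d + 1), t ^ i • (if i ≤ d then c i else 0) :=
    Finset.sum_congr rfl fun i hi => by
      rw [if_pos (Nat.lt_succ_iff.1 (Finset.mem_range.1 hi))]
  rw [hc t, h1]
  refine Finset.sum_subset (Finset.range_mono (by omega)) fun i _ hi => ?_
  rw [if_neg (by rw [Finset.mem_range] at hi; omega), smul_zero]

theorem PolyDeg.const (d : ℕ) (a : V) : PolyDeg d fun _ : K => a := by
  refine ⟨fun i => if i = 0 then a else 0, fun t => ?_⟩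
  beta_reduce
  rw [Finset.sum_range_succ', Finset.sum_eq_zero, zero_add, pow_zero, one_smul, if_pos rfl]
  intro i _
  rw [if_neg (Nat.succ_ne_zero i), smul_zero]

theorem PolyDeg.smul_id {d : ℕ} {f : K → V} (hf : PolyDeg d f) :
    PolyDeg (d + 1) fun t => t • f t := by
  obtain ⟨c, hc⟩ := hf
  refine ⟨fun i => if i = 0 then 0 else c (i - 1), fun t => ?_⟩
  beta_reduce
  rw [Finset.sum_range_succ', if_pos rfl, smul_zero, add_zero, hc t, Finset.smul_sum]
  refine Finset.sum_congr rfl fun i _ => ?_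
  rw [if_neg (Nat.succ_ne_zero i), Nat.add_sub_cancel, smul_smul, pow_succ']

theorem PolyDeg.add {d : ℕ} {f g : K → V} (hf : PolyDeg d f) (hg : PolyDeg d g) :
    PolyDeg d fun t => f t + g t := by
  obtain ⟨c, hc⟩ := hf
  obtain ⟨c', hc'⟩ := hg
  refine ⟨fun i => c i + c' i, fun t => ?_⟩
  beta_reduce
  rw [hc t, hc' t, ← Finset.sum_add_distrib]
  exact Finset.sum_congr rfl fun i _ => (smul_add _ _ _).symm

theorem PolyDeg.sub {d : ℕ} {f g : K → V} (hf : PolyDeg d f) (hg : PolyDeg d g) :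
    PolyDeg d fun t => f t - g t := by
  obtain ⟨c, hc⟩ := hf
  obtain ⟨c', hc'⟩ := hg
  refine ⟨fun i => c i - c' i, fun t => ?_⟩
  beta_reduce
  rw [hc t, hc' t, ← Finset.sum_sub_distrib]
  exact Finset.sum_congr rfl fun i _ => (smul_sub _ _ _).symm

theorem PolyDeg.map {d : ℕ} {f : K → V} (hf : PolyDeg d f) (φ : V →ₗ[K] W) :
    PolyDeg d fun t => φ (f t) := by
  obtain ⟨c, hc⟩ := hf
  refine ⟨fun i => φ (c i), fun t => ?_⟩
  beta_reduce
  rw [hc t, map_sum]
  exact Finset.sum_congr rfl fun i _ => map_smul φ _ _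

theorem PolyDeg.smul {d : ℕ} {f : K → V} (hf : PolyDeg d f) (c : K) :
    PolyDeg d fun t => c • f t := by
  obtain ⟨b, hb⟩ := hf
  refine ⟨fun i => c • b i, fun t => ?_⟩
  beta_reduce
  rw [hb t, Finset.smul_sum]
  exact Finset.sum_congr rfl fun i _ => smul_comm _ _ _

theorem PolyDeg.sum {d : ℕ} {ι : Type*} (s : Finset ι) {f : ι → K → V}
    (hf : ∀ i ∈ s, PolyDeg d (f i)) : PolyDeg d fun t => ∑ i ∈ s, f i t := by
  classical
  induction s using Finset.induction_on with
  | empty => exact PolyDeg.const d 0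
  | insert a s ha ih =>
    have h1 := PolyDeg.add (hf a (Finset.mem_insert_self a s))
      (ih fun i hi => hf i (Finset.mem_insert_of_mem hi))
    exact RPoly_congr h1 fun t => (Finset.sum_insert (f := fun i => f i t) ha).symm

theorem IsPoly.const (a : V) : IsPoly fun _ : K => a := ⟨0, PolyDeg.const 0 a⟩

theorem IsPoly.smul_id {f : K → V} (hf : IsPoly f) : IsPoly fun t => t • f t := by
  obtain ⟨d, hd⟩ := hf
  exact ⟨d + 1, hd.smul_id⟩

theorem IsPoly.add {f g : K → V} (hf : IsPoly f) (hg : IsPoly g) :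
    IsPoly fun t => f t + g t := by
  obtain ⟨d, hd⟩ := hf
  obtain ⟨e, he⟩ := hg
  exact ⟨max d e, (hd.mono (le_max_left d e)).add (he.mono (le_max_right d e))⟩

theorem IsPoly.sub {f g : K → V} (hf : IsPoly f) (hg : IsPoly g) :
    IsPoly fun t => f t - g t := by
  obtain ⟨d, hd⟩ := hf
  obtain ⟨e, he⟩ := hg
  exact ⟨max d e, (hd.mono (le_max_left d e)).sub (he.mono (le_max_right d e))⟩

theorem IsPoly.map {f : K → V} (hf : IsPoly f) (φ : V →ₗ[K] W) : IsPoly fun t => φ (f t) := by
  obtain ⟨d, hd⟩ := hf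
  exact ⟨d, hd.map φ⟩

theorem IsPoly.smul {f : K → V} (hf : IsPoly f) (c : K) : IsPoly fun t => c • f t := by
  obtain ⟨d, hd⟩ := hf
  exact ⟨d, hd.smul c⟩

theorem IsPoly.sum {ι : Type*} (s : Finset ι) {f : ι → K → V} (hf : ∀ i ∈ s, IsPoly (f i)) :
    IsPoly fun t => ∑ i ∈ s, f i t := by
  classical
  induction s using Finset.induction_on with
  | empty => exact IsPoly.const 0
  | insert a s ha ih =>
    have h1 := IsPoly.add (hf a (Finset.mem_insert_self a s))
      (ih fun i hi => hf i (Finset.mem_insert_of_mem hi))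
    obtain ⟨d, hd⟩ := h1
    exact ⟨d, RPoly_congr hd fun t => (Finset.sum_insert (f := fun i => f i t) ha).symm⟩

/-- The coefficients of a polynomial map with values in `T` are in `T` (this is `N.vandermonde` up to
an index). -/
theorem coeff_mem [Infinite K] (T : Submodule K V) (d : ℕ) (c : ℕ → V)
    (h : ∀ t : K, ∑ i ∈ Finset.range (d + 1), t ^ i • c i ∈ T) : ∀ i ≤ d, c i ∈ T :=
  N.vandermonde T d c h

/-- `f` vanishes modulo `T` at all `t ≠ 0`, hence at `0`. PROOF: apply `coeff_mem` to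
`t • f t = ∑ t ^ (i + 1) • c i`, which is in `T` for all `t`; so all `c i` are in `T`, and
`f 0 = c 0`. -/
theorem IsPoly.zero_mem [Infinite K] {f : K → V} (hf : IsPoly f) (T : Submodule K V)
    (h : ∀ t : K, t ≠ 0 → f t ∈ T) : f 0 ∈ T := by
  obtain ⟨d, hd⟩ := hf
  have h0 : ∃ c : ℕ → V, ∀ t : K, f t = ∑ i ∈ Finset.range (d + 1), t ^ i • c i := hd
  obtain ⟨c, hc⟩ := h0
  have h1 : ∀ t : K, ∑ i ∈ Finset.range (d + 1 + 1),
      t ^ i • (if i = 0 then (0 : V) else c (i - 1)) = t • f t := by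
    intro t
    rw [Finset.sum_range_succ', if_pos rfl, smul_zero, add_zero, hc t, Finset.smul_sum]
    refine Finset.sum_congr rfl fun i _ => ?_
    rw [if_neg (Nat.succ_ne_zero i), Nat.add_sub_cancel, smul_smul, pow_succ']
  have h2 := coeff_mem T (d + 1) (fun i => if i = 0 then (0 : V) else c (i - 1)) (fun t => by
    rw [h1 t]
    by_cases ht : t = 0
    · rw [ht, zero_smul]
      exact T.zero_mem
    · exact T.smul_mem _ (h t ht)) 1 (by omega)
  rw [if_neg one_ne_zero] at h2
  rw [hc 0, Finset.sum_range_succ', Finset.sum_eq_zero, zero_add, pow_zero, one_smul]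
  · exact h2
  · intro i _
    rw [zero_pow (Nat.succ_ne_zero i), zero_smul]

theorem RPoly_smul_pow {d : ℕ} {f : K → V} (hf : PolyDeg d f) (i : ℕ) :
    PolyDeg (d + i) fun t => t ^ i • f t := by
  induction i with
  | zero =>
    exact RPoly_congr hf fun t => by rw [pow_zero, one_smul]
  | succ i ih =>
    exact RPoly_congr ih.smul_id fun t => by rw [pow_succ', mul_smul]

end module

section algebra

variable {K : Type*} [Field K] {B : Type*} [Ring B] [Algebra K B]

/-- PROOF. (∑_i t^i c_i) (∑_j t^j d_j) = ∑_i t^i • (c_i * ∑_j t^j • d_j); use `PolyDeg.sum`, iterates of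
`smul_id` and `PolyDeg.mono`. Or write down the coefficients (convolution). -/
theorem PolyDeg.mul {d e : ℕ} {f g : K → B} (hf : PolyDeg d f) (hg : PolyDeg e g) :
    PolyDeg (d + e) fun t => f t * g t := by
  obtain ⟨c, hc⟩ := hf
  have h1 : PolyDeg (d + e) fun t => ∑ i ∈ Finset.range (d + 1), t ^ i • (c i * g t) := by
    refine PolyDeg.sum _ fun i hi => ?_
    have h2 : PolyDeg e fun t => c i * g t := hg.map (LinearMap.mulLeft K (c i))
    refine (RPoly_smul_pow h2 i).mono ?_
    rw [Finset.mem_range] at hi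
    omega
  refine RPoly_congr h1 fun t => ?_
  rw [hc t, Finset.sum_mul]
  exact Finset.sum_congr rfl fun i _ => (smul_mul_assoc _ _ _).symm

theorem PolyDeg.pow {d : ℕ} {f : K → B} (hf : PolyDeg d f) (e : ℕ) :
    PolyDeg (d * e) fun t => f t ^ e := by
  induction e with
  | zero =>
    exact RPoly_congr (PolyDeg.const (K := K) (d * 0) (1 : B)) fun t => (pow_zero _).symm
  | succ e ih =>
    exact RPoly_congr (ih.mul hf) fun t => (pow_succ _ _).symm

theorem IsPoly.mul {f g : K → B} (hf : IsPoly f) (hg : IsPoly g) :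
    IsPoly fun t => f t * g t := by
  obtain ⟨d, hd⟩ := hf
  obtain ⟨e, he⟩ := hg
  exact ⟨d + e, hd.mul he⟩

theorem IsPoly.pow {f : K → B} (hf : IsPoly f) (e : ℕ) : IsPoly fun t => f t ^ e := by
  obtain ⟨d, hd⟩ := hf
  exact ⟨d * e, hd.pow e⟩

end algebra

end Pool.Agent.H.MP_f5ceca_al.S
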