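import Pool.Agent.H.MP_f5ceca_al.S.RPoly
import Pool.Agent.H.MP_f5ceca_al.BR.Merge

/-!
Slot evaluation with four different elements in the slots.
-/

namespace Pool.Agent.H.MP_f5ceca_al.S

open MvPolynomial Pool.Agent.H.MP_f5ceca_al.BR

universe u v

variable {K : Type*} [Field K] {B : Type*} [Ring B] [Algebra K B]

/-- The word `ζ_0^{e_0} a ζ_1^{e_1} x ζ_2^{e_2} b ζ_3^{e_3}`. -/
def swv (ζ : Fin 4 → B) (a x b : B) (e : Fin 4 → ℕ) : B :=
  ζ 0 ^ e 0 * a * ζ 1 ^ e 1 * x * (ζ 2 ^ e 2 * b * ζ 3 ^ e 3)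

/-- Slot evaluation: the monomial with exponents `e` goes to
`ζ_0^{e_0} a ζ_1^{e_1} x ζ_2^{e_2} b ζ_3^{e_3}`. -/
noncomputable def sv (ζ : Fin 4 → B) (a x b : B) : MvPolynomial (Fin 4) K →ₗ[K] B :=
  (MvPolynomial.basisMonomials (Fin 4) K).constr K fun e => swv ζ a x b e

theorem sv_monomial (ζ : Fin 4 → B) (a x b : B) (e : Fin 4 →₀ ℕ) (r : K) :
    sv ζ a x b (monomial e r) = r • swv ζ a x b e := by
  have h : (monomial e r : MvPolynomial (Fin 4) K) =
      r • MvPolynomial.basisMonomials (Fin 4) K e := by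
    rw [MvPolynomial.coe_basisMonomials, MvPolynomial.smul_monomial, smul_eq_mul, mul_one]
  rw [h, map_smul, sv, Module.Basis.constr_basis]

/-- The form with powers of the variables. -/
theorem sv_pow (ζ : Fin 4 → B) (a x b : B) (i j k l : ℕ) :
    sv (K := K) ζ a x b (X 0 ^ i * X 1 ^ j * X 2 ^ k * X 3 ^ l) =
      ζ 0 ^ i * a * ζ 1 ^ j * x * (ζ 2 ^ k * b * ζ 3 ^ l) := by
  have h1 : (X 0 ^ i * X 1 ^ j * X 2 ^ k * X 3 ^ l : MvPolynomial (Fin 4) K) =
      monomial (Finsupp.equivFunOnFinite.symm ![i, j, k, l]) 1 := by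
    rw [MvPolynomial.monomial_eq, map_one, one_mul, Finsupp.prod_fintype]
    · simp [Fin.prod_univ_succ, mul_assoc]
    · intro i
      rw [pow_zero]
  rw [h1, sv_monomial, one_smul]
  rfl

/-- PROOF. `ext_four` and the two formulas for monomials. -/
theorem sev_eq_sv (z a x b : B) (P : MvPolynomial (Fin 4) K) :
    sev z ![a, x, b] P = sv (fun _ => z) a x b P := by
  have h : sev (K := K) z ![a, x, b] = sv (fun _ => z) a x b := by
    refine ext_four fun i j k l => ?_
    rw [sev_three_letters, sv_pow]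
    simp only [mul_assoc]
  exact LinearMap.congr_fun h P

/-- Scaling of the slots: `ζ_i ↦ s_i • ζ_i` corresponds to the substitution `X_i ↦ s_i X_i`. -/
theorem sv_scale (ζ : Fin 4 → B) (a x b : B) (s : Fin 4 → K) (P : MvPolynomial (Fin 4) K) :
    sv (fun i => s i • ζ i) a x b P =
      sv ζ a x b (aeval (fun i => s i • (X i : MvPolynomial (Fin 4) K)) P) := by
  have h : sv (K := K) (fun i => s i • ζ i) a x b = (sv (K := K) ζ a x b).comp
      (aeval (fun i => s i • (X i : MvPolynomial (Fin 4) K))).toLinearMap := by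
    refine ext_four fun i j k l => ?_
    rw [LinearMap.comp_apply, sv_pow]
    have h1 : (aeval (R := K) (fun i => s i • (X i : MvPolynomial (Fin 4) K))).toLinearMap
        (X 0 ^ i * X 1 ^ j * X 2 ^ k * X 3 ^ l) =
        (s 0 ^ i * s 1 ^ j * s 2 ^ k * s 3 ^ l) • (X 0 ^ i * X 1 ^ j * X 2 ^ k * X 3 ^ l) := by
      rw [AlgHom.toLinearMap_apply]
      simp only [map_mul, map_pow, aeval_X, smul_pow, smul_mul_smul_comm]
    rw [h1, map_smul, sv_pow]
    simp only [smul_pow, smul_mul_assoc, mul_smul_comm, smul_smul]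
    congr 1
    ring
  exact LinearMap.congr_fun h P

theorem RSlot_pow_smul {V : Type*} [AddCommGroup V] [Module K V] {f : K → V} (hf : IsPoly f)
    (i : ℕ) : IsPoly fun t => t ^ i • f t := by
  induction i with
  | zero =>
    simp only [pow_zero, one_smul]
    exact hf
  | succ i ih =>
    have h := ih.smul_id
    simp only [smul_smul, ← pow_succ'] at h
    exact h

theorem RSlot_fixed {ζ : K → Fin 4 → B} (hζ : ∀ i, IsPoly fun t => ζ t i) (a x b : B)
    (C : MvPolynomial (Fin 4) K) : IsPoly fun t => sv (ζ t) a x b C := by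
  have h : (fun t => sv (ζ t) a x b C) = fun t => ∑ e ∈ C.support,
      C.coeff e • swv (ζ t) a x b e := by
    funext t
    conv_lhs => rw [C.as_sum]
    rw [map_sum]
    exact Finset.sum_congr rfl fun e _ => sv_monomial _ _ _ _ _ _
  rw [h]
  refine IsPoly.sum _ fun e _ => IsPoly.smul ?_ _
  unfold swv
  exact ((((((hζ 0).pow (e 0)).mul (IsPoly.const a)).mul ((hζ 1).pow (e 1))).mul
    (IsPoly.const x)).mul ((((hζ 2).pow (e 2)).mul (IsPoly.const b)).mul ((hζ 3).pow (e 3))))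

/-- PROOF. Write `P t = ∑ t^i • C_i` (`IsPoly`), and each `C_i` as a finite sum of monomials
(`MvPolynomial.as_sum`, `sv_monomial`); use `IsPoly.sum`, `IsPoly.mul`, `IsPoly.pow` and iterates of
`IsPoly.smul_id`. -/
theorem isPoly_sv {ζ : K → Fin 4 → B} (hζ : ∀ i, IsPoly fun t => ζ t i) (a x b : B)
    {P : K → MvPolynomial (Fin 4) K} (hP : IsPoly P) :
    IsPoly fun t => sv (ζ t) a x b (P t) := by
  obtain ⟨d, c, hc⟩ := hP
  have h : (fun t => sv (ζ t) a x b (P t)) = fun t => ∑ i ∈ Finset.range (d + 1),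
      t ^ i • sv (ζ t) a x b (c i) := by
    funext t
    rw [hc t, map_sum]
    exact Finset.sum_congr rfl fun i _ => map_smul _ _ _
  rw [h]
  exact IsPoly.sum _ fun i _ => RSlot_pow_smul (RSlot_fixed hζ a x b (c i)) i

/-- The slot polynomial of the relation (E2'). -/
noncomputable def P2 (K : Type*) [Field K] (M : ℕ) : MvPolynomial (Fin 4) K :=
  (X 2 - X 1) * X 1 * ((X 1 * (X 1 - X 0) * (X 1 - X 3)) ^ 2 *
    (X 2 * (X 2 - X 0) * (X 2 - X 3))) ^ M

end Pool.Agent.H.MP_f5ceca_al.S
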