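import Pool.Agent.H.MP_f5ceca_al.S.RSlot

/-!
Slot evaluation: congruences.
-/

namespace Pool.Agent.H.MP_f5ceca_al.S

open MvPolynomial Pool.Agent.H.MP_f5ceca_al.BR

universe u v

variable {K : Type*} [Field K] {B : Type*} [Ring B] [Algebra K B]

/-- Congruence modulo a two-sided ideal `T`. PROOF. On monomials `p x r - p' x r' = (p - p') x r + p' (x (r - r'))`, then
linearity (`ext_four` does not apply directly; use `P.as_sum` or `MvPolynomial.induction_on'`, `sv_monomial`). -/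
theorem sv_congr (T : Submodule K B) (hTl : ∀ c, ∀ z ∈ T, c * z ∈ T)
    (hTr : ∀ c, ∀ z ∈ T, z * c ∈ T) (ζ ζ' : Fin 4 → B) (a a' b b' x : B)
    (hl : ∀ i j : ℕ, (ζ 0 ^ i * a * ζ 1 ^ j - ζ' 0 ^ i * a' * ζ' 1 ^ j) * x ∈ T)
    (hr : ∀ i j : ℕ, x * (ζ 2 ^ i * b * ζ 3 ^ j - ζ' 2 ^ i * b' * ζ' 3 ^ j) ∈ T)
    (P : MvPolynomial (Fin 4) K) : sv ζ a x b P - sv ζ' a' x b' P ∈ T := by
  induction P using MvPolynomial.induction_on' with
  | monomial e r =>
    rw [sv_monomial, sv_monomial, ← smul_sub]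
    refine T.smul_mem r ?_
    have h1 := hTr (ζ 2 ^ e 2 * b * ζ 3 ^ e 3) _ (hl (e 0) (e 1))
    have h2 := hTl (ζ' 0 ^ e 0 * a' * ζ' 1 ^ e 1) _ (hr (e 2) (e 3))
    have h3 := T.add_mem h1 h2
    have e1 : swv ζ a x b e - swv ζ' a' x b' e =
        (ζ 0 ^ e 0 * a * ζ 1 ^ e 1 - ζ' 0 ^ e 0 * a' * ζ' 1 ^ e 1) * x *
            (ζ 2 ^ e 2 * b * ζ 3 ^ e 3) +
          ζ' 0 ^ e 0 * a' * ζ' 1 ^ e 1 *
            (x * (ζ 2 ^ e 2 * b * ζ 3 ^ e 3 - ζ' 2 ^ e 2 * b' * ζ' 3 ^ e 3)) := by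
      unfold swv
      noncomm_ring
    rw [e1]
    exact h3
  | add p q hp hq =>
    rw [map_add, map_add]
    have h := T.add_mem hp hq
    have e1 : sv ζ a x b p + sv ζ a x b q - (sv ζ' a' x b' p + sv ζ' a' x b' q) =
        sv ζ a x b p - sv ζ' a' x b' p + (sv ζ a x b q - sv ζ' a' x b' q) := by abel
    rw [e1]
    exact h

/-- The slot `0` is moved through `a`: `X_0` can be replaced by `- X_1`. -/
theorem sv_flip_left (T : Submodule K B) (hTr : ∀ c, ∀ z ∈ T, z * c ∈ T) (ζ : Fin 4 → B)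
    (a b x : B)
    (hl : ∀ i j : ℕ, (ζ 0 ^ i * a * ζ 1 ^ j - (-1 : K) ^ i • (a * ζ 1 ^ (i + j))) * x ∈ T)
    (P : MvPolynomial (Fin 4) K) :
    sv ζ a x b P - sv ζ a x b (aeval ![-(X 1 : MvPolynomial (Fin 4) K), X 1, X 2, X 3] P) ∈ T := by
  induction P using MvPolynomial.induction_on' with
  | monomial e r =>
    have e0 : aeval ![-(X 1 : MvPolynomial (Fin 4) K), X 1, X 2, X 3] (monomial e r) =
        (r * (-1) ^ e 0) • ((X 0 : MvPolynomial (Fin 4) K) ^ 0 * X 1 ^ (e 0 + e 1) * X 2 ^ e 2 *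
          X 3 ^ e 3) := by
      rw [aeval_monomial, Finsupp.prod_fintype _ _ (fun i => pow_zero _), Fin.prod_univ_four]
      simp only [Matrix.cons_val_zero, Matrix.cons_val_one, Matrix.cons_val]
      have hneg : algebraMap K (MvPolynomial (Fin 4) K) (-1) = -1 := by rw [map_neg, map_one]
      rw [Algebra.smul_def, map_mul, map_pow, hneg, neg_pow, pow_add]
      ring
    rw [e0, map_smul, sv_pow, sv_monomial, mul_smul, ← smul_sub]
    refine T.smul_mem r ?_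
    have h1 := hTr (ζ 2 ^ e 2 * b * ζ 3 ^ e 3) _ (hl (e 0) (e 1))
    have e1 : swv ζ a x b e - (-1 : K) ^ e 0 • (ζ 0 ^ 0 * a * ζ 1 ^ (e 0 + e 1) * x *
          (ζ 2 ^ e 2 * b * ζ 3 ^ e 3)) =
        (ζ 0 ^ e 0 * a * ζ 1 ^ e 1 - (-1 : K) ^ e 0 • (a * ζ 1 ^ (e 0 + e 1))) * x *
            (ζ 2 ^ e 2 * b * ζ 3 ^ e 3) := by
      unfold swv
      rw [sub_mul, sub_mul, smul_mul_assoc, smul_mul_assoc, pow_zero, one_mul]
    rw [e1]
    exact h1
  | add p q hp hq =>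
    rw [map_add, map_add, map_add]
    have h := T.add_mem hp hq
    rw [sub_add_sub_comm] at h
    exact h

/-- The slot `3` is moved through `b`: `X_3` can be replaced by `- X_2`. -/
theorem sv_flip_right (T : Submodule K B) (hTl : ∀ c, ∀ z ∈ T, c * z ∈ T) (ζ : Fin 4 → B)
    (a b x : B)
    (hr : ∀ i j : ℕ, x * (ζ 2 ^ i * b * ζ 3 ^ j - (-1 : K) ^ j • (ζ 2 ^ (i + j) * b)) ∈ T)
    (P : MvPolynomial (Fin 4) K) :
    sv ζ a x b P - sv ζ a x b (aeval ![(X 0 : MvPolynomial (Fin 4) K), X 1, X 2, -X 2] P) ∈ T := by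
  induction P using MvPolynomial.induction_on' with
  | monomial e r =>
    have e0 : aeval ![(X 0 : MvPolynomial (Fin 4) K), X 1, X 2, -X 2] (monomial e r) =
        (r * (-1) ^ e 3) • ((X 0 : MvPolynomial (Fin 4) K) ^ e 0 * X 1 ^ e 1 *
          X 2 ^ (e 2 + e 3) * X 3 ^ 0) := by
      rw [aeval_monomial, Finsupp.prod_fintype _ _ (fun i => pow_zero _), Fin.prod_univ_four]
      simp only [Matrix.cons_val_zero, Matrix.cons_val_one, Matrix.cons_val]
      have hneg : algebraMap K (MvPolynomial (Fin 4) K) (-1) = -1 := by rw [map_neg, map_one]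
      rw [Algebra.smul_def, map_mul, map_pow, hneg, neg_pow, pow_add]
      ring
    rw [e0, map_smul, sv_pow, sv_monomial, mul_smul, ← smul_sub]
    refine T.smul_mem r ?_
    have h1 := hTl (ζ 0 ^ e 0 * a * ζ 1 ^ e 1) _ (hr (e 2) (e 3))
    have e1 : swv ζ a x b e - (-1 : K) ^ e 3 • (ζ 0 ^ e 0 * a * ζ 1 ^ e 1 * x *
          (ζ 2 ^ (e 2 + e 3) * b * ζ 3 ^ 0)) =
        ζ 0 ^ e 0 * a * ζ 1 ^ e 1 * (x *
          (ζ 2 ^ e 2 * b * ζ 3 ^ e 3 - (-1 : K) ^ e 3 • (ζ 2 ^ (e 2 + e 3) * b))) := by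
      unfold swv
      rw [mul_sub, mul_sub, mul_smul_comm, mul_smul_comm, pow_zero, mul_one, mul_assoc
        (ζ 0 ^ e 0 * a * ζ 1 ^ e 1) x, mul_assoc (ζ 0 ^ e 0 * a * ζ 1 ^ e 1) x]
    rw [e1]
    exact h1
  | add p q hp hq =>
    rw [map_add, map_add, map_add]
    have h := T.add_mem hp hq
    rw [sub_add_sub_comm] at h
    exact h

/-- Powers of congruent elements are congruent. -/
theorem pow_sub_mem (L : Submodule K B) (hLl : ∀ c, ∀ z ∈ L, c * z ∈ L)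
    (hLr : ∀ c, ∀ z ∈ L, z * c ∈ L) {a b : B} (h : a - b ∈ L) (i : ℕ) : a ^ i - b ^ i ∈ L := by
  induction i with
  | zero => simp
  | succ i ih =>
    have h1 := L.add_mem (hLr a _ ih) (hLl (b ^ i) _ h)
    have e1 : a ^ (i + 1) - b ^ (i + 1) = (a ^ i - b ^ i) * a + b ^ i * (a - b) := by
      rw [pow_succ, pow_succ, sub_mul, mul_sub]
      abel
    rw [e1]
    exact h1

/-- `h k = - k h` modulo `L` gives `h^i k h^j = (-1)^i k h^{i+j}`. -/
theorem flip_left_mem (L : Submodule K B) (hLl : ∀ c, ∀ z ∈ L, c * z ∈ L)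
    (hLr : ∀ c, ∀ z ∈ L, z * c ∈ L) {h k : B} (hk : h * k + k * h ∈ L) (i j : ℕ) :
    h ^ i * k * h ^ j - (-1 : K) ^ i • (k * h ^ (i + j)) ∈ L := by
  induction i with
  | zero => simp
  | succ i ih =>
    have h1 := L.add_mem (hLl h _ ih) (L.smul_mem ((-1 : K) ^ i) (hLr (h ^ (i + j)) _ hk))
    have e1 : h ^ (i + 1) * k * h ^ j - (-1 : K) ^ (i + 1) • (k * h ^ (i + 1 + j)) =
        h * (h ^ i * k * h ^ j - (-1 : K) ^ i • (k * h ^ (i + j))) +
          (-1 : K) ^ i • ((h * k + k * h) * h ^ (i + j)) := by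
      have e2 : h ^ (i + 1 + j) = h * h ^ (i + j) := by
        rw [show i + 1 + j = (i + j) + 1 by omega, pow_succ']
      rw [e2, pow_succ' h i, pow_succ (-1 : K) i, mul_neg_one, neg_smul, mul_sub, mul_smul_comm,
        add_mul, smul_add]
      simp only [mul_assoc]
      abel
    rw [e1]
    exact h1

/-- `h k = - k h` modulo `L` gives `h^i k h^j = (-1)^j h^{i+j} k`. -/
theorem flip_right_mem (L : Submodule K B) (hLl : ∀ c, ∀ z ∈ L, c * z ∈ L)
    (hLr : ∀ c, ∀ z ∈ L, z * c ∈ L) {h k : B} (hk : h * k + k * h ∈ L) (i j : ℕ) :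
    h ^ i * k * h ^ j - (-1 : K) ^ j • (h ^ (i + j) * k) ∈ L := by
  induction j with
  | zero => simp
  | succ j ih =>
    have h1 := L.add_mem (hLr h _ ih) (L.smul_mem ((-1 : K) ^ j) (hLl (h ^ (i + j)) _ hk))
    have e1 : h ^ i * k * h ^ (j + 1) - (-1 : K) ^ (j + 1) • (h ^ (i + (j + 1)) * k) =
        (h ^ i * k * h ^ j - (-1 : K) ^ j • (h ^ (i + j) * k)) * h +
          (-1 : K) ^ j • (h ^ (i + j) * (h * k + k * h)) := by
      have e2 : h ^ (i + (j + 1)) = h ^ (i + j) * h := by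
        rw [show i + (j + 1) = (i + j) + 1 by omega, pow_succ]
      rw [e2, pow_succ h j, pow_succ (-1 : K) j, mul_neg_one, neg_smul, sub_mul, smul_mul_assoc,
        mul_add, smul_add]
      simp only [mul_assoc]
      abel
    rw [e1]
    exact h1

end Pool.Agent.H.MP_f5ceca_al.S
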