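import Pool.Agent.H.MP_f5ceca_al.S.RHH
import Pool.Agent.H.MP_f5ceca_al.S.RIii
import Pool.Agent.H.MP_f5ceca_al.S.RBez

/-!
The relation (iii) for one pair of elements.
-/

namespace Pool.Agent.H.MP_f5ceca_al.S

open MvPolynomial
open Pool.Agent.H.MP_f5ceca_al.N (FA xx Com Fil Aug)

universe u

variable {K : Type u} [Field K] {n : ℕ}

/-- One pair of elements of `HH`. PROOF. `T₁` is a two-sided ideal, `C` is `Com`. `iii_core` with `z = xx t`, `k = h b - b h`: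
`hE` from `Base.h2`; `hm`: `(t z + h)^i - (t z)^i ∈ Com` (`pow_sub_mem`) and the hypothesis `hC`; `hl`, `hr`: `flip_left_mem`,
`flip_right_mem` with `Jd`, and `hl1`, `hr1`. The same holds for `k u` instead of `u`. `bez` with `a = 2 + 5 M`, `b = M`,
`L = R = Jd` gives `k^2 h^{2+9M} w h^M k ∈ T₁`, `w = u z^M u'`; `cent_left`, `cent_right` with `N' = 2 + 9 M` give the claim. -/
theorem iii_one [CharZero K] {m M : ℕ} {T T₁ : Submodule K (FA K n)} (hT : Base m M T)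
    (hT₁ : IsId T₁) (hle : T ≤ T₁) (U U' : Submodule K (FA K n))
    (hU : ∀ a : FA K n, ∀ u ∈ U, a * u ∈ U) (hU' : ∀ a : FA K n, ∀ u ∈ U', u * a ∈ U')
    (hUA : U ≤ Aug K n) (hUA' : U' ≤ Aug K n)
    (hl1 : ∀ j ∈ Jd K n, ∀ u ∈ U, j * u ∈ T₁) (hr1 : ∀ j ∈ Jd K n, ∀ u ∈ U', u * j ∈ T₁)
    (hC : ∀ u ∈ U, ∀ c ∈ Com K n, ∀ u' ∈ U', u * c * u' ∈ T₁) (t : Fin n) {h : FA K n}
    (hh : h ∈ HH K n) (b : FA K n) {u u' : FA K n} (hu : u ∈ U) (hu' : u' ∈ U') :
    (((h * b - b * h) ^ 2 * h ^ 2) ^ (2 + 9 * M)) * (u * xx K t ^ M * u') *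
      (((h * b - b * h) ^ 2 * h ^ 2) ^ (2 + 9 * M)) ∈ T₁ := by
  have hkh := HH_anti hh b
  have hkC : h * b - b * h ∈ Com K n := (HH_br hh b).1
  have hhC : h ∈ Com K n := hh.1
  generalize h * b - b * h = k at hkh hkC ⊢
  have hkA : k ∈ Aug K n := N.Com_le_Aug K n hkC
  have hhA : h ∈ Aug K n := N.Com_le_Aug K n hhC
  have hJl := (Jd_id (K := K) (n := n)).left
  have hJr := (Jd_id (K := K) (n := n)).right
  have key : ∀ u ∈ U, k * ev2 h (u * xx K t ^ M * u')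
      (X 0 ^ (2 + 5 * M) * X 1 ^ M * (X 0 + X 1 : MvPolynomial (Fin 2) K) ^ (2 * M)) * k ∈ T₁ := by
    intro u hu
    refine iii_core M T₁ hT₁.left hT₁.right (xx K t) h k u u' ?_ ?_ ?_ ?_
    · intro s
      rw [← sev_eq_sv, ← polE_eq_P2]
      exact hle (hT.h2 _ ((Aug K n).add_mem ((Aug K n).smul_mem _ (N.xx_mem_Aug K t)) hhA) _ hkA _
        (hUA hu) _ (N.Aug_left k (hUA' hu') |> fun _ => hUA' (hU' k u' hu')))
    · intro s i
      refine hC u hu _ ?_ u' hu'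
      exact pow_sub_mem (Com K n) (fun c z hz => N.Com_left K c hz)
        (fun c z hz => N.Com_right K c hz) (by simpa using hhC) i
    · intro i j
      exact hl1 _ (flip_left_mem (Jd K n) hJl hJr hkh i j) u hu
    · intro i j
      exact hr1 _ (flip_right_mem (Jd K n) hJl hJr hkh i j) u' hu'
  have h1 := key u hu
  have h2 := key (k * u) (hU k u hu)
  have h3 : k * u * xx K t ^ M * u' = k * (u * xx K t ^ M * u') := by
    simp only [mul_assoc]
  rw [h3] at h2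
  have hL : ∀ z ∈ Jd K n, z * (u * xx K t ^ M * u') ∈ T₁ := by
    intro z hz
    have := hT₁.right (xx K t ^ M * u') _ (hl1 z hz u hu)
    rwa [show z * u * (xx K t ^ M * u') = z * (u * xx K t ^ M * u') by
      simp only [mul_assoc]] at this
  have hR : ∀ z ∈ Jd K n, (u * xx K t ^ M * u') * z ∈ T₁ := by
    intro z hz
    have := hT₁.left (u * xx K t ^ M) _ (hr1 z hz u' hu')
    rwa [show u * xx K t ^ M * (u' * z) = u * xx K t ^ M * u' * z by
      simp only [mul_assoc]] at this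
  generalize u * xx K t ^ M * u' = w at h1 h2 hL hR ⊢
  have h4 := bez M (2 + 5 * M) M T₁ (Jd K n) (Jd K n) hT₁.left hT₁.right hJl hJr hJl hJr h k w
    hL hR hkh hkh h1 h2
  obtain ⟨y, hy⟩ := cent_left (Jd K n) hJl hJr hkh (α := 2) (β := 2 + 9 * M) (N := 2 + 9 * M)
    (by omega) (by omega)
  obtain ⟨y', hy'⟩ := cent_right (Jd K n) hJl hJr hkh (α := 1) (β := M) (N := 2 + 9 * M)
    (by omega) (by omega)
  rw [show 2 + 5 * M + 4 * M = 2 + 9 * M by ring] at h4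
  rw [pow_one] at hy'
  have h5 := hT₁.right ((k ^ 2 * h ^ 2) ^ (2 + 9 * M)) _ (hL _ hy)
  have h6 := hT₁.left (y * (k ^ 2 * h ^ (2 + 9 * M))) _ (hR _ hy')
  have h7 := hT₁.right y' _ (hT₁.left y _ h4)
  have h8 := T₁.add_mem (T₁.add_mem h5 h6) h7
  refine (congrArg (· ∈ T₁) ?_).mp h8
  simp only [sub_mul, mul_sub, mul_assoc]
  abel

end Pool.Agent.H.MP_f5ceca_al.S
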