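import Pool.Agent.H.MP_f5ceca_al.S.RelIiiA
import Pool.Agent.H.MP_f5ceca_al.S.RPolar

/-!
The relation (iii) for two pairs of elements.
-/

namespace Pool.Agent.H.MP_f5ceca_al.S

open MvPolynomial
open Pool.Agent.H.MP_f5ceca_al.N (FA xx Com Fil Aug)

universe u

variable {K : Type u} [Field K] {n : ℕ}

/-- Powers of a central element are central (modulo an ideal). -/
theorem RelIiiB_pow (L : Submodule K (FA K n)) (hL : IsId L) {c : FA K n}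
    (hc : ∀ x : FA K n, c * x - x * c ∈ L) (N : ℕ) (x : FA K n) :
    c ^ N * x - x * c ^ N ∈ L := by
  induction N with
  | zero => simp
  | succ N ih =>
    have h1 := hL.right c _ ih
    have h2 := hL.left (c ^ N) _ (hc x)
    have h3 := L.add_mem h2 h1
    refine (congrArg (· ∈ L) ?_).mp h3
    simp only [sub_mul, mul_sub, mul_assoc, pow_succ]
    abel

theorem RelIiiB_mul (L : Submodule K (FA K n)) (hL : IsId L) {c d : FA K n}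
    (hc : ∀ x : FA K n, c * x - x * c ∈ L) (hd : ∀ x : FA K n, d * x - x * d ∈ L) (x : FA K n) :
    c * d * x - x * (c * d) ∈ L := by
  have h1 := hL.left c _ (hd x)
  have h2 := hL.right d _ (hc x)
  have h3 := L.add_mem h1 h2
  refine (congrArg (· ∈ L) ?_).mp h3
  simp only [sub_mul, mul_sub, mul_assoc]
  abel

/-- Two pairs of elements. PROOF. `polar` for
`P s = ([h + s h', b + s b']^2 (h + s h')^2)^{2+9M}`, `h' = h₂ - h₁`, `b' = b₂ - b₁`, of degree `6 (2 + 9 M)`, and `L = Jd`: `P 0` is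
central modulo `Jd`; `P 1` is the value for `(h₂, b₂)`. -/
theorem iii_two [CharZero K] {m M : ℕ} {T T₁ : Submodule K (FA K n)} (hT : Base m M T)
    (hT₁ : IsId T₁) (hle : T ≤ T₁) (U U' : Submodule K (FA K n))
    (hU : ∀ a : FA K n, ∀ u ∈ U, a * u ∈ U) (hU' : ∀ a : FA K n, ∀ u ∈ U', u * a ∈ U')
    (hUA : U ≤ Aug K n) (hUA' : U' ≤ Aug K n)
    (hl1 : ∀ j ∈ Jd K n, ∀ u ∈ U, j * u ∈ T₁) (hr1 : ∀ j ∈ Jd K n, ∀ u ∈ U', u * j ∈ T₁)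
    (hC : ∀ u ∈ U, ∀ c ∈ Com K n, ∀ u' ∈ U', u * c * u' ∈ T₁) (t : Fin n) {h₁ h₂ : FA K n}
    (hh₁ : h₁ ∈ HH K n) (hh₂ : h₂ ∈ HH K n) (b₁ b₂ : FA K n) {u u' : FA K n} (hu : u ∈ U)
    (hu' : u' ∈ U') :
    (((h₁ * b₁ - b₁ * h₁) ^ 2 * h₁ ^ 2) ^ (2 + 9 * M)) ^ (6 * (2 + 9 * M) + 1) *
      (u * xx K t ^ M * u') *
      (((h₂ * b₂ - b₂ * h₂) ^ 2 * h₂ ^ 2) ^ (2 + 9 * M)) ^ (6 * (2 + 9 * M) + 1) ∈ T₁ := by
  -- the polynomial map
  have hPD : ∀ a c : FA K n, PolyDeg 1 fun s : K => a + s • c := fun a c =>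
    (PolyDeg.const 1 a).add (PolyDeg.smul_id (PolyDeg.const 0 c))
  have hP : PolyDeg (6 * (2 + 9 * M)) fun s : K =>
      (((h₁ + s • (h₂ - h₁)) * (b₁ + s • (b₂ - b₁)) -
        (b₁ + s • (b₂ - b₁)) * (h₁ + s • (h₂ - h₁))) ^ 2 * (h₁ + s • (h₂ - h₁)) ^ 2) ^
          (2 + 9 * M) := by
    have h1 := hPD h₁ (h₂ - h₁)
    have h2 := hPD b₁ (b₂ - b₁)
    have h3 := (((h1.mul h2).sub (h2.mul h1)).pow 2).mul (h1.pow 2)
    exact h3.pow (2 + 9 * M)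
  have hhs : ∀ s : K, h₁ + s • (h₂ - h₁) ∈ HH K n := fun s =>
    (HH K n).add_mem hh₁ ((HH K n).smul_mem s ((HH K n).sub_mem hh₂ hh₁))
  have hL : ∀ z ∈ Jd K n, z * (u * xx K t ^ M * u') ∈ T₁ := by
    intro z hz
    have := hT₁.right (xx K t ^ M * u') _ (hl1 z hz u hu)
    rwa [show z * u * (xx K t ^ M * u') = z * (u * xx K t ^ M * u') by
      simp only [mul_assoc]] at this
  have hc : ∀ x : FA K n, ((h₁ * b₁ - b₁ * h₁) ^ 2 * h₁ ^ 2) ^ (2 + 9 * M) * x -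
      x * ((h₁ * b₁ - b₁ * h₁) ^ 2 * h₁ ^ 2) ^ (2 + 9 * M) ∈ Jd K n :=
    RelIiiB_pow (Jd K n) Jd_id
      (RelIiiB_mul (Jd K n) Jd_id (HH_sq (HH_br hh₁ b₁)) (HH_sq hh₁)) (2 + 9 * M)
  have h1 := polar T₁ (Jd K n) hT₁.left hT₁.right (Jd_id (K := K) (n := n)).left
    (Jd_id (K := K) (n := n)).right hL hP (by simpa using hc)
    (fun s => iii_one hT hT₁ hle U U' hU hU' hUA hUA' hl1 hr1 hC t (hhs s) (b₁ + s • (b₂ - b₁))
      hu hu') 1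
  have h2 := hT₁.right ((((h₂ * b₂ - b₂ * h₂) ^ 2 * h₂ ^ 2) ^ (2 + 9 * M)) ^ (6 * (2 + 9 * M))) _ h1
  simp only [zero_smul, add_zero, one_smul, add_sub_cancel] at h2
  rw [pow_succ' (((h₂ * b₂ - b₂ * h₂) ^ 2 * h₂ ^ 2) ^ (2 + 9 * M)), ← mul_assoc]
  exact h2

end Pool.Agent.H.MP_f5ceca_al.S
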