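import Pool.Agent.H.MP_f5ceca_al.S.RelIiiB

/-!
The relation (iii): the step.
-/

namespace Pool.Agent.H.MP_f5ceca_al.S

open MvPolynomial
open Pool.Agent.H.MP_f5ceca_al.N (FA xx Com Fil Aug)

universe u

variable {K : Type u} [Field K] {n : ℕ}

theorem RelIiiC_leftU (q : ℕ) (P : Submodule K (FA K n)) (a : FA K n) {u : FA K n}
    (hu : u ∈ Fil K n q * P) : a * u ∈ Fil K n q * P := by
  refine Submodule.mul_induction_on hu (fun x hx y hy => ?_) (fun x y hx hy => ?_)
  · rw [← mul_assoc]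
    exact Submodule.mul_mem_mul (N.Fil_left K q a hx) hy
  · rw [mul_add]
    exact Submodule.add_mem _ hx hy

theorem RelIiiC_rightU (q : ℕ) (P : Submodule K (FA K n)) (a : FA K n) {u : FA K n}
    (hu : u ∈ P * Fil K n q) : u * a ∈ P * Fil K n q := by
  refine Submodule.mul_induction_on hu (fun x hx y hy => ?_) (fun x y hx hy => ?_)
  · rw [mul_assoc]
    exact Submodule.mul_mem_mul hx (N.Fil_right K q a hy)
  · rw [add_mul]
    exact Submodule.add_mem _ hx hy

/-- The ideal `T + C^{q'} P C P' C^{q'}`. -/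
theorem RelIiiC_id {T : Submodule K (FA K n)} (hT : IsId T) (q' : ℕ)
    (P P' : Submodule K (FA K n)) :
    IsId (T ⊔ Fil K n q' * P * Com K n * P' * Fil K n q') := by
  constructor
  · intro a z hz
    obtain ⟨x, hx, y, hy, rfl⟩ := Submodule.mem_sup.1 hz
    rw [mul_add]
    refine Submodule.add_mem_sup (hT.left a x hx) ?_
    have e1 : Fil K n q' * P * Com K n * P' * Fil K n q' =
        Fil K n q' * (P * Com K n * P' * Fil K n q') := by
      simp only [mul_assoc]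
    rw [e1] at hy ⊢
    exact RelIiiC_leftU q' _ a hy
  · intro a z hz
    obtain ⟨x, hx, y, hy, rfl⟩ := Submodule.mem_sup.1 hz
    rw [add_mul]
    exact Submodule.add_mem_sup (hT.right a x hx) (RelIiiC_rightU q' _ a hy)

/-- The span argument. -/
theorem RelIiiC_span {T₁ : Submodule K (FA K n)} (hT₁ : IsId T₁) {Y : Set (FA K n)}
    {q : ℕ} (hq : Fil K n q ≤ tsp Y ⊔ Jd K n) (z : FA K n) (U U' : Submodule K (FA K n))
    (hU : ∀ a : FA K n, ∀ u ∈ U, a * u ∈ U) (hU' : ∀ a : FA K n, ∀ u ∈ U', u * a ∈ U')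
    (hl1 : ∀ j ∈ Jd K n, ∀ u ∈ U, j * u ∈ T₁) (hr1 : ∀ j ∈ Jd K n, ∀ u ∈ U', u * j ∈ T₁)
    (hmid : ∀ c ∈ Y, ∀ c' ∈ Y, ∀ u ∈ U, ∀ u' ∈ U', c * (u * z * u') * c' ∈ T₁) :
    Fil K n q * (U * Submodule.span K {z} * U') * Fil K n q ≤ T₁ := by
  -- one element, second side
  have h1 : ∀ c ∈ Y, ∀ y' ∈ tsp Y, ∀ u ∈ U, ∀ u' ∈ U', c * (u * z * u') * y' ∈ T₁ := by
    intro c hc y' hy' u hu u' hu'
    unfold tsp at hy'
    induction hy' using Submodule.span_induction with
    | mem x hx =>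
      obtain ⟨a, c', b, hc', rfl⟩ := hx
      have h2 := hT₁.right b _ (hmid c hc c' hc' u hu (u' * a) (hU' a u' hu'))
      have e1 : c * (u * z * u') * (a * c' * b) = c * (u * z * (u' * a)) * c' * b := by
        simp only [mul_assoc]
      rw [e1]
      exact h2
    | zero => rw [mul_zero]; exact T₁.zero_mem
    | add x y _ _ hx hy => rw [mul_add]; exact T₁.add_mem hx hy
    | smul r x _ hx => rw [mul_smul_comm]; exact T₁.smul_mem r hx
  have h2 : ∀ y ∈ tsp Y, ∀ y' ∈ tsp Y, ∀ u ∈ U, ∀ u' ∈ U', y * (u * z * u') * y' ∈ T₁ := by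
    intro y hy y' hy' u hu u' hu'
    unfold tsp at hy
    induction hy using Submodule.span_induction with
    | mem x hx =>
      obtain ⟨a, c, b, hc, rfl⟩ := hx
      have h3 := hT₁.left a _ (h1 c hc y' hy' (b * u) (hU b u hu) u' hu')
      have e1 : a * c * b * (u * z * u') * y' = a * (c * (b * u * z * u') * y') := by
        simp only [mul_assoc]
      rw [e1]
      exact h3
    | zero => rw [zero_mul, zero_mul]; exact T₁.zero_mem
    | add x y _ _ hx hy => rw [add_mul, add_mul]; exact T₁.add_mem hx hy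
    | smul r x _ hx => rw [smul_mul_assoc, smul_mul_assoc]; exact T₁.smul_mem r hx
  have h3 : ∀ y ∈ Fil K n q, ∀ y' ∈ Fil K n q, ∀ u ∈ U, ∀ u' ∈ U',
      y * (u * z * u') * y' ∈ T₁ := by
    intro y hy y' hy' u hu u' hu'
    obtain ⟨y0, hy0, j, hj, rfl⟩ := Submodule.mem_sup.1 (hq hy)
    obtain ⟨y0', hy0', j', hj', rfl⟩ := Submodule.mem_sup.1 (hq hy')
    have e1 : (y0 + j) * (u * z * u') * (y0' + j') =
        y0 * (u * z * u') * y0' + ((j * u) * (z * u' * (y0' + j')) +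
          (y0 * (u * z)) * (u' * j')) := by
      noncomm_ring
    rw [e1]
    refine T₁.add_mem (h2 y0 hy0 y0' hy0' u hu u' hu') (T₁.add_mem ?_ ?_)
    · exact hT₁.right _ _ (hl1 j hj u hu)
    · exact hT₁.left _ _ (hr1 j' hj' u' hu')
  rw [Submodule.mul_le]
  intro a ha y' hy'
  induction ha using Submodule.mul_induction_on' with
  | mem_mul_mem y hy w hw =>
    induction hw using Submodule.mul_induction_on' with
    | mem_mul_mem v hv u' hu' =>
      induction hv using Submodule.mul_induction_on' with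
      | mem_mul_mem u hu s hs =>
        obtain ⟨r, rfl⟩ := Submodule.mem_span_singleton.1 hs
        have e1 : y * (u * r • z * u') * y' = r • (y * (u * z * u') * y') := by
          simp only [mul_smul_comm, smul_mul_assoc]
        rw [e1]
        exact T₁.smul_mem r (h3 y hy y' hy' u hu u' hu')
      | add v _ v' _ hv hv' =>
        have e1 : y * ((v + v') * u') * y' = y * (v * u') * y' + y * (v' * u') * y' := by
          noncomm_ring
        rw [e1]
        exact T₁.add_mem hv hv'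
    | add w _ w' _ hw hw' =>
      have e1 : y * (w + w') * y' = y * w * y' + y * w' * y' := by
        noncomm_ring
      rw [e1]
      exact T₁.add_mem hw hw'
  | add a _ a' _ ha ha' =>
    rw [add_mul]
    exact T₁.add_mem ha ha'

/-- PROOF. `q₀ = max m q'`, `T₁ = T + C^{q'} P C P' C^{q'}`, `U = C^{q₀} P`, `U' = P' C^{q₀}`. `iii_two` and `Deep2` (with
`N' = (2 + 9 M) (6 (2 + 9 M) + 1)`) twice: for `y = a c b`, `y' = a' c' b'`, `y w y' = a c (b u z^M u' a') c' b'`; and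
`Jd * w ⊆ Jd C^m Jd ≤ T`. So `Fil q₁ * w * Fil q₁ ≤ T₁`; `q = q₁ + q₀`. -/
theorem rel_iii_step [CharZero K] {m M : ℕ} {T : Submodule K (FA K n)} (hT : Base m M T)
    (hD : Deep2 K n) (q' : ℕ) (P P' : Submodule K (FA K n)) (hP : P ≤ Jd K n)
    (hP' : P' ≤ Jd K n) (t : Fin n) :
    ∃ q, Fil K n q * P * Submodule.span K {xx K t ^ M} * P' * Fil K n q ≤
      T ⊔ Fil K n q' * P * Com K n * P' * Fil K n q' := by
  obtain ⟨q₁, hq₁⟩ := hD ((2 + 9 * M) * (6 * (2 + 9 * M) + 1))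
  have hT₁ := RelIiiC_id (P := P) (P' := P') hT.id q'
  obtain ⟨T₁, hdef⟩ : ∃ T₁, T₁ = T ⊔ Fil K n q' * P * Com K n * P' * Fil K n q' := ⟨_, rfl⟩
  rw [← hdef] at hT₁ ⊢
  have hle : T ≤ T₁ := by
    rw [hdef]
    exact le_sup_left
  have hle2 : Fil K n q' * P * Com K n * P' * Fil K n q' ≤ T₁ := by
    rw [hdef]
    exact le_sup_right
  have hJA : Jd K n ≤ Aug K n := Jd_le_Com.trans (N.Com_le_Aug K n)
  have hm : Fil K n (max m q') ≤ Fil K n m := N.Fil_antitone K n (le_max_left _ _)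
  have hq' : Fil K n (max m q') ≤ Fil K n q' := N.Fil_antitone K n (le_max_right _ _)
  have hU : ∀ a : FA K n, ∀ u ∈ Fil K n (max m q') * P, a * u ∈ Fil K n (max m q') * P :=
    fun a u hu => RelIiiC_leftU _ P a hu
  have hU' : ∀ a : FA K n, ∀ u ∈ P' * Fil K n (max m q'), u * a ∈ P' * Fil K n (max m q') :=
    fun a u hu => RelIiiC_rightU _ P' a hu
  have hUJ : Fil K n (max m q') * P ≤ Jd K n := by
    rw [Submodule.mul_le]
    intro a _ b hb
    exact Jd_id.left a b (hP hb)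
  have hUJ' : P' * Fil K n (max m q') ≤ Jd K n := by
    rw [Submodule.mul_le]
    intro a ha b _
    exact Jd_id.right b a (hP' ha)
  have hl1 : ∀ j ∈ Jd K n, ∀ u ∈ Fil K n (max m q') * P, j * u ∈ T₁ := by
    intro j hj u hu
    apply hle
    apply hT.h1
    rw [mul_assoc]
    exact Submodule.mul_mem_mul hj (mul_le_mul' hm hP hu)
  have hr1 : ∀ j ∈ Jd K n, ∀ u ∈ P' * Fil K n (max m q'), u * j ∈ T₁ := by
    intro j hj u hu
    apply hle
    apply hT.h1
    exact Submodule.mul_mem_mul (mul_le_mul' hP' hm hu) hj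
  have hC : ∀ u ∈ Fil K n (max m q') * P, ∀ c ∈ Com K n, ∀ u' ∈ P' * Fil K n (max m q'),
      u * c * u' ∈ T₁ := by
    intro u hu c hc u' hu'
    apply hle2
    have h1 : u * c * u' ∈ Fil K n q' * P * Com K n * (P' * Fil K n q') :=
      Submodule.mul_mem_mul (Submodule.mul_mem_mul (mul_le_mul' hq' le_rfl hu) hc)
        (mul_le_mul' le_rfl hq' hu')
    rw [← mul_assoc] at h1
    exact h1
  have hmid : ∀ c ∈ {z | ∃ h ∈ HH K n, ∃ b : FA K n, z = ((h * b - b * h) ^ 2 * h ^ 2) ^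
      ((2 + 9 * M) * (6 * (2 + 9 * M) + 1))}, ∀ c' ∈ {z | ∃ h ∈ HH K n, ∃ b : FA K n,
      z = ((h * b - b * h) ^ 2 * h ^ 2) ^ ((2 + 9 * M) * (6 * (2 + 9 * M) + 1))},
      ∀ u ∈ Fil K n (max m q') * P, ∀ u' ∈ P' * Fil K n (max m q'),
      c * (u * xx K t ^ M * u') * c' ∈ T₁ := by
    rintro c ⟨h₁, hh₁, b₁, rfl⟩ c' ⟨h₂, hh₂, b₂, rfl⟩ u hu u' hu'
    rw [pow_mul, pow_mul]
    exact iii_two hT hT₁ hle _ _ hU hU' (hUJ.trans hJA) (hUJ'.trans hJA) hl1 hr1 hC t hh₁ hh₂
      b₁ b₂ hu hu'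
  have key := RelIiiC_span hT₁ hq₁ (xx K t ^ M) _ _ hU hU' hl1 hr1 hmid
  refine ⟨q₁ + max m q', ?_⟩
  refine le_trans (le_of_eq ?_) key
  have e1 : Fil K n (q₁ + max m q') = Fil K n q₁ * Fil K n (max m q') := (Fil_mul _ _).symm
  have e2 : Fil K n (q₁ + max m q') = Fil K n (max m q') * Fil K n q₁ := by
    rw [Fil_mul, add_comm]
  calc Fil K n (q₁ + max m q') * P * Submodule.span K {xx K t ^ M} * P' *
        Fil K n (q₁ + max m q')
      = (Fil K n q₁ * Fil K n (max m q')) * P * Submodule.span K {xx K t ^ M} * P' *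
        (Fil K n (max m q') * Fil K n q₁) := by rw [← e1, ← e2]
    _ = Fil K n q₁ * (Fil K n (max m q') * P * Submodule.span K {xx K t ^ M} *
        (P' * Fil K n (max m q'))) * Fil K n q₁ := by
      simp only [mul_assoc]

end Pool.Agent.H.MP_f5ceca_al.S
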