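import Pool.Agent.H.MP_f5ceca_al.S.RHH
import Pool.Agent.H.MP_f5ceca_al.S.RIv
import Pool.Agent.H.MP_f5ceca_al.S.RCent

/-!
The relation (iv) modulo `T + C^{q'} J C^{i+2}`.
-/

namespace Pool.Agent.H.MP_f5ceca_al.S

open MvPolynomial
open Pool.Agent.H.MP_f5ceca_al.N (FA xx Com Fil Aug)

universe u

variable {K : Type u} [Field K] {n : ℕ}

/-- The linear map `u ↦ ∑ (-1)^l binom(M,l) u z^(2M-l) v z^l`. -/
noncomputable def RelIv_psi (M : ℕ) (z v : FA K n) : FA K n →ₗ[K] FA K n :=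
  ∑ l ∈ Finset.range (M + 1), ((-1 : K) ^ l * (M.choose l : K)) •
    LinearMap.mulRight K (z ^ (2 * M - l) * v * z ^ l)

theorem RelIv_psi_apply (M : ℕ) (z v u : FA K n) : RelIv_psi M z v u =
    ∑ l ∈ Finset.range (M + 1), ((-1 : K) ^ l * (M.choose l : K)) •
      (u * z ^ (2 * M - l) * v * z ^ l) := by
  unfold RelIv_psi
  rw [LinearMap.sum_apply]
  refine Finset.sum_congr rfl fun l _ => ?_
  rw [LinearMap.smul_apply, LinearMap.mulRight_apply]
  simp only [mul_assoc]

theorem RelIv_psi_mul (M : ℕ) (z v y u : FA K n) :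
    RelIv_psi M z v (y * u) = y * RelIv_psi M z v u := by
  rw [RelIv_psi_apply, RelIv_psi_apply, Finset.mul_sum]
  refine Finset.sum_congr rfl fun l _ => ?_
  rw [mul_smul_comm]
  simp only [mul_assoc]

theorem RelIv_prod_id {A B : Submodule K (FA K n)} (hA : IsId A) (hB : IsId B) : IsId (A * B) where
  left := fun a z hz => by
    induction hz using Submodule.mul_induction_on' with
    | mem_mul_mem x hx y hy => rw [← mul_assoc]; exact Submodule.mul_mem_mul (hA.left a x hx) hy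
    | add x _ y _ h1 h2 => rw [mul_add]; exact add_mem h1 h2
  right := fun a z hz => by
    induction hz using Submodule.mul_induction_on' with
    | mem_mul_mem x hx y hy => rw [mul_assoc]; exact Submodule.mul_mem_mul hx (hB.right a y hy)
    | add x _ y _ h1 h2 => rw [add_mul]; exact add_mem h1 h2

theorem RelIv_sup_id {A B : Submodule K (FA K n)} (hA : IsId A) (hB : IsId B) : IsId (A ⊔ B) where
  left := fun a z hz => by
    obtain ⟨x, hx, y, hy, rfl⟩ := Submodule.mem_sup.1 hz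
    rw [mul_add]
    exact add_mem (Submodule.mem_sup_left (hA.left a x hx)) (Submodule.mem_sup_right (hB.left a y hy))
  right := fun a z hz => by
    obtain ⟨x, hx, y, hy, rfl⟩ := Submodule.mem_sup.1 hz
    rw [add_mul]
    exact add_mem (Submodule.mem_sup_left (hA.right a x hx))
      (Submodule.mem_sup_right (hB.right a y hy))

theorem RelIv_Fil_id (k : ℕ) : IsId (Fil K n k) :=
  ⟨fun a _ h => N.Fil_left K k a h, fun a _ h => N.Fil_right K k a h⟩

/-- (iv). PROOF. Let `q₀ = max m q'` and `T₁ = T + C^{q'} J C^{i+2}` (a two-sided ideal). Let `u ∈ C^{q₀} J C^i`, `v ∈ Com`,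
`h ∈ HH`, `b ∈ F`, `k = h b - b h`. `iv_core` applies with `z = xx t`: `hE` from `Base.h2` (`t z + h ∈ Aug`, `k, u, v ∈ Aug`,
`sev_eq_sv`, `polE_eq_P2`); `hr`: the difference is `(ζ^i - ζ'^i) v ζ^j + ζ'^i v (ζ^j - ζ'^j) ∈ Com * Com` (`pow_sub_mem`), and
`u * (Com * Com) ⊆ C^{q'} J C^{i+2}`; `hl`: `flip_left_mem` with `L = Jd` and `Jd * u ⊆ J C^m J ≤ T`. So
`k h^{2+7M} Ψ(u,v) ∈ T₁` and by `cent_left` (`L = Jd`, `Jd * Ψ ⊆ T`) `(k^2 h^2)^{N'} Ψ(u,v) ∈ T₁` with `N' = 2 + 7 M`. By `Deep2` there is `q₁` with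
`Fil q₁ ≤ tsp {..} + Jd`; for `y = a (k^2 h^2)^{N'} b'` one has `y Ψ(u,v) = a (k^2 h^2)^{N'} Ψ(b' u, v) ∈ T₁`. So
`Ψ(y u, v) ∈ T₁` for all `y ∈ Fil q₁`; `q = q₁ + q₀`, `Fil q = Fil q₁ * Fil q₀`. -/
theorem rel_iv [CharZero K] {m M : ℕ} {T : Submodule K (FA K n)} (hT : Base m M T)
    (hD : Deep2 K n) (q' i : ℕ) : ∃ q, ∀ u ∈ Fil K n q * Jd K n * Fil K n i, ∀ v ∈ Com K n,
      ∀ t : Fin n, ∑ l ∈ Finset.range (M + 1), ((-1 : K) ^ l * (M.choose l : K)) •
        (u * xx K t ^ (2 * M - l) * v * xx K t ^ l) ∈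
          T ⊔ Fil K n q' * Jd K n * Fil K n (i + 2) := by
  obtain ⟨q₁, hq₁⟩ := hD (2 + 7 * M)
  obtain ⟨q₀, hq₀⟩ : ∃ q₀, q₀ = max m q' := ⟨_, rfl⟩
  have hJ : IsId (Jd K n) := Jd_id
  have hW : IsId (Fil K n q₀ * Jd K n * Fil K n i) :=
    RelIv_prod_id (RelIv_prod_id (RelIv_Fil_id q₀) hJ) (RelIv_Fil_id i)
  have hR : IsId (Fil K n q' * Jd K n * Fil K n (i + 2)) :=
    RelIv_prod_id (RelIv_prod_id (RelIv_Fil_id q') hJ) (RelIv_Fil_id (i + 2))
  have hT₁ : IsId (T ⊔ Fil K n q' * Jd K n * Fil K n (i + 2)) := RelIv_sup_id hT.id hR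
  have hComAug : Com K n ≤ Aug K n := N.Com_le_Aug K n
  have hJAug : Jd K n ≤ Aug K n := Jd_le_Com.trans hComAug
  have hm : Fil K n q₀ ≤ Fil K n m := N.Fil_antitone K n (hq₀ ▸ le_max_left m q')
  have hq'' : Fil K n q₀ ≤ Fil K n q' := N.Fil_antitone K n (hq₀ ▸ le_max_right m q')
  -- `J * W ≤ T`
  have hJW : ∀ x ∈ Jd K n, ∀ u ∈ Fil K n q₀ * Jd K n * Fil K n i, x * u ∈ T := by
    intro x hx u hu
    induction hu using Submodule.mul_induction_on' with
    | mem_mul_mem y hy c hc =>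
      rw [← mul_assoc]
      refine hT.id.right _ _ ?_
      induction hy using Submodule.mul_induction_on' with
      | mem_mul_mem f hf j hj =>
        rw [← mul_assoc]
        exact hT.h1 (Submodule.mul_mem_mul (Submodule.mul_mem_mul hx (hm hf)) hj)
      | add y _ y' _ h1 h2 => rw [mul_add]; exact add_mem h1 h2
    | add y _ y' _ h1 h2 => rw [mul_add]; exact add_mem h1 h2
  -- `W ≤ Aug`
  have hWA : ∀ u ∈ Fil K n q₀ * Jd K n * Fil K n i, u ∈ Aug K n := by
    intro u hu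
    induction hu using Submodule.mul_induction_on' with
    | mem_mul_mem y hy c hc =>
      refine N.Aug_right c ?_
      induction hy using Submodule.mul_induction_on' with
      | mem_mul_mem f hf j hj => exact N.Aug_left f (hJAug hj)
      | add y _ y' _ h1 h2 => exact add_mem h1 h2
    | add y _ y' _ h1 h2 => exact add_mem h1 h2
  -- `W * Fil 2`
  have hW2 : ∀ u ∈ Fil K n q₀ * Jd K n * Fil K n i, ∀ c ∈ Com K n * Com K n,
      u * c ∈ Fil K n q' * Jd K n * Fil K n (i + 2) := by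
    intro u hu c hc
    have hc2 : c ∈ Fil K n 2 := by
      have : Fil K n 2 = Com K n * Com K n := by
        rw [show (2 : ℕ) = 1 + 1 from rfl, N.Fil_succ, N.Fil_one]
      rw [this]; exact hc
    have h1 : u * c ∈ Fil K n q₀ * Jd K n * Fil K n i * Fil K n 2 :=
      Submodule.mul_mem_mul hu hc2
    rw [mul_assoc (Fil K n q₀ * Jd K n), Fil_mul] at h1
    refine (Submodule.mul_le.2 fun a ha b hb => ?_) h1
    refine Submodule.mul_mem_mul ?_ hb
    exact (Submodule.mul_le.2 fun a ha b hb => Submodule.mul_mem_mul (hq'' ha) hb) ha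
  have key : ∀ u ∈ Fil K n q₀ * Jd K n * Fil K n i, ∀ v ∈ Com K n, ∀ t : Fin n,
      ∀ y ∈ Fil K n q₁, RelIv_psi M (xx K t) v (y * u) ∈
        T ⊔ Fil K n q' * Jd K n * Fil K n (i + 2) := by
    intro u hu v hv t y hy
    -- elements of `J` kill `Ψ`
    have hJpsi : ∀ x ∈ Jd K n, ∀ u ∈ Fil K n q₀ * Jd K n * Fil K n i,
        x * RelIv_psi M (xx K t) v u ∈ T ⊔ Fil K n q' * Jd K n * Fil K n (i + 2) := by
      intro x hx u hu
      rw [← RelIv_psi_mul, RelIv_psi_apply]
      refine Submodule.mem_sup_left (Submodule.sum_mem _ fun l _ => Submodule.smul_mem _ _ ?_)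
      exact hT.id.right _ _ (hT.id.right _ _ (hT.id.right _ _ (hJW x hx u hu)))
    have hmain : ∀ h ∈ HH K n, ∀ b : FA K n, ∀ u ∈ Fil K n q₀ * Jd K n * Fil K n i,
        ((h * b - b * h) ^ 2 * h ^ 2) ^ (2 + 7 * M) * RelIv_psi M (xx K t) v u ∈
          T ⊔ Fil K n q' * Jd K n * Fil K n (i + 2) := by
      intro h hh b u hu
      have hhC : h ∈ Com K n := hh.1
      have hkC : h * b - b * h ∈ Com K n :=
        sub_mem (N.Com_right K b hhC) (N.Com_left K b hhC)
      have hcore := iv_core M (T ⊔ Fil K n q' * Jd K n * Fil K n (i + 2)) hT₁.left hT₁.right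
        (xx K t) h (h * b - b * h) u v
        (fun s => by
          rw [← sev_eq_sv, ← polE_eq_P2]
          exact Submodule.mem_sup_left (hT.h2 _
            (add_mem (Submodule.smul_mem _ _ (N.xx_mem_Aug K t)) (hComAug hhC)) _
            (hComAug hkC) _ (hWA u hu) _ (hComAug hv)))
        (fun s a c => by
          refine Submodule.mem_sup_right (hW2 u hu _ ?_)
          have e1 : (s • xx K t + h) ^ a * v * (s • xx K t + h) ^ c -
              (s • xx K t) ^ a * v * (s • xx K t) ^ c =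
              ((s • xx K t + h) ^ a - (s • xx K t) ^ a) * (v * (s • xx K t + h) ^ c) +
                (s • xx K t) ^ a * v * ((s • xx K t + h) ^ c - (s • xx K t) ^ c) := by
            noncomm_ring
          rw [e1]
          have h2 : (s • xx K t + h) - s • xx K t ∈ Com K n := by
            rw [add_sub_cancel_left]; exact hhC
          have hCl : ∀ c, ∀ z ∈ Com K n, c * z ∈ Com K n := fun c _ h => N.Com_left K c h
          have hCr : ∀ c, ∀ z ∈ Com K n, z * c ∈ Com K n := fun c _ h => N.Com_right K c h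
          exact add_mem
            (Submodule.mul_mem_mul (pow_sub_mem _ hCl hCr h2 a) (hCr _ _ hv))
            (Submodule.mul_mem_mul (hCl _ _ hv) (pow_sub_mem _ hCl hCr h2 c)))
        (fun a c => Submodule.mem_sup_left
          (hJW _ (flip_left_mem (Jd K n) hJ.left hJ.right (HH_anti hh b) a c) u hu))
      rw [← RelIv_psi_apply] at hcore
      obtain ⟨y, hy⟩ := cent_left (Jd K n) hJ.left hJ.right (HH_anti hh b)
        (α := 1) (β := 2 + 7 * M) (N := 2 + 7 * M) (by omega) (by omega)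
      have e2 : ((h * b - b * h) ^ 2 * h ^ 2) ^ (2 + 7 * M) * RelIv_psi M (xx K t) v u =
          (((h * b - b * h) ^ 2 * h ^ 2) ^ (2 + 7 * M) -
            y * ((h * b - b * h) ^ 1 * h ^ (2 + 7 * M))) * RelIv_psi M (xx K t) v u +
          y * ((h * b - b * h) * h ^ (2 + 7 * M) * RelIv_psi M (xx K t) v u) := by
        rw [pow_one, sub_mul]
        simp only [mul_assoc]
        abel
      rw [e2]
      exact add_mem (hJpsi _ hy u hu) (hT₁.left _ _ hcore)
    rw [RelIv_psi_mul]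
    obtain ⟨y₁, hy₁, y₂, hy₂, rfl⟩ := Submodule.mem_sup.1 (hq₁ hy)
    rw [add_mul]
    refine add_mem ?_ (hJpsi y₂ hy₂ u hu)
    clear hy hy₂
    induction hy₁ using Submodule.span_induction with
    | mem x hx =>
      obtain ⟨a, w, b', ⟨h, hh, b, rfl⟩, rfl⟩ := hx
      have e3 : a * ((h * b - b * h) ^ 2 * h ^ 2) ^ (2 + 7 * M) * b' *
          RelIv_psi M (xx K t) v u = a * (((h * b - b * h) ^ 2 * h ^ 2) ^ (2 + 7 * M) *
            RelIv_psi M (xx K t) v (b' * u)) := by
        rw [RelIv_psi_mul]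
        simp only [mul_assoc]
      rw [e3]
      exact hT₁.left _ _ (hmain h hh b _ (hW.left b' u hu))
    | zero => rw [zero_mul]; exact zero_mem _
    | add x y _ _ h1 h2 => rw [add_mul]; exact add_mem h1 h2
    | smul c x _ h1 => rw [smul_mul_assoc]; exact Submodule.smul_mem _ _ h1
  refine ⟨q₁ + q₀, fun u hu v hv t => ?_⟩
  rw [← RelIv_psi_apply]
  rw [← Fil_mul, mul_assoc, mul_assoc (Fil K n q₁)] at hu
  rw [← mul_assoc (Fil K n q₀)] at hu
  induction hu using Submodule.mul_induction_on' with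
  | mem_mul_mem y hy w hw => exact key w hw v hv t y hy
  | add x _ y _ h1 h2 => rw [map_add]; exact add_mem h1 h2

end Pool.Agent.H.MP_f5ceca_al.S
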