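import Pool.Agent.H.MP_f5ceca_al.S.RHH
import Pool.Agent.H.MP_f5ceca_al.S.RIv2

/-!
The relation (iv') modulo `T + C^{i+2} J C^{q'}`.
-/

namespace Pool.Agent.H.MP_f5ceca_al.S

open MvPolynomial
open Pool.Agent.H.MP_f5ceca_al.N (FA xx Com Fil Aug)

universe u

variable {K : Type u} [Field K] {n : ℕ}

theorem RelIv2_left {a b : ℕ} (c : FA K n) {z : FA K n}
    (hz : z ∈ Fil K n a * Jd K n * Fil K n b) : c * z ∈ Fil K n a * Jd K n * Fil K n b := by
  refine Submodule.mul_induction_on hz (fun p hp r hr => ?_) (fun p r hp hr => ?_)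
  · rw [← mul_assoc]
    refine Submodule.mul_mem_mul ?_ hr
    refine Submodule.mul_induction_on hp (fun s hs t ht => ?_) (fun s t hs ht => ?_)
    · rw [← mul_assoc]
      exact Submodule.mul_mem_mul (N.Fil_left K a c hs) ht
    · rw [mul_add]
      exact add_mem hs ht
  · rw [mul_add]
    exact add_mem hp hr

theorem RelIv2_right {a b : ℕ} (c : FA K n) {z : FA K n}
    (hz : z ∈ Fil K n a * Jd K n * Fil K n b) : z * c ∈ Fil K n a * Jd K n * Fil K n b := by
  refine Submodule.mul_induction_on hz (fun p hp r hr => ?_) (fun p r hp hr => ?_)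
  · rw [mul_assoc p r c]
    exact Submodule.mul_mem_mul hp (N.Fil_right K b c hr)
  · rw [add_mul]
    exact add_mem hp hr

theorem RelIv2_id {m M : ℕ} {T : Submodule K (FA K n)} (hT : Base m M T) (a b : ℕ) :
    IsId (T ⊔ Fil K n a * Jd K n * Fil K n b) := by
  constructor
  · intro c z hz
    obtain ⟨x, hx, y, hy, rfl⟩ := Submodule.mem_sup.mp hz
    rw [mul_add]
    exact add_mem (Submodule.mem_sup_left (hT.id.left c x hx))
      (Submodule.mem_sup_right (RelIv2_left c hy))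
  · intro c z hz
    obtain ⟨x, hx, y, hy, rfl⟩ := Submodule.mem_sup.mp hz
    rw [add_mul]
    exact add_mem (Submodule.mem_sup_left (hT.id.right c x hx))
      (Submodule.mem_sup_right (RelIv2_right c hy))

theorem RelIv2_le_Jd (a b : ℕ) : Fil K n a * Jd K n * Fil K n b ≤ Jd K n := by
  refine Submodule.mul_le.mpr fun p hp r _ => Jd_id.right _ _ ?_
  exact (Submodule.mul_le.mpr fun s _ t ht => Jd_id.left _ _ ht :
    Fil K n a * Jd K n ≤ Jd K n) hp

theorem RelIv2_mul_Jd {m M : ℕ} {T : Submodule K (FA K n)} (hT : Base m M T) {a b : ℕ}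
    (hb : m ≤ b) {v w : FA K n} (hv : v ∈ Fil K n a * Jd K n * Fil K n b) (hw : w ∈ Jd K n) :
    v * w ∈ T := by
  refine hT.h1 (Submodule.mul_mem_mul ?_ hw)
  exact mul_le_mul' (Submodule.mul_le.mpr fun s _ t ht => Jd_id.left _ _ ht)
    (N.Fil_antitone K n hb) hv

theorem RelIv2_Com_mul {a b b' : ℕ} (hb : b' ≤ b) {v c d : FA K n}
    (hv : v ∈ Fil K n a * Jd K n * Fil K n b) (hc : c ∈ Com K n) (hd : d ∈ Com K n) :
    c * d * v ∈ Fil K n (a + 2) * Jd K n * Fil K n b' := by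
  have h2 : c * d ∈ Fil K n 2 := by
    rw [N.Fil_succ, N.Fil_one]
    exact Submodule.mul_mem_mul hc hd
  have h := Submodule.mul_mem_mul h2 hv
  rw [← mul_assoc, ← mul_assoc, Fil_mul, add_comm 2 a] at h
  exact mul_le_mul' le_rfl (N.Fil_antitone K n hb) h

/-- (iv'), the mirror image; same proof with `iv_core'`, `cent_right`. -/
theorem rel_iv' [CharZero K] {m M : ℕ} {T : Submodule K (FA K n)} (hT : Base m M T)
    (hD : Deep2 K n) (q' i : ℕ) : ∃ q, ∀ v ∈ Fil K n i * Jd K n * Fil K n q, ∀ u ∈ Com K n,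
      ∀ t : Fin n, ∑ l ∈ Finset.range (2 * M + 1), ((-1 : K) ^ l * ((2 * M).choose l : K)) •
        (xx K t ^ l * u * xx K t ^ (4 * M + 1 - l) * v) ∈
          T ⊔ Fil K n (i + 2) * Jd K n * Fil K n q' := by
  obtain ⟨q₁, hq₁⟩ := hD (1 + 5 * M)
  obtain ⟨q₀, hm, hq'⟩ : ∃ q₀, m ≤ q₀ ∧ q' ≤ q₀ := ⟨max m q', le_max_left _ _, le_max_right _ _⟩
  refine ⟨q₀ + q₁, ?_⟩
  intro v' hv' u hu t
  obtain ⟨T₁, hT₁⟩ : ∃ T₁, T₁ = T ⊔ Fil K n (i + 2) * Jd K n * Fil K n q' := ⟨_, rfl⟩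
  have hid : IsId T₁ := hT₁ ▸ RelIv2_id hT (i + 2) q'
  have hTT : ∀ {z}, z ∈ T → z ∈ T₁ := fun hz => hT₁ ▸ Submodule.mem_sup_left hz
  have hB : ∀ v ∈ Fil K n i * Jd K n * Fil K n q₀, ∀ c ∈ Com K n, ∀ d ∈ Com K n,
      c * d * v ∈ T₁ := fun v hv c hc d hd =>
    hT₁ ▸ Submodule.mem_sup_right (RelIv2_Com_mul hq' hv hc hd)
  rw [← hT₁]
  obtain ⟨Φ, hΦ⟩ : ∃ Φ : FA K n, Φ = ∑ l ∈ Finset.range (2 * M + 1),
    ((-1 : K) ^ l * ((2 * M).choose l : K)) • (xx K t ^ l * u * xx K t ^ (4 * M + 1 - l)) :=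
    ⟨_, rfl⟩
  have hsum : ∀ v : FA K n, ∑ l ∈ Finset.range (2 * M + 1),
      ((-1 : K) ^ l * ((2 * M).choose l : K)) •
        (xx K t ^ l * u * xx K t ^ (4 * M + 1 - l) * v) = Φ * v := by
    intro v
    rw [hΦ, Finset.sum_mul]
    exact Finset.sum_congr rfl fun l _ => (smul_mul_assoc _ _ _).symm
  rw [hsum]
  have core : ∀ v ∈ Fil K n i * Jd K n * Fil K n q₀, ∀ h ∈ HH K n, ∀ b : FA K n,
      Φ * v * ((h * b - b * h) ^ 2 * h ^ 2) ^ (1 + 5 * M) ∈ T₁ := by
    intro v hv h hh b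
    have hk : h * b - b * h ∈ HH K n := HH_br hh b
    have han := HH_anti hh b
    obtain ⟨k, hkk⟩ : ∃ k, k = h * b - b * h := ⟨_, rfl⟩
    rw [← hkk] at hk han ⊢
    have hvA : v ∈ Aug K n := N.Com_le_Aug K n (Jd_le_Com (RelIv2_le_Jd i q₀ hv))
    have h1 := iv_core' M T₁ hid.left hid.right (xx K t) h k u v ?_ ?_ ?_
    · rw [hsum] at h1
      obtain ⟨y, hy⟩ := cent_right (Jd K n) Jd_id.left Jd_id.right han (α := 1)
        (β := 1 + 5 * M) (N := 1 + 5 * M) (by omega) (by omega)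
      have h2 : Φ * v * (k ^ 2 * h ^ 2) ^ (1 + 5 * M) =
          Φ * (v * ((k ^ 2 * h ^ 2) ^ (1 + 5 * M) - h ^ (1 + 5 * M) * k ^ 1 * y)) +
            Φ * v * h ^ (1 + 5 * M) * k * y := by
        rw [pow_one]
        noncomm_ring
      rw [h2]
      exact add_mem (hid.left _ _ (hTT (RelIv2_mul_Jd hT hm hv hy))) (hid.right _ _ h1)
    · intro s
      have h3 := hT.h2 (s • xx K t + h)
        (add_mem (Submodule.smul_mem _ _ (N.xx_mem_Aug K t)) (N.Com_le_Aug K n hh.1))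
        u (N.Com_le_Aug K n hu) v hvA k (N.Com_le_Aug K n hk.1)
      rw [sev_eq_sv, polE_eq_P2] at h3
      exact hTT h3
    · intro s a c
      have hp : ∀ e : ℕ, (s • xx K t + h) ^ e - (s • xx K t) ^ e ∈ Com K n := fun e =>
        pow_sub_mem (Com K n) (fun c z hz => N.Com_left K c hz) (fun c z hz => N.Com_right K c hz)
          (by rw [add_sub_cancel_left]; exact hh.1) e
      have h4 : ((s • xx K t + h) ^ a * u * (s • xx K t + h) ^ c -
          (s • xx K t) ^ a * u * (s • xx K t) ^ c) * v =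
          ((s • xx K t + h) ^ a - (s • xx K t) ^ a) * (u * (s • xx K t + h) ^ c) * v +
          ((s • xx K t) ^ a * u) * ((s • xx K t + h) ^ c - (s • xx K t) ^ c) * v := by
        noncomm_ring
      rw [h4]
      exact add_mem (hB v hv _ (hp a) _ (N.Com_right K _ hu))
        (hB v hv _ (N.Com_left K _ hu) _ (hp c))
    · intro a c
      exact hTT (RelIv2_mul_Jd hT hm hv
        (flip_right_mem (Jd K n) Jd_id.left Jd_id.right han a c))
  have deep : ∀ v ∈ Fil K n i * Jd K n * Fil K n q₀, ∀ y ∈ Fil K n q₁, Φ * v * y ∈ T₁ := by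
    intro v hv y hy
    obtain ⟨s, hs, w, hw, rfl⟩ := Submodule.mem_sup.mp (hq₁ hy)
    rw [mul_add]
    refine add_mem ?_ ?_
    · refine Submodule.span_induction (p := fun s _ => Φ * v * s ∈ T₁) ?_ ?_ ?_ ?_ hs
      · rintro z ⟨a, Y, b, ⟨h, hh, c, rfl⟩, rfl⟩
        have h5 := hid.right b _ (core (v * a) (RelIv2_right a hv) h hh c)
        have h6 : ∀ Z : FA K n, Φ * v * (a * Z * b) = Φ * (v * a) * Z * b := fun Z => by
          simp only [mul_assoc]
        rw [h6]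
        exact h5
      · rw [mul_zero]
        exact zero_mem _
      · intro x y _ _ hx hy
        rw [mul_add]
        exact add_mem hx hy
      · intro c x _ hx
        rw [mul_smul_comm]
        exact Submodule.smul_mem _ _ hx
    · rw [mul_assoc]
      exact hid.left _ _ (hTT (RelIv2_mul_Jd hT hm hv hw))
  rw [← Fil_mul, ← mul_assoc] at hv'
  refine Submodule.mul_induction_on hv' (fun v hv y hy => ?_) (fun x y hx hy => ?_)
  · rw [← mul_assoc]
    exact deep v hv y hy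
  · rw [mul_add]
    exact add_mem hx hy

end Pool.Agent.H.MP_f5ceca_al.S
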