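import Pool.Agent.H.MP_f5ceca_al.S.Defs
import Pool.Agent.H.MP_f5ceca_al.N.Basic

/-!
Abstract sections: a subspace `R` of `F × Θ^N` (representation of elements of the free algebra by vectors
over a polynomial ring), and the consequence of the lemma of Artin and Rees.
-/

namespace Pool.Agent.H.MP_f5ceca_al.S

open MvPolynomial
open Pool.Agent.H.MP_f5ceca_al.N (FA xx Com Fil Aug)

universe u

/-- A section modulo `T`. -/
structure Sec {K : Type u} [Field K] {n : ℕ} (T : Submodule K (FA K n)) where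
  /-- the number of variables -/
  p : ℕ
  /-- the rank -/
  N : ℕ
  /-- the representation relation -/
  R : Submodule K (FA K n × (Fin N → MvPolynomial (Fin p) K))
  /-- the conductor -/
  gg : Ideal (MvPolynomial (Fin p) K)
  zero : ∀ u, (u, 0) ∈ R → u ∈ T
  act : ∀ u x g, (u, x) ∈ R → g ∈ gg → ∃ u' ∈ tsp {u}, (u', g • x) ∈ R
  dom : ∀ g ∈ gg, ∀ x, ∃ u, (u, g • x) ∈ R

variable {K : Type u} [Field K] {n : ℕ} {T : Submodule K (FA K n)} (S : Sec T)

/-- The elements represented by vectors of depth `m`. -/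
noncomputable def Sec.X (m : ℕ) : Submodule K (FA K n) where
  carrier := {v | ∃ x ∈ S.gg ^ m • (⊤ : Submodule (MvPolynomial (Fin S.p) K)
    (Fin S.N → MvPolynomial (Fin S.p) K)), (v, x) ∈ S.R}
  zero_mem' := ⟨0, zero_mem _, S.R.zero_mem⟩
  add_mem' := fun ⟨x, hx, h⟩ ⟨y, hy, h'⟩ => ⟨x + y, add_mem hx hy, S.R.add_mem h h'⟩
  smul_mem' := fun c _ ⟨x, hx, h⟩ => ⟨c • x, Submodule.smul_of_tower_mem _ c hx, S.R.smul_mem c h⟩

/-- The vectors which represent elements of `I`. -/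
def Sec.Rel (I : Submodule K (FA K n)) : Set (Fin S.N → MvPolynomial (Fin S.p) K) :=
  {x | ∃ u ∈ I, (u, x) ∈ S.R}

theorem Sec_tsp_id (Y : Set (FA K n)) : IsId (tsp Y) where
  left := fun a z hz => by
    refine N.Basic_span_left _ a ?_ hz
    rintro z ⟨a', y, b, hy, rfl⟩
    exact ⟨a * a', y, b, hy, by simp only [mul_assoc]⟩
  right := fun a z hz => by
    refine N.Basic_span_right _ a ?_ hz
    rintro z ⟨a', y, b, hy, rfl⟩
    exact ⟨a', y, b * a, hy, by simp only [mul_assoc]⟩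

theorem Sec_mem_tsp {Y : Set (FA K n)} {y : FA K n} (hy : y ∈ Y) : y ∈ tsp Y :=
  Submodule.subset_span ⟨1, y, 1, hy, by rw [one_mul, mul_one]⟩

theorem Sec_tsp_le {Y : Set (FA K n)} {I : Submodule K (FA K n)} (hI : IsId I)
    (h : ∀ y ∈ Y, y ∈ I) : tsp Y ≤ I := by
  unfold tsp
  rw [Submodule.span_le]
  rintro z ⟨a, y, b, hy, rfl⟩
  exact hI.right _ _ (hI.left _ _ (h y hy))

/-- PROOF. The elements with this property form a subspace (sum of the representing elements), and they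
contain `g • x`: `Submodule.smul_induction_on` for `gg • ⊤`. -/
theorem Sec.dom_smul {x : Fin S.N → MvPolynomial (Fin S.p) K}
    (hx : x ∈ S.gg • (⊤ : Submodule (MvPolynomial (Fin S.p) K)
      (Fin S.N → MvPolynomial (Fin S.p) K))) : ∃ u, (u, x) ∈ S.R := by
  induction hx using Submodule.smul_induction_on' with
  | smul g hg y _ => exact S.dom g hg y
  | add x _ y _ hx hy =>
    obtain ⟨u, hu⟩ := hx
    obtain ⟨v, hv⟩ := hy
    exact ⟨u + v, S.R.add_mem hu hv⟩

/-- PROOF. `Rel I` is closed under addition and under multiplication by elements of `gg` (`act`; `tsp {u} ≤ I` since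
`I` is an ideal, span induction); `gg • span (Rel I)` is generated additively by `g • (r • x)` with `g ∈ gg`, `x ∈ Rel I`
(`Submodule.smul_induction_on`, then span induction on the second factor for all `g` at once) and `g • r • x = (g * r) • x`. -/
theorem Sec.gg_smul_span (I : Submodule K (FA K n)) (hI : IsId I)
    {x : Fin S.N → MvPolynomial (Fin S.p) K}
    (hx : x ∈ S.gg • Submodule.span (MvPolynomial (Fin S.p) K) (S.Rel I)) : x ∈ S.Rel I := by
  have hadd : ∀ x y, x ∈ S.Rel I → y ∈ S.Rel I → x + y ∈ S.Rel I := by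
    rintro x y ⟨u, hu, h1⟩ ⟨v, hv, h2⟩
    exact ⟨u + v, I.add_mem hu hv, S.R.add_mem h1 h2⟩
  have hsm : ∀ y ∈ Submodule.span (MvPolynomial (Fin S.p) K) (S.Rel I), ∀ g ∈ S.gg,
      g • y ∈ S.Rel I := by
    intro y hy
    induction hy using Submodule.span_induction with
    | mem y h =>
      intro g hg
      obtain ⟨u, hu, h1⟩ := h
      obtain ⟨u', hu', h2⟩ := S.act u y g h1 hg
      refine ⟨u', Sec_tsp_le hI ?_ hu', h2⟩
      rintro z rfl
      exact hu
    | zero =>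
      intro g _
      rw [smul_zero]
      exact ⟨0, I.zero_mem, S.R.zero_mem⟩
    | add y z _ _ h1 h2 =>
      intro g hg
      rw [smul_add]
      exact hadd _ _ (h1 g hg) (h2 g hg)
    | smul a y _ h1 =>
      intro g hg
      rw [smul_smul]
      exact h1 (g * a) (S.gg.mul_mem_right a hg)
  induction hx using Submodule.smul_induction_on' with
  | smul g hg y hy => exact hsm y hy g hg
  | add x _ y _ hx hy => exact hadd _ _ hx hy

/-- **Artin-Rees.** PROOF. `Ideal.exists_pow_inf_eq_pow_smul` (Mathlib.RingTheory.Filtration) for the submodule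
`U = span (Rel I)` of the finite module `⊤` over the noetherian ring `MvPolynomial (Fin p) K`: there is `k` with
`gg ^ m • ⊤ ⊓ U = gg ^ (m - k) • (gg ^ k • ⊤ ⊓ U)` for `m ≥ k`; take `m = k + 1`. -/
theorem Sec.exists_depth (I : Submodule K (FA K n)) : ∃ m, 1 ≤ m ∧
    ∀ x ∈ S.gg ^ m • (⊤ : Submodule (MvPolynomial (Fin S.p) K)
      (Fin S.N → MvPolynomial (Fin S.p) K)),
      x ∈ Submodule.span (MvPolynomial (Fin S.p) K) (S.Rel I) →
      x ∈ S.gg • Submodule.span (MvPolynomial (Fin S.p) K) (S.Rel I) := by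
  obtain ⟨k, hk⟩ := Ideal.exists_pow_inf_eq_pow_smul S.gg
    (Submodule.span (MvPolynomial (Fin S.p) K) (S.Rel I))
  refine ⟨k + 1, Nat.le_add_left 1 k, fun x hx hx' => ?_⟩
  have h1 := hk (k + 1) (Nat.le_succ k)
  have h2 : x ∈ S.gg ^ (k + 1) • (⊤ : Submodule (MvPolynomial (Fin S.p) K)
      (Fin S.N → MvPolynomial (Fin S.p) K)) ⊓
      Submodule.span (MvPolynomial (Fin S.p) K) (S.Rel I) := ⟨hx, hx'⟩
  rw [h1, Nat.add_sub_cancel_left, pow_one] at h2
  exact Submodule.smul_mono le_rfl inf_le_right h2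

/-- **Finiteness.**

PROOF. Let `U = span (Rel I)`, finitely generated, by a finite subset `s` of `Rel I`
(`Submodule.fg_span_iff_fg_span_finset_subset`), and choose `u_x ∈ I` with `(u_x, x) ∈ R` for `x ∈ s`; `Φ` the set of the `u_x`. `m` from
`exists_depth`. Let `v ∈ I ⊓ Γ`, `v = t + w`, `t ∈ T`, `w ∈ X m`, `(w, x) ∈ R`, `x ∈ gg ^ m • ⊤`. `w ∈ I`, so `x ∈ Rel I ⊆ U`, so
`x ∈ gg • span s`, `x = ∑ g_y • y` with `y ∈ s`, `g_y ∈ gg` (`Submodule.mem_ideal_smul_span_iff_exists_sum'` or smul induction).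
By `act`, `(u'_y, g_y • y) ∈ R` with `u'_y ∈ tsp {u_y} ≤ tsp Φ`. `(w - ∑ u'_y, 0) ∈ R`, so `w - ∑ u'_y ∈ T` by `zero`. -/
theorem Sec.fg (hT : IsId T) (I : Submodule K (FA K n)) (hI : IsId I) (hTI : T ≤ I) :
    ∃ (m : ℕ) (Φ : Finset (FA K n)), (∀ u ∈ Φ, u ∈ I) ∧
      ∀ Γ : Submodule K (FA K n), Γ ≤ T ⊔ S.X m → I ⊓ Γ ≤ T ⊔ tsp (Φ : Set (FA K n)) := by
  classical
  have hfg : (Submodule.span (MvPolynomial (Fin S.p) K) (S.Rel I)).FG :=
    IsNoetherian.noetherian _
  obtain ⟨s, hs1, hs2⟩ := (Submodule.fg_span_iff_fg_span_finset_subset _).1 hfg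
  have hch : ∀ x : Fin S.N → MvPolynomial (Fin S.p) K, ∃ u : FA K n,
      x ∈ s → u ∈ I ∧ (u, x) ∈ S.R := by
    intro x
    by_cases hx : x ∈ s
    · obtain ⟨u, hu, h⟩ := hs1 hx
      exact ⟨u, fun _ => ⟨hu, h⟩⟩
    · exact ⟨0, fun h => absurd h hx⟩
  choose U hU using hch
  obtain ⟨m, -, hm⟩ := S.exists_depth I
  refine ⟨m, s.image U, ?_, ?_⟩
  · intro u hu
    obtain ⟨x, hx, rfl⟩ := Finset.mem_image.1 hu
    exact (hU x hx).1
  · rintro Γ hΓ v ⟨hvI, hvΓ⟩
    obtain ⟨t, ht, w, ⟨x, hx, hwx⟩, rfl⟩ := Submodule.mem_sup.1 (hΓ hvΓ)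
    have hw : w ∈ I := by
      have h1 := I.sub_mem hvI (hTI ht)
      rwa [add_sub_cancel_left] at h1
    have h1 := hm x hx (Submodule.subset_span ⟨w, hw, hwx⟩)
    rw [hs2] at h1
    have h2 : Submodule.span (MvPolynomial (Fin S.p) K)
        (s : Set (Fin S.N → MvPolynomial (Fin S.p) K)) ≤
        Submodule.span (MvPolynomial (Fin S.p) K)
          (S.Rel (tsp ((s.image U : Finset (FA K n)) : Set (FA K n)))) := by
      refine Submodule.span_mono fun y hy => ?_
      exact ⟨U y, Sec_mem_tsp (Finset.mem_coe.2 (Finset.mem_image_of_mem U hy)), (hU y hy).2⟩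
    obtain ⟨u', hu', h3⟩ := S.gg_smul_span _ (Sec_tsp_id _) (Submodule.smul_mono le_rfl h2 h1)
    have h4 : w - u' ∈ T := by
      refine S.zero _ ?_
      have h5 := S.R.sub_mem hwx h3
      rw [Prod.mk_sub_mk, sub_self] at h5
      exact h5
    have h6 : t + w = (t + (w - u')) + u' := by abel
    rw [h6]
    exact Submodule.add_mem_sup (T.add_mem ht h4) hu'

end Pool.Agent.H.MP_f5ceca_al.S
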