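import Pool.Agent.H.MP_f5ceca_al.S.RHH

/-!
Steps: amplification (from generation as a two-sided ideal to generation by `g (a y b) g'` with deep
central `g`, `g'`).
-/

namespace Pool.Agent.H.MP_f5ceca_al.S

open MvPolynomial
open Pool.Agent.H.MP_f5ceca_al.N (FA xx Com Fil Aug)

universe u

variable {K : Type u} [Field K] {n : ℕ}

/-- The kernel of the abelianization is the commutator ideal. (See `S/RHH`, `Jd_le_Com`, for the proof.) -/
theorem rho1_ker {z : FA K n} (hz : rho1 K n z = 0) : z ∈ Com K n := by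
  rw [← N.Fil_one]
  apply N.mem_Fil_of_sym
  intro i hi
  obtain rfl : i = 0 := by omega
  have h1 : N.sym K n 0 z = C (N.ev K n 0 0 z) := N.tau_diag K n 0 z 0
  have h3 : (MvPolynomial.rename (fun j : Fin n => ((0 : Fin (0 + 1)), j))).comp (rho1 K n) =
      N.ev K n 0 0 := by
    apply FreeAlgebra.hom_ext
    funext i
    simp only [Function.comp_apply, AlgHom.comp_apply, rho1, N.ev, FreeAlgebra.lift_ι_apply,
      MvPolynomial.rename_X, N.gX]
  have h4 := DFunLike.congr_fun h3 z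
  rw [AlgHom.comp_apply, hz, map_zero] at h4
  rw [h1, ← h4, map_zero]

theorem mem_Jd {z : FA K n} : z ∈ Jd K n ↔ rho2 K n z = 0 := Iff.rfl

theorem Base.mono {m M : ℕ} {T T' : Submodule K (FA K n)} (hT : Base m M T) (hT' : IsId T')
    (h : T ≤ T') : Base m M T' where
  id := hT'
  Mpos := hT.Mpos
  h1 := hT.h1.trans h
  h2 z hz a ha x hx b hb := h (hT.h2 z hz a ha x hx b hb)

theorem tsp_id (Y : Set (FA K n)) : IsId (tsp Y) where
  left := fun a z hz => by
    refine N.Basic_span_left _ a ?_ hz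
    rintro z ⟨a', y, b, hy, rfl⟩
    exact ⟨a * a', y, b, hy, by simp only [mul_assoc]⟩
  right := fun a z hz => by
    refine N.Basic_span_right _ a ?_ hz
    rintro z ⟨a', y, b, hy, rfl⟩
    exact ⟨a', y, b * a, hy, by simp only [mul_assoc]⟩

theorem subset_tsp (Y : Set (FA K n)) : Y ⊆ tsp Y := by
  intro y hy
  exact Submodule.subset_span ⟨1, y, 1, hy, by rw [one_mul, mul_one]⟩

theorem tsp_le {Y : Set (FA K n)} {I : Submodule K (FA K n)} (hI : IsId I) (h : Y ⊆ I) :
    tsp Y ≤ I := by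
  unfold tsp
  rw [Submodule.span_le]
  rintro z ⟨a, y, b, hy, rfl⟩
  exact hI.right b _ (hI.left a _ (h hy))

theorem IsId.sup {I I' : Submodule K (FA K n)} (h : IsId I) (h' : IsId I') : IsId (I ⊔ I') where
  left := fun a z hz => by
    obtain ⟨x, hx, y, hy, rfl⟩ := Submodule.mem_sup.1 hz
    rw [mul_add]
    exact Submodule.add_mem_sup (h.left a x hx) (h'.left a y hy)
  right := fun a z hz => by
    obtain ⟨x, hx, y, hy, rfl⟩ := Submodule.mem_sup.1 hz
    rw [add_mul]
    exact Submodule.add_mem_sup (h.right a x hx) (h'.right a y hy)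

/-- Products of subspaces, of which the left one is a left ideal and the right one a right ideal. -/
theorem IsId.mul {I I' : Submodule K (FA K n)} (h : ∀ a : FA K n, ∀ z ∈ I, a * z ∈ I)
    (h' : ∀ a : FA K n, ∀ z ∈ I', z * a ∈ I') : IsId (I * I') where
  left := fun a z hz => by
    refine Submodule.mul_induction_on hz (fun x hx y hy => ?_) (fun x y hx hy => ?_)
    · rw [← mul_assoc]
      exact Submodule.mul_mem_mul (h a x hx) hy
    · rw [mul_add]
      exact add_mem hx hy
  right := fun a z hz => by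
    refine Submodule.mul_induction_on hz (fun x hx y hy => ?_) (fun x y hx hy => ?_)
    · rw [mul_assoc]
      exact Submodule.mul_mem_mul hx (h' a y hy)
    · rw [add_mul]
      exact add_mem hx hy

theorem Fil_id (q : ℕ) : IsId (Fil K n q) where
  left := fun a _ hz => N.Fil_left K q a hz
  right := fun a _ hz => N.Fil_right K q a hz

theorem StA_one (r : ℕ) (g : FA K n) : g ∈ (side1 K n).D r := by
  refine ⟨rho1 K n g, ?_, rfl⟩
  have h : (side1 K n).gg = ⊤ := rfl
  rw [h, Ideal.top_pow]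
  exact Submodule.mem_top

theorem StA_comm {S2 : Side (rho2 K n)} {r : ℕ} {g : FA K n} (hg : g ∈ S2.D r) (f : FA K n) :
    f * g - g * f ∈ Jd K n := by
  obtain ⟨θ, -, h⟩ := hg
  rw [mem_Jd, map_sub, map_mul, map_mul, h, S2.comm, sub_self]

theorem StA_left {S2 : Side (rho2 K n)} {T' : Submodule K (FA K n)} (hT : IsId T')
    {Y : Set (FA K n)} (hl : ∀ y ∈ Y, ∀ z ∈ Jd K n, z * y ∈ T') {r : ℕ} {G : Set (FA K n)}
    (hG : ∀ g ∈ G, g ∈ S2.D r) {c : FA K n} (hc : c ∈ ⊤ * Submodule.span K G ⊔ Jd K n)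
    {t : FA K n} (ht : t ∈ tsp Y) : c * t ∈ T' ⊔ Xsp S2 (side1 K n) Y r := by
  unfold tsp at ht
  induction ht using Submodule.span_induction with
  | mem t ht =>
    obtain ⟨a, y, b, hy, rfl⟩ := ht
    have hJ : ∀ j ∈ Jd K n, j * (a * y * b) ∈ T' := by
      intro j hj
      have e : j * (a * y * b) = (j * a * y) * b := by simp only [mul_assoc]
      rw [e]
      exact hT.right b _ (hl y hy _ (Jd_id.right a j hj))
    obtain ⟨c1, hc1, c2, hc2, rfl⟩ := Submodule.mem_sup.1 hc
    rw [add_mul]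
    refine add_mem ?_ (Submodule.mem_sup_left (hJ c2 hc2))
    refine Submodule.mul_induction_on hc1 (fun f _ s hs => ?_) (fun x y hx hy => ?_)
    · induction hs using Submodule.span_induction with
      | mem g hg =>
        have e : f * g * (a * y * b) = (f * g - g * f) * (a * y * b) +
            g * ((f * a) * y * b) * 1 := by
          noncomm_ring
        rw [e]
        refine add_mem (Submodule.mem_sup_left (hJ _ (StA_comm (hG g hg) f)))
          (Submodule.mem_sup_right (Submodule.subset_span ?_))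
        exact ⟨g, hG g hg, 1, StA_one r 1, f * a, b, y, hy, rfl⟩
      | zero =>
        rw [mul_zero, zero_mul]
        exact zero_mem _
      | add x y _ _ hx hy =>
        rw [mul_add, add_mul]
        exact add_mem hx hy
      | smul k x _ hx =>
        rw [mul_smul_comm, smul_mul_assoc]
        exact Submodule.smul_mem _ k hx
    · rw [add_mul]
      exact add_mem hx hy
  | zero =>
    rw [mul_zero]
    exact zero_mem _
  | add x y _ _ hx hy =>
    rw [mul_add]
    exact add_mem hx hy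
  | smul k x _ hx =>
    rw [mul_smul_comm]
    exact Submodule.smul_mem _ k hx

theorem StA_right {S2 : Side (rho2 K n)} {O O' : Type u} [Ring O] [Algebra K O] [Ring O']
    [Algebra K O'] {ρ : FA K n →ₐ[K] O} {ρ' : FA K n →ₐ[K] O'} {S : Side ρ} {S' : Side ρ'}
    {T' : Submodule K (FA K n)} (hT : IsId T')
    {Y : Set (FA K n)} (hr : ∀ y ∈ Y, ∀ z ∈ Jd K n, y * z ∈ T') {r : ℕ} {G : Set (FA K n)}
    (hG : ∀ g ∈ G, g ∈ S2.D r) {c : FA K n} (hc : c ∈ ⊤ * Submodule.span K G ⊔ Jd K n)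
    {t : FA K n} (ht : t ∈ Xsp S S' Y r) : t * c ∈ T' ⊔ Xsp S S2 Y r := by
  unfold Xsp at ht
  induction ht using Submodule.span_induction with
  | mem t ht =>
    obtain ⟨g0, hg0, g1, hg1, a, b, y, hy, rfl⟩ := ht
    have hJ : ∀ j ∈ Jd K n, (g0 * (a * y * b) * g1) * j ∈ T' := by
      intro j hj
      have e : (g0 * (a * y * b) * g1) * j = (g0 * a) * (y * ((b * g1) * j)) := by
        simp only [mul_assoc]
      rw [e]
      exact hT.left _ _ (hr y hy _ (Jd_id.left _ j hj))
    obtain ⟨c1, hc1, c2, hc2, rfl⟩ := Submodule.mem_sup.1 hc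
    rw [mul_add]
    refine add_mem ?_ (Submodule.mem_sup_left (hJ c2 hc2))
    refine Submodule.mul_induction_on hc1 (fun f _ s hs => ?_) (fun x y hx hy => ?_)
    · induction hs using Submodule.span_induction with
      | mem g hg =>
        refine Submodule.mem_sup_right (Submodule.subset_span ?_)
        exact ⟨g0, hg0, g, hG g hg, a, b * g1 * f, y, hy, by simp only [mul_assoc]⟩
      | zero =>
        rw [mul_zero, mul_zero]
        exact zero_mem _
      | add x y _ _ hx hy =>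
        rw [mul_add, mul_add]
        exact add_mem hx hy
      | smul k x _ hx =>
        rw [mul_smul_comm, mul_smul_comm]
        exact Submodule.smul_mem _ k hx
    · rw [mul_add]
      exact add_mem hx hy
  | zero =>
    rw [zero_mul]
    exact zero_mem _
  | add x y _ _ hx hy =>
    rw [add_mul]
    exact add_mem hx hy
  | smul k x _ hx =>
    rw [smul_mul_assoc]
    exact Submodule.smul_mem _ k hx

theorem StA_tsp (Y : Set (FA K n)) (r : ℕ) : tsp Y ≤ Xsp (side1 K n) (side1 K n) Y r := by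
  unfold tsp
  rw [Submodule.span_le]
  rintro z ⟨a, y, b, hy, rfl⟩
  exact Submodule.subset_span ⟨1, StA_one r 1, 1, StA_one r 1, a, b, y, hy,
    by rw [one_mul, mul_one]⟩

/-- PROOF. `Deep1` with `r`, `q' = 0`: `Fil q ≤ ⊤ * span G + Jd`. For `c = ∑ f_i g_i + j`, `c' = ∑ f'_i g'_i + j'`:
`f g (a y b) f' g' = g (f a y b f') g' + (f g - g f) a y b f' g'`, `f g - g f ∈ Jd` as `g` is central modulo `Jd`, and
`Jd a y ⊆ T'`; similarly for the terms with `j`, `j'`. -/
theorem amp22 {S2 : Side (rho2 K n)} (h1 : Deep1 S2) {T' : Submodule K (FA K n)} (hT : IsId T')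
    {Y : Set (FA K n)} (hl : ∀ y ∈ Y, ∀ z ∈ Jd K n, z * y ∈ T')
    (hr : ∀ y ∈ Y, ∀ z ∈ Jd K n, y * z ∈ T') (r : ℕ) :
    ∃ q, Fil K n q * tsp Y * Fil K n q ≤ T' ⊔ Xsp S2 S2 Y r := by
  obtain ⟨q, G, hG, hq⟩ := h1 r 0
  refine ⟨q, ?_⟩
  rw [Submodule.mul_le]
  intro m hm c' hc'
  have h2 : m ∈ T' ⊔ Xsp S2 (side1 K n) Y r := by
    refine Submodule.mul_induction_on hm (fun c hc t ht => ?_) (fun x y hx hy => add_mem hx hy)
    exact StA_left hT hl (fun g hg => (hG g hg).2) (hq hc) ht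
  obtain ⟨t, ht, x, hx, rfl⟩ := Submodule.mem_sup.1 h2
  rw [add_mul]
  exact add_mem (Submodule.mem_sup_left (hT.right c' t ht))
    (StA_right hT hr (fun g hg => (hG g hg).2) (hq hc') hx)

/-- Same; on the right take `g' = 1 ∈ side1.D r`. -/
theorem amp21 {S2 : Side (rho2 K n)} (h1 : Deep1 S2) {T' : Submodule K (FA K n)} (hT : IsId T')
    {Y : Set (FA K n)} (hl : ∀ y ∈ Y, ∀ z ∈ Jd K n, z * y ∈ T') (r : ℕ) :
    ∃ q, Fil K n q * tsp Y ≤ T' ⊔ Xsp S2 (side1 K n) Y r := by
  obtain ⟨q, G, hG, hq⟩ := h1 r 0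
  refine ⟨q, ?_⟩
  rw [Submodule.mul_le]
  intro c hc t ht
  exact StA_left hT hl (fun g hg => (hG g hg).2) (hq hc) ht

theorem amp12 {S2 : Side (rho2 K n)} (h1 : Deep1 S2) {T' : Submodule K (FA K n)} (hT : IsId T')
    {Y : Set (FA K n)} (hr : ∀ y ∈ Y, ∀ z ∈ Jd K n, y * z ∈ T') (r : ℕ) :
    ∃ q, tsp Y * Fil K n q ≤ T' ⊔ Xsp (side1 K n) S2 Y r := by
  obtain ⟨q, G, hG, hq⟩ := h1 r 0
  refine ⟨q, ?_⟩
  rw [Submodule.mul_le]
  intro t ht c hc
  exact StA_right hT hr (fun g hg => (hG g hg).2) (hq hc) (StA_tsp Y r ht)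

end Pool.Agent.H.MP_f5ceca_al.S
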