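import Pool.Agent.H.MP_f5ceca_al.S.StA

/-!
Steps: the generation lemma.
-/

namespace Pool.Agent.H.MP_f5ceca_al.S

open MvPolynomial
open Pool.Agent.H.MP_f5ceca_al.N (FA xx Com Fil Aug)

universe u

variable {K : Type u} [Field K] {n : ℕ}

theorem StG_tsp_mono {Y Y' : Set (FA K n)} (h : Y ⊆ Y') : tsp Y ≤ tsp Y' := by
  refine Submodule.span_mono ?_
  rintro z ⟨a, y, b, hy, rfl⟩
  exact ⟨a, y, b, h hy, rfl⟩

/-- An element with central value commutes with everything modulo `Jd`. -/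
theorem StG_comm {S2 : Side (rho2 K n)} {r : ℕ} {g : FA K n} (hg : g ∈ S2.D r) (f : FA K n) :
    f * g - g * f ∈ Jd K n := by
  obtain ⟨θ, -, h⟩ := hg
  rw [mem_Jd, map_sub, map_mul, map_mul, h, S2.comm, sub_self]

theorem StG_swap {S2 : Side (rho2 K n)} {r : ℕ} {G : Finset (FA K n)}
    (hG : ∀ g ∈ G, g ∈ S2.D r) {s : FA K n}
    (hs : s ∈ (⊤ : Submodule K (FA K n)) * Submodule.span K (G : Set (FA K n))) :
    s ∈ Submodule.span K (G : Set (FA K n)) * (⊤ : Submodule K (FA K n)) ⊔ Jd K n := by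
  induction hs using Submodule.mul_induction_on' with
  | mem_mul_mem f _ γ hγ =>
    induction hγ using Submodule.span_induction with
    | mem g hg =>
      have e : f * g = g * f + (f * g - g * f) := by abel
      rw [e]
      exact Submodule.add_mem_sup (Submodule.mul_mem_mul (Submodule.subset_span hg)
        Submodule.mem_top) (StG_comm (hG g hg) f)
    | zero =>
      rw [mul_zero]
      exact zero_mem _
    | add x y _ _ hx hy =>
      rw [mul_add]
      exact add_mem hx hy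
    | smul c x _ hx =>
      rw [mul_smul_comm]
      exact Submodule.smul_mem _ c hx
  | add x _ y _ hx hy => exact add_mem hx hy

theorem StG_span {G : Finset (FA K n)} {W : Submodule K (FA K n)} {y : FA K n}
    (h : ∀ g ∈ G, ∀ g' ∈ G, g * y * g' ∈ W) {γ γ' : FA K n}
    (hγ : γ ∈ Submodule.span K (G : Set (FA K n)))
    (hγ' : γ' ∈ Submodule.span K (G : Set (FA K n))) : γ * y * γ' ∈ W := by
  induction hγ using Submodule.span_induction with
  | mem g hg =>
    induction hγ' using Submodule.span_induction with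
    | mem g' hg' => exact h g hg g' hg'
    | zero =>
      rw [mul_zero]
      exact zero_mem _
    | add x z _ _ hx hz =>
      rw [mul_add]
      exact add_mem hx hz
    | smul c x _ hx =>
      rw [mul_smul_comm]
      exact Submodule.smul_mem _ c hx
  | zero =>
    rw [zero_mul, zero_mul]
    exact zero_mem _
  | add x z _ _ hx hz =>
    rw [add_mul, add_mul]
    exact add_mem hx hz
  | smul c x _ hx =>
    rw [smul_mul_assoc, smul_mul_assoc]
    exact Submodule.smul_mem _ c hx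

theorem StG_prod {G : Finset (FA K n)} {W : Submodule K (FA K n)} (hW : IsId W) {y : FA K n}
    (h : ∀ g ∈ G, ∀ g' ∈ G, g * y * g' ∈ W) {s s' : FA K n}
    (hs : s ∈ (⊤ : Submodule K (FA K n)) * Submodule.span K (G : Set (FA K n)))
    (hs' : s' ∈ Submodule.span K (G : Set (FA K n)) * (⊤ : Submodule K (FA K n))) :
    s * y * s' ∈ W := by
  induction hs using Submodule.mul_induction_on' with
  | mem_mul_mem f _ γ hγ =>
    induction hs' using Submodule.mul_induction_on' with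
    | mem_mul_mem γ' hγ' f' _ =>
      have e : f * γ * y * (γ' * f') = f * (γ * y * γ') * f' := by simp only [mul_assoc]
      rw [e]
      exact hW.right _ _ (hW.left _ _ (StG_span h hγ hγ'))
    | add x _ z _ hx hz =>
      rw [mul_add]
      exact add_mem hx hz
  | add x _ z _ hx hz =>
    rw [add_mul, add_mul]
    exact add_mem hx hz

/-- PROOF. `C = Fil`. `Deep1` with `r = 0` and `q' = q₀ + m` gives `q₃` and a finite `G ≤ C^{q₀+m}` with `C^{q₃} ≤ F G + J`, and
also `C^{q₃} ≤ G F + J` (the elements of `G` are central modulo `J`). `Y = Y₀ ∪ {g y g' | g, g' ∈ G, y ∈ Y₁}`, `q = q₀ + q₃ + q₁`: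
`C^{q₁} X C^{q₁} ≤ tsp Y₁ + X'`, so
`C^q X C^q ≤ C^{q₀} C^{q₃} (F Y₁ F + X') C^{q₃} C^{q₀}`; the part with `X'` is in `C^{q₀} X' C^{q₀} ≤ T + tsp Y₀`. Next
`C^{q₀} C^{q₃} y C^{q₃} C^{q₀} ≤ C^{q₀} (F G + J) y (G F + J) C^{q₀}`, where `F G y G F ≤ tsp Y`; `J y ≤ X'`, `y J ≤ X'`, so
`C^{q₀} J y F C^{q₀} ≤ C^{q₀} X' C^{q₀}`, and for `g ∈ G ≤ C^{q₀}`: `F g y J C^{q₀} ≤ C^{q₀} X' C^{q₀}`. Finally
`g y g' ∈ C^m J C^m`, since `y ∈ X ≤ J`. -/
theorem gen_step {m : ℕ} {T : Submodule K (FA K n)} (hT : IsId T) {S2 : Side (rho2 K n)}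
    (hS : Deep1 S2) {X X' : Submodule K (FA K n)} (hX : IsId X) (hX' : IsId X')
    (hXJ : X ≤ Jd K n) (hl : Jd K n * X ≤ X') (hr : X * Jd K n ≤ X') {q₀ : ℕ}
    {Y₀ : Finset (FA K n)}
    (hY₀ : (Y₀ : Set (FA K n)) ⊆ (Fil K n m * Jd K n * Fil K n m : Submodule K (FA K n)))
    (h₀ : Fil K n q₀ * X' * Fil K n q₀ ≤ T ⊔ tsp (Y₀ : Set (FA K n))) {q₁ : ℕ}
    {Y₁ : Finset (FA K n)} (hY₁ : (Y₁ : Set (FA K n)) ⊆ X)
    (h₁ : Fil K n q₁ * X * Fil K n q₁ ≤ tsp (Y₁ : Set (FA K n)) ⊔ X') :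
    ∃ (q : ℕ) (Y : Finset (FA K n)),
      (Y : Set (FA K n)) ⊆ (Fil K n m * Jd K n * Fil K n m : Submodule K (FA K n)) ∧
      Fil K n q * X * Fil K n q ≤ T ⊔ tsp (Y : Set (FA K n)) := by
  classical
  obtain ⟨q₃, G, hG, hq₃⟩ := hS 0 (q₀ + m)
  have hG1 : ∀ g ∈ G, g ∈ Fil K n m := fun g hg =>
    N.Fil_antitone K n (Nat.le_add_left m q₀) (hG g hg).1
  have hq₃' : Fil K n q₃ ≤
      Submodule.span K (G : Set (FA K n)) * (⊤ : Submodule K (FA K n)) ⊔ Jd K n := by
    refine hq₃.trans (sup_le ?_ le_sup_right)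
    intro s hs
    exact StG_swap (fun g hg => (hG g hg).2) hs
  obtain ⟨Y, hY⟩ : ∃ Y : Finset (FA K n), Y = Y₀ ∪ (G ×ˢ (Y₁ ×ˢ G)).image
      (fun t => t.1 * t.2.1 * t.2.2) := ⟨_, rfl⟩
  have hY0Y : (Y₀ : Set (FA K n)) ⊆ (Y : Set (FA K n)) := by
    intro y hy
    rw [hY]
    exact Finset.mem_coe.2 (Finset.mem_union_left _ hy)
  have hgyg : ∀ y ∈ Y₁, ∀ g ∈ G, ∀ g' ∈ G, g * y * g' ∈ tsp (Y : Set (FA K n)) := by
    intro y hy g hg g' hg'
    refine subset_tsp _ ?_
    rw [hY]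
    refine Finset.mem_coe.2 (Finset.mem_union_right _ (Finset.mem_image.2 ⟨(g, y, g'), ?_, rfl⟩))
    exact Finset.mem_product.2 ⟨hg, Finset.mem_product.2 ⟨hy, hg'⟩⟩
  refine ⟨q₀ + (q₃ + q₁), Y, ?_, ?_⟩
  · intro z hz
    rw [hY] at hz
    rcases Finset.mem_union.1 (Finset.mem_coe.1 hz) with h | h
    · exact hY₀ h
    · obtain ⟨t, ht, rfl⟩ := Finset.mem_image.1 h
      obtain ⟨ht1, ht2⟩ := Finset.mem_product.1 ht
      obtain ⟨ht3, ht4⟩ := Finset.mem_product.1 ht2
      exact Submodule.mul_mem_mul (Submodule.mul_mem_mul (hG1 _ ht1) (hXJ (hY₁ ht3)))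
        (hG1 _ ht4)
  · obtain ⟨W, hW⟩ : ∃ W : Submodule K (FA K n), W = T ⊔ tsp (Y : Set (FA K n)) := ⟨_, rfl⟩
    rw [← hW]
    have hWid : IsId W := by
      rw [hW]
      exact hT.sup (tsp_id _)
    have hWY : tsp (Y : Set (FA K n)) ≤ W := by
      rw [hW]
      exact le_sup_right
    have ha : ∀ x ∈ X', ∀ c ∈ Fil K n q₀, ∀ c' ∈ Fil K n q₀, c * x * c' ∈ W := by
      intro x hx c hc c' hc'
      have h1 := h₀ (Submodule.mul_mem_mul (Submodule.mul_mem_mul hc hx) hc')
      rw [hW]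
      exact sup_le_sup_left (StG_tsp_mono hY0Y) T h1
    have key : ∀ c ∈ Fil K n q₃, ∀ c' ∈ Fil K n q₃, ∀ y ∈ Y₁, ∀ d ∈ Fil K n q₀,
        ∀ d' ∈ Fil K n q₀, d * (c * y * c') * d' ∈ W := by
      intro c hc c' hc' y hy d hd d' hd'
      obtain ⟨s, hs, j, hj, rfl⟩ := Submodule.mem_sup.1 (hq₃ hc)
      obtain ⟨s', hs', j', hj', e'⟩ := Submodule.mem_sup.1 (hq₃' hc')
      have e : (s + j) * y * c' = s * y * s' + s * (y * j') + j * y * c' := by
        rw [add_mul, add_mul, ← mul_assoc s y j', ← mul_add, e']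
      rw [e, mul_add, mul_add, add_mul, add_mul]
      refine W.add_mem (W.add_mem ?_ ?_) ?_
      · exact hWid.right _ _ (hWid.left _ _ (hWY (StG_prod (tsp_id _) (hgyg y hy) hs hs')))
      · exact ha _ (hX'.left _ _ (hr (Submodule.mul_mem_mul (hY₁ hy) hj'))) d hd d' hd'
      · exact ha _ (hX'.right _ _ (hl (Submodule.mul_mem_mul hj (hY₁ hy)))) d hd d' hd'
    have key2 : ∀ d ∈ Fil K n q₀, ∀ d' ∈ Fil K n q₀, ∀ c ∈ Fil K n q₃, ∀ c' ∈ Fil K n q₃,
        ∀ z ∈ tsp (Y₁ : Set (FA K n)) ⊔ X', d * (c * z * c') * d' ∈ W := by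
      intro d hd d' hd' c hc c' hc' z hz
      obtain ⟨z1, hz1, z2, hz2, rfl⟩ := Submodule.mem_sup.1 hz
      rw [mul_add, add_mul, mul_add, add_mul]
      refine W.add_mem ?_ ?_
      · unfold tsp at hz1
        induction hz1 using Submodule.span_induction with
        | mem z h =>
          obtain ⟨a, y, b, hy, rfl⟩ := h
          have e : d * (c * (a * y * b) * c') * d' = d * ((c * a) * y * (b * c')) * d' := by
            simp only [mul_assoc]
          rw [e]
          exact key _ (N.Fil_right K q₃ a hc) _ (N.Fil_left K q₃ b hc') y hy d hd d' hd'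
        | zero =>
          rw [mul_zero, zero_mul, mul_zero, zero_mul]
          exact W.zero_mem
        | add x y hx' hy' hx hy =>
          rw [mul_add, add_mul, mul_add, add_mul]
          exact W.add_mem (hx (Submodule.add_mem_sup hx' hz2))
            (hy (Submodule.add_mem_sup hy' hz2))
        | smul t x hx' hx =>
          rw [mul_smul_comm, smul_mul_assoc, mul_smul_comm, smul_mul_assoc]
          exact W.smul_mem t (hx (Submodule.add_mem_sup hx' hz2))
      · exact ha _ (hX'.right _ _ (hX'.left _ _ hz2)) d hd d' hd'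
    have e1 : Fil K n (q₀ + (q₃ + q₁)) = Fil K n q₀ * (Fil K n q₃ * Fil K n q₁) := by
      rw [Fil_mul, Fil_mul]
    have e2 : Fil K n (q₀ + (q₃ + q₁)) = Fil K n q₁ * Fil K n q₃ * Fil K n q₀ := by
      rw [Fil_mul, Fil_mul]
      congr 1
      omega
    calc Fil K n (q₀ + (q₃ + q₁)) * X * Fil K n (q₀ + (q₃ + q₁))
        = Fil K n q₀ * (Fil K n q₃ * Fil K n q₁) * X * Fil K n (q₀ + (q₃ + q₁)) := by
          rw [← e1]
      _ = Fil K n q₀ * (Fil K n q₃ * Fil K n q₁) * X * (Fil K n q₁ * Fil K n q₃ * Fil K n q₀) := by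
          rw [← e2]
      _ = Fil K n q₀ * (Fil K n q₃ * (Fil K n q₁ * X * Fil K n q₁) * Fil K n q₃) *
            Fil K n q₀ := by
          simp only [mul_assoc]
      _ ≤ Fil K n q₀ * (Fil K n q₃ * (tsp (Y₁ : Set (FA K n)) ⊔ X') * Fil K n q₃) *
            Fil K n q₀ :=
          mul_le_mul' (mul_le_mul' le_rfl (mul_le_mul' (mul_le_mul' le_rfl h₁) le_rfl)) le_rfl
      _ ≤ W := by
          rw [Submodule.mul_le]
          intro a ha' d' hd'
          induction ha' using Submodule.mul_induction_on' with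
          | mem_mul_mem d hd b hb =>
            induction hb using Submodule.mul_induction_on' with
            | mem_mul_mem u hu c' hc' =>
              induction hu using Submodule.mul_induction_on' with
              | mem_mul_mem c hc z hz => exact key2 d hd d' hd' c hc c' hc' z hz
              | add x _ y _ hx hy =>
                rw [add_mul, mul_add, add_mul]
                exact W.add_mem hx hy
            | add x _ y _ hx hy =>
              rw [mul_add, add_mul]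
              exact W.add_mem hx hy
          | add x _ y _ hx hy =>
            rw [add_mul]
            exact W.add_mem hx hy

end Pool.Agent.H.MP_f5ceca_al.S
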