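import Pool.Agent.H.MP_f5ceca_al.S.StA

/-!
Steps: sorted words.
-/

namespace Pool.Agent.H.MP_f5ceca_al.S

open MvPolynomial
open Pool.Agent.H.MP_f5ceca_al.N (FA xx Com Fil Aug)

universe u

variable {K : Type u} [Field K] {n : ℕ}

/-- The sorted word `x_0^{μ_0} x_1^{μ_1} ⋯`. -/
noncomputable def sw (K : Type u) [Field K] {n : ℕ} (μ : Fin n → ℕ) : FA K n :=
  (List.ofFn fun j => xx K j ^ μ j).prod

/-- The finitely many elements `x^μ [x_s, x_t]`, `μ_j < B`. -/
noncomputable def gapset (K : Type u) [Field K] (n B : ℕ) : Finset (FA K n) := by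
  classical
  exact (Finset.univ : Finset ((Fin n → Fin B) × Fin n × Fin n)).image fun p =>
    sw K (fun j => (p.1 j : ℕ)) * (xx K p.2.1 * xx K p.2.2 - xx K p.2.2 * xx K p.2.1)

theorem StL0_rho1_sw (μ : Fin n → ℕ) :
    rho1 K n (sw K μ) = ∏ j, (X j : MvPolynomial (Fin n) K) ^ μ j := by
  unfold sw
  rw [map_list_prod, List.map_ofFn, List.prod_ofFn]
  refine Finset.prod_congr rfl fun j _ => ?_
  simp [rho1, xx]

theorem StL0_exists_sw (p : MvPolynomial (Fin n) K) :
    ∃ w ∈ Submodule.span K (Set.range (sw K (n := n))), rho1 K n w = p := by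
  refine ⟨∑ μ ∈ p.support, p.coeff μ • sw K (fun j => μ j),
    Submodule.sum_mem _ fun μ _ => Submodule.smul_mem _ _ (Submodule.subset_span ⟨_, rfl⟩), ?_⟩
  rw [map_sum]
  conv_rhs => rw [MvPolynomial.as_sum p]
  refine Finset.sum_congr rfl fun μ _ => ?_
  rw [map_smul, StL0_rho1_sw, MvPolynomial.monomial_eq, MvPolynomial.smul_eq_C_mul,
    Finsupp.prod_fintype _ _ (fun i => pow_zero _)]

/-- `F ≤ span (sorted words) + Com`. -/
theorem top_le_sw : (⊤ : Submodule K (FA K n)) ≤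
    Submodule.span K (Set.range (sw K (n := n))) ⊔ Com K n := by
  intro z _
  obtain ⟨w, hw, hwz⟩ := StL0_exists_sw (rho1 K n z)
  have h : z - w ∈ Com K n := rho1_ker (by rw [map_sub, hwz, sub_self])
  have e : z = w + (z - w) := by abel
  rw [e]
  exact Submodule.add_mem_sup hw h

end Pool.Agent.H.MP_f5ceca_al.S
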