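import Pool.Agent.H.MP_f5ceca_al.S.StL0
import Pool.Agent.H.MP_f5ceca_al.S.RelIv

/-!
Steps: reduction of the exponents in one gap.
-/

namespace Pool.Agent.H.MP_f5ceca_al.S

open MvPolynomial
open Pool.Agent.H.MP_f5ceca_al.N (FA xx Com Fil Aug)

universe u

variable {K : Type u} [Field K] {n : ℕ}

theorem StL1_W_sub {q q' i : ℕ} (hq : q' ≤ q) {w c : FA K n}
    (hw : w ∈ Fil K n q * Jd K n * Fil K n i) (hc : c ∈ Com K n * Com K n) :
    w * c ∈ Fil K n q' * Jd K n * Fil K n (i + 2) := by
  have hc2 : c ∈ Fil K n 2 := by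
    have : Fil K n 2 = Com K n * Com K n := by
      rw [show (2 : ℕ) = 1 + 1 from rfl, N.Fil_succ, N.Fil_one]
    rw [this]; exact hc
  have h1 : w * c ∈ Fil K n q * Jd K n * Fil K n i * Fil K n 2 :=
    Submodule.mul_mem_mul hw hc2
  rw [mul_assoc (Fil K n q * Jd K n), Fil_mul] at h1
  refine (Submodule.mul_le.2 fun a ha b hb => ?_) h1
  refine Submodule.mul_mem_mul ?_ hb
  exact (Submodule.mul_le.2 fun a ha b hb =>
    Submodule.mul_mem_mul (N.Fil_antitone K n hq ha) hb) ha

theorem StL1_sw_sub {μ ν : Fin n → ℕ} {j : Fin n} {e : ℕ}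
    (h : ∀ k, μ k = ν k + if k = j then e else 0) :
    sw K μ - sw K ν * xx K j ^ e ∈ Com K n := by
  classical
  apply rho1_ker
  have e1 : rho1 K n (xx K j) = (X j : MvPolynomial (Fin n) K) := by simp [rho1, xx]
  rw [map_sub, map_mul, map_pow, StL0_rho1_sw, StL0_rho1_sw, e1, sub_eq_zero]
  have e2 : (X j : MvPolynomial (Fin n) K) ^ e =
      ∏ k, (X k : MvPolynomial (Fin n) K) ^ (if k = j then e else 0) := by
    rw [Finset.prod_eq_single j]
    · rw [if_pos rfl]
    · intro k _ hk
      rw [if_neg hk, pow_zero]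
    · intro hj
      exact absurd (Finset.mem_univ j) hj
  rw [e2, ← Finset.prod_mul_distrib]
  refine Finset.prod_congr rfl fun k _ => ?_
  rw [← pow_add, h k]

theorem StL1_alg0 {R : Type*} [Ring R] (w A B k b S : R) :
    w * A * (k * b) = w * (A - B) * (k * b) + ((S + w * B * (k * b)) - S) := by
  rw [add_sub_cancel_left, mul_sub, sub_mul, sub_add_cancel]

theorem StL1_alg1 {R : Type*} [Ring R] (w N L k b x y : R) :
    w * N * x * (k * b) * y = w * L * (k * (b * y)) - w * (L - N * x) * (k * (b * y)) := by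
  rw [mul_sub, sub_mul, sub_sub_cancel]
  simp only [mul_assoc]

/-- Reduction of the exponents in one gap. PROOF. Let `q ≥ q'` be larger than the number given by `rel_iv` for `q'`, `i`, and
`E = T + C^{q'} J C^{i+2}` (two-sided). `Com` is spanned by the elements `a [x_s, x_t] b` (`N.Com_eq`), and modulo `Com` one may replace
`a` by sorted words `x^μ` (`top_le_sw`; the error is in `w Com Com ≤ C^q J C^i Com Com ≤ E`). Claim, by strong induction on
`∑ μ_j`: `w x^μ [x_s,x_t] b ∈ w (span gapset) F + E` for all `b`. If some `μ_j ≥ 2 M`, modulo `Com` (hence modulo `E`)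
`x^μ = x^{μ'} x_j^{2M}`, `μ' = μ - 2 M e_j`, and `rel_iv` with `u = w x^{μ'}`, `v = [x_s,x_t] b` gives
`w x^{μ'} x_j^{2M} v = - ∑_{l ≥ 1} (-1)^l binom(M,l) w x^{μ'} x_j^{2M-l} v x_j^l` modulo `E`; in every term
`x^{μ'} x_j^{2M-l}` is modulo `Com` the sorted word of `μ - l e_j`, of smaller degree. -/
theorem gapred [CharZero K] {m M : ℕ} {T : Submodule K (FA K n)} (hT : Base m M T)
    (hD : Deep2 K n) (q' i : ℕ) : ∃ q, ∀ w ∈ Fil K n q * Jd K n * Fil K n i,
      ∀ c ∈ Com K n, w * c ∈ (Submodule.span K {w} *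
        Submodule.span K (gapset K n (2 * M) : Set (FA K n)) * ⊤) ⊔
          (T ⊔ Fil K n q' * Jd K n * Fil K n (i + 2)) := by
  classical
  obtain ⟨q₀, hq₀⟩ := rel_iv hT hD q' i
  refine ⟨max q₀ q', fun w hw => ?_⟩
  have hJ : IsId (Jd K n) := Jd_id
  have hR : IsId (Fil K n q' * Jd K n * Fil K n (i + 2)) :=
    RelIv_prod_id (RelIv_prod_id (RelIv_Fil_id q') hJ) (RelIv_Fil_id (i + 2))
  have hE : IsId (T ⊔ Fil K n q' * Jd K n * Fil K n (i + 2)) := RelIv_sup_id hT.id hR
  have hW : IsId (Fil K n (max q₀ q') * Jd K n * Fil K n i) :=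
    RelIv_prod_id (RelIv_prod_id (RelIv_Fil_id _) hJ) (RelIv_Fil_id i)
  have hW0 : Fil K n (max q₀ q') * Jd K n * Fil K n i ≤ Fil K n q₀ * Jd K n * Fil K n i :=
    Submodule.mul_le.2 fun a ha b hb => Submodule.mul_mem_mul
      ((Submodule.mul_le.2 fun a ha b hb => Submodule.mul_mem_mul
        (N.Fil_antitone K n (le_max_left q₀ q') ha) hb) ha) hb
  have hCC : ∀ a ∈ Com K n, ∀ b ∈ Com K n, w * a * b ∈
      T ⊔ Fil K n q' * Jd K n * Fil K n (i + 2) := fun a ha b hb =>
    Submodule.mem_sup_right ((mul_assoc w a b).symm ▸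
      (StL1_W_sub (le_max_right q₀ q') hw (Submodule.mul_mem_mul ha hb)))
  have hcom : ∀ s t : Fin n, ∀ b : FA K n,
      (xx K s * xx K t - xx K t * xx K s) * b ∈ Com K n := fun s t b =>
    Submodule.subset_span ⟨1, b, xx K s, xx K t, by rw [one_mul]⟩
  have key : ∀ N : ℕ, ∀ μ : Fin n → ℕ, ∑ j, μ j < N → ∀ s t : Fin n, ∀ b : FA K n,
      w * sw K μ * ((xx K s * xx K t - xx K t * xx K s) * b) ∈
        (Submodule.span K {w} *
        Submodule.span K (gapset K n (2 * M) : Set (FA K n)) * ⊤) ⊔
          (T ⊔ Fil K n q' * Jd K n * Fil K n (i + 2)) := by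
    intro N
    induction N with
    | zero => intro μ hμ; exact absurd hμ (Nat.not_lt_zero _)
    | succ N ih =>
      intro μ hμ s t b
      by_cases hsm : ∀ j, μ j < 2 * M
      · refine Submodule.mem_sup_left ?_
        have e : w * sw K μ * ((xx K s * xx K t - xx K t * xx K s) * b) =
            w * (sw K μ * (xx K s * xx K t - xx K t * xx K s)) * b := by
          simp only [mul_assoc]
        rw [e]
        refine Submodule.mul_mem_mul (Submodule.mul_mem_mul (Submodule.subset_span rfl)
          (Submodule.subset_span ?_)) trivial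
        rw [Finset.mem_coe]
        unfold gapset
        rw [Finset.mem_image]
        exact ⟨(fun j => ⟨μ j, hsm j⟩, s, t), Finset.mem_univ _, rfl⟩
      · push Not at hsm
        obtain ⟨j, hj⟩ := hsm
        obtain ⟨ν, hν⟩ : ∃ ν : Fin n → ℕ, ν = fun k => μ k - if k = j then 2 * M else 0 :=
          ⟨_, rfl⟩
        have hμν : ∀ k, μ k = ν k + if k = j then 2 * M else 0 := by
          intro k
          rw [hν]
          by_cases hk : k = j
          · subst hk
            simp only [if_true]
            omega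
          · simp only [if_neg hk]
            omega
        have hrel := hq₀ (w * sw K ν) (hW0 (hW.right _ _ hw)) _ (hcom s t b) j
        rw [Finset.sum_range_succ'] at hrel
        have e0 := StL1_alg0 w (sw K μ) (sw K ν * xx K j ^ (2 * M))
          (xx K s * xx K t - xx K t * xx K s) b
          (∑ l ∈ Finset.range M, ((-1 : K) ^ (l + 1) * (M.choose (l + 1) : K)) •
              (w * sw K ν * xx K j ^ (2 * M - (l + 1)) *
                ((xx K s * xx K t - xx K t * xx K s) * b) * xx K j ^ (l + 1)))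
        rw [pow_zero, Nat.choose_zero_right, Nat.cast_one, mul_one, one_smul, pow_zero, mul_one,
          Nat.sub_zero, mul_assoc w (sw K ν) (xx K j ^ (2 * M))] at hrel
        rw [e0]
        refine add_mem (Submodule.mem_sup_right (hCC _ (StL1_sw_sub hμν) _ (hcom s t b)))
          (sub_mem (Submodule.mem_sup_right hrel) (Submodule.sum_mem _ fun l hl =>
            Submodule.smul_mem _ _ ?_))
        have hl' : l < M := Finset.mem_range.1 hl
        obtain ⟨κ, hκ⟩ : ∃ κ : Fin n → ℕ,
            κ = fun k => ν k + if k = j then 2 * M - (l + 1) else 0 := ⟨_, rfl⟩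
        have hκν : ∀ k, κ k = ν k + if k = j then 2 * M - (l + 1) else 0 := by
          intro k; rw [hκ]
        rw [StL1_alg1 w (sw K ν) (sw K κ)]
        refine sub_mem (ih κ ?_ s t _) (Submodule.mem_sup_right
          (hCC _ (StL1_sw_sub hκν) _ (hcom s t _)))
        have hlt : ∑ k, κ k < ∑ k, μ k := by
          refine Finset.sum_lt_sum (fun k _ => ?_) ⟨j, Finset.mem_univ j, ?_⟩
          · rw [hκν k, hμν k]
            split_ifs
            · omega
            · exact le_rfl
          · rw [hκν j, hμν j, if_pos rfl, if_pos rfl]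
            omega
        omega
  intro c hc
  rw [N.Com_eq] at hc
  induction hc using Submodule.span_induction with
  | mem c hc =>
    obtain ⟨a, b, s, t, rfl⟩ := hc
    obtain ⟨a₁, ha₁, a₂, ha₂, rfl⟩ := Submodule.mem_sup.1
      (top_le_sw (Submodule.mem_top : a ∈ (⊤ : Submodule K (FA K n))))
    have e : w * ((a₁ + a₂) * (xx K s * xx K t - xx K t * xx K s) * b) =
        w * a₁ * ((xx K s * xx K t - xx K t * xx K s) * b) +
          w * a₂ * ((xx K s * xx K t - xx K t * xx K s) * b) := by
      rw [add_mul, add_mul, mul_add]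
      simp only [mul_assoc]
    rw [e]
    refine add_mem ?_ (Submodule.mem_sup_right (hCC _ ha₂ _ (hcom s t b)))
    clear e ha₂
    induction ha₁ using Submodule.span_induction with
    | mem x hx =>
      obtain ⟨μ, rfl⟩ := hx
      exact key _ μ (Nat.lt_succ_self _) s t b
    | zero => rw [mul_zero, zero_mul]; exact zero_mem _
    | add x y _ _ h1 h2 => rw [mul_add, add_mul]; exact add_mem h1 h2
    | smul r x _ h1 => rw [mul_smul_comm, smul_mul_assoc]; exact Submodule.smul_mem _ _ h1
  | zero => rw [mul_zero]; exact zero_mem _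
  | add x y _ _ h1 h2 => rw [mul_add]; exact add_mem h1 h2
  | smul r x _ h1 => rw [mul_smul_comm]; exact Submodule.smul_mem _ _ h1

end Pool.Agent.H.MP_f5ceca_al.S
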