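import Pool.Agent.H.MP_f5ceca_al.S.StL1

/-!
Steps: generation of the layer `C^q J C^i`.
-/

namespace Pool.Agent.H.MP_f5ceca_al.S

open MvPolynomial
open Pool.Agent.H.MP_f5ceca_al.N (FA xx Com Fil Aug)

universe u

variable {K : Type u} [Field K] {n : ℕ}

theorem StL2_gapset_le (B : ℕ) :
    ((gapset K n B : Finset (FA K n)) : Set (FA K n)) ⊆ (Com K n : Submodule K (FA K n)) := by
  classical
  intro z hz
  unfold gapset at hz
  rw [Finset.coe_image] at hz
  obtain ⟨p, _, rfl⟩ := hz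
  refine N.Com_left K _ ?_
  exact Submodule.subset_span ⟨1, 1, xx K p.2.1, xx K p.2.2, by rw [one_mul, mul_one]⟩

theorem StL2_Com_top : Com K n * (⊤ : Submodule K (FA K n)) ≤ Com K n :=
  Submodule.mul_le.2 fun _ ha b _ => N.Com_right K b ha

theorem StL2_top_Com : (⊤ : Submodule K (FA K n)) * Com K n ≤ Com K n :=
  Submodule.mul_le.2 fun a _ _ hb => N.Com_left K a hb

theorem StL2_Fil_top (q : ℕ) : Fil K n q * (⊤ : Submodule K (FA K n)) ≤ Fil K n q :=
  Submodule.mul_le.2 fun _ ha b _ => N.Fil_right K q b ha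

theorem StL2_le_mul_top (A : Submodule K (FA K n)) : A ≤ A * (⊤ : Submodule K (FA K n)) := by
  intro z hz
  have h := Submodule.mul_mem_mul hz (Submodule.mem_top (x := (1 : FA K n)))
  rwa [mul_one] at h

theorem StL2_tsp_le (Y : Set (FA K n)) :
    tsp Y ≤ (⊤ : Submodule K (FA K n)) * Submodule.span K Y * ⊤ := by
  unfold tsp
  rw [Submodule.span_le]
  rintro z ⟨a, y, b, hy, rfl⟩
  exact Submodule.mul_mem_mul (Submodule.mul_mem_mul Submodule.mem_top
    (Submodule.subset_span hy)) Submodule.mem_top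

theorem StL2_zero {T : Submodule K (FA K n)}
    (hF : ∃ (q : ℕ) (ν : Finset (FA K n)), (ν : Set (FA K n)) ⊆ Jd K n ∧
      Fil K n q * Jd K n ≤ tsp (ν : Set (FA K n)) ⊔ Jd K n * Com K n) :
    ∃ V : Finset (FA K n), (V : Set (FA K n)) ⊆ (Jd K n * Fil K n 0 : Submodule K (FA K n)) ∧
      ∀ q', ∃ q, Fil K n q * Jd K n * Fil K n 0 ≤
        (Fil K n q' * Submodule.span K (V : Set (FA K n)) * ⊤) ⊔
          (T ⊔ Fil K n q' * Jd K n * Fil K n (0 + 1)) := by
  obtain ⟨q₀, ν, hν, hq₀⟩ := hF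
  refine ⟨ν, ?_, fun q' => ⟨q' + q₀, ?_⟩⟩
  · intro z hz
    rw [N.Fil_zero]
    exact StL2_le_mul_top _ (hν hz)
  · have e : Fil K n (q' + q₀) * Jd K n * Fil K n 0 =
        Fil K n q' * (Fil K n q₀ * Jd K n) * ⊤ := by
      rw [← Fil_mul, N.Fil_zero, mul_assoc (Fil K n q')]
    rw [e]
    have h1 : Fil K n q' * (Fil K n q₀ * Jd K n) * (⊤ : Submodule K (FA K n)) ≤
        Fil K n q' * (((⊤ : Submodule K (FA K n)) * Submodule.span K (ν : Set (FA K n)) * ⊤) ⊔
          Jd K n * Com K n) * ⊤ :=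
      mul_le_mul' (mul_le_mul' le_rfl (hq₀.trans (sup_le_sup_right (StL2_tsp_le _) _))) le_rfl
    refine h1.trans ?_
    rw [Submodule.mul_sup, Submodule.sup_mul]
    refine sup_le_sup ?_ (le_sup_of_le_right ?_)
    · have e2 : Fil K n q' * ((⊤ : Submodule K (FA K n)) * Submodule.span K (ν : Set (FA K n)) * ⊤) *
          (⊤ : Submodule K (FA K n)) = (Fil K n q' * ⊤) * Submodule.span K (ν : Set (FA K n)) * (⊤ * ⊤) := by
        simp only [mul_assoc]
      rw [e2]
      exact mul_le_mul' (mul_le_mul' (StL2_Fil_top q') le_rfl) le_top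
    · have e2 : Fil K n q' * (Jd K n * Com K n) * (⊤ : Submodule K (FA K n)) =
          Fil K n q' * Jd K n * (Com K n * ⊤) := by
        simp only [mul_assoc]
      rw [e2, zero_add, N.Fil_one]
      exact mul_le_mul' le_rfl StL2_Com_top

theorem StL2_step {m M : ℕ} {T : Submodule K (FA K n)} (hT : Base m M T) (i : ℕ)
    (hg : ∀ q', ∃ q, ∀ w ∈ Fil K n q * Jd K n * Fil K n i,
      ∀ c ∈ Com K n, w * c ∈ (Submodule.span K {w} *
        Submodule.span K (gapset K n (2 * M) : Set (FA K n)) * ⊤) ⊔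
          (T ⊔ Fil K n q' * Jd K n * Fil K n (i + 2)))
    (V : Finset (FA K n)) (hV : (V : Set (FA K n)) ⊆ (Jd K n * Fil K n i : Submodule K (FA K n)))
    (hV2 : ∀ q', ∃ q, Fil K n q * Jd K n * Fil K n i ≤
        (Fil K n q' * Submodule.span K (V : Set (FA K n)) * ⊤) ⊔
          (T ⊔ Fil K n q' * Jd K n * Fil K n (i + 1))) :
    ∃ V' : Finset (FA K n), (V' : Set (FA K n)) ⊆ (Jd K n * Fil K n (i + 1) : Submodule K (FA K n)) ∧
      ∀ q', ∃ q, Fil K n q * Jd K n * Fil K n (i + 1) ≤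
        (Fil K n q' * Submodule.span K (V' : Set (FA K n)) * ⊤) ⊔
          (T ⊔ Fil K n q' * Jd K n * Fil K n (i + 1 + 1)) := by
  classical
  obtain ⟨V', hV'⟩ : ∃ V' : Finset (FA K n), V' = (V ×ˢ gapset K n (2 * M)).image
    (fun p => p.1 * p.2) := ⟨_, rfl⟩
  have hmul : ∀ v ∈ V, ∀ g ∈ gapset K n (2 * M), v * g ∈ V' := by
    intro v hv g hg
    rw [hV']
    exact Finset.mem_image.2 ⟨(v, g), Finset.mem_product.2 ⟨hv, hg⟩, rfl⟩
  refine ⟨V', ?_, fun q' => ?_⟩
  · intro z hz
    rw [hV', Finset.coe_image] at hz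
    obtain ⟨p, hp, rfl⟩ := hz
    have hp' := Finset.mem_product.1 (Finset.mem_coe.1 hp)
    rw [N.Fil_succ, ← mul_assoc]
    exact Submodule.mul_mem_mul (hV (Finset.mem_coe.2 hp'.1))
      (StL2_gapset_le _ (Finset.mem_coe.2 hp'.2))
  · obtain ⟨q₁, hq₁⟩ := hg q'
    obtain ⟨q, hq⟩ := hV2 (max q₁ q')
    refine ⟨q, ?_⟩
    rw [N.Fil_succ, ← mul_assoc]
    refine (mul_le_mul' hq (le_refl (Com K n))).trans ?_
    rw [Submodule.sup_mul, Submodule.sup_mul]
    have hm1 : Fil K n (max q₁ q') ≤ Fil K n q₁ := N.Fil_antitone K n (le_max_left _ _)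
    have hm2 : Fil K n (max q₁ q') ≤ Fil K n q' := N.Fil_antitone K n (le_max_right _ _)
    refine sup_le ?_ (sup_le ?_ ?_)
    · -- the main part
      rw [mul_assoc]
      refine (mul_le_mul' le_rfl (StL2_top_Com)).trans ?_
      have hkey : ∀ c ∈ Fil K n (max q₁ q'), ∀ v ∈ V, ∀ z ∈ Com K n, c * v * z ∈
          (Fil K n q' * Submodule.span K (V' : Set (FA K n)) * ⊤) ⊔
          (T ⊔ Fil K n q' * Jd K n * Fil K n (i + 1 + 1)) := by
        intro c hc v hv z hz
        have hw : c * v ∈ Fil K n q₁ * Jd K n * Fil K n i := by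
          rw [mul_assoc]
          exact Submodule.mul_mem_mul (hm1 hc) (hV (Finset.mem_coe.2 hv))
        have hle : Submodule.span K {c * v} *
            Submodule.span K (gapset K n (2 * M) : Set (FA K n)) * ⊤ ≤
            Fil K n q' * Submodule.span K (V' : Set (FA K n)) * ⊤ := by
          refine mul_le_mul' ?_ le_rfl
          rw [Submodule.span_mul_span, Submodule.span_le]
          rintro _ ⟨a, ha, g, hg', rfl⟩
          rw [Set.mem_singleton_iff] at ha
          subst ha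
          show c * v * g ∈ _
          rw [mul_assoc]
          exact Submodule.mul_mem_mul (hm2 hc) (Submodule.subset_span
            (Finset.mem_coe.2 (hmul v hv g (Finset.mem_coe.1 hg'))))
        have hle2 := sup_le_sup_right hle (T ⊔ Fil K n q' * Jd K n * Fil K n (i + 1 + 1))
        exact hle2 (hq₁ _ hw z hz)
      rw [Submodule.mul_le]
      intro w hw z hz
      induction hw using Submodule.mul_induction_on' with
      | mem_mul_mem c hc v hv =>
        induction hv using Submodule.span_induction with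
        | mem v hv => exact hkey c hc v (Finset.mem_coe.1 hv) z hz
        | zero => rw [mul_zero, zero_mul]; exact zero_mem _
        | add x y _ _ h1 h2 => rw [mul_add, add_mul]; exact add_mem h1 h2
        | smul r x _ h1 =>
          rw [mul_smul_comm, smul_mul_assoc]
          exact Submodule.smul_mem _ _ h1
      | add x _ y _ h1 h2 => rw [add_mul]; exact add_mem h1 h2
    · refine le_sup_of_le_right (le_sup_of_le_left ?_)
      exact Submodule.mul_le.2 fun a ha b _ => hT.id.right b a ha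
    · refine le_sup_of_le_right (le_sup_of_le_right ?_)
      rw [N.Fil_succ K n (i + 1), ← mul_assoc]
      exact mul_le_mul' (mul_le_mul' (mul_le_mul' hm2 le_rfl) le_rfl) le_rfl

/-- PROOF. Induction on `i`. `i = 0`: `V = ν` from `hF`, `C^{q'+q} J ≤ C^{q'} (F ν F + J Com)`, `C^{q'} F = C^{q'}`. Step: let `V` be
the set for `i`, `V' = {v g | v ∈ V, g ∈ gapset}`. Given `q'`, let `q''` be the number from `gapred` for `q'` and `i` (take it `≥ q'`),
and `q` the number for `q''` from the induction hypothesis: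
`C^q J C^{i+1} = C^q J C^i Com ≤ (C^{q''} V F + C^{q''} J C^{i+1} + T) Com`, the second term is in `C^{q'} J C^{i+2}`; and
`C^{q''} V F Com = C^{q''} V Com`; for `w = c v`, `w Com ≤ w gapset F + E ≤ C^{q'} V' F + E`. -/
theorem layer_gen [CharZero K] {m M : ℕ} {T : Submodule K (FA K n)} (hT : Base m M T)
    (hD : Deep2 K n)
    (hF : ∃ (q : ℕ) (ν : Finset (FA K n)), (ν : Set (FA K n)) ⊆ Jd K n ∧
      Fil K n q * Jd K n ≤ tsp (ν : Set (FA K n)) ⊔ Jd K n * Com K n) (i : ℕ) :
    ∃ V : Finset (FA K n), (V : Set (FA K n)) ⊆ (Jd K n * Fil K n i : Submodule K (FA K n)) ∧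
      ∀ q', ∃ q, Fil K n q * Jd K n * Fil K n i ≤
        (Fil K n q' * Submodule.span K (V : Set (FA K n)) * ⊤) ⊔
          (T ⊔ Fil K n q' * Jd K n * Fil K n (i + 1)) := by
  induction i with
  | zero => exact StL2_zero hF
  | succ i ih =>
    obtain ⟨V, hV, hV2⟩ := ih
    exact StL2_step hT i (fun q' => gapred hT hD q' i) V hV hV2

end Pool.Agent.H.MP_f5ceca_al.S
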