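import Pool.Agent.H.MP_f5ceca_al.S.StL0
import Pool.Agent.H.MP_f5ceca_al.S.RelIv2

/-!
Steps: reduction of the exponents in one gap, mirror image.
-/

namespace Pool.Agent.H.MP_f5ceca_al.S

open MvPolynomial
open Pool.Agent.H.MP_f5ceca_al.N (FA xx Com Fil Aug)

universe u

variable {K : Type u} [Field K] {n : ℕ}

/-- The finitely many elements `[x_s, x_t] x^μ`, `μ_j < B`. -/
noncomputable def gapset' (K : Type u) [Field K] (n B : ℕ) : Finset (FA K n) := by
  classical
  exact (Finset.univ : Finset ((Fin n → Fin B) × Fin n × Fin n)).image fun p =>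
    (xx K p.2.1 * xx K p.2.2 - xx K p.2.2 * xx K p.2.1) * sw K (fun j => (p.1 j : ℕ))

theorem StR1_rho_xx (j : Fin n) : rho1 K n (xx K j) = X j := by
  simp [rho1, xx]

theorem StR1_rho_sw (μ : Fin n → ℕ) :
    rho1 K n (sw K μ) = ∏ j, (X j : MvPolynomial (Fin n) K) ^ μ j := by
  unfold sw
  rw [map_list_prod, List.map_ofFn, List.prod_ofFn]
  refine Finset.prod_congr rfl fun j _ => ?_
  rw [Function.comp_apply, map_pow, StR1_rho_xx]

/-- Multiplication of a sorted word by the power of a letter. -/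
theorem StR1_sw (μ : Fin n → ℕ) (j : Fin n) (e : ℕ) :
    xx K j ^ e * sw K μ - sw K (Function.update μ j (μ j + e)) ∈ Com K n := by
  apply rho1_ker
  rw [map_sub, map_mul, map_pow, StR1_rho_xx, StR1_rho_sw, StR1_rho_sw, sub_eq_zero]
  rw [← Finset.mul_prod_erase Finset.univ (fun i => (X i : MvPolynomial (Fin n) K) ^ μ i)
    (Finset.mem_univ j), ← Finset.mul_prod_erase Finset.univ
    (fun i => (X i : MvPolynomial (Fin n) K) ^ (Function.update μ j (μ j + e)) i)
    (Finset.mem_univ j), Function.update_self, ← mul_assoc, ← pow_add, add_comm e]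
  congr 1
  refine Finset.prod_congr rfl fun i hi => ?_
  rw [Function.update_of_ne (Finset.ne_of_mem_erase hi)]

theorem StR1_sum (μ : Fin n → ℕ) (j : Fin n) (e : ℕ) :
    ∑ i, Function.update μ j (μ j + e) i = ∑ i, μ i + e := by
  rw [← Finset.add_sum_erase Finset.univ μ (Finset.mem_univ j),
    ← Finset.add_sum_erase Finset.univ (Function.update μ j (μ j + e)) (Finset.mem_univ j),
    Function.update_self]
  have : ∑ i ∈ Finset.univ.erase j, Function.update μ j (μ j + e) i =
      ∑ i ∈ Finset.univ.erase j, μ i :=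
    Finset.sum_congr rfl fun i hi => by rw [Function.update_of_ne (Finset.ne_of_mem_erase hi)]
  rw [this]
  omega

theorem StR1_gap (B : ℕ) (s t : Fin n) (μ : Fin n → ℕ) (h : ∀ j, μ j < B) :
    (xx K s * xx K t - xx K t * xx K s) * sw K μ ∈ gapset' K n B := by
  classical
  unfold gapset'
  rw [Finset.mem_image]
  exact ⟨(fun j => ⟨μ j, h j⟩, s, t), Finset.mem_univ _, rfl⟩

/-- Mirror image of `gapred`, with `rel_iv'` and the bound `4 M + 1` for the exponents. PROOF. Elements `a [x_s,x_t] x^μ w`; if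
`μ_j ≥ 4 M + 1` write `x^μ = x_j^{4M+1} x^{μ'}` modulo `Com` and apply `rel_iv'` with `u = a [x_s,x_t]`, `v = x^{μ'} w`:
`u x_j^{4M+1} v = - ∑_{l ≥ 1} (-1)^l binom(2M,l) x_j^l u x_j^{4M+1-l} v`. -/
theorem gapred' [CharZero K] {m M : ℕ} {T : Submodule K (FA K n)} (hT : Base m M T)
    (hD : Deep2 K n) (q' i : ℕ) : ∃ q, ∀ w ∈ Fil K n i * Jd K n * Fil K n q,
      ∀ c ∈ Com K n, c * w ∈ (⊤ * Submodule.span K (gapset' K n (4 * M + 1) : Set (FA K n)) *
        Submodule.span K {w}) ⊔ (T ⊔ Fil K n (i + 2) * Jd K n * Fil K n q') := by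
  obtain ⟨q₁, hq₁⟩ := rel_iv' hT hD q' i
  refine ⟨q₁ + q', fun w hw' => ?_⟩
  have hw : w ∈ Fil K n i * Jd K n * Fil K n q₁ :=
    mul_le_mul' le_rfl (N.Fil_antitone K n (Nat.le_add_right _ _)) hw'
  have hwq : w ∈ Fil K n i * Jd K n * Fil K n q' :=
    mul_le_mul' le_rfl (N.Fil_antitone K n (Nat.le_add_left _ _)) hw'
  obtain ⟨E, hE⟩ : ∃ E, E = T ⊔ Fil K n (i + 2) * Jd K n * Fil K n q' := ⟨_, rfl⟩
  have hid : IsId E := hE ▸ RelIv2_id hT (i + 2) q'
  obtain ⟨R, hR⟩ : ∃ R, R = (⊤ * Submodule.span K (gapset' K n (4 * M + 1) : Set (FA K n)) *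
        Submodule.span K {w}) ⊔ E := ⟨_, rfl⟩
  rw [← hE, ← hR]
  have hER : ∀ z ∈ E, z ∈ R := fun z hz => hR ▸ Submodule.mem_sup_right hz
  have hcc : ∀ c ∈ Com K n, ∀ d ∈ Com K n, c * d * w ∈ R := fun c hc d hd =>
    hER _ (hE ▸ Submodule.mem_sup_right (RelIv2_Com_mul le_rfl hwq hc hd))
  have hRl : ∀ (a : FA K n), ∀ z ∈ R, a * z ∈ R := by
    intro a z hz
    rw [hR] at hz ⊢
    obtain ⟨x, hx, y, hy, rfl⟩ := Submodule.mem_sup.mp hz
    rw [mul_add]
    refine add_mem (Submodule.mem_sup_left ?_) (Submodule.mem_sup_right (hid.left a y hy))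
    rw [mul_assoc] at hx ⊢
    refine Submodule.mul_induction_on hx (fun p _ r hr => ?_) (fun p r hp hr => ?_)
    · rw [← mul_assoc a p r]
      exact Submodule.mul_mem_mul Submodule.mem_top hr
    · rw [mul_add]
      exact add_mem hp hr
  have key : ∀ D : ℕ, ∀ μ : Fin n → ℕ, ∑ j, μ j = D → ∀ (a : FA K n) (s t : Fin n),
      a * (xx K s * xx K t - xx K t * xx K s) * sw K μ * w ∈ R := by
    intro D
    induction D using Nat.strong_induction_on with
    | _ D ih =>
      intro μ hμ a s t
      have hst : xx K s * xx K t - xx K t * xx K s ∈ Com K n := by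
        rw [N.Com_eq]
        exact Submodule.subset_span ⟨1, 1, s, t, by rw [one_mul, mul_one]⟩
      have hu : a * (xx K s * xx K t - xx K t * xx K s) ∈ Com K n := N.Com_left K a hst
      by_cases h : ∀ j, μ j < 4 * M + 1
      · rw [mul_assoc a, mul_assoc a]
        apply hRl
        rw [hR]
        refine Submodule.mem_sup_left (Submodule.mul_mem_mul ?_ (Submodule.mem_span_singleton_self w))
        rw [← one_mul ((xx K s * xx K t - xx K t * xx K s) * sw K μ)]
        exact Submodule.mul_mem_mul Submodule.mem_top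
          (Submodule.subset_span (StR1_gap _ s t μ h))
      · push Not at h
        obtain ⟨j, hj⟩ := h
        obtain ⟨μ', hμ'⟩ : ∃ μ', μ' = Function.update μ j (μ j - (4 * M + 1)) := ⟨_, rfl⟩
        have hμ'' : μ = Function.update μ' j (μ' j + (4 * M + 1)) := by
          rw [hμ', Function.update_self, Function.update_idem, Nat.sub_add_cancel hj,
            Function.update_eq_self]
        have hN : ∑ i, μ' i + (4 * M + 1) = D := by
          rw [← hμ, ← StR1_sum μ' j, ← hμ'']
        obtain ⟨u, hu'⟩ : ∃ u, u = a * (xx K s * xx K t - xx K t * xx K s) := ⟨_, rfl⟩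
        rw [← hu'] at hu ⊢
        -- replace by the power in front
        have e1 : u * sw K μ * w = u * (sw K μ - xx K j ^ (4 * M + 1) * sw K μ') * w +
            u * xx K j ^ (4 * M + 1) * (sw K μ' * w) := by
          noncomm_ring
        rw [e1]
        refine add_mem (hcc u hu _ ?_) ?_
        · have := StR1_sw (K := K) μ' j (4 * M + 1)
          rw [← hμ''] at this
          rw [← neg_sub]
          exact neg_mem this
        have h1 := hq₁ (sw K μ' * w) (RelIv2_left _ hw) u hu j
        rw [← hE, Finset.sum_range_succ'] at h1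
        have h2 := hER _ h1
        rw [pow_zero, pow_zero, Nat.choose_zero_right, Nat.cast_one, one_mul, one_smul, one_mul,
          Nat.sub_zero] at h2
        have h3 : ∑ l ∈ Finset.range (2 * M), ((-1 : K) ^ (l + 1) *
            ((2 * M).choose (l + 1) : K)) • (xx K j ^ (l + 1) * u *
              xx K j ^ (4 * M + 1 - (l + 1)) * (sw K μ' * w)) ∈ R := by
          refine Submodule.sum_mem _ fun l hl => Submodule.smul_mem _ _ ?_
          rw [Finset.mem_range] at hl
          have e2 : xx K j ^ (l + 1) * u * xx K j ^ (4 * M + 1 - (l + 1)) * (sw K μ' * w) =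
              xx K j ^ (l + 1) * (u * (xx K j ^ (4 * M + 1 - (l + 1)) * sw K μ' -
                sw K (Function.update μ' j (μ' j + (4 * M + 1 - (l + 1))))) * w +
              u * sw K (Function.update μ' j (μ' j + (4 * M + 1 - (l + 1)))) * w) := by
            noncomm_ring
          rw [e2]
          refine hRl _ _ (add_mem (hcc u hu _ (StR1_sw _ _ _)) ?_)
          rw [hu']
          refine ih (∑ i, μ' i + (4 * M + 1 - (l + 1))) (by omega) _ (StR1_sum _ _ _) a s t
        have h4 := sub_mem h2 h3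
        rwa [add_sub_cancel_left] at h4
  have key2 : ∀ b : FA K n, ∀ (a : FA K n) (s t : Fin n),
      a * (xx K s * xx K t - xx K t * xx K s) * b * w ∈ R := by
    intro b a s t
    have hst : xx K s * xx K t - xx K t * xx K s ∈ Com K n := by
      rw [N.Com_eq]
      exact Submodule.subset_span ⟨1, 1, s, t, by rw [one_mul, mul_one]⟩
    obtain ⟨b₁, hb₁, b₂, hb₂, rfl⟩ := Submodule.mem_sup.mp (top_le_sw (Submodule.mem_top (x := b)))
    rw [mul_add, add_mul]
    refine add_mem ?_ (hcc _ (N.Com_left K a hst) _ hb₂)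
    refine Submodule.span_induction (p := fun b _ =>
      a * (xx K s * xx K t - xx K t * xx K s) * b * w ∈ R) ?_ ?_ ?_ ?_ hb₁
    · rintro _ ⟨μ, rfl⟩
      exact key _ μ rfl a s t
    · rw [mul_zero, zero_mul]
      exact zero_mem _
    · intro x y _ _ hx hy
      rw [mul_add, add_mul]
      exact add_mem hx hy
    · intro c x _ hx
      rw [mul_smul_comm, smul_mul_assoc]
      exact Submodule.smul_mem _ _ hx
  intro c hc
  rw [N.Com_eq] at hc
  refine Submodule.span_induction (p := fun c _ => c * w ∈ R) ?_ ?_ ?_ ?_ hc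
  · rintro _ ⟨a, b, s, t, rfl⟩
    exact key2 b a s t
  · rw [zero_mul]
    exact zero_mem _
  · intro x y _ _ hx hy
    rw [add_mul]
    exact add_mem hx hy
  · intro c x _ hx
    rw [smul_mul_assoc]
    exact Submodule.smul_mem _ _ hx

end Pool.Agent.H.MP_f5ceca_al.S
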