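import Pool.Agent.H.MP_f5ceca_al.S.StR1

/-!
Steps: generation of the layer `C^i J C^q`. (Mirror image of `S/StL2`.)
-/

namespace Pool.Agent.H.MP_f5ceca_al.S

open MvPolynomial
open Pool.Agent.H.MP_f5ceca_al.N (FA xx Com Fil Aug)

universe u

variable {K : Type u} [Field K] {n : ℕ}

theorem StR2_gap_Com (B : ℕ) {g : FA K n} (hg : g ∈ gapset' K n B) : g ∈ Com K n := by
  classical
  unfold gapset' at hg
  rw [Finset.mem_image] at hg
  obtain ⟨p, -, rfl⟩ := hg
  refine N.Com_right K _ ?_
  rw [N.Com_eq]
  exact Submodule.subset_span ⟨1, 1, p.2.1, p.2.2, by rw [one_mul, mul_one]⟩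

theorem StR2_tsp (Y : Set (FA K n)) : tsp Y ≤ ⊤ * Submodule.span K Y * ⊤ := by
  unfold tsp
  rw [Submodule.span_le]
  rintro _ ⟨a, y, b, hy, rfl⟩
  exact Submodule.mul_mem_mul (Submodule.mul_mem_mul Submodule.mem_top
    (Submodule.subset_span hy)) Submodule.mem_top

theorem StR2_top_Fil (q : ℕ) : ⊤ * Fil K n q ≤ Fil K n q :=
  Submodule.mul_le.mpr fun a _ _ hz => N.Fil_left K q a hz

theorem StR2_top_Jd : ⊤ * Jd K n ≤ Jd K n :=
  Submodule.mul_le.mpr fun a _ z hz => Jd_id.left a z hz

/-- Mirror image of `layer_gen`. -/
theorem layer_gen' [CharZero K] {m M : ℕ} {T : Submodule K (FA K n)} (hT : Base m M T)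
    (hD : Deep2 K n)
    (hF : ∃ (q : ℕ) (ν : Finset (FA K n)), (ν : Set (FA K n)) ⊆ Jd K n ∧
      Jd K n * Fil K n q ≤ tsp (ν : Set (FA K n)) ⊔ Com K n * Jd K n) (i : ℕ) :
    ∃ V : Finset (FA K n), (V : Set (FA K n)) ⊆ (Fil K n i * Jd K n : Submodule K (FA K n)) ∧
      ∀ q', ∃ q, Fil K n i * Jd K n * Fil K n q ≤
        (⊤ * Submodule.span K (V : Set (FA K n)) * Fil K n q') ⊔
          (T ⊔ Fil K n (i + 1) * Jd K n * Fil K n q') := by
  classical
  induction i with
  | zero =>
    obtain ⟨q, ν, hν, h⟩ := hF
    refine ⟨ν, fun v hv => ?_, fun q' => ⟨q + q', ?_⟩⟩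
    · rw [SetLike.mem_coe, N.Fil_zero, ← one_mul v]
      exact Submodule.mul_mem_mul Submodule.mem_top (hν hv)
    · rw [← Fil_mul, ← mul_assoc, N.Fil_zero, zero_add, N.Fil_one]
      calc ⊤ * Jd K n * Fil K n q * Fil K n q'
          ≤ Jd K n * Fil K n q * Fil K n q' :=
            mul_le_mul' (mul_le_mul' StR2_top_Jd le_rfl) le_rfl
        _ ≤ (tsp (ν : Set (FA K n)) ⊔ Com K n * Jd K n) * Fil K n q' := mul_le_mul' h le_rfl
        _ = tsp (ν : Set (FA K n)) * Fil K n q' ⊔ Com K n * Jd K n * Fil K n q' :=
            Submodule.sup_mul _ _ _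
        _ ≤ _ := by
            refine sup_le_sup ?_ le_sup_right
            calc tsp (ν : Set (FA K n)) * Fil K n q'
                ≤ ⊤ * Submodule.span K (ν : Set (FA K n)) * ⊤ * Fil K n q' :=
                  mul_le_mul' (StR2_tsp _) le_rfl
              _ = ⊤ * Submodule.span K (ν : Set (FA K n)) * (⊤ * Fil K n q') := mul_assoc _ _ _
              _ ≤ _ := mul_le_mul' le_rfl (StR2_top_Fil q')
  | succ i ih =>
    obtain ⟨V, hV, h⟩ := ih
    refine ⟨(gapset' K n (4 * M + 1) ×ˢ V).image fun p => p.1 * p.2, ?_, fun q' => ?_⟩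
    · intro z hz
      rw [Finset.mem_coe, Finset.mem_image] at hz
      obtain ⟨⟨g, v⟩, hp, rfl⟩ := hz
      rw [Finset.mem_product] at hp
      rw [SetLike.mem_coe, add_comm i 1, ← Fil_mul, mul_assoc, N.Fil_one]
      exact Submodule.mul_mem_mul (StR2_gap_Com _ hp.1) (hV hp.2)
    · obtain ⟨q₁, hq₁⟩ := gapred' hT hD q' i
      obtain ⟨q, hq⟩ := h (q₁ + q')
      refine ⟨q, ?_⟩
      obtain ⟨E, hE⟩ : ∃ E, E = T ⊔ Fil K n (i + 1 + 1) * Jd K n * Fil K n q' := ⟨_, rfl⟩
      obtain ⟨R, hR⟩ : ∃ R, R = (⊤ * Submodule.span K
        (((gapset' K n (4 * M + 1) ×ˢ V).image fun p => p.1 * p.2 : Finset (FA K n)) :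
          Set (FA K n)) * Fil K n q') ⊔ E := ⟨_, rfl⟩
      rw [← hE, ← hR]
      have hER : E ≤ R := hR ▸ le_sup_right
      have h1 : Fil K n (i + 1) * Jd K n * Fil K n q =
          Com K n * (Fil K n i * Jd K n * Fil K n q) := by
        rw [add_comm i 1, ← Fil_mul, N.Fil_one]
        simp only [mul_assoc]
      rw [h1]
      refine (mul_le_mul' le_rfl hq).trans ?_
      rw [Submodule.mul_sup, Submodule.mul_sup]
      refine sup_le ?_ (sup_le ?_ ?_)
      · -- the main part
        refine Submodule.mul_le.mpr fun c hc z hz => ?_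
        refine Submodule.mul_induction_on hz (fun p hp y hy => ?_) (fun p r hp hr => ?_)
        · refine Submodule.mul_induction_on hp (fun t _ v hv => ?_) (fun p r hp hr => ?_)
          · refine Submodule.span_induction (p := fun v _ => c * (t * v * y) ∈ R) ?_ ?_ ?_ ?_ hv
            · intro v hv
              have hw : v * y ∈ Fil K n i * Jd K n * Fil K n q₁ :=
                Submodule.mul_mem_mul (hV hv)
                  (N.Fil_antitone K n (Nat.le_add_right _ _) hy)
              have h2 := hq₁ _ hw (c * t) (N.Com_right K t hc)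
              have e1 : c * (t * v * y) = c * t * (v * y) := by simp only [mul_assoc]
              rw [e1]
              refine (sup_le ?_ ?_ : _ ≤ R) h2
              · rw [hR]
                refine le_trans ?_ le_sup_left
                refine Submodule.mul_le.mpr fun a ha b hb => ?_
                obtain ⟨r, rfl⟩ := Submodule.mem_span_singleton.mp hb
                rw [mul_smul_comm]
                refine Submodule.smul_mem _ _ ?_
                refine Submodule.mul_induction_on ha (fun s _ g hg => ?_) (fun a b ha hb => ?_)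
                · have e2 : s * g * (v * y) = s * (g * v) * y := by simp only [mul_assoc]
                  rw [e2]
                  refine Submodule.mul_mem_mul (Submodule.mul_mem_mul Submodule.mem_top ?_)
                    (N.Fil_antitone K n (Nat.le_add_left _ _) hy)
                  refine Submodule.span_induction (p := fun g _ => g * v ∈ Submodule.span K
                    (((gapset' K n (4 * M + 1) ×ˢ V).image fun p => p.1 * p.2 :
                      Finset (FA K n)) : Set (FA K n))) ?_ ?_ ?_ ?_ hg
                  · intro g hg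
                    refine Submodule.subset_span ?_
                    rw [Finset.mem_coe, Finset.mem_image]
                    exact ⟨(g, v), Finset.mem_product.mpr ⟨hg, hv⟩, rfl⟩
                  · rw [zero_mul]
                    exact zero_mem _
                  · intro x y _ _ hx hy
                    rw [add_mul]
                    exact add_mem hx hy
                  · intro c x _ hx
                    rw [smul_mul_assoc]
                    exact Submodule.smul_mem _ _ hx
                · rw [add_mul]
                  exact add_mem ha hb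
              · exact hE ▸ hER
            · rw [mul_zero, zero_mul, mul_zero]
              exact zero_mem _
            · intro x z _ _ hx hz
              rw [mul_add, add_mul, mul_add]
              exact add_mem hx hz
            · intro r x _ hx
              rw [mul_smul_comm, smul_mul_assoc, mul_smul_comm]
              exact Submodule.smul_mem _ _ hx
          · rw [add_mul, mul_add]
            exact add_mem hp hr
        · rw [mul_add]
          exact add_mem hp hr
      · refine le_trans ?_ hER
        rw [hE]
        exact le_trans (Submodule.mul_le.mpr fun c _ z hz => hT.id.left c z hz) le_sup_left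
      · refine le_trans ?_ hER
        rw [hE]
        refine le_trans ?_ le_sup_right
        have h3 : Com K n * (Fil K n (i + 1) * Jd K n * Fil K n (q₁ + q')) =
            Fil K n (i + 1 + 1) * Jd K n * Fil K n (q₁ + q') := by
          rw [add_comm (i + 1) 1, ← Fil_mul 1 (i + 1), N.Fil_one]
          simp only [mul_assoc]
        rw [h3]
        exact mul_le_mul' le_rfl (N.Fil_antitone K n (Nat.le_add_left _ _))

end Pool.Agent.H.MP_f5ceca_al.S
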